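import Pool.Agent.H.MP_bb4c62_an.helper5.P10

/-!
General pairs of maps preserving quasinilpotent differences: definitions and basic facts.

`QN T`: `T` is quasinilpotent.  `A = ten x f` with `f x = 0` is a rank one nilpotent operator.
-/

namespace Pool.Agent.H.MP_bb4c62_an.helper86.PG

open Pool.Agent.H.MP_bb4c62_an.helper6.NL
open Pool.Agent.H.MP_bb4c62_an.helper6.Perturb
open Pool.Agent.H.MP_bb4c62_an.helper6.Gadgets
open Pool.Agent.H.MP_bb4c62_an.helper5.PL

variable {X : Type*} [NormedAddCommGroup X] [NormedSpace ℂ X]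

/-- quasinilpotent operators adjacent to the whole line spanned by `ten x f` -/
def LP (x : X) (f : X →L[ℂ] ℂ) (T : X →L[ℂ] X) : Prop := QN T ∧ ∀ n : ℕ, f ((T ^ n) x) = 0

theorem LP.qn_add [CompleteSpace X] {x : X} {f : X →L[ℂ] ℂ} {T : X →L[ℂ] X} (h : LP x f T)
    (t : ℂ) : QN (T + t • ten x f) := qn_add_smul_ten_of_orth h.1 h.2 t

theorem LP.qn_sub [CompleteSpace X] {x : X} {f : X →L[ℂ] ℂ} {T : X →L[ℂ] X} (h : LP x f T)
    (t : ℂ) : QN (T - t • ten x f) := by
  have := h.qn_add (-t)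
  rwa [neg_smul, ← sub_eq_add_neg] at this

theorem lp_of_qn_sub [CompleteSpace X] {x : X} {f : X →L[ℂ] ℂ} {T : X →L[ℂ] X}
    (h : ∀ t : ℂ, QN (T - t • ten x f)) : LP x f T := by
  have h0 : QN T := by
    have := h 0
    rwa [zero_smul, sub_zero] at this
  refine ⟨h0, pencil_one h0 fun t => ?_⟩
  have := h (-t)
  rwa [neg_smul, sub_neg_eq_add] at this

/-- operators killing `x` -/
theorem LP.of_kill {x : X} {f : X →L[ℂ] ℂ} (hfx : f x = 0) {T : X →L[ℂ] X} (hT : QN T)
    (hx : T x = 0) : LP x f T := by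
  refine ⟨hT, fun n => ?_⟩
  cases n with
  | zero => exact hfx
  | succ n =>
    rw [pow_succ]
    show f ((T ^ n) (T x)) = 0
    rw [hx, map_zero, map_zero]

/-- operators with range in the kernel of `f` -/
theorem LP.of_left {x : X} {f : X →L[ℂ] ℂ} (hfx : f x = 0) {T : X →L[ℂ] X} (hT : QN T)
    (h : ∀ v, f (T v) = 0) : LP x f T := by
  refine ⟨hT, fun n => ?_⟩
  cases n with
  | zero => exact hfx
  | succ n =>
    rw [pow_succ']
    exact h _

/-- operators with `f (T x) = 0` and `T (T x) = 0` -/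
theorem LP.of_two {x : X} {f : X →L[ℂ] ℂ} (hfx : f x = 0) {T : X →L[ℂ] X} (hT : QN T)
    (h1 : f (T x) = 0) (h2 : T (T x) = 0) : LP x f T := by
  refine ⟨hT, fun n => ?_⟩
  match n with
  | 0 => exact hfx
  | 1 => rw [pow_one]; exact h1
  | n + 2 =>
    have e : (T ^ (n + 2)) x = (T ^ n) (T (T x)) := by
      rw [pow_add, pow_two]; rfl
    rw [e, h2, map_zero, map_zero]

theorem lp_pow {x : X} {f : X →L[ℂ] ℂ} {T : X →L[ℂ] X} (h : ∀ n : ℕ, f ((T ^ n) x) = 0)
    (s t : ℂ) (n : ℕ) : ((s • T + t • ten x f) ^ n) x = s ^ n • (T ^ n) x := by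
  induction n with
  | zero => simp
  | succ n ih =>
    rw [pow_succ']
    show (s • T + t • ten x f) (((s • T + t • ten x f) ^ n) x) = _
    rw [ih, map_smul]
    show s ^ n • (s • T ((T ^ n) x) + t • (f ((T ^ n) x) • x)) = _
    rw [h n, zero_smul, smul_zero, add_zero, smul_smul, pow_succ, pow_succ']
    rfl

theorem LP.lin [CompleteSpace X] {x : X} {f : X →L[ℂ] ℂ} {T : X →L[ℂ] X} (h : LP x f T)
    (s t : ℂ) : LP x f (s • T + t • ten x f) := by
  refine ⟨?_, fun n => ?_⟩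
  · refine qn_add_smul_ten_of_orth (qn_smul h.1 s) (fun n => ?_) t
    rw [smul_pow]
    show f (s ^ n • (T ^ n) x) = 0
    rw [map_smul, h.2 n, smul_zero]
  · rw [lp_pow h.2, map_smul, h.2 n, smul_zero]

/-- The abstract situation: `l` is an infinite set of quasinilpotent operators, disjoint from the
line `ℂ A`, `A = ten x f`, and an operator which is adjacent to the line `ℂ A` and to one point of `l`
is adjacent to all points of `l`; moreover nilpotent `T` with `T + e A` adjacent to `l` are adjacent to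
`ℂ A`. -/
structure Par (x : X) (f : X →L[ℂ] ℂ) (l : Set (X →L[ℂ] X)) : Prop where
  inf : l.Infinite
  qn : ∀ V ∈ l, QN V
  off : ∀ V ∈ l, ∀ t : ℂ, V ≠ t • ten x f
  one : ∀ V ∈ l, ∀ V' ∈ l, ∀ T, LP x f T → QN (T - V) → QN (T - V')
  two : ∀ (T : X →L[ℂ] X) (n : ℕ) (e : ℂ), T ^ n = 0 →
    (∀ V ∈ l, QN (T + e • ten x f - V)) → ∀ t : ℂ, QN (T - t • ten x f)

/-- every operator adjacent to `ℂ A` and to `w` is adjacent to `w + ℂ A` -/
def Trans (x : X) (f : X →L[ℂ] ℂ) (w : X →L[ℂ] X) : Prop :=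
  ∀ T, LP x f T → QN (T - w) → ∀ n : ℕ, f (((w - T) ^ n) x) = 0

/-- the operators `x ⊗ θ + q ⊗ f`, described by the kernel of `f` -/
theorem exists_form_of_ker {x : X} {f : X →L[ℂ] ℂ} (hx : x ≠ 0) (hf : f ≠ 0) {w : X →L[ℂ] X}
    (h : ∀ z, f z = 0 → ∃ c : ℂ, w z = c • x) :
    ∃ (θ : X →L[ℂ] ℂ) (q : X), w = ten x θ + ten q f := form_of_range hx hf h

/-- quasinilpotent operators `x ⊗ θ + q ⊗ f` are tame -/
theorem tame_of_form {x q : X} {f θ : X →L[ℂ] ℂ} (hx : x ≠ 0) (hf : f ≠ 0) (hfx : f x = 0)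
    {V : X →L[ℂ] X} (hV : QN V) (h : V = ten x θ + ten q f) : Tame x f V := by
  have h1 : θ x = 0 := by
    by_contra hne
    refine not_qn_of_eigen hx hne ?_ hV
    rw [h]
    show θ x • x + f x • q = θ x • x
    rw [hfx, zero_smul, add_zero]
  have h2 : f q = 0 := by
    by_contra hne
    have hpow : ∀ n : ℕ, ∀ v, f ((V ^ n) v) = f q ^ n * f v := by
      intro n
      induction n with
      | zero => intro v; simp
      | succ n ih =>
        intro v
        rw [pow_succ']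
        show f (V ((V ^ n) v)) = _
        have e0 : ∀ u, V u = θ u • x + f u • q := fun u => by rw [h]; rfl
        have e : V ((V ^ n) v) = θ ((V ^ n) v) • x + f ((V ^ n) v) • q := e0 _
        rw [e, map_add, map_smul, map_smul, hfx, ih v]
        simp only [smul_eq_mul, mul_zero, zero_add]
        ring
    obtain ⟨z, hz⟩ := exists_ap hf
    obtain ⟨u, hu⟩ := (qn_iff V).mp hV (f q)⁻¹
    have e1 : ∀ v, f ((u : X →L[ℂ] X) v) = 0 := by
      intro v
      rw [hu]
      show f (v - (f q)⁻¹ • V v) = 0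
      have := hpow 1 v
      rw [pow_one, pow_one] at this
      rw [map_sub, map_smul, this, smul_eq_mul, ← mul_assoc, inv_mul_cancel₀ hne, one_mul, sub_self]
    have e2 : (u : X →L[ℂ] X) ((↑u⁻¹ : X →L[ℂ] X) z) = z := by
      have : ((u : X →L[ℂ] X) * (↑u⁻¹ : X →L[ℂ] X)) z = z := by rw [Units.mul_inv]; rfl
      exact this
    have := e1 ((↑u⁻¹ : X →L[ℂ] X) z)
    rw [e2, hz] at this
    exact one_ne_zero this
  exact ⟨θ, q, h, h1, h2⟩

/-- tame operators are nilpotent -/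
theorem Tame.pow {x : X} {f : X →L[ℂ] ℂ} (hfx : f x = 0) {V : X →L[ℂ] X} (h : Tame x f V) :
    V ^ 3 = 0 := by
  obtain ⟨θ, q, rfl, h1, h2⟩ := h
  have hv : ∀ v, (ten x θ + ten q f) v = θ v • x + f v • q := fun v => rfl
  ext v
  have e : ((ten x θ + ten q f) ^ 3) v =
      (ten x θ + ten q f) ((ten x θ + ten q f) ((ten x θ + ten q f) v)) := by
    rw [pow_succ, pow_two]; rfl
  rw [e, hv v, map_add, map_smul, map_smul, hv x, hv q, h1, h2, hfx]
  simp only [zero_smul, add_zero, smul_zero, zero_add, map_smul, hv x, h1, hfx]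
  rfl

theorem Tame.qn {x : X} {f : X →L[ℂ] ℂ} (hfx : f x = 0) {V : X →L[ℂ] X} (h : Tame x f V) :
    QN V := qn_of_pow (Tame.pow hfx h)

theorem Tame.sub {x : X} {f : X →L[ℂ] ℂ} {V W : X →L[ℂ] X} (h : Tame x f V) (h' : Tame x f W) :
    Tame x f (V - W) := by
  obtain ⟨θ, q, rfl, h1, h2⟩ := h
  obtain ⟨θ', q', rfl, h1', h2'⟩ := h'
  refine ⟨θ - θ', q - q', ?_, ?_, ?_⟩
  · ext v
    show θ v • x + f v • q - (θ' v • x + f v • q') = (θ v - θ' v) • x + f v • (q - q')
    rw [sub_smul, smul_sub]; abel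
  · show θ x - θ' x = 0
    rw [h1, h1', sub_zero]
  · rw [map_sub, h2, h2', sub_zero]

end Pool.Agent.H.MP_bb4c62_an.helper86.PG
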