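import Pool.Agent.H.MP_bb4c62_an.helper86.G0

/-!
Normal form of the operators tied to a non nilpotent quasinilpotent operator.
-/

namespace Pool.Agent.H.MP_bb4c62_an.helper86.PG

open Pool.Agent.H.MP_bb4c62_an.helper6.NL
open Pool.Agent.H.MP_bb4c62_an.helper6.Perturb
open Pool.Agent.H.MP_bb4c62_an.helper6.Gadgets
open Pool.Agent.H.MP_bb4c62_an.helper5.PL

variable {X : Type*} [NormedAddCommGroup X] [NormedSpace ℂ X]

/-- the test operators -/
theorem g1_test [CompleteSpace X] {w : X →L[ℂ] X} (hw : QN w) {y : X} {k : X →L[ℂ] ℂ}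
    (hky : k y = 0) (hkw : k (w y) = 0) (t : ℂ) :
    QN (w + t • (ten y (k.comp w) - ten (w y) k)) := by
  set L : X →L[ℂ] X := t • ten y k with hL
  have hLL : L * L = 0 := by
    rw [hL, smul_mul_smul_comm, ten_sq hky, smul_zero]
  obtain ⟨h1, h2, h3⟩ := conj_sq (w := w) hLL
  have hLwL : L * w * L = 0 := by
    rw [hL, smul_mul_assoc, ten_mul, smul_mul_smul_comm, mul_ten, ten_apply]
    show (t * t) • ten (k (w y) • y) k = 0
    rw [hkw, zero_smul]
    ext v; simp
  have hLw : L * w - w * L = t • (ten y (k.comp w) - ten (w y) k) := by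
    rw [hL, smul_mul_assoc, ten_mul, mul_smul_comm, mul_ten, smul_sub]
  have hconj : (1 + L) * w * (1 - L) = w + t • (ten y (k.comp w) - ten (w y) k) := by
    rw [h3, hLwL, sub_zero, hLw]
  rw [← hconj]; exact qn_conj hw h1 h2

/-- Normal form of the operators tied to a non nilpotent quasinilpotent operator. -/
theorem wild_form [CompleteSpace X] (hX : ¬ Module.Finite ℂ X) {x : X} {f : X →L[ℂ] ℂ}
    (hx : x ≠ 0) (hf : f ≠ 0) (hfx : f x = 0) {w V : X →L[ℂ] X} (hw : QN w)
    (hnil : ∀ n : ℕ, w ^ n ≠ 0) (hV : QN V)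
    (h : ∀ T, LP x f T → QN (T - w) → QN (T - V)) :
    ∃ (β : ℂ) (θ : X →L[ℂ] ℂ) (q : X), V = β • w + (ten x θ + ten q f) := by
  obtain ⟨b, c, θ, q, hD'⟩ := lld (w := w) (D := V) hx hf (exists_gen hw hnil f) (by
    intro y hfy hg
    apply mem_span_of_tests hV _ hfy hg
    intro y k hfy hkx hky hkw t
    have hT : QN ((-t) • (ten y (k.comp w) - ten (w y) k)) := qn_comm hky hkw (-t)
    have hv : ∀ v, ((-t) • (ten y (k.comp w) - ten (w y) k)) v =
        (-t) • (k (w v) • y - k v • w y) := fun v => rfl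
    have hTx : ((-t) • (ten y (k.comp w) - ten (w y) k)) x = (-t * k (w x)) • y := by
      rw [hv, hkx, zero_smul, sub_zero, smul_smul]
    have hTy : ((-t) • (ten y (k.comp w) - ten (w y) k)) y = 0 := by
      rw [hv, hky, hkw, zero_smul, zero_smul, sub_zero, smul_zero]
    have hLP : LP x f ((-t) • (ten y (k.comp w) - ten (w y) k)) := by
      refine LP.of_two hfx hT ?_ ?_
      · rw [hTx, map_smul, hfy, smul_zero]
      · rw [hTx, map_smul, hTy, smul_zero]
    have h1 := h _ hLP (by
      rw [qn_sub_comm]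
      have := g1_test hw hky hkw t
      have e : w - (-t) • (ten y (k.comp w) - ten (w y) k) =
          w + t • (ten y (k.comp w) - ten (w y) k) := by module
      rwa [e])
    rw [qn_sub_comm] at h1
    have e : V - (-t) • (ten y (k.comp w) - ten (w y) k) =
        V + t • (ten y (k.comp w) - ten (w y) k) := by module
    rwa [e] at h1)
  have hF : ten x θ + ten q f ∈ FRk X := (FRk X).add_mem (ten_mem_FRk _ _) (ten_mem_FRk _ _)
  have hb := nf_lemma hX hw hV hF hD'
  rw [hb, zero_smul, zero_add] at hD'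
  exact ⟨c, θ, q, hD'⟩

end Pool.Agent.H.MP_bb4c62_an.helper86.PG
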