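import Pool.Agent.H.MP_bb4c62_an.helper86.G5

/-!
Operators with the translation property kill x.
-/

namespace Pool.Agent.H.MP_bb4c62_an.helper86.PG

open Pool.Agent.H.MP_bb4c62_an.helper6.NL
open Pool.Agent.H.MP_bb4c62_an.helper6.Perturb
open Pool.Agent.H.MP_bb4c62_an.helper6.Gadgets
open Pool.Agent.H.MP_bb4c62_an.helper5.PL

variable {X : Type*} [NormedAddCommGroup X] [NormedSpace ℂ X]

/-- Proof. Suppose `w x ≠ 0`. `w x` is not a multiple of `x` (`nil_eigen`). `f ((w ^ j) x) = 0` for all `j` (`hlp`).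
(1) There is `y` with `f y = 1`, `f ((w ^ (j + 1)) y) = 0` for all `j` and `w x ∉ span {x, w y}`: take `y` from `exists_y0`; if
`w x = α • x + β • w y`, then `β ≠ 0`; replace `y` by `y - β⁻¹ • x`: then `w (y - β⁻¹ • x) = -(α / β) • x` and `span {x, w (y - β⁻¹ • x)} = span {x}`.
(2) Choose (`exists_ker`) `e` with `w e = 0`, `f e = 0`, `e ∉ span {x, w x, y, w y}` and replace `y` by `y + e` (same `w y`): now `w x ∉ span {x, y, w y}`.
(3) Choose (`exists_sep_sub`) `g` with `g (w x) = 1`, `g x = g y = g (w y) = 0`. `T = ten y g + ten (w y) f`. `T x = 0`; `T y = w y`,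
`T (w y) = 0` (`f (w y) = 0`), so `T ^ 3 = 0`: `LP x f T` (`LP.of_kill`). `QN (w - T)`: `w1 = w - ten (w y) f` is quasinilpotent
(`f ((w ^ j) (w y)) = 0`), `w1 y = 0`, so `g ((w1 ^ j) y) = 0` for all `j` and `w - T = w1 - ten y g` is quasinilpotent.
(4) `ht T` with `n = 2`: `(w - T) x = w x`, `(w - T) (w x) = w (w x) - y` (`g (w x) = 1`, `f (w x) = 0`), `f` of it is `0 - 1 ≠ 0`, contradiction. -/
theorem trans_wx [CompleteSpace X] (hX : ¬ Module.Finite ℂ X) {x : X} {f : X →L[ℂ] ℂ}
    (hx : x ≠ 0) (hf : f ≠ 0) (hfx : f x = 0) {w : X →L[ℂ] X} {n : ℕ} (hn : w ^ n = 0)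
    (hlp : LP x f w) (ht : Trans x f w) : w x = 0 := by
  classical
  by_contra hwx
  have hmul : ∀ c : ℂ, w x ≠ c • x := by
    intro c hc
    have h0 := nil_eigen hn hx hc
    rw [h0, zero_smul] at hc
    exact hwx hc
  have hf1 : f (w x) = 0 := by
    have := hlp.2 1
    rwa [pow_one] at this
  have hf2 : f (w (w x)) = 0 := by
    have := hlp.2 2
    rwa [pow_two] at this
  -- step 1
  obtain ⟨y, hy1, hy2, hy3⟩ : ∃ y : X, f y = 1 ∧ (∀ k : ℕ, f ((w ^ (k + 1)) y) = 0) ∧
      w x ∉ Submodule.span ℂ {x, w y} := by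
    obtain ⟨y0, h1, h2⟩ := exists_y0 hf hn
    by_cases h3 : w x ∈ Submodule.span ℂ {x, w y0}
    · obtain ⟨α, β, hαβ⟩ := Submodule.mem_span_pair.mp h3
      have hβ : β ≠ 0 := by
        intro h0
        rw [h0, zero_smul, add_zero] at hαβ
        exact hmul α hαβ.symm
      refine ⟨y0 - β⁻¹ • x, ?_, ?_, ?_⟩
      · rw [map_sub, map_smul, hfx, smul_zero, sub_zero, h1]
      · intro k
        rw [map_sub, map_smul, map_sub, map_smul, h2 k, hlp.2 (k + 1), smul_zero, sub_zero]
      · have hwy : w (y0 - β⁻¹ • x) = (-(β⁻¹ * α)) • x := by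
          have e1 : w (y0 - β⁻¹ • x) = w y0 - β⁻¹ • w x := by rw [map_sub, map_smul]
          rw [e1, ← hαβ, smul_add, smul_smul, smul_smul, inv_mul_cancel₀ hβ, one_smul, neg_smul]
          abel
        intro h4
        obtain ⟨a, b, hab⟩ := Submodule.mem_span_pair.mp h4
        rw [hwy, smul_smul, ← add_smul] at hab
        exact hmul _ hab.symm
    · exact ⟨y0, h1, h2, h3⟩
  -- step 2
  obtain ⟨e, he1, he2, -, he4⟩ := exists_ker hX hn f f
    (Z := Submodule.span ℂ ({x, w x, y, w y} : Set X))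
    (Submodule.fg_span (Set.toFinite _))
  have hZx : x ∈ Submodule.span ℂ ({x, w x, y, w y} : Set X) := Submodule.subset_span (by simp)
  have hZwx : w x ∈ Submodule.span ℂ ({x, w x, y, w y} : Set X) := Submodule.subset_span (by simp)
  have hZy : y ∈ Submodule.span ℂ ({x, w x, y, w y} : Set X) := Submodule.subset_span (by simp)
  have hZwy : w y ∈ Submodule.span ℂ ({x, w x, y, w y} : Set X) := Submodule.subset_span (by simp)
  set y' : X := y + e with hy'
  have hwy' : w y' = w y := by rw [hy', map_add, he1, add_zero]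
  have hfy' : f y' = 1 := by rw [hy', map_add, he2, add_zero, hy1]
  have hfo : ∀ k : ℕ, f ((w ^ k) (w y')) = 0 := by
    intro k
    have := hy2 k
    rw [pow_succ] at this
    rw [hwy']
    exact this
  have hsep : w x ∉ Submodule.span ℂ ({x, y', w y'} : Set X) := by
    intro h
    rw [Submodule.mem_span_insert] at h
    obtain ⟨a, z, hz, h⟩ := h
    obtain ⟨b, c, hbc⟩ := Submodule.mem_span_pair.mp hz
    rw [← hbc, hwy', hy'] at h
    by_cases hb : b = 0
    · rw [hb, zero_smul, zero_add] at h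
      exact hy3 (Submodule.mem_span_pair.mpr ⟨a, c, h.symm⟩)
    · apply he4
      have h5 : e = b⁻¹ • (w x - a • x - b • y - c • w y) := by
        rw [h, smul_add]
        have : a • x + (b • y + b • e + c • w y) - a • x - b • y - c • w y = b • e := by abel
        rw [this, smul_smul, inv_mul_cancel₀ hb, one_smul]
      rw [h5]
      exact Submodule.smul_mem _ _ (Submodule.sub_mem _ (Submodule.sub_mem _ (Submodule.sub_mem _
        hZwx (Submodule.smul_mem _ _ hZx)) (Submodule.smul_mem _ _ hZy))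
        (Submodule.smul_mem _ _ hZwy))
  -- step 3
  obtain ⟨g, hg, hg1⟩ := exists_sep_sub (M := Submodule.span ℂ ({x, y', w y'} : Set X))
    (Submodule.fg_span (Set.toFinite _)) hsep
  have hgx : g x = 0 := hg _ (Submodule.subset_span (by simp))
  have hgy : g y' = 0 := hg _ (Submodule.subset_span (by simp))
  have hgwy : g (w y') = 0 := hg _ (Submodule.subset_span (by simp))
  have hfwy : f (w y') = 0 := by
    have := hfo 0
    rwa [pow_zero] at this
  set T : X →L[ℂ] X := ten y' g + ten (w y') f with hT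
  have hTv : ∀ v, T v = g v • y' + f v • w y' := fun v => rfl
  have hTx : T x = 0 := by rw [hTv, hgx, hfx, zero_smul, zero_smul, add_zero]
  have hTy : T y' = w y' := by rw [hTv, hgy, hfy', zero_smul, one_smul, zero_add]
  have hTwy : T (w y') = 0 := by rw [hTv, hgwy, hfwy, zero_smul, zero_smul, add_zero]
  have hT3 : T ^ 3 = 0 := by
    ext v
    have e1 : (T ^ 3) v = T (T (T v)) := by
      rw [pow_succ, pow_two]; rfl
    rw [e1, hTv v, map_add, map_smul, map_smul, hTy, hTwy, smul_zero, add_zero, map_smul, hTwy,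
      smul_zero]
    rfl
  have hTlp : LP x f T := LP.of_kill hfx (qn_of_pow hT3) hTx
  have hqn : QN (T - w) := by
    rw [qn_sub_comm]
    have h1 : QN (w + (-1 : ℂ) • ten (w y') f) := qn_add_smul_ten_of_orth hlp.1 hfo (-1)
    set w1 : X →L[ℂ] X := w + (-1 : ℂ) • ten (w y') f with hw1
    have hw1y : w1 y' = 0 := by
      show w y' + (-1 : ℂ) • (f y' • w y') = 0
      rw [hfy', one_smul, neg_one_smul, add_neg_cancel]
    have h2 : ∀ k : ℕ, g ((w1 ^ k) y') = 0 := by
      intro k
      cases k with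
      | zero => exact hgy
      | succ k =>
        rw [pow_succ]
        show g ((w1 ^ k) (w1 y')) = 0
        rw [hw1y, map_zero, map_zero]
    have h3 : QN (w1 + (-1 : ℂ) • ten y' g) := qn_add_smul_ten_of_orth h1 h2 (-1)
    have h4 : w - T = w1 + (-1 : ℂ) • ten y' g := by
      rw [hT, hw1, neg_one_smul, neg_one_smul]
      abel
    rw [h4]
    exact h3
  -- step 4
  have h5 := ht T hTlp hqn 2
  have h6 : ((w - T) ^ 2) x = w (w x) - y' := by
    rw [pow_two]
    show (w - T) ((w - T) x) = _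
    have e1 : (w - T) x = w x := by
      show w x - T x = w x
      rw [hTx, sub_zero]
    rw [e1]
    show w (w x) - T (w x) = _
    rw [hTv, hg1, hf1, one_smul, zero_smul, add_zero]
  rw [h6, map_sub, hf2, hfy', zero_sub] at h5
  exact one_ne_zero (neg_eq_zero.mp h5)

end Pool.Agent.H.MP_bb4c62_an.helper86.PG
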