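import Pool.Agent.H.MP_bb4c62_an.helper86.G7

/-!
Operators with the translation property have range in the kernel of f.
-/

namespace Pool.Agent.H.MP_bb4c62_an.helper86.PG

open Pool.Agent.H.MP_bb4c62_an.helper6.NL
open Pool.Agent.H.MP_bb4c62_an.helper6.Perturb
open Pool.Agent.H.MP_bb4c62_an.helper6.Gadgets
open Pool.Agent.H.MP_bb4c62_an.helper5.PL

variable {X : Type*} [NormedAddCommGroup X] [NormedSpace ℂ X]

/-- Test operators `ten z k + ten e (k.comp w)` with `f z = 0` and `f (w z) ≠ 0`. -/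
theorem trans_fw [CompleteSpace X] (hX : ¬ Module.Finite ℂ X) {x : X} {f : X →L[ℂ] ℂ}
    (hx : x ≠ 0) (hf : f ≠ 0) (hfx : f x = 0) {w : X →L[ℂ] X} {n : ℕ} (hn : w ^ n = 0)
    (hwx : w x = 0) (ht : Trans x f w) (v : X) : f (w v) = 0 := by
  by_contra hv
  obtain ⟨y, hy, hy'⟩ := exists_y0 hf hn
  have hwy : f (w y) = 0 := by
    have := hy' 0
    rwa [zero_add, pow_one] at this
  obtain ⟨z2, hz2, hwz2⟩ : ∃ z2 : X, f z2 = 0 ∧ f (w z2) ≠ 0 := by
    refine ⟨v - f v • y, ?_, ?_⟩
    · rw [map_sub, map_smul, hy, smul_eq_mul, mul_one, sub_self]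
    · rw [map_sub, map_smul, map_sub, map_smul, hwy, smul_zero, sub_zero]
      exact hv
  obtain ⟨e', hwe', hfe', -, he'⟩ := exists_ker hX hn f 0
    (Z := Submodule.span ℂ {x, z2, w z2}) (Submodule.fg_span (Set.toFinite _))
  have hx' : x ∈ Submodule.span ℂ {x, z2, w z2} := Submodule.subset_span (by simp)
  have hz2' : z2 ∈ Submodule.span ℂ {x, z2, w z2} := Submodule.subset_span (by simp)
  set z : X := z2 + e' with hz
  have hfz : f z = 0 := by rw [hz, map_add, hz2, hfe', add_zero]
  have hwz : w z = w z2 := by rw [hz, map_add, hwe', add_zero]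
  have hfwz : f (w z) ≠ 0 := by rw [hwz]; exact hwz2
  have hxz : x ∉ Submodule.span ℂ {z, w z} := by
    intro h
    obtain ⟨a, b, hab⟩ := Submodule.mem_span_pair.mp h
    have h1 : b * f (w z) = 0 := by
      have := congrArg f hab
      rw [map_add, map_smul, map_smul, hfz, hfx, smul_zero, zero_add, smul_eq_mul] at this
      exact this
    have hb : b = 0 := (mul_eq_zero.mp h1).resolve_right hfwz
    rw [hb, zero_smul, add_zero] at hab
    have ha : a ≠ 0 := by
      rintro rfl
      rw [zero_smul] at hab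
      exact hx hab.symm
    apply he'
    have h2 : e' = a⁻¹ • x - z2 := by
      rw [← hab, smul_smul, inv_mul_cancel₀ ha, one_smul, hz]
      abel
    rw [h2]
    exact Submodule.sub_mem _ (Submodule.smul_mem _ _ hx') hz2'
  obtain ⟨e, hwe, hfe, -, he⟩ := exists_ker hX hn f 0
    (Z := Submodule.span ℂ {z, w z} ⊔ Submodule.span ℂ {x})
    (Submodule.FG.sup (Submodule.fg_span (Set.toFinite _)) (Submodule.fg_span (Set.toFinite _)))
  have hxe : x ∉ Submodule.span ℂ {z, w z} ⊔ Submodule.span ℂ {e} := by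
    intro h
    obtain ⟨m, hm, u, hu, hmu⟩ := Submodule.mem_sup.mp h
    obtain ⟨c, rfl⟩ := Submodule.mem_span_singleton.mp hu
    rcases eq_or_ne c 0 with rfl | hc
    · rw [zero_smul, add_zero] at hmu
      exact hxz (hmu ▸ hm)
    · apply he
      have h2 : e = c⁻¹ • (x - m) := by
        rw [← hmu, add_sub_cancel_left, smul_smul, inv_mul_cancel₀ hc, one_smul]
      rw [h2]
      exact Submodule.smul_mem _ _ (Submodule.sub_mem _
        (Submodule.mem_sup_right (Submodule.mem_span_singleton_self x))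
        (Submodule.mem_sup_left hm))
  obtain ⟨k, hkM, hkx, hke⟩ := exists_sep_two
    (Submodule.fg_span (R := ℂ) (Set.toFinite ({z, w z} : Set X))) hxe he
  have hkz : k z = 0 := hkM z (Submodule.subset_span (by simp))
  have hkw : k (w z) = 0 := hkM (w z) (Submodule.subset_span (by simp))
  obtain ⟨hA, hB⟩ := testA hfx hn hfz hfe hwe hke hkz hkw 1
  have h2 := ht _ hA hB 2
  have e0 : ∀ u : X, (w - ((1 : ℂ) • ten z k + ten e (k.comp w))) u =
      w u - (k u • z + k (w u) • e) := by
    intro u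
    show w u - ((1 : ℂ) • (k u • z) + k (w u) • e) = _
    rw [one_smul]
  have e1 : (w - ((1 : ℂ) • ten z k + ten e (k.comp w))) x = -z := by
    rw [e0, hwx, hkx, map_zero, one_smul, zero_smul, add_zero, zero_sub]
  have e2 : (w - ((1 : ℂ) • ten z k + ten e (k.comp w))) (-z) = -(w z) := by
    rw [e0, map_neg, map_neg, map_neg, hkz, hkw, neg_zero, zero_smul, zero_smul, add_zero,
      sub_zero]
  rw [pow_two] at h2
  have h3 : f ((w - ((1 : ℂ) • ten z k + ten e (k.comp w)))
      ((w - ((1 : ℂ) • ten z k + ten e (k.comp w))) x)) = 0 := h2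
  rw [e1, e2, map_neg, neg_eq_zero] at h3
  exact hfwz h3

end Pool.Agent.H.MP_bb4c62_an.helper86.PG
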