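import Pool.Agent.H.MP_bb4c62_an.helper86.G5

/-!
Operators with the translation property: the last test.
-/

namespace Pool.Agent.H.MP_bb4c62_an.helper86.PG

open Pool.Agent.H.MP_bb4c62_an.helper6.NL
open Pool.Agent.H.MP_bb4c62_an.helper6.Perturb
open Pool.Agent.H.MP_bb4c62_an.helper6.Gadgets
open Pool.Agent.H.MP_bb4c62_an.helper5.PL

variable {X : Type*} [NormedAddCommGroup X] [NormedSpace ℂ X]

theorem g12_zero {Z : Submodule ℂ X} {e u : X} (he : e ∉ Z) {a : ℂ} (h : a • e = u)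
    (hu : u ∈ Z) : a = 0 := by
  by_contra ha
  apply he
  have h1 := Z.smul_mem a⁻¹ hu
  rwa [← h, smul_smul, inv_mul_cancel₀ ha, one_smul] at h1

/-- The test for special vectors. -/
theorem g12_test [CompleteSpace X] {x : X} {f : X →L[ℂ] ℂ}
    (hfx : f x = 0) {w : X →L[ℂ] X} {n : ℕ} (hn : w ^ n = 0)
    (hwx : w x = 0) (hfw : ∀ v, f (w v) = 0) (ht : Trans x f w) {z y0 : X} (hfz : f z = 0)
    (hfy : f y0 = 1) {η : ℂ} (hwwz : w (w z) = η • x)
    {g1 g2 : X →L[ℂ] ℂ} (g1x : g1 x = 1) (g1z : g1 z = 0) (g1wz : g1 (w z) = 0)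
    (g1y : g1 y0 = 0) (g2wz : g2 (w z) = 1) (g2x : g2 x = 0) (g2z : g2 z = 0)
    (g2y : g2 y0 = 0) (g2wy : g2 (w y0) = 0) : False := by
  set T : X →L[ℂ] X := ten z g1 + ten (y0 + η • x) g2 + ten (w y0) f with hT
  have Tv : ∀ v, T v = g1 v • z + g2 v • (y0 + η • x) + f v • w y0 := fun v => rfl
  have Tz : T z = 0 := by
    rw [Tv, g1z, g2z, hfz, zero_smul, zero_smul, zero_smul, add_zero, add_zero]
  have Tx : T x = z := by
    rw [Tv, g1x, g2x, hfx, one_smul, zero_smul, zero_smul, add_zero, add_zero]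
  have Ty : T y0 = w y0 := by
    rw [Tv, g1y, g2y, hfy, one_smul, zero_smul, zero_smul, zero_add, zero_add]
  have Twy : T (w y0) = g1 (w y0) • z := by
    rw [Tv, g2wy, hfw, zero_smul, zero_smul, add_zero, add_zero]
  have Tyx : T (y0 + η • x) = w y0 + η • z := by
    rw [map_add, map_smul, Ty, Tx]
  have Twz : T (w z) = y0 + η • x := by
    rw [Tv, g1wz, g2wz, hfw, zero_smul, zero_smul, one_smul, zero_add, add_zero]
  have T4 : T ^ 4 = 0 := by
    ext v
    have e1 : (T ^ 4) v = T (T (T (T v))) := by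
      rw [pow_succ, pow_succ, pow_two]; rfl
    rw [e1, Tv v]
    simp only [map_add, map_smul, Tz, Tyx, Twy, smul_zero, add_zero, zero_add]
    rfl
  have hLP : LP x f T := by
    refine LP.of_two hfx (qn_of_pow T4) ?_ ?_
    · rw [Tx, hfz]
    · rw [Tx, Tz]
  -- the perturbations
  have hw : QN w := qn_of_pow hn
  have h1 : QN (w + (-1 : ℂ) • ten (w y0) f) := by
    refine qn_add_smul_ten_of_orth hw (fun j => ?_) _
    cases j with
    | zero => exact hfw _
    | succ j =>
      rw [pow_succ']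
      exact hfw _
  set w1 : X →L[ℂ] X := w + (-1 : ℂ) • ten (w y0) f with hw1
  have w1v : ∀ v, w1 v = w v + (-1 : ℂ) • (f v • w y0) := fun v => rfl
  have w1x : w1 x = 0 := by rw [w1v, hwx, hfx, zero_smul, smul_zero, add_zero]
  have w1y : w1 y0 = 0 := by rw [w1v, hfy, one_smul, neg_one_smul, add_neg_cancel]
  have w1z : w1 z = w z := by rw [w1v, hfz, zero_smul, smul_zero, add_zero]
  have w1wz : w1 (w z) = η • x := by rw [w1v, hfw, zero_smul, smul_zero, add_zero, hwwz]
  have kill : ∀ (S : X →L[ℂ] X) (g : X →L[ℂ] ℂ) (v : X), g v = 0 → S v = 0 →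
      ∀ j : ℕ, g ((S ^ j) v) = 0 := by
    intro S g v hg hS j
    cases j with
    | zero => exact hg
    | succ j =>
      rw [pow_succ]
      show g ((S ^ j) (S v)) = 0
      rw [hS, map_zero, map_zero]
  have h2 : QN (w1 + (-η) • ten x g2) :=
    qn_add_smul_ten_of_orth h1 (kill w1 g2 x g2x w1x) _
  set w2 : X →L[ℂ] X := w1 + (-η) • ten x g2 with hw2
  have w2v : ∀ v, w2 v = w1 v + (-η) • (g2 v • x) := fun v => rfl
  have w2y : w2 y0 = 0 := by rw [w2v, w1y, g2y, zero_smul, smul_zero, add_zero]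
  have w2z : w2 z = w z := by rw [w2v, w1z, g2z, zero_smul, smul_zero, add_zero]
  have w2wz : w2 (w z) = 0 := by
    rw [w2v, w1wz, g2wz, one_smul, neg_smul, add_neg_cancel]
  have h3 : QN (w2 + (-1 : ℂ) • ten z g1) := by
    refine qn_add_smul_ten_of_orth h2 (fun j => ?_) _
    cases j with
    | zero => exact g1z
    | succ j =>
      rw [pow_succ]
      show g1 ((w2 ^ j) (w2 z)) = 0
      rw [w2z]
      exact kill w2 g1 (w z) g1wz w2wz j
  set w3 : X →L[ℂ] X := w2 + (-1 : ℂ) • ten z g1 with hw3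
  have w3v : ∀ v, w3 v = w2 v + (-1 : ℂ) • (g1 v • z) := fun v => rfl
  have w3y : w3 y0 = 0 := by rw [w3v, w2y, g1y, zero_smul, smul_zero, add_zero]
  have h4 : QN (w3 + (-1 : ℂ) • ten y0 g2) :=
    qn_add_smul_ten_of_orth h3 (kill w3 g2 y0 g2y w3y) _
  have e : w - T = w3 + (-1 : ℂ) • ten y0 g2 := by
    ext v
    show w v - T v = w3 v + (-1 : ℂ) • (g2 v • y0)
    rw [w3v, w2v, w1v, Tv, smul_add]
    module
  have hQ : QN (w - T) := by rw [e]; exact h4
  have h5 := ht T hLP (qn_sub_comm.1 hQ) 3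
  have e2 : ((w - T) ^ 3) x = y0 := by
    have e1 : ((w - T) ^ 3) x = (w - T) ((w - T) ((w - T) x)) := by
      rw [pow_succ, pow_two]; rfl
    have d : ∀ v, (w - T) v = w v - T v := fun v => rfl
    rw [e1, d x, hwx, Tx, zero_sub, map_neg, d z, Tz, sub_zero, map_neg, d (w z), hwwz, Twz]
    module
  rw [e2, hfy] at h5
  exact one_ne_zero h5

/-- An explicit test operator. -/
theorem trans_test [CompleteSpace X] (hX : ¬ Module.Finite ℂ X) {x : X} {f : X →L[ℂ] ℂ}
    (hx : x ≠ 0) (hfx : f x = 0) {w : X →L[ℂ] X} {n : ℕ} (hn : w ^ n = 0)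
    (hwx : w x = 0) (hfw : ∀ v, f (w v) = 0) (ht : Trans x f w) {z y0 : X} (hfz : f z = 0)
    (hfy : f y0 = 1) {η : ℂ} (hwwz : w (w z) = η • x)
    (hz : w z ∉ Submodule.span ℂ ({x, w y0} : Set X)) : False := by
  set Z := Submodule.span ℂ ({x, z, w z, y0, w y0} : Set X) with hZ
  obtain ⟨e, hwe, hfe, -, heZ⟩ := exists_ker hX hn f f
    (Z := Z) (Submodule.fg_span (Set.toFinite _))
  have mx : x ∈ Z := Submodule.subset_span (by simp)
  have mz : z ∈ Z := Submodule.subset_span (by simp)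
  have mwz : w z ∈ Z := Submodule.subset_span (by simp)
  have mwy : w y0 ∈ Z := Submodule.subset_span (by simp)
  have hwz' : w (z + e) = w z := by rw [map_add, hwe, add_zero]
  have hfz' : f (z + e) = 0 := by rw [map_add, hfz, hfe, add_zero]
  -- the first functional
  have n1 : x ∉ Submodule.span ℂ ({z + e, w z, y0} : Set X) := by
    intro h
    obtain ⟨a, b, c, h⟩ := Submodule.mem_span_triple.1 h
    have hc : c = 0 := by
      have h1 := congrArg f h
      rw [map_add, map_add, map_smul, map_smul, map_smul, hfz', hfw, hfy, hfx] at h1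
      simpa using h1
    rw [hc, zero_smul, add_zero] at h
    have ha : a = 0 := by
      refine g12_zero (u := x - a • z - b • w z) heZ ?_
        (Z.sub_mem (Z.sub_mem mx (Z.smul_mem _ mz)) (Z.smul_mem _ mwz))
      rw [← h, smul_add]
      abel
    rw [ha, zero_smul, zero_add] at h
    have hb : b ≠ 0 := by
      rintro rfl
      rw [zero_smul] at h
      exact hx h.symm
    apply hz
    have h2 : w z = b⁻¹ • x := by rw [← h, smul_smul, inv_mul_cancel₀ hb, one_smul]
    rw [h2]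
    exact Submodule.smul_mem _ _ (Submodule.subset_span (by simp))
  obtain ⟨g1, hg1, g1x⟩ := exists_sep_sub (Submodule.fg_span (Set.toFinite _)) n1
  have n2 : w z ∉ Submodule.span ℂ ({x, z + e, y0, w y0} : Set X) := by
    intro h
    rw [Submodule.mem_span_insert] at h
    obtain ⟨a, u, hu, h⟩ := h
    obtain ⟨b, c, d, hu⟩ := Submodule.mem_span_triple.1 hu
    rw [← hu] at h
    have hc : c = 0 := by
      have h1 := congrArg f h
      rw [map_add, map_add, map_add, map_smul, map_smul, map_smul, map_smul, hfz', hfw, hfw,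
        hfy, hfx] at h1
      simpa using h1.symm
    rw [hc, zero_smul, add_zero] at h
    have hb : b = 0 := by
      refine g12_zero (u := w z - a • x - b • z - d • w y0) heZ ?_
        (Z.sub_mem (Z.sub_mem (Z.sub_mem mwz (Z.smul_mem _ mx)) (Z.smul_mem _ mz))
          (Z.smul_mem _ mwy))
      rw [h, smul_add]
      abel
    rw [hb, zero_smul, zero_add] at h
    apply hz
    rw [h]
    exact Submodule.add_mem _ (Submodule.smul_mem _ _ (Submodule.subset_span (by simp)))
      (Submodule.smul_mem _ _ (Submodule.subset_span (by simp)))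
  obtain ⟨g2, hg2, g2wz⟩ := exists_sep_sub (Submodule.fg_span (Set.toFinite _)) n2
  refine g12_test (z := z + e) (y0 := y0) (η := η) (g1 := g1) (g2 := g2) hfx hn hwx hfw ht hfz'
    hfy ?_ g1x ?_ ?_ ?_ ?_ ?_ ?_ ?_ ?_
  · rw [hwz', hwwz]
  · exact hg1 _ (Submodule.subset_span (by simp))
  · rw [hwz']
    exact hg1 _ (Submodule.subset_span (by simp))
  · exact hg1 _ (Submodule.subset_span (by simp))
  · rw [hwz']
    exact g2wz
  · exact hg2 _ (Submodule.subset_span (by simp))
  · exact hg2 _ (Submodule.subset_span (by simp))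
  · exact hg2 _ (Submodule.subset_span (by simp))
  · exact hg2 _ (Submodule.subset_span (by simp))

/-- Minimality argument: reduction to the test. -/
theorem trans_false [CompleteSpace X] (hX : ¬ Module.Finite ℂ X) {x : X} {f : X →L[ℂ] ℂ}
    (hx : x ≠ 0) (hf : f ≠ 0) (hfx : f x = 0) {w : X →L[ℂ] X} {n : ℕ} (hn : w ^ n = 0)
    (hwx : w x = 0) (hfw : ∀ v, f (w v) = 0) (ht : Trans x f w) {z0 : X} (hfz : f z0 = 0)
    (hwz : ∀ c : ℂ, w z0 ≠ c • x) : False := by
  classical
  have hex : ∃ r : ℕ, ∃ z : X, f z = 0 ∧ (∀ c : ℂ, w z ≠ c • x) ∧ (w ^ r) z = 0 :=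
    ⟨n, z0, hfz, hwz, by rw [hn]; rfl⟩
  obtain ⟨z, hz1, hz2, hz3⟩ := Nat.find_spec hex
  have hr : Nat.find hex ≠ 0 := by
    intro h0
    rw [h0] at hz3
    have hz0 : z = 0 := hz3
    refine hz2 0 ?_
    rw [hz0, map_zero, zero_smul]
  obtain ⟨r, hr'⟩ := Nat.exists_eq_succ_of_ne_zero hr
  have hη : ∃ η : ℂ, w (w z) = η • x := by
    by_contra hcon
    have hcon' : ∀ c : ℂ, w (w z) ≠ c • x := fun c hc => hcon ⟨c, hc⟩
    have h1 : Nat.find hex ≤ r := by
      refine Nat.find_min' hex ⟨w z, hfw z, hcon', ?_⟩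
      rw [hr', pow_succ] at hz3
      exact hz3
    omega
  obtain ⟨η, hη⟩ := hη
  obtain ⟨y0, hy0⟩ := exists_ap hf
  by_cases hmem : w z ∈ Submodule.span ℂ ({x, w y0} : Set X)
  · obtain ⟨α, δ, h⟩ := Submodule.mem_span_pair.1 hmem
    have hδ : δ ≠ 0 := by
      rintro rfl
      rw [zero_smul, add_zero] at h
      exact hz2 α h.symm
    have hwy' : w (y0 - δ⁻¹ • z) = (-(δ⁻¹ * α)) • x := by
      rw [map_sub, map_smul, ← h, smul_add, smul_smul, smul_smul, inv_mul_cancel₀ hδ, one_smul,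
        neg_smul]
      abel
    refine trans_test hX hx hfx hn hwx hfw ht hz1 (y0 := y0 - δ⁻¹ • z) ?_ hη ?_
    · rw [map_sub, map_smul, hz1, smul_zero, sub_zero, hy0]
    · intro hmem'
      rw [hwy'] at hmem'
      obtain ⟨a, b, h'⟩ := Submodule.mem_span_pair.1 hmem'
      refine hz2 (a + b * (-(δ⁻¹ * α))) ?_
      rw [← h', smul_smul, ← add_smul]
  · exact trans_test hX hx hfx hn hwx hfw ht hz1 hy0 hη hmem

end Pool.Agent.H.MP_bb4c62_an.helper86.PG
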