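import Pool.Agent.H.MP_bb4c62_an.helper86.G5

/-!
Parallel sets on an affine line.
-/

namespace Pool.Agent.H.MP_bb4c62_an.helper86.PG

open Pool.Agent.H.MP_bb4c62_an.helper6.NL
open Pool.Agent.H.MP_bb4c62_an.helper6.Perturb
open Pool.Agent.H.MP_bb4c62_an.helper6.Gadgets
open Pool.Agent.H.MP_bb4c62_an.helper5.PL

variable {X : Type*} [NormedAddCommGroup X] [NormedSpace ℂ X]

/-- moving `y` by an element of the kernel so that `x` is not in the span of `y`, `v y` -/
theorem g13_move (hX : ¬ Module.Finite ℂ X) {x : X} {f : X →L[ℂ] ℂ}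
    (hx : x ≠ 0) {w v : X →L[ℂ] X} {n : ℕ} (hn : w ^ n = 0)
    (hv : ∀ e, w e = 0 → f e = 0 → v e = 0) {y1 : X} (hfy : f y1 ≠ 0)
    (hvy : ∀ c : ℂ, v y1 ≠ c • x) :
    ∃ y : X, f y ≠ 0 ∧ v y = v y1 ∧ x ∉ Submodule.span ℂ ({y, v y} : Set X) := by
  obtain ⟨e, hwe, hfe, -, heZ⟩ := exists_ker hX hn f f
    (Z := Submodule.span ℂ ({x, y1, v y1} : Set X)) (Submodule.fg_span (Set.toFinite _))
  have hve := hv e hwe hfe
  have hvy' : v (y1 + e) = v y1 := by rw [map_add, hve, add_zero]
  refine ⟨y1 + e, by rw [map_add, hfe, add_zero]; exact hfy, hvy', ?_⟩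
  rw [hvy']
  intro hmem
  obtain ⟨a, b, hab⟩ := Submodule.mem_span_pair.mp hmem
  have mx : x ∈ Submodule.span ℂ ({x, y1, v y1} : Set X) := Submodule.subset_span (by simp)
  have my : y1 ∈ Submodule.span ℂ ({x, y1, v y1} : Set X) := Submodule.subset_span (by simp)
  have mv : v y1 ∈ Submodule.span ℂ ({x, y1, v y1} : Set X) := Submodule.subset_span (by simp)
  by_cases ha : a = 0
  · rw [ha, zero_smul, zero_add] at hab
    have hb : b ≠ 0 := by
      rintro rfl
      rw [zero_smul] at hab
      exact hx hab.symm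
    refine hvy b⁻¹ ?_
    rw [← hab, smul_smul, inv_mul_cancel₀ hb, one_smul]
  · apply heZ
    have he : e = a⁻¹ • (x - b • v y1) - y1 := by
      rw [← hab, smul_sub, smul_add, smul_smul, smul_smul, inv_mul_cancel₀ ha, one_smul]
      abel
    rw [he]
    exact Submodule.sub_mem _ (Submodule.smul_mem _ _ (Submodule.sub_mem _ mx
      (Submodule.smul_mem _ _ mv))) my

/-- Proof. `A = ten x f`, `v = w - ε • A`. `v` is quasinilpotent (`LP.qn_sub`), `v z0 = w z0` is not a multiple of `x`.
(0) If `T ^ m = 0` and `QN (T - b • v)` for all `b` then `f ((T ^ j) x) = 0` for all `j`: `h.two` with `e = ε`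
(`T + ε • A - V = T - b • v`) and `lp_of_qn_sub`.
(1) There is `y1` with `f y1 ≠ 0`, `v y1` not a multiple of `x`: `f y = 1`; if `v y = c • x` take `y + z0`.
(2) Case `v * v = 0`. Choose (`exists_ker` for `w`) `e` with `w e = 0`, `f e = 0` (so `v e = 0`), `e ∉ span {x, y1, v y1}` and `y = y1 + e`: `v y = v y1`,
`x ∉ span {y, v y}`. Choose `k` with `k x = 1`, `k y = k (v y) = 0`. `T = ten y k`: `T ^ 2 = 0`; `QN (T - b • v)` for all `b`
(`qn_add_smul_ten_of_orth`: `k (((-b • v) ^ j) y) = 0`, `v (v y) = 0`). By (0), `f (T x) = k x * f y = 0`, contradiction.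
(3) Case `v (v y3) ≠ 0` for some `y3`. There is `y2` with `f y2 ≠ 0`, `v y2` not a multiple of `x`, `v (v y2) ≠ 0`: `y1` or `y1 + s • y3` for a suitable
`s ∈ {1, 2, 3}` (each of the conditions fails for at most one `s ≠ 0`; `v (v y1) = 0` may be assumed). As in (2) replace `y2` by `y = y2 + e` with
`x ∉ span {y, v y}`. `v (v y) ∉ span {y, v y}`: otherwise, `v` being quasinilpotent and `y, v y` independent (`v y ≠ 0`, not an eigenvector), the
two dimensional invariant space gives `v (v y) = 0` (`qn_plane`, helper5/P9.lean, with `p = 0`, `r = 1`). Choose (`exists_sep_ne`) `k` with `k y = k (v y) = 0`,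
`k x ≠ 0`, `k (v (v y)) ≠ 0`. `T = ten (v y) k - ten y (k.comp v)`. `T y = 0`, `T (v y) = -k (v (v y)) • y`, `T ^ 3 = 0`. `QN (T - b • v)`: for `b = 0` clear
(nilpotent); for `b ≠ 0`, `T - b • v = -(b • (v + b⁻¹ • (ten y (k.comp v) - ten (v y) k)))` and `v + t • (ten y (k.comp v) - ten (v y) k)` is
`(1 + t • ten y k) * v * (1 - t • ten y k)` (first part of `conj_test`). By (0) `f (T (T x)) = 0`; `T x = k x • v y - k (v x) • y`,
`T (T x) = -(k x * k (v (v y))) • y`, `f y ≠ 0`, contradiction. -/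
theorem Par.line_false [CompleteSpace X] (hX : ¬ Module.Finite ℂ X) {x : X} {f : X →L[ℂ] ℂ}
    (hx : x ≠ 0) (hf : f ≠ 0) (hfx : f x = 0) {l : Set (X →L[ℂ] X)} (h : Par x f l)
    {w : X →L[ℂ] X} {n : ℕ} (hn : w ^ n = 0) (hlp : LP x f w) {z0 : X} (hfz : f z0 = 0)
    (hwz : ∀ c : ℂ, w z0 ≠ c • x) {ε : ℂ}
    (hl : ∀ V ∈ l, ∃ b : ℂ, V = ε • ten x f + b • (w - ε • ten x f)) : False := by
  obtain ⟨v, hvdef⟩ : ∃ v : X →L[ℂ] X, v = w - ε • ten x f := ⟨_, rfl⟩
  have hvq : QN v := by rw [hvdef]; exact hlp.qn_sub ε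
  have hv : ∀ u, v u = w u - ε • (f u • x) := by
    intro u; rw [hvdef]; rfl
  have hvz : v z0 = w z0 := by rw [hv, hfz, zero_smul, smul_zero, sub_zero]
  have hvker : ∀ e, w e = 0 → f e = 0 → v e = 0 := by
    intro e he he'
    rw [hv, he, he', zero_smul, smul_zero, sub_zero]
  have key0 : ∀ (T : X →L[ℂ] X) (m : ℕ), T ^ m = 0 → (∀ b : ℂ, QN (T - b • v)) →
      ∀ j : ℕ, f ((T ^ j) x) = 0 := by
    intro T m hT hb
    refine (lp_of_qn_sub (h.two T m ε hT fun V hV => ?_)).2
    obtain ⟨b, rfl⟩ := hl V hV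
    have e1 : T + ε • ten x f - (ε • ten x f + b • (w - ε • ten x f)) = T - b • v := by
      rw [hvdef]; abel
    rw [e1]; exact hb b
  obtain ⟨y1, hy1, hvy1⟩ : ∃ y1 : X, f y1 ≠ 0 ∧ ∀ c : ℂ, v y1 ≠ c • x := by
    obtain ⟨y, hy⟩ := exists_ap hf
    by_cases hc : ∃ c : ℂ, v y = c • x
    · obtain ⟨c, hc⟩ := hc
      refine ⟨y + z0, by rw [map_add, hy, hfz, add_zero]; exact one_ne_zero, fun c' hc' => ?_⟩
      refine hwz (c' - c) ?_
      rw [map_add, hc, hvz] at hc'
      rw [sub_smul, ← hc']; abel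
    · push Not at hc
      exact ⟨y, by rw [hy]; exact one_ne_zero, hc⟩
  by_cases hvv : ∀ u, v (v u) = 0
  · obtain ⟨y, hfy, hvy, hxM⟩ := g13_move hX hx hn hvker hy1 hvy1
    obtain ⟨k, hk, hkx⟩ := exists_sep_sub (Submodule.fg_span (Set.toFinite _)) hxM
    have hky : k y = 0 := hk _ (Submodule.subset_span (by simp))
    have hkv : k (v y) = 0 := hk _ (Submodule.subset_span (by simp))
    have hT2 : (ten y k) ^ 2 = 0 := by
      ext u
      rw [pow_two]
      show k (k u • y) • y = 0
      rw [map_smul, hky, smul_zero, zero_smul]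
    have hq : ∀ b : ℂ, QN (ten y k - b • v) := by
      intro b
      have horth : ∀ j : ℕ, k ((((-b) • v) ^ j) y) = 0 := by
        intro j
        match j with
        | 0 => exact hky
        | 1 =>
          rw [pow_one]
          show k ((-b) • v y) = 0
          rw [map_smul, hkv, smul_zero]
        | j + 2 =>
          have e : (((-b) • v) ^ (j + 2)) y = (((-b) • v) ^ j) ((-b) • v ((-b) • v y)) := by
            rw [pow_add, pow_two]; rfl
          have e0 : v ((-b) • v y) = 0 := by rw [map_smul, hvv, smul_zero]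
          rw [e, e0, smul_zero, map_zero, map_zero]
      have h1 := qn_add_smul_ten_of_orth (qn_smul hvq (-b)) horth 1
      have e2 : ten y k - b • v = (-b) • v + (1 : ℂ) • ten y k := by
        rw [one_smul, neg_smul]; abel
      rw [e2]; exact h1
    have h3 := key0 (ten y k) 2 hT2 hq 1
    rw [pow_one] at h3
    have h4 : f (k x • y) = 0 := h3
    rw [hkx, one_smul] at h4
    exact hfy h4
  · push Not at hvv
    obtain ⟨y3, hy3⟩ := hvv
    obtain ⟨y2, hfy2, hvy2, hvvy2⟩ : ∃ y2 : X, f y2 ≠ 0 ∧ (∀ c : ℂ, v y2 ≠ c • x) ∧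
        v (v y2) ≠ 0 := by
      by_contra hcon
      push Not at hcon
      have hB1 : {s : ℂ | f (y1 + s • y3) = 0}.Subsingleton := by
        intro s hs t ht
        by_contra hst
        have e1 : f y1 + s * f y3 = 0 := by
          have : f (y1 + s • y3) = 0 := hs
          rwa [map_add, map_smul, smul_eq_mul] at this
        have e2 : f y1 + t * f y3 = 0 := by
          have : f (y1 + t • y3) = 0 := ht
          rwa [map_add, map_smul, smul_eq_mul] at this
        have e3 : (s - t) * f y3 = 0 := by linear_combination e1 - e2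
        rcases mul_eq_zero.mp e3 with h0 | h0
        · exact hst (sub_eq_zero.mp h0)
        · rw [h0, mul_zero, add_zero] at e1
          exact hy1 e1
      have hB2 : {s : ℂ | ∃ c : ℂ, v (y1 + s • y3) = c • x}.Subsingleton := by
        rintro s ⟨c, hc⟩ t ⟨d, hd⟩
        by_contra hst
        rw [map_add, map_smul] at hc hd
        have hst' : s - t ≠ 0 := sub_ne_zero.mpr hst
        have e3 : (s - t) • v y3 = (c - d) • x := by
          rw [sub_smul, sub_smul, ← hc, ← hd]; abel
        have e4 : v y3 = ((s - t)⁻¹ * (c - d)) • x := by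
          rw [← smul_smul, ← e3, smul_smul, inv_mul_cancel₀ hst', one_smul]
        refine hvy1 (c - s * ((s - t)⁻¹ * (c - d))) ?_
        rw [sub_smul, ← smul_smul, ← e4, ← hc, add_sub_cancel_right]
      have hB3 : {s : ℂ | v (v (y1 + s • y3)) = 0}.Subsingleton := by
        intro s hs t ht
        by_contra hst
        have hs' : v (v (y1 + s • y3)) = 0 := hs
        have ht' : v (v (y1 + t • y3)) = 0 := ht
        rw [map_add, map_smul, map_add, map_smul] at hs' ht'
        have e3 : (s - t) • v (v y3) = 0 := by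
          have : (s - t) • v (v y3) = (v (v y1) + s • v (v y3)) - (v (v y1) + t • v (v y3)) := by
            rw [sub_smul]; abel
          rw [this, hs', ht', sub_zero]
        exact hy3 ((smul_eq_zero.mp e3).resolve_left (sub_ne_zero.mpr hst))
      obtain ⟨s, hs⟩ := ((hB1.finite.union hB2.finite).union hB3.finite).exists_notMem
      apply hs
      by_cases c1 : f (y1 + s • y3) = 0
      · exact Or.inl (Or.inl c1)
      · by_cases c2 : ∃ c : ℂ, v (y1 + s • y3) = c • x
        · exact Or.inl (Or.inr c2)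
        · push Not at c2
          exact Or.inr (hcon _ c1 c2)
    obtain ⟨y, hfy, hvy, hxM⟩ := g13_move hX hx hn hvker hfy2 hvy2
    have hvvy : v (v y) ≠ 0 := by rw [hvy]; exact hvvy2
    have hy0 : y ≠ 0 := by
      rintro rfl
      exact hfy (map_zero f)
    have hli : LinearIndependent ℂ ![y, v y] := by
      rw [LinearIndependent.pair_iff' hy0]
      intro a ha
      by_cases ha0 : a = 0
      · rw [ha0, zero_smul] at ha
        rw [← ha, map_zero] at hvvy
        exact hvvy rfl
      · exact not_qn_of_eigen hy0 ha0 ha.symm hvq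
    have hvvM : v (v y) ∉ Submodule.span ℂ ({y, v y} : Set X) := by
      intro hmem
      obtain ⟨q, s, hqs⟩ := Submodule.mem_span_pair.mp hmem
      have h1 := qn_plane hvq hli (p := 0) (r := 1) (q := q) (s := s)
        (by rw [zero_smul, one_smul, zero_add]) hqs.symm
      obtain ⟨h2, h3⟩ := h1
      rw [zero_add] at h2
      rw [zero_mul, mul_one, zero_sub, neg_eq_zero] at h3
      rw [h2, h3, zero_smul, zero_smul, add_zero] at hqs
      exact hvvy hqs.symm
    obtain ⟨k, hk, hkx, hkvv⟩ := exists_sep_ne (Submodule.fg_span (Set.toFinite _)) hxM hvvM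
    have hky : k y = 0 := hk _ (Submodule.subset_span (by simp))
    have hkv : k (v y) = 0 := hk _ (Submodule.subset_span (by simp))
    obtain ⟨T, hTdef⟩ : ∃ T : X →L[ℂ] X, T = ten (v y) k - ten y (k.comp v) := ⟨_, rfl⟩
    have hTu : ∀ u, T u = k u • v y - k (v u) • y := by
      intro u; rw [hTdef]; rfl
    have hTT : ∀ u, T (T u) = -(k u * k (v (v y))) • y := by
      intro u
      have e1 : T (v y) = -(k (v (v y))) • y := by
        rw [hTu, hkv, zero_smul, zero_sub, neg_smul]
      have e2 : T y = 0 := by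
        rw [hTu, hky, hkv, zero_smul, zero_smul, sub_zero]
      rw [hTu u, map_sub, map_smul, map_smul, e1, e2, smul_zero, sub_zero, smul_smul, mul_neg]
    have hT3 : T ^ 3 = 0 := by
      ext u
      have e1 : (T ^ 3) u = T (T (T u)) := by
        rw [pow_succ, pow_two]; rfl
      have e2 : T y = 0 := by
        rw [hTu, hky, hkv, zero_smul, zero_smul, sub_zero]
      rw [e1, hTT, hTu u, map_sub, map_smul, map_smul, hkv, hky, smul_zero, smul_zero, sub_zero,
        zero_mul, neg_zero, zero_smul]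
      rfl
    have hq : ∀ b : ℂ, QN (T - b • v) := by
      intro b
      by_cases hb : b = 0
      · rw [hb, zero_smul, sub_zero]
        exact qn_of_pow hT3
      · have h1 := (conj_test hvq (x := (0 : X)) (f := (0 : X →L[ℂ] ℂ))
          (by rw [ten_zero_left, sub_zero]; exact hvq) (y := y) (k := k) rfl (map_zero k) hky hkv
          b⁻¹).1
        have e2 : T - b • v = (-b) • (v + b⁻¹ • (ten y (k.comp v) - ten (v y) k)) := by
          rw [smul_add, smul_smul, neg_mul, mul_inv_cancel₀ hb, hTdef, neg_smul, neg_smul, one_smul]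
          abel
        rw [e2]
        exact qn_smul h1 (-b)
    have h3 := key0 T 3 hT3 hq 2
    have e1 : (T ^ 2) x = T (T x) := by rw [pow_two]; rfl
    rw [e1, hTT, map_smul, smul_eq_mul, mul_eq_zero, neg_eq_zero, mul_eq_zero] at h3
    rcases h3 with (h3 | h3) | h3
    · exact hkx h3
    · exact hkvv h3
    · exact hfy h3

end Pool.Agent.H.MP_bb4c62_an.helper86.PG
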