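import Pool.Agent.H.MP_bb4c62_an.helper86.G5

/-!
The first form of the operators tied to a nilpotent operator.
-/

namespace Pool.Agent.H.MP_bb4c62_an.helper86.PG

open Pool.Agent.H.MP_bb4c62_an.helper6.NL
open Pool.Agent.H.MP_bb4c62_an.helper6.Perturb
open Pool.Agent.H.MP_bb4c62_an.helper6.Gadgets
open Pool.Agent.H.MP_bb4c62_an.helper5.PL

variable {X : Type*} [NormedAddCommGroup X] [NormedSpace ℂ X]

/-- The test. Let `w e = 0`, `e` not in the span of `x` and the orbit of `y`; then `V (y + e)` is in the span of `x`, `w y`,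
`y + e`.

Proof. Otherwise choose `κ` with `κ = 0` on `x, w y, y + e` and `κ (V (y + e)) = 1` (`exists_sep_sub`), and `g` with `g e = 1`,
`g x = 0`, `g ((w ^ k) y) = 0` for all `k` (`exists_sep_sub` for `M ⊔ span {x}`). For a scalar `t` let
`T = t • ten (y + e) κ + ten (w y) g`. `T (y + e) = w y` (`g y = 0`, `g e = 1`, `κ (y + e) = 0`), `T (w y) = 0`, so `T ^ 3 = 0`, `QN T`;
`T x = 0`, so `LP x f T` (`LP.of_kill`). `QN (w - T)`: `w1 = w - ten (w y) g` is quasinilpotent by
`qn_add_smul_ten_of_orth` (`g ((w ^ k) (w y)) = 0`), `w1 (y + e) = w y - w y = 0`, so `κ ((w1 ^ k) (y + e)) = 0` and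
`w - T = w1 - t • ten (y + e) κ` is quasinilpotent. So `QN (V - T)` for all `t`, that is
`QN ((V - ten (w y) g) + (-t) • ten (y + e) κ)`; `pencil_one` with `n = 1`: `κ (V (y + e)) - g (y + e) * κ (w y) = 0`, contradiction. -/
theorem g6_test [CompleteSpace X] {x : X} {f : X →L[ℂ] ℂ} (hfx : f x = 0)
    {w V : X →L[ℂ] X} {n : ℕ} (hn : w ^ n = 0)
    (h : ∀ T, LP x f T → QN (T - w) → QN (T - V)) {y e : X} (he : w e = 0)
    {M : Submodule ℂ X} (hM : M.FG) (hy : ∀ k : ℕ, (w ^ k) y ∈ M)
    (heM : e ∉ M ⊔ Submodule.span ℂ {x}) :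
    ∃ a b c : ℂ, V (y + e) = a • x + b • w y + c • (y + e) := by
  by_contra hcon
  have hZ : (Submodule.span ℂ ({x, w y, y + e} : Set X)).FG := Submodule.fg_span (Set.toFinite _)
  have hVZ : V (y + e) ∉ Submodule.span ℂ ({x, w y, y + e} : Set X) := by
    intro hmem
    obtain ⟨a, b, c, hh⟩ := Submodule.mem_span_triple.mp hmem
    exact hcon ⟨a, b, c, hh.symm⟩
  obtain ⟨κ, hκ, hκV⟩ := exists_sep_sub hZ hVZ
  have hκx : κ x = 0 := hκ _ (Submodule.subset_span (by simp))
  have hκw : κ (w y) = 0 := hκ _ (Submodule.subset_span (by simp))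
  have hκe : κ (y + e) = 0 := hκ _ (Submodule.subset_span (by simp))
  obtain ⟨g, hg, hge⟩ := exists_sep_sub (hM.sup (Submodule.fg_span_singleton x)) heM
  have hgx : g x = 0 := hg _ (Submodule.mem_sup_right (Submodule.mem_span_singleton_self x))
  have hgk : ∀ k : ℕ, g ((w ^ k) y) = 0 := fun k => hg _ (Submodule.mem_sup_left (hy k))
  have hgy : g y = 0 := by simpa using hgk 0
  have hgwy : g (w y) = 0 := by simpa using hgk 1
  have hgye : g (y + e) = 1 := by rw [map_add, hgy, hge, zero_add]
  have hwq : QN w := qn_of_pow hn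
  set w1 : X →L[ℂ] X := w + (-1 : ℂ) • ten (w y) g with hw1
  have hw1q : QN w1 := by
    refine qn_add_smul_ten_of_orth hwq (fun k => ?_) (-1)
    have e1 : (w ^ k) (w y) = (w ^ (k + 1)) y := by rw [pow_succ]; rfl
    rw [e1, hgk]
  have hw1e : w1 (y + e) = 0 := by
    show w (y + e) + (-1 : ℂ) • (g (y + e) • w y) = 0
    rw [map_add, he, hgye, one_smul, neg_one_smul, add_zero, add_neg_cancel]
  have hw1k : ∀ k : ℕ, κ ((w1 ^ k) (y + e)) = 0 := by
    intro k
    cases k with
    | zero => rw [pow_zero]; exact hκe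
    | succ k =>
      have e1 : (w1 ^ (k + 1)) (y + e) = (w1 ^ k) (w1 (y + e)) := by rw [pow_succ]; rfl
      rw [e1, hw1e, map_zero, map_zero]
  have key : ∀ t : ℂ, QN ((V - ten (w y) g) + t • ten (y + e) κ) := by
    intro t
    set T : X →L[ℂ] X := (-t) • ten (y + e) κ + ten (w y) g with hT
    have hTv : ∀ v, T v = ((-t) * κ v) • (y + e) + g v • w y := by
      intro v
      show (-t) • (κ v • (y + e)) + g v • w y = _
      rw [smul_smul]
    have hTe : T (y + e) = w y := by
      rw [hTv, hκe, hgye, mul_zero, zero_smul, zero_add, one_smul]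
    have hTw : T (w y) = 0 := by
      rw [hTv, hκw, hgwy, mul_zero, zero_smul, zero_smul, add_zero]
    have hTx : T x = 0 := by
      rw [hTv, hκx, hgx, mul_zero, zero_smul, zero_smul, add_zero]
    have hT3 : T ^ 3 = 0 := by
      ext v
      have e1 : (T ^ 3) v = T (T (T v)) := by rw [pow_succ, pow_two]; rfl
      rw [e1, hTv v, map_add, map_smul, map_smul, hTe, hTw, smul_zero, add_zero, map_smul, hTw,
        smul_zero]
      rfl
    have hLP : LP x f T := LP.of_kill hfx (qn_of_pow hT3) hTx
    have hTw' : QN (T - w) := by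
      rw [qn_sub_comm]
      have e1 : w - T = w1 + t • ten (y + e) κ := by
        rw [hw1, hT, neg_smul, neg_one_smul]; abel
      rw [e1]
      exact qn_add_smul_ten_of_orth hw1q hw1k t
    have := h T hLP hTw'
    rw [qn_sub_comm] at this
    have e2 : V - T = (V - ten (w y) g) + t • ten (y + e) κ := by
      rw [hT, neg_smul]; abel
    rwa [e2] at this
  have hD : QN (V - ten (w y) g) := by
    have := key 0
    rwa [zero_smul, add_zero] at this
  have h1 := pencil_one hD key 1
  rw [pow_one] at h1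
  have h2 : κ (V (y + e) - g (y + e) • w y) = 0 := h1
  rw [map_sub, map_smul, hκV, hκw, smul_zero, sub_zero] at h2
  exact one_ne_zero h2

theorem g6_scal {E F : Type*} [AddCommGroup E] [Module ℂ E] [AddCommGroup F] [Module ℂ F]
    (A B : E →ₗ[ℂ] F) (h : ∀ y, ∃ b : ℂ, B y = b • A y) : ∃ b : ℂ, ∀ y, B y = b • A y := by
  by_cases hA : ∀ y, A y = 0
  · refine ⟨0, fun y => ?_⟩
    obtain ⟨b, hb⟩ := h y
    rw [hb, hA y, smul_zero, smul_zero]
  push Not at hA
  obtain ⟨y0, hy0⟩ := hA
  obtain ⟨b, hb⟩ := h y0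
  refine ⟨b, fun y => ?_⟩
  by_cases hdep : ∃ t : ℂ, A y = t • A y0
  · obtain ⟨t, ht⟩ := hdep
    obtain ⟨c, hc⟩ := h (y - t • y0)
    rw [map_sub, map_sub, map_smul, map_smul, ht, sub_self, smul_zero, sub_eq_zero, hb] at hc
    rw [hc, ht, smul_comm]
  · obtain ⟨b', hb'⟩ := h y
    obtain ⟨c, hc⟩ := h (y + y0)
    rw [map_add, map_add, hb', hb, smul_add] at hc
    have h1 : (b' - c) • A y = (c - b) • A y0 := by
      rw [sub_smul, sub_smul, sub_eq_sub_iff_add_eq_add, hc]
      abel
    have h2 : b' - c = 0 := by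
      by_contra hne
      apply hdep
      refine ⟨(b' - c)⁻¹ * (c - b), ?_⟩
      rw [mul_smul, ← h1, smul_smul, inv_mul_cancel₀ hne, one_smul]
    rw [h2, zero_smul] at h1
    have h3 : c - b = 0 := by
      rcases smul_eq_zero.mp h1.symm with h4 | h4
      · exact h4
      · exact absurd h4 hy0
    rw [hb', sub_eq_zero.mp h2, sub_eq_zero.mp h3]

/-- Proof. (1) `y = 0`: for `w e = 0`, `e ∉ span {x}`: `V e = a • x + c • e`. The scalar `c` does not depend on `e`: fix `e1`
(`exists_ker`) with scalar `λ`; if `e` is not in `span {x, e1}`, then `V (e + e1) = a' • x + c' • (e + e1)` gives `c = c' = λ`.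
(2) For arbitrary `y` choose (`exists_ker`) `e` with `w e = 0`, `e` outside the span of `x`, `e1`, `V y` and the orbit of `y`. By (1) and
`g6_test`: `V y + λ • e + a • x = a' • x + b • w y + c • (y + e)`, so `c = λ` and `V y - λ • y ∈ span {x, w y}`.
(3) So `D = V - λ • 1` satisfies `D y = a y • x + b y • w y` for all `y`. Then `D = b • w + ten x θ`: if there are `y1, y2` with
`w y1, w y2, x` independent then `b` is constant on vectors with `w y ∉ span {x}` (usual argument) and `D - b • w` maps everything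
into `span {x}`; otherwise `w y ∈ span {x, s}` for all `y` with a fixed `s`, `w = ten x α + ten s γ` modulo nothing else, and
`D y ∈ span {x, γ y • s}`, so again `D = b • w + ten x θ`. (Use the quotient by `span {x}` or a functional; a linear map `X → span {x}`,
`v ↦ a v • x` which is continuous is `ten x θ`: take `θ = η ∘ (.)` with `η x = 1`.)
(4) `λ = 0`: `nf_lemma` (helper6/NLine3.lean) with `C = V`, `F = ten x θ`, `w` (quasinilpotent by `qn_of_pow`). -/
theorem nil_form1 [CompleteSpace X] (hX : ¬ Module.Finite ℂ X) {x : X} {f : X →L[ℂ] ℂ}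
    (hx : x ≠ 0) (hfx : f x = 0) {w V : X →L[ℂ] X} {n : ℕ} (hn : w ^ n = 0) (hV : QN V)
    (h : ∀ T, LP x f T → QN (T - w) → QN (T - V)) :
    ∃ (b : ℂ) (θ : X →L[ℂ] ℂ), V = b • w + ten x θ := by
  have st1 : ∀ e : X, w e = 0 → e ∉ Submodule.span ℂ ({x} : Set X) →
      ∃ a c : ℂ, V e = a • x + c • e := by
    intro e he hex
    obtain ⟨a, b, c, hh⟩ := g6_test (y := 0) (M := ⊥) hfx hn h he Submodule.fg_bot
      (fun k => by rw [map_zero]; exact Submodule.zero_mem _) (by rwa [bot_sup_eq])
    refine ⟨a, c, ?_⟩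
    rw [map_zero, smul_zero, add_zero, zero_add] at hh
    exact hh
  obtain ⟨e1, hwe1, -, -, he1⟩ := exists_ker hX hn f f (Submodule.fg_span_singleton x)
  obtain ⟨a1, lam, hV1⟩ := st1 e1 hwe1 he1
  have st2 : ∀ e : X, w e = 0 → e ∉ Submodule.span ℂ ({x, e1} : Set X) →
      ∃ a : ℂ, V e = a • x + lam • e := by
    intro e he hee
    have hex : e ∉ Submodule.span ℂ ({x} : Set X) := fun h1 =>
      hee (Submodule.span_mono (by simp) h1)
    obtain ⟨a, c, hc⟩ := st1 e he hex
    have hsum : e + e1 ∉ Submodule.span ℂ ({x} : Set X) := by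
      intro h1
      apply hee
      have h2 : e = (e + e1) - e1 := by abel
      rw [h2]
      exact Submodule.sub_mem _ (Submodule.span_mono (by simp) h1)
        (Submodule.subset_span (by simp))
    obtain ⟨a', c', hc'⟩ := st1 (e + e1) (by rw [map_add, he, hwe1, add_zero]) hsum
    rw [map_add, hc, hV1] at hc'
    have h3 : (c - c') • e = (a' - a - a1) • x + (c' - lam) • e1 := by
      have : c • e = a' • x + c' • (e + e1) - lam • e1 - a1 • x - a • x := by
        rw [← hc']; abel
      rw [sub_smul, this, smul_add]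
      module
    have h4 : c - c' = 0 := by
      by_contra hne
      apply hee
      have h5 : e = (c - c')⁻¹ • ((a' - a - a1) • x + (c' - lam) • e1) := by
        rw [← h3, smul_smul, inv_mul_cancel₀ hne, one_smul]
      rw [h5]
      exact Submodule.smul_mem _ _ (Submodule.add_mem _
        (Submodule.smul_mem _ _ (Submodule.subset_span (by simp)))
        (Submodule.smul_mem _ _ (Submodule.subset_span (by simp))))
    rw [h4, zero_smul] at h3
    have h5 : c' - lam = 0 := by
      by_contra hne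
      apply he1
      have h6 : e1 = (-((c' - lam)⁻¹ * (a' - a - a1))) • x := by
        have h7 : (c' - lam) • e1 = -((a' - a - a1) • x) := by
          rw [eq_neg_iff_add_eq_zero, add_comm]
          exact h3.symm
        calc e1 = (c' - lam)⁻¹ • ((c' - lam) • e1) := by
              rw [smul_smul, inv_mul_cancel₀ hne, one_smul]
          _ = _ := by rw [h7, smul_neg, smul_smul, neg_smul]
      rw [h6]
      exact Submodule.smul_mem _ _ (Submodule.mem_span_singleton_self x)
    refine ⟨a, ?_⟩
    rw [hc, sub_eq_zero.mp h4, sub_eq_zero.mp h5]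
  have st3 : ∀ y : X, ∃ a b : ℂ, V y = lam • y + a • x + b • w y := by
    intro y
    obtain ⟨M, hM, hMy⟩ := orbit_fg hn y
    have hZ : (M ⊔ Submodule.span ℂ ({x, e1, V y} : Set X)).FG :=
      hM.sup (Submodule.fg_span (Set.toFinite _))
    obtain ⟨e, hwe, -, -, heZ⟩ := exists_ker hX hn f f hZ
    have hle : Submodule.span ℂ ({x, e1} : Set X) ≤ M ⊔ Submodule.span ℂ ({x, e1, V y} : Set X) :=
      le_trans (Submodule.span_mono (by
        intro z hz
        simp only [Set.mem_insert_iff, Set.mem_singleton_iff] at hz ⊢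
        tauto)) le_sup_right
    obtain ⟨a, ha⟩ := st2 e hwe (fun h1 => heZ (hle h1))
    have hle2 : M ⊔ Submodule.span ℂ ({x} : Set X) ≤
        M ⊔ Submodule.span ℂ ({x, e1, V y} : Set X) :=
      sup_le_sup_left (Submodule.span_mono (by simp)) _
    obtain ⟨a', b, c, hh⟩ := g6_test hfx hn h hwe hM hMy (fun h1 => heZ (hle2 h1))
    rw [map_add, ha] at hh
    have hyM : y ∈ M := by simpa using hMy 0
    have hwyM : w y ∈ M := by simpa using hMy 1
    have h1 : (lam - c) • e = (a' - a) • x + b • w y + c • y - V y := by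
      have : lam • e = a' • x + b • w y + c • (y + e) - V y - a • x := by
        rw [← hh]; abel
      rw [sub_smul, this, smul_add]
      module
    have h2 : lam - c = 0 := by
      by_contra hne
      apply heZ
      have h3 : e = (lam - c)⁻¹ • ((a' - a) • x + b • w y + c • y - V y) := by
        rw [← h1, smul_smul, inv_mul_cancel₀ hne, one_smul]
      rw [h3]
      refine Submodule.smul_mem _ _ (Submodule.sub_mem _ (Submodule.add_mem _ (Submodule.add_mem _
        (Submodule.smul_mem _ _ ?_) (Submodule.smul_mem _ _ (Submodule.mem_sup_left hwyM)))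
        (Submodule.smul_mem _ _ (Submodule.mem_sup_left hyM))) ?_)
      · exact Submodule.mem_sup_right (Submodule.subset_span (by simp))
      · exact Submodule.mem_sup_right (Submodule.subset_span (by simp))
    refine ⟨a' - a, b, ?_⟩
    rw [h2, zero_smul] at h1
    have h4 : V y = (a' - a) • x + b • w y + c • y := (sub_eq_zero.mp h1.symm).symm
    rw [h4, sub_eq_zero.mp h2]
    abel
  set S := Submodule.span ℂ ({x} : Set X) with hS
  obtain ⟨b, hb⟩ := g6_scal (S.mkQ ∘ₗ (w : X →ₗ[ℂ] X))
    (S.mkQ ∘ₗ ((V - lam • (1 : X →L[ℂ] X) : X →L[ℂ] X) : X →ₗ[ℂ] X)) (by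
      intro y
      obtain ⟨a, b, hab⟩ := st3 y
      refine ⟨b, ?_⟩
      show S.mkQ (V y - lam • y) = b • S.mkQ (w y)
      have e1 : V y - lam • y = a • x + b • w y := by rw [hab]; abel
      have e2 : S.mkQ x = 0 := by
        rw [Submodule.mkQ_apply, Submodule.Quotient.mk_eq_zero]
        exact Submodule.mem_span_singleton_self x
      rw [e1, map_add, map_smul, map_smul, e2, smul_zero, zero_add])
  obtain ⟨η, hη⟩ := SeparatingDual.exists_eq_one (R := ℂ) hx
  have st4 : V = lam • (1 : X →L[ℂ] X) + b • w +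
      ten x (η.comp (V - lam • (1 : X →L[ℂ] X) - b • w)) := by
    ext y
    have h1 : S.mkQ (V y - lam • y) = b • S.mkQ (w y) := hb y
    have h2 : V y - lam • y - b • w y ∈ S := by
      rw [← Submodule.Quotient.mk_eq_zero, ← Submodule.mkQ_apply, map_sub, h1, map_smul, sub_self]
    obtain ⟨a, ha⟩ := Submodule.mem_span_singleton.mp h2
    show V y = lam • y + b • w y + η (V y - lam • y - b • w y) • x
    rw [← ha, map_smul, hη, smul_eq_mul, mul_one, ha]
    abel
  have hF : ten x (η.comp (V - lam • (1 : X →L[ℂ] X) - b • w)) ∈ FRk X := ten_mem_FRk _ _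
  have h0 := nf_lemma hX (qn_of_pow hn) hV hF st4
  refine ⟨b, η.comp (V - lam • (1 : X →L[ℂ] X) - b • w), ?_⟩
  conv_lhs => rw [st4]
  rw [h0, zero_smul, zero_add]

end Pool.Agent.H.MP_bb4c62_an.helper86.PG
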