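import Pool.Agent.H.MP_bb4c62_an.helper86.G5

/-!
The second form of the operators tied to a nilpotent operator.
-/

namespace Pool.Agent.H.MP_bb4c62_an.helper86.PG

open Pool.Agent.H.MP_bb4c62_an.helper6.NL
open Pool.Agent.H.MP_bb4c62_an.helper6.Perturb
open Pool.Agent.H.MP_bb4c62_an.helper6.Gadgets
open Pool.Agent.H.MP_bb4c62_an.helper5.PL

variable {X : Type*} [NormedAddCommGroup X] [NormedSpace ℂ X]

/-- Proof. `T = t • ten z k + ten e (k.comp w)`. `T z = 0` (`k z = 0`, `k (w z) = 0`), `T e = t • z` (`k e = 1`, `w e = 0`),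
so `T ^ 3 = 0` and `QN T`; `f (T v) = 0` for all `v`, so `LP x f T` (`LP.of_left`). `QN (w - T)`: `w1 = w - ten e (k.comp w)` is
quasinilpotent (`qn_add_smul_ten_of_orth`: `k (w ((w ^ j) e)) = 0` since `w e = 0`) and `k (w1 v) = k (w v) - k e * k (w v) = 0`, so
`k ((w1 ^ j) z) = 0` for all `j` (`j = 0`: `k z = 0`) and `w - T = w1 - t • ten z k` is quasinilpotent. -/
theorem testA [CompleteSpace X] {x : X} {f : X →L[ℂ] ℂ} (hfx : f x = 0) {w : X →L[ℂ] X} {n : ℕ}
    (hn : w ^ n = 0) {z e : X} {k : X →L[ℂ] ℂ} (hfz : f z = 0) (hfe : f e = 0) (hwe : w e = 0)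
    (hke : k e = 1) (hkz : k z = 0) (hkw : k (w z) = 0) (t : ℂ) :
    LP x f (t • ten z k + ten e (k.comp w)) ∧ QN (t • ten z k + ten e (k.comp w) - w) := by
  have hv : ∀ v, (t • ten z k + ten e (k.comp w)) v = t • (k v • z) + k (w v) • e := fun v => rfl
  have hTz : (t • ten z k + ten e (k.comp w)) z = 0 := by
    rw [hv, hkz, hkw, zero_smul, zero_smul, smul_zero, add_zero]
  have hTe : (t • ten z k + ten e (k.comp w)) e = t • z := by
    rw [hv, hke, hwe, map_zero, zero_smul, one_smul, add_zero]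
  have hpow : (t • ten z k + ten e (k.comp w)) ^ 3 = 0 := by
    ext v
    have e0 : ((t • ten z k + ten e (k.comp w)) ^ 3) v =
        (t • ten z k + ten e (k.comp w)) ((t • ten z k + ten e (k.comp w))
          ((t • ten z k + ten e (k.comp w)) v)) := by
      rw [pow_succ, pow_two]; rfl
    rw [e0, hv v]
    simp only [map_add, map_smul, hTz, hTe, smul_zero, zero_add]
    rfl
  refine ⟨LP.of_left hfx (qn_of_pow hpow) fun v => ?_, ?_⟩
  · rw [hv]
    simp only [map_add, map_smul, hfz, hfe, smul_zero, add_zero]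
  · rw [qn_sub_comm]
    have hw1 : QN (w + (-1 : ℂ) • ten e (k.comp w)) := by
      refine qn_add_smul_ten_of_orth (qn_of_pow hn) (fun j => ?_) _
      show k (w ((w ^ j) e)) = 0
      have : (w ^ j) (w e) = w ((w ^ j) e) := by
        have h1 : w ^ j * w = w * w ^ j := (Commute.refl w).pow_left j
        exact congrArg (fun T : X →L[ℂ] X => T e) h1
      rw [← this, hwe, map_zero, map_zero]
    have hk1 : ∀ v, k ((w + (-1 : ℂ) • ten e (k.comp w)) v) = 0 := by
      intro v
      show k (w v + (-1 : ℂ) • (k (w v) • e)) = 0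
      rw [map_add, map_smul, map_smul, hke]
      simp
    have hE : w - (t • ten z k + ten e (k.comp w)) =
        (w + (-1 : ℂ) • ten e (k.comp w)) + (-t) • ten z k := by
      ext v
      show w v - (t • (k v • z) + k (w v) • e) =
        (w v + (-1 : ℂ) • (k (w v) • e)) + (-t) • (k v • z)
      rw [neg_smul, neg_smul, one_smul]
      abel
    rw [hE]
    refine qn_add_smul_ten_of_orth hw1 (fun j => ?_) _
    cases j with
    | zero => exact hkz
    | succ j =>
      rw [pow_succ']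
      exact hk1 _

/-- the first step -/
theorem g7_one [CompleteSpace X] (hX : ¬ Module.Finite ℂ X) {x : X} {f : X →L[ℂ] ℂ}
    (hfx : f x = 0) {w V : X →L[ℂ] X} {n : ℕ} (hn : w ^ n = 0)
    {b : ℂ} {θ : X →L[ℂ] ℂ} (hV : V = b • w + ten x θ)
    (h : ∀ T, LP x f T → QN (T - w) → QN (T - V)) {z : X} (hfz : f z = 0)
    (hθ : θ z ≠ 0) : x ∈ Submodule.span ℂ ({z, w z} : Set X) := by
  by_contra hx
  have hfg : (Submodule.span ℂ ({z, w z} : Set X)).FG :=
    Submodule.fg_span (Set.toFinite _)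
  have hfg2 : (Submodule.span ℂ ({z, w z} : Set X) ⊔ Submodule.span ℂ {x}).FG :=
    hfg.sup (Submodule.fg_span (Set.toFinite _))
  obtain ⟨e, hwe, hfe, -, heZ⟩ := exists_ker hX hn f θ hfg2
  have hxe : x ∉ Submodule.span ℂ ({z, w z} : Set X) ⊔ Submodule.span ℂ {e} := by
    intro hmem
    obtain ⟨m, hm, v, hv, hmv⟩ := Submodule.mem_sup.mp hmem
    obtain ⟨c, rfl⟩ := Submodule.mem_span_singleton.mp hv
    by_cases hc : c = 0
    · apply hx
      rw [← hmv, hc, zero_smul, add_zero]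
      exact hm
    · apply heZ
      have he : e = (-c⁻¹) • m + c⁻¹ • x := by
        rw [← hmv, smul_add, smul_smul, inv_mul_cancel₀ hc, one_smul, neg_smul]
        abel
      rw [he]
      exact Submodule.add_mem_sup (Submodule.smul_mem _ _ hm)
        (Submodule.smul_mem _ _ (Submodule.mem_span_singleton_self x))
  obtain ⟨k, hkM, hkx, hke⟩ := exists_sep_two hfg hxe heZ
  have hkz : k z = 0 := hkM z (Submodule.subset_span (by simp))
  have hkw : k (w z) = 0 := hkM (w z) (Submodule.subset_span (by simp))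
  have hQ : ∀ t : ℂ, QN (t • ten z k + ten e (k.comp w) - V) := fun t =>
    h _ (testA hfx hn hfz hfe hwe hke hkz hkw t).1 (testA hfx hn hfz hfe hwe hke hkz hkw t).2
  have hD : ∀ t : ℂ, QN ((V - ten e (k.comp w)) + t • ten z k) := by
    intro t
    have h1 := hQ (-t)
    rw [qn_sub_comm] at h1
    have h2 : V - (-t • ten z k + ten e (k.comp w)) = (V - ten e (k.comp w)) + t • ten z k := by
      rw [neg_smul]; abel
    rwa [h2] at h1
  have hD0 : QN (V - ten e (k.comp w)) := by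
    have h1 := hD 0
    rwa [zero_smul, add_zero] at h1
  have h3 := pencil_one hD0 hD 1
  rw [pow_one] at h3
  have h4 : (V - ten e (k.comp w)) z = b • w z + θ z • x - k (w z) • e := by
    rw [hV]; rfl
  rw [h4, hkw, zero_smul, sub_zero, map_add, map_smul, map_smul, hkw, hkx] at h3
  apply hθ
  simpa using h3

/-- the second step -/
theorem g7_two [CompleteSpace X] (hX : ¬ Module.Finite ℂ X) {x : X} {f : X →L[ℂ] ℂ}
    (hx : x ≠ 0) (hf : f ≠ 0) (hfx : f x = 0) {w V : X →L[ℂ] X} {n : ℕ} (hn : w ^ n = 0)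
    (hVq : QN V) {b : ℂ} {θ : X →L[ℂ] ℂ} (hV : V = b • w + ten x θ)
    (h : ∀ T, LP x f T → QN (T - w) → QN (T - V)) :
    ∀ z, f z = 0 → θ z ≠ 0 → ∃ c : ℂ, w z = c • x := by
  intro z hfz hθ
  have hfg : (Submodule.span ℂ ({x, z, w z} : Set X)).FG :=
    Submodule.fg_span (Set.toFinite _)
  obtain ⟨e, hwe, hfe, hθe, heZ⟩ := exists_ker hX hn f θ hfg
  have h1 := g7_one hX hfx hn hV h (z := z + e) (by rw [map_add, hfz, hfe, add_zero])
    (by rw [map_add, hθe, add_zero]; exact hθ)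
  rw [map_add, hwe, add_zero] at h1
  obtain ⟨α, β, hab⟩ := Submodule.mem_span_pair.mp h1
  have hα : α = 0 := by
    by_contra hα
    apply heZ
    have he : e = α⁻¹ • x - z - (α⁻¹ * β) • w z := by
      rw [← hab, smul_add, smul_smul, inv_mul_cancel₀ hα, one_smul, smul_smul]
      abel
    rw [he]
    refine Submodule.sub_mem _ (Submodule.sub_mem _ (Submodule.smul_mem _ _ ?_) ?_)
      (Submodule.smul_mem _ _ ?_)
    · exact Submodule.subset_span (by simp)
    · exact Submodule.subset_span (by simp)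
    · exact Submodule.subset_span (by simp)
  rw [hα, zero_smul, zero_add] at hab
  have hβ : β ≠ 0 := by
    rintro rfl
    rw [zero_smul] at hab
    exact hx hab.symm
  refine ⟨β⁻¹, ?_⟩
  rw [← hab, smul_smul, inv_mul_cancel₀ hβ, one_smul]

/-- Proof. (1) Let `f z = 0`, `θ z ≠ 0`, `x ∉ span {z, w z}`. Choose (`exists_ker`) `e` with `w e = 0`, `f e = 0`, `e ∉ span {x, z, w z}`,
and (`exists_sep_two`) `k` with `k x = 1`, `k e = 1`, `k z = 0`, `k (w z) = 0`. By `testA` and `h`: `QN (V - (t • ten z k + ten e (k.comp w)))` for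
all `t`; `pencil_one` for `D = V - ten e (k.comp w)`, `n = 1`: `k (V z) - k e * k (w z) = 0`, that is `k (b • w z + θ z • x) = θ z = 0`,
contradiction. (2) So `f z = 0`, `θ z ≠ 0` imply `w z = c • x` for some `c`: choose (`exists_ker`) `e'` with `w e' = 0`, `f e' = 0`, `θ e' = 0`,
`e' ∉ span {x, z, w z}` and apply (1) to `z + e'`: `x ∈ span {z + e', w z}`, which forces `x = c' • w z`, `c' ≠ 0`.
(3) If `θ z ≠ 0` for some `z` with `f z = 0`: `θ z0 = 0` by (2) and `hwz`; `z + z0` has `θ ≠ 0`, so `w (z + z0)` and `w z` are multiples of `x`, so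
`w z0` is, contradiction. So `θ = 0` on the kernel of `f`, and `θ = e • f` (`f y = 1`: `e = θ y`). -/
theorem nil_form2 [CompleteSpace X] (hX : ¬ Module.Finite ℂ X) {x : X} {f : X →L[ℂ] ℂ}
    (hx : x ≠ 0) (hf : f ≠ 0) (hfx : f x = 0) {w V : X →L[ℂ] X} {n : ℕ} (hn : w ^ n = 0)
    (hVq : QN V) {b : ℂ} {θ : X →L[ℂ] ℂ} (hV : V = b • w + ten x θ)
    (h : ∀ T, LP x f T → QN (T - w) → QN (T - V)) {z0 : X} (hfz : f z0 = 0)
    (hwz : ∀ c : ℂ, w z0 ≠ c • x) : ∃ e : ℂ, θ = e • f := by
  have h2 := g7_two hX hx hf hfx hn hVq hV h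
  have hker : ∀ z, f z = 0 → θ z = 0 := by
    intro z hz
    by_contra hne
    have h0 : θ z0 = 0 := by
      by_contra hne0
      obtain ⟨c, hc⟩ := h2 z0 hfz hne0
      exact hwz c hc
    obtain ⟨c, hc⟩ := h2 z hz hne
    obtain ⟨c', hc'⟩ := h2 (z + z0) (by rw [map_add, hz, hfz, add_zero])
      (by rw [map_add, h0, add_zero]; exact hne)
    refine hwz (c' - c) ?_
    rw [map_add, hc] at hc'
    rw [sub_smul, ← hc']
    abel
  obtain ⟨y, hy⟩ := exists_ap hf
  refine ⟨θ y, ?_⟩
  ext v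
  have h3 := hker (v - f v • y) (by rw [map_sub, map_smul, hy]; simp)
  rw [map_sub, map_smul, sub_eq_zero] at h3
  rw [h3]
  show f v * θ y = θ y * f v
  rw [mul_comm]

end Pool.Agent.H.MP_bb4c62_an.helper86.PG
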