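import Pool.Agent.H.MP_bb4c62_an.helper86.G5

/-!
Nilpotent points of a parallel set are adjacent to the line.
-/

namespace Pool.Agent.H.MP_bb4c62_an.helper86.PG

open Pool.Agent.H.MP_bb4c62_an.helper6.NL
open Pool.Agent.H.MP_bb4c62_an.helper6.Perturb
open Pool.Agent.H.MP_bb4c62_an.helper6.Gadgets
open Pool.Agent.H.MP_bb4c62_an.helper5.PL

variable {X : Type*} [NormedAddCommGroup X] [NormedSpace ℂ X]

/-- Proof. Suppose not: `w` is quasinilpotent (`h.qn`), so `f ((w ^ j) x) ≠ 0` for some `j`, `j ≥ 1`. Every `V ∈ l` is `b • w`: let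
`V = b • w + e • ten x f`. `b ≠ 0` by `h.off`. If `e ≠ 0` then `w + (e / b) • ten x f` is quasinilpotent (`h.qn`, `qn_smul`), so by
`rank_one_two_of_nilpotent` `w + τ • ten x f` is quasinilpotent for all `τ`, and `pencil_one` gives `f ((w ^ j) x) = 0`, contradiction.
Let `y = (w ^ j) x` and `k` from `exists_k1` (`k x = 1`, `k ((w ^ (i + 1)) x) = 0`). `T = ten y k`: `T ^ 2 = 0` (`k y = 0`), and for all `V = b • w ∈ l`
`QN (T - V)` since `k (((-b • w) ^ i) y) = 0` (`qn_add_smul_ten_of_orth`). `h.two` with `e = 0`: `QN (T - t • ten x f)` for all `t`; `pencil_one`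
(`D = T`, `n = 1`): `f (T x) = 0`, that is `k x * f y = 0`, contradiction. -/
theorem Par.lp [CompleteSpace X] {x : X} {f : X →L[ℂ] ℂ}
    (hx : x ≠ 0) (hf : f ≠ 0) (hfx : f x = 0) {l : Set (X →L[ℂ] X)} (h : Par x f l)
    {w : X →L[ℂ] X} (hw : w ∈ l) {n : ℕ} (hn : w ^ n = 0)
    (hform : ∀ V ∈ l, ∃ b e : ℂ, V = b • w + e • ten x f) : LP x f w := by
  by_contra hcon
  have hwq : QN w := h.qn w hw
  have hex : ∃ j, f ((w ^ j) x) ≠ 0 := by
    by_contra hne
    push Not at hne
    exact hcon ⟨hwq, hne⟩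
  obtain ⟨j, hj⟩ := hex
  have hj0 : j ≠ 0 := by
    rintro rfl
    exact hj (by rw [pow_zero]; exact hfx)
  have hall : ∀ V ∈ l, ∃ b : ℂ, V = b • w := by
    intro V hV
    obtain ⟨b, e, hbe⟩ := hform V hV
    by_cases he : e = 0
    · exact ⟨b, by rw [hbe, he, zero_smul, add_zero]⟩
    · exfalso
      have hb : b ≠ 0 := by
        rintro rfl
        exact h.off V hV e (by rw [hbe, zero_smul, zero_add])
      have hq : QN (w + (e / b) • ten x f) := by
        have h1 := qn_smul (h.qn V hV) b⁻¹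
        have h2 : b⁻¹ • V = w + (e / b) • ten x f := by
          rw [hbe, smul_add, smul_smul, smul_smul, inv_mul_cancel₀ hb, one_smul, div_eq_inv_mul]
        rwa [h2] at h1
      exact hj (pencil_one hwq
        (rank_one_two_of_nilpotent hwq ⟨n, hn⟩ (div_ne_zero he hb) hq) j)
  obtain ⟨k, hk1, hk⟩ := exists_k1 hn hx
  obtain ⟨i, rfl⟩ := Nat.exists_eq_succ_of_ne_zero hj0
  obtain ⟨y, hy⟩ : ∃ y : X, y = (w ^ (i + 1)) x := ⟨_, rfl⟩
  have hky : ∀ m : ℕ, k ((w ^ m) y) = 0 := by
    intro m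
    have e1 : (w ^ m) y = (w ^ (m + i + 1)) x := by
      rw [hy, add_assoc, pow_add w m (i + 1)]
      rfl
    rw [e1]
    exact hk (m + i)
  have hky0 : k y = 0 := by
    have := hky 0
    rwa [pow_zero] at this
  have hT : (ten y k) ^ 2 = 0 := by
    ext v
    rw [pow_two]
    show k (k v • y) • y = 0
    rw [map_smul, hky0, smul_zero, zero_smul]
  have hqT : QN (ten y k) := qn_of_pow hT
  have htw := h.two (ten y k) 2 0 hT (by
    intro V hV
    obtain ⟨b, rfl⟩ := hall V hV
    have h1 := qn_add_smul_ten_of_orth (D := (-b) • w) (qn_smul hwq (-b)) (y := y) (k := k)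
      (fun m => by
        rw [smul_pow]
        show k ((-b) ^ m • (w ^ m) y) = 0
        rw [map_smul, hky m, smul_zero]) 1
    have h2 : ten y k + (0 : ℂ) • ten x f - b • w = (-b) • w + (1 : ℂ) • ten y k := by
      rw [zero_smul, add_zero, one_smul, neg_smul]
      abel
    rw [h2]
    exact h1)
  have h3 := pencil_one hqT (y := x) (k := f) (fun t => by
    have := htw (-t)
    rwa [neg_smul, sub_neg_eq_add] at this) 1
  rw [pow_one] at h3
  have h4 : f (k x • y) = 0 := h3
  rw [hk1, one_smul, hy] at h4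
  exact hj h4

end Pool.Agent.H.MP_bb4c62_an.helper86.PG
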