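import Pool.Agent.H.MP_bb4c62_an.helper86.G0

/-!
The commutator trick: parallel sets in a plane.
-/

namespace Pool.Agent.H.MP_bb4c62_an.helper86.PG

open Pool.Agent.H.MP_bb4c62_an.helper6.NL
open Pool.Agent.H.MP_bb4c62_an.helper6.Perturb
open Pool.Agent.H.MP_bb4c62_an.helper6.Gadgets
open Pool.Agent.H.MP_bb4c62_an.helper5.PL

variable {X : Type*} [NormedAddCommGroup X] [NormedSpace ℂ X]

/-- `P` and `Q` have the same neighbours among the operators adjacent to the line of `ten x f` -/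
def G9R (x : X) (f : X →L[ℂ] ℂ) (P Q : X →L[ℂ] X) : Prop :=
  ∀ T, LP x f T → (QN (T - P) ↔ QN (T - Q))

theorem g9_symm {x : X} {f : X →L[ℂ] ℂ} {P Q : X →L[ℂ] X} (h : G9R x f P Q) : G9R x f Q P :=
  fun T hT => (h T hT).symm

theorem g9_trans {x : X} {f : X →L[ℂ] ℂ} {P Q S : X →L[ℂ] X} (h : G9R x f P Q)
    (h' : G9R x f Q S) : G9R x f P S :=
  fun T hT => (h T hT).trans (h' T hT)

theorem g9_lin [CompleteSpace X] {x : X} {f : X →L[ℂ] ℂ} {P Q : X →L[ℂ] X} (h : G9R x f P Q)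
    {s : ℂ} (hs : s ≠ 0) (t : ℂ) :
    G9R x f (s • P + t • ten x f) (s • Q + t • ten x f) := by
  intro T hT
  have key : ∀ P : X →L[ℂ] X, T - (s • P + t • ten x f) =
      s • ((s⁻¹ • T + (-(s⁻¹ * t)) • ten x f) - P) := by
    intro P
    rw [smul_sub, smul_add, smul_smul, smul_smul, mul_inv_cancel₀ hs, one_smul, mul_neg, ← mul_assoc,
      mul_inv_cancel₀ hs, one_mul, neg_smul]
    abel
  have h1 := h _ (hT.lin s⁻¹ (-(s⁻¹ * t)))
  rw [key P, key Q]
  exact (qn_smul_iff hs).trans (h1.trans (qn_smul_iff hs).symm)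

theorem g9_shift [CompleteSpace X] {x : X} {f : X →L[ℂ] ℂ} {w : X →L[ℂ] X} {δ : ℂ} (hδ : δ ≠ 0)
    (h : G9R x f (w + δ • ten x f) w) : Trans x f w := by
  intro T hT hTw
  have h1 : QN (T - (w + δ • ten x f)) := (h T hT).mpr hTw
  have h2 : G9R x f ((1 : ℂ) • (w + δ • ten x f) + δ • ten x f) ((1 : ℂ) • w + δ • ten x f) :=
    g9_lin h one_ne_zero δ
  have h3 : QN (T - ((1 : ℂ) • (w + δ • ten x f) + δ • ten x f)) := by
    refine (h2 T hT).mpr ?_
    rw [one_smul]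
    exact h1
  have a0 : QN (w - T) := qn_sub_comm.mp hTw
  have a1 : QN ((w - T) + δ • ten x f) := by
    have := qn_sub_comm.mp h1
    have e : w + δ • ten x f - T = (w - T) + δ • ten x f := by abel
    rwa [e] at this
  have a2 : QN ((w - T) + (2 * δ) • ten x f) := by
    have := qn_sub_comm.mp h3
    have e : (1 : ℂ) • (w + δ • ten x f) + δ • ten x f - T = (w - T) + (2 * δ) • ten x f := by
      rw [one_smul, two_mul, add_smul]; abel
    rwa [e] at this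
  have hne : δ ≠ 2 * δ := by
    intro h
    apply hδ
    linear_combination -h
  exact pencil_one a0 (rank_one_three a0 hδ (mul_ne_zero two_ne_zero hδ) hne a1 a2)

/-- Proof. Write `A = ten x f` and `R P Q` for: for all `T` with `LP x f T`, `QN (T - P) ↔ QN (T - Q)`. For `V, V' ∈ l`, `R V V'` (`h.one`).
`R P Q` implies `R (s • P + t • A) (s • Q + t • A)` for `s ≠ 0` (`LP.lin` for `s⁻¹ • T - (s⁻¹ * t) • A`, `qn_smul_iff`); `R` is symmetric and
transitive. (1) If `R (w + δ • A) w` with `δ ≠ 0` then `Trans x f w`: let `LP x f T`, `QN (T - w)`; then `QN (T - w - δ • A)`, and by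
`R (w + 2δ • A) (w + δ • A)`, `QN (T - w - (2 δ) • A)`; `rank_one_three` for `w - T`, `a = δ`, `b = 2 δ` and `pencil_one`.
(2) Let `V1 = b1 • w + e1 • A`, `V2 = b2 • w + e2 • A ∈ l`; `b1, b2 ≠ 0` by `h.off`. From `R w V2`: `R V1 ((b1 * b2) • w + (b1 * e2 + e1) • A)`; from
`R w V1`: `R V2 ((b2 * b1) • w + (b2 * e1 + e2) • A)`. As `R V1 V2`, the two right hand sides are related, and scaling back
`R (w + δ' • A) w` with `δ' = ((b1 * e2 + e1) - (b2 * e1 + e2)) / (b1 * b2)`. So if not `Trans x f w`, then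
`e1 * (1 - b2) = e2 * (1 - b1)` for all `V1, V2 ∈ l`. If all `b = 1`: choose `V ∈ l`, `V ≠ w` (`l` infinite), `V = w + e • A`, `e ≠ 0`, `R V w`, so `Trans`
by (1). Otherwise fix `V1` with `b1 ≠ 1` and put `ε = e1 / (1 - b1)`. -/
theorem Par.gamma [CompleteSpace X] {x : X} {f : X →L[ℂ] ℂ}
    (hfx : f x = 0) {l : Set (X →L[ℂ] X)} (h : Par x f l) {w : X →L[ℂ] X} (hw : w ∈ l)
    (hform : ∀ V ∈ l, ∃ b e : ℂ, V = b • w + e • ten x f) :
    Trans x f w ∨
      ∃ ε : ℂ, ∀ V ∈ l, ∃ b : ℂ, V = ε • ten x f + b • (w - ε • ten x f) := by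
  by_cases hT : Trans x f w
  · exact Or.inl hT
  right
  have hR : ∀ V ∈ l, ∀ V' ∈ l, G9R x f V V' := fun V hV V' hV' T hT =>
    ⟨h.one V hV V' hV' T hT, h.one V' hV' V hV T hT⟩
  have hb : ∀ b e : ℂ, b • w + e • ten x f ∈ l → b ≠ 0 := by
    intro b e hV hb0
    refine h.off _ hV e ?_
    rw [hb0, zero_smul, zero_add]
  have hcomm : ∀ b1 e1 b2 e2 : ℂ, b1 • w + e1 • ten x f ∈ l → b2 • w + e2 • ten x f ∈ l →
      e1 * (1 - b2) = e2 * (1 - b1) := by
    intro b1 e1 b2 e2 hV1 hV2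
    have hb1 := hb b1 e1 hV1
    have hb2 := hb b2 e2 hV2
    have r1 := g9_lin (hR w hw _ hV2) hb1 e1
    have r2 := g9_lin (hR w hw _ hV1) hb2 e2
    have r3 := g9_trans (g9_symm r1) (g9_trans (hR _ hV1 _ hV2) r2)
    have r4 := g9_lin r3 (inv_ne_zero (mul_ne_zero hb1 hb2))
      (-((b1 * b2)⁻¹ * (b2 * e1 + e2)))
    have hbb : b1 * b2 ≠ 0 := mul_ne_zero hb1 hb2
    have e1' : (b1 * b2)⁻¹ • (b1 • (b2 • w + e2 • ten x f) + e1 • ten x f) +
        (-((b1 * b2)⁻¹ * (b2 * e1 + e2))) • ten x f =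
        w + ((b1 * b2)⁻¹ * ((b1 * e2 + e1) - (b2 * e1 + e2))) • ten x f := by
      have : (b1 * b2)⁻¹ • (b1 • (b2 • w + e2 • ten x f) + e1 • ten x f) +
        (-((b1 * b2)⁻¹ * (b2 * e1 + e2))) • ten x f =
        ((b1 * b2)⁻¹ * (b1 * b2)) • w +
          ((b1 * b2)⁻¹ * ((b1 * e2 + e1) - (b2 * e1 + e2))) • ten x f := by
        module
      rw [this, inv_mul_cancel₀ hbb, one_smul]
    have e2' : (b1 * b2)⁻¹ • (b2 • (b1 • w + e1 • ten x f) + e2 • ten x f) +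
        (-((b1 * b2)⁻¹ * (b2 * e1 + e2))) • ten x f = w := by
      have : (b1 * b2)⁻¹ • (b2 • (b1 • w + e1 • ten x f) + e2 • ten x f) +
        (-((b1 * b2)⁻¹ * (b2 * e1 + e2))) • ten x f = ((b1 * b2)⁻¹ * (b1 * b2)) • w := by
        module
      rw [this, inv_mul_cancel₀ hbb, one_smul]
    rw [e1', e2'] at r4
    by_contra hne
    apply hT
    refine g9_shift ?_ r4
    refine mul_ne_zero (inv_ne_zero hbb) ?_
    intro h0
    apply hne
    linear_combination h0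
  by_cases hex : ∃ b1 e1 : ℂ, b1 • w + e1 • ten x f ∈ l ∧ b1 ≠ 1
  · obtain ⟨b1, e1, hV1, hb1⟩ := hex
    have hb1' : (1 : ℂ) - b1 ≠ 0 := sub_ne_zero.mpr (Ne.symm hb1)
    refine ⟨e1 / (1 - b1), fun V hV => ?_⟩
    obtain ⟨b, e, rfl⟩ := hform V hV
    refine ⟨b, ?_⟩
    have h1 := hcomm b1 e1 b e hV1 hV
    have h2 : e = e1 / (1 - b1) * (1 - b) := by
      field_simp
      linear_combination -h1
    rw [h2]
    module
  · exfalso
    apply hT
    obtain ⟨V, hV, hVw⟩ := h.inf.exists_notMem_finset {w}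
    rw [Finset.mem_singleton] at hVw
    obtain ⟨b, e, rfl⟩ := hform V hV
    have hb1 : b = 1 := by
      by_contra hne
      exact hex ⟨b, e, hV, hne⟩
    rw [hb1, one_smul] at hV hVw
    have he : e ≠ 0 := by
      intro he
      apply hVw
      rw [he, zero_smul, add_zero]
    exact g9_shift he (hR _ hV w hw)

end Pool.Agent.H.MP_bb4c62_an.helper86.PG
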