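import Pool.Agent.H.MP_bb4c62_an.helper86.G4
import Pool.Agent.H.MP_bb4c62_an.helper86.G6
import Pool.Agent.H.MP_bb4c62_an.helper86.G7
import Pool.Agent.H.MP_bb4c62_an.helper86.G8
import Pool.Agent.H.MP_bb4c62_an.helper86.G9
import Pool.Agent.H.MP_bb4c62_an.helper86.G10
import Pool.Agent.H.MP_bb4c62_an.helper86.G11
import Pool.Agent.H.MP_bb4c62_an.helper86.G12
import Pool.Agent.H.MP_bb4c62_an.helper86.G13

/-!
The points of a parallel set are tame.
-/

namespace Pool.Agent.H.MP_bb4c62_an.helper86.PG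

open Pool.Agent.H.MP_bb4c62_an.helper6.NL
open Pool.Agent.H.MP_bb4c62_an.helper6.Perturb
open Pool.Agent.H.MP_bb4c62_an.helper6.Gadgets
open Pool.Agent.H.MP_bb4c62_an.helper5.PL

variable {X : Type*} [NormedAddCommGroup X] [NormedSpace ℂ X]

/-- Proof. If for all `z` with `f z = 0` the vector `V z` is a multiple of `x`: `exists_form_of_ker` and `tame_of_form`. Otherwise there is `z0`
with `f z0 = 0`, `V z0` not a multiple of `x`. `V ^ n = 0` (`Par.nilpotent`). For all `V' ∈ l`: `nil_form1` and `nil_form2` with `w = V` (`h.one`) give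
`V' = b • V + e • ten x f`. `Par.lp`: `LP x f V`. `Par.gamma`: either `Trans x f V`, contradiction by `trans_wx`, `trans_fw`, `trans_false`, or `Par.line_false`. -/
theorem Par.tame [CompleteSpace X] (hX : ¬ Module.Finite ℂ X) {x : X} {f : X →L[ℂ] ℂ}
    (hx : x ≠ 0) (hf : f ≠ 0) (hfx : f x = 0) {l : Set (X →L[ℂ] X)} (h : Par x f l)
    {V : X →L[ℂ] X} (hV : V ∈ l) : Tame x f V := by
  by_cases hall : ∀ z, f z = 0 → ∃ c : ℂ, V z = c • x
  · obtain ⟨θ, q, hθ⟩ := exists_form_of_ker hx hf hall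
    exact tame_of_form hx hf hfx (h.qn V hV) hθ
  exfalso
  push Not at hall
  obtain ⟨z0, hfz, hVz⟩ := hall
  obtain ⟨n, hn⟩ := h.nilpotent hX hx hf hfx hV
  have hform : ∀ V' ∈ l, ∃ b e : ℂ, V' = b • V + e • ten x f := by
    intro V' hV'
    have h1 : ∀ T, LP x f T → QN (T - V) → QN (T - V') := fun T hT hq => h.one V hV V' hV' T hT hq
    obtain ⟨b, θ, hb⟩ := nil_form1 hX hx hfx hn (h.qn V' hV') h1
    obtain ⟨e, he⟩ := nil_form2 hX hx hf hfx hn (h.qn V' hV') hb h1 hfz hVz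
    refine ⟨b, e, ?_⟩
    rw [hb, he]
    congr 1
    ext v
    simp only [ten_apply, smul_apply, smul_eq_mul, mul_smul]
  have hlp : LP x f V := h.lp hx hf hfx hV hn hform
  rcases h.gamma hfx hV hform with ht | ⟨ε, hε⟩
  · have hwx := trans_wx hX hx hf hfx hn hlp ht
    have hfw := trans_fw hX hx hf hfx hn hwx ht
    exact trans_false hX hx hf hfx hn hwx hfw ht hfz hVz
  · exact h.line_false hX hx hf hfx hn hlp hfz hVz hε

end Pool.Agent.H.MP_bb4c62_an.helper86.PG
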