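import Pool.Agent.H.MP_bb4c62_an.helper86.G14

/-!
The only quasi-line of quasinilpotent operators through 0 and A is the line spanned by A.
-/

namespace Pool.Agent.H.MP_bb4c62_an.helper86.PG

open Pool.Agent.H.MP_bb4c62_an.helper6.NL
open Pool.Agent.H.MP_bb4c62_an.helper6.Perturb
open Pool.Agent.H.MP_bb4c62_an.helper6.Gadgets
open Pool.Agent.H.MP_bb4c62_an.helper5.PL

variable {X : Type*} [NormedAddCommGroup X] [NormedSpace ℂ X]

theorem g15_par [CompleteSpace X] {m : Set (X →L[ℂ] X)}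
    (hm : IsQLine m) {x : X} {f : X →L[ℂ] ℂ} (hx : x ≠ 0) (hf : f ≠ 0)
    (h0 : (0 : X →L[ℂ] X) ∈ m) (hA : ten x f ∈ m) (hq : ∀ V ∈ m, QN V)
    (hoff : ∀ V ∈ m, V ∈ rline 0 (ten x f) → V = 0 ∨ V = ten x f) :
    Par x f {V | V ∈ m ∧ V ≠ 0 ∧ V ≠ ten x f} := by
  have hA0 : ten x f ≠ 0 := by
    rw [Ne, ten_eq_zero_iff]; push Not; exact ⟨hx, hf⟩
  have hinf : {V | V ∈ m ∧ V ≠ 0 ∧ V ≠ ten x f}.Infinite := by
    have h1 := hm.inf.sdiff (Set.toFinite ({0, ten x f} : Set (X →L[ℂ] X)))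
    refine h1.mono ?_
    rintro V ⟨hV, hV'⟩
    refine ⟨hV, fun e => hV' ?_, fun e => hV' ?_⟩
    · rw [e]; simp
    · rw [e]; simp
  refine ⟨hinf, fun V hV => hq V hV.1, ?_, ?_, ?_⟩
  · rintro V ⟨hV, hV0, hV1⟩ t ht
    rcases hoff V hV ⟨t, by simp [ht]⟩ with h | h
    · exact hV0 h
    · exact hV1 h
  · rintro V ⟨hV, hV0, hV1⟩ V' ⟨hV', -, -⟩ T hT hTV
    have h1 : QN (T - ten x f) := by
      have := hT.qn_sub 1
      rwa [one_smul] at this
    exact hm.gen T 0 (ten x f) V h0 hA hV hA0.symm hV0.symm hV1.symm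
      (by rw [sub_zero]; exact hT.1) h1 hTV V' hV'
  · intro T n e hT hTl t
    obtain ⟨a, b, c, ha, hb, hc, hab, hac, hbc⟩ := exists_three hinf
    have hgen := hm.gen (T + e • ten x f) a b c ha.1 hb.1 hc.1 hab hac hbc (hTl a ha) (hTl b hb)
      (hTl c hc)
    have h1 := hgen 0 h0
    rw [sub_zero] at h1
    have h2 := hgen _ hA
    have e2 : T + e • ten x f - ten x f = T + (e - 1) • ten x f := by
      rw [sub_smul, one_smul]; abel
    rw [e2] at h2
    have hTq : QN T := qn_of_pow hT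
    have key : ∀ τ : ℂ, QN (T + τ • ten x f) := by
      by_cases he : e = 0
      · refine rank_one_two_of_nilpotent hTq ⟨n, hT⟩ (a := e - 1) ?_ h2
        rw [he, zero_sub]
        exact neg_ne_zero.mpr one_ne_zero
      · exact rank_one_two_of_nilpotent hTq ⟨n, hT⟩ he h1
    have := key (-t)
    rwa [neg_smul, ← sub_eq_add_neg] at this

/-- Proof. Suppose `m ≠ rline 0 A`, `A = ten x f`. `rline 0 A` is a quasi-line (`isPLine_rline`), so by `IsQLine.eq_of_three` the only points of `m` which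
are multiples of `A` are `0` and `A`. Let `l = {V ∈ m | V ≠ 0 ∧ V ≠ A}`. `Par x f l`: `one`: `QN T`, `QN (T - A)` (`LP.qn_sub` with `t = 1`), `QN (T - V)`,
so `hm.gen`; `two`: `l` is infinite, so it contains three points and `hm.gen` gives `QN (T + e • A - 0)` and `QN (T + e • A - A)`; `T` is nilpotent, one of
`e`, `e - 1` is not zero, `rank_one_two_of_nilpotent` gives `QN (T + τ • A)` for all `τ`. So all points of `l` are tame (`Par.tame`), also `0` and `A`.
So `m` is a clique (`Tame.sub`, `Tame.qn`), `m` is an `IsLine`, and `tame_line` (with `exists_li3 hX`) gives `m = rline 0 A`. -/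
theorem bline [CompleteSpace X] (hX : ¬ Module.Finite ℂ X) {m : Set (X →L[ℂ] X)}
    (hm : IsQLine m) {x : X} {f : X →L[ℂ] ℂ} (hx : x ≠ 0) (hf : f ≠ 0) (hfx : f x = 0)
    (h0 : (0 : X →L[ℂ] X) ∈ m) (hA : ten x f ∈ m) (hq : ∀ V ∈ m, QN V) :
    m = rline 0 (ten x f) := by
  have hA0 : ten x f ≠ 0 := by
    rw [Ne, ten_eq_zero_iff]; push Not; exact ⟨hx, hf⟩
  by_contra hne
  have hR := (isPLine_rline hX hx hf hfx).qline
  have h0R : (0 : X →L[ℂ] X) ∈ rline 0 (ten x f) := ⟨0, by simp⟩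
  have hAR : ten x f ∈ rline 0 (ten x f) := ⟨1, by simp⟩
  have hoff : ∀ V ∈ m, V ∈ rline 0 (ten x f) → V = 0 ∨ V = ten x f := by
    intro V hV hVR
    by_contra hcon
    push Not at hcon
    exact hne (hm.eq_of_three hR h0 hA hV h0R hAR hVR hA0.symm hcon.1.symm hcon.2.symm)
  have hpar := g15_par hm hx hf h0 hA hq hoff
  have htame : ∀ V ∈ m, Tame x f V := by
    intro V hV
    by_cases hV0 : V = 0
    · exact ⟨0, 0, by rw [hV0, ten_zero_right, ten_zero_left, add_zero], rfl, map_zero f⟩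
    by_cases hV1 : V = ten x f
    · exact ⟨f, 0, by rw [hV1, ten_zero_left, add_zero], hfx, map_zero f⟩
    exact hpar.tame hX hx hf hfx ⟨hV, hV0, hV1⟩
  have hline : IsLine m := ⟨hm.inf, fun S hS T hT => Tame.qn hfx (Tame.sub (htame S hS) (htame T hT)),
    hm.gen, hm.closed⟩
  obtain ⟨v, hv⟩ := exists_li3 hX
  exact hne (tame_line hv hline hx hf hfx h0 hA htame)

/-- Proof. `a '' rline 0 A` is a quasi-line (`IsQLine.image`) through `0` and `A`, and `QN (a (t • A))` because `QN (a (t • A) - b 0)`. -/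
theorem image_line [CompleteSpace X] (hX : ¬ Module.Finite ℂ X)
    {a b : (X →L[ℂ] X) → (X →L[ℂ] X)} (h : IsPair a b) (hb0 : b 0 = 0) {x : X}
    {f : X →L[ℂ] ℂ} (hx : x ≠ 0) (hf : f ≠ 0) (hfx : f x = 0)
    (h0 : (0 : X →L[ℂ] X) ∈ a '' rline 0 (ten x f))
    (hA : ten x f ∈ a '' rline 0 (ten x f)) :
    a '' rline 0 (ten x f) = rline 0 (ten x f) := by
  have hR := isPLine_rline hX hx hf hfx
  refine bline hX (hR.qline.image h) hx hf hfx h0 hA ?_
  rintro _ ⟨S, hS, rfl⟩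
  have h1 : QN (a S - b 0) := by
    rw [h.qn, sub_zero]
    exact hR.qn hS
  rwa [hb0, sub_zero] at h1

end Pool.Agent.H.MP_bb4c62_an.helper86.PG
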