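import Pool.Agent.H.MP_bb4c62_an.helper86.G15

/-!
Images of lines parallel to the line spanned by A form parallel sets.
-/

namespace Pool.Agent.H.MP_bb4c62_an.helper86.PG

open Pool.Agent.H.MP_bb4c62_an.helper6.NL
open Pool.Agent.H.MP_bb4c62_an.helper6.Perturb
open Pool.Agent.H.MP_bb4c62_an.helper6.Gadgets
open Pool.Agent.H.MP_bb4c62_an.helper5.PL

variable {X : Type*} [NormedAddCommGroup X] [NormedSpace ℂ X]

theorem g16_inv {x : X} {f : X →L[ℂ] ℂ} {S D : X →L[ℂ] X} (hS : ∀ n : ℕ, f ((S ^ n) x) = 0)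
    (hD : ∀ v, f v = 0 → ∃ c : ℂ, D v = S v + c • x) (n : ℕ) : f ((D ^ n) x) = 0 := by
  set M := Submodule.span ℂ (Set.range fun i : ℕ => (S ^ i) x) with hM
  have hMf : ∀ v ∈ M, f v = 0 := by
    intro v hv
    refine Submodule.span_induction ?_ (map_zero f) ?_ ?_ hv
    · rintro _ ⟨i, rfl⟩; exact hS i
    · intro a b _ _ ha hb; rw [map_add, ha, hb, add_zero]
    · intro c a _ ha; rw [map_smul, ha, smul_zero]
  have hMS : ∀ v ∈ M, S v ∈ M := by
    intro v hv
    refine Submodule.span_induction ?_ (by rw [map_zero]; exact M.zero_mem) ?_ ?_ hv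
    · rintro _ ⟨i, rfl⟩
      refine Submodule.subset_span ⟨i + 1, ?_⟩
      show (S ^ (i + 1)) x = S ((S ^ i) x)
      rw [pow_succ']; rfl
    · intro a b _ _ ha hb; rw [map_add]; exact M.add_mem ha hb
    · intro c a _ ha; rw [map_smul]; exact M.smul_mem c ha
  have hx : x ∈ M := Submodule.subset_span ⟨0, by simp⟩
  have hn : (D ^ n) x ∈ M := by
    induction n with
    | zero => simpa using hx
    | succ n ih =>
      have e : (D ^ (n + 1)) x = D ((D ^ n) x) := by rw [pow_succ']; rfl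
      obtain ⟨c, hc⟩ := hD _ (hMf _ ih)
      rw [e, hc]
      exact M.add_mem (hMS _ ih) (M.smul_mem c hx)
  exact hMf _ hn

/-- Proof. By induction `((S - ten x h) ^ n) x` is in the span of the vectors `(S ^ i) x`, on which `f` vanishes; `qn_add_smul_ten_of_orth`. -/
theorem parallel_rule [CompleteSpace X] {x : X} {f h : X →L[ℂ] ℂ} {S : X →L[ℂ] X}
    (hS : LP x f S) (hq : QN (S - ten x h)) (t : ℂ) : QN (S - ten x h - t • ten x f) := by
  have h1 := qn_add_smul_ten_of_orth (D := S - ten x h) hq (y := x) (k := f)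
    (g16_inv hS.2 fun v _ => ⟨-h v, by
      show S v - h v • x = S v + (-h v) • x
      rw [neg_smul, sub_eq_add_neg]⟩) (-t)
  rwa [neg_smul, ← sub_eq_add_neg] at h1

/-- Proof. `D = S - ten x h` (`t = 0`); `pencil_one`: `f ((D ^ n) x) = 0` for all `n`; `(S ^ n) x` is in the span of the `(D ^ i) x`. -/
theorem parallel_rule_conv [CompleteSpace X] {x : X} {f h : X →L[ℂ] ℂ} {S : X →L[ℂ] X}
    (hS : QN S) (hq : ∀ t : ℂ, QN (S - ten x h - t • ten x f)) : LP x f S := by
  have h0 : LP x f (S - ten x h) := lp_of_qn_sub hq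
  refine ⟨hS, g16_inv h0.2 fun v _ => ⟨h v, ?_⟩⟩
  show S v = (S v - h v • x) + h v • x
  rw [sub_add_cancel]

/-- Proof. `V = ten x θ + ten q f`; the span `M` of the `(T ^ i) x` is invariant under `T - V` (`f = 0` on `M`, `x ∈ M`), so
`f (((T - V) ^ n) x) = 0`. -/
theorem tame_parallel [CompleteSpace X] {x : X} {f : X →L[ℂ] ℂ} {V T : X →L[ℂ] X}
    (hV : Tame x f V) (hT : LP x f T) (hq : QN (T - V)) (t : ℂ) :
    QN (T - (V + t • ten x f)) := by
  obtain ⟨θ, q, rfl, h1, h2⟩ := hV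
  have h3 := qn_add_smul_ten_of_orth (D := T - (ten x θ + ten q f)) hq (y := x) (k := f)
    (g16_inv hT.2 fun v hv => ⟨-θ v, by
      show T v - (θ v • x + f v • q) = T v + (-θ v) • x
      rw [hv, zero_smul, add_zero, neg_smul, sub_eq_add_neg]⟩) (-t)
  rw [neg_smul, ← sub_eq_add_neg] at h3
  rw [← sub_sub]
  exact h3

/-- Proof. `image_line` (`0 = a 0`, `ten x f = a (ten x f)`): `a '' rline 0 A = rline 0 A`. So `LP x f (b S)` iff `QN (b S - a U)` for all `U ∈ rline 0 A`
iff `QN (S - U)` for all `U ∈ rline 0 A`. -/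
theorem lp_transfer [CompleteSpace X] (hX : ¬ Module.Finite ℂ X)
    {a b : (X →L[ℂ] X) → (X →L[ℂ] X)} (h : IsPair a b) (ha0 : a 0 = 0) (hb0 : b 0 = 0) {x : X}
    {f : X →L[ℂ] ℂ} (hx : x ≠ 0) (hf : f ≠ 0) (hfx : f x = 0) (hA : a (ten x f) = ten x f)
    (S : X →L[ℂ] X) : LP x f (b S) ↔ LP x f S := by
  have h0R : (0 : X →L[ℂ] X) ∈ rline 0 (ten x f) := ⟨0, by simp⟩
  have hAR : ten x f ∈ rline 0 (ten x f) := ⟨1, by simp⟩
  have him := image_line hX h hb0 hx hf hfx ⟨0, h0R, ha0⟩ ⟨_, hAR, hA⟩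
  have key : ∀ T : X →L[ℂ] X, LP x f T ↔ ∀ U ∈ rline 0 (ten x f), QN (T - U) := by
    intro T
    constructor
    · rintro hT _ ⟨t, rfl⟩
      have := hT.qn_sub t
      show QN (T - (0 + t • ten x f))
      rwa [zero_add]
    · intro hT
      refine lp_of_qn_sub fun t => ?_
      have := hT (0 + t • ten x f) ⟨t, rfl⟩
      rwa [zero_add] at this
  rw [key, key]
  constructor
  · intro h1 U hU
    have h2 : a U ∈ rline 0 (ten x f) := by rw [← him]; exact ⟨U, hU, rfl⟩
    have h3 := h1 _ h2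
    rw [qn_sub_comm, h.qn, qn_sub_comm] at h3
    exact h3
  · intro h1 U hU
    rw [← him] at hU
    obtain ⟨U', hU', rfl⟩ := hU
    rw [qn_sub_comm, h.qn, qn_sub_comm]
    exact h1 _ hU'

/-- Proof. Write `B = ten x k`, `A = ten x f`, `L = rline 0 A = a '' L` (`image_line`).
`inf`: injective image of `rline B A` (`isLine_rline`). `qn`: `QN (a (B + s • A) - b 0)`, `B + s • A = ten x (k + s • f)` has square zero.
`off`: `a (B + s • A) = t • A ∈ L = a '' L` would give `k = c • f`. `one`: `T = b S` (surjective), `LP x f S` (`lp_transfer`), `QN (S - (B + s • A))`, so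
`QN (S - (B + s' • A))` by `parallel_rule` (`h = k + s • f`), and back. `two`: `T ^ n = 0`, `T'' = T + e • A = b S`, `QN (S - (B + s • A))` for all `s`;
`QN (T'' - e • A)`, `e • A = a (e' • A)`, so `QN (S - e' • A)`; with `S' = S - e' • A`, `parallel_rule_conv` gives `LP x f S'`, so `LP x f S` (`LP.lin`),
`LP x f (b S)`, `LP x f T`. -/
theorem par_image [CompleteSpace X] (hX : ¬ Module.Finite ℂ X)
    {a b : (X →L[ℂ] X) → (X →L[ℂ] X)} (h : IsPair a b) (ha0 : a 0 = 0) (hb0 : b 0 = 0) {x : X}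
    {f : X →L[ℂ] ℂ} (hx : x ≠ 0) (hf : f ≠ 0) (hfx : f x = 0) (hA : a (ten x f) = ten x f)
    {k : X →L[ℂ] ℂ} (hkx : k x = 0) (hk : ∀ c : ℂ, k ≠ c • f) :
    Par x f (a '' rline (ten x k) (ten x f)) := by
  have h0R : (0 : X →L[ℂ] X) ∈ rline 0 (ten x f) := ⟨0, by simp⟩
  have hAR : ten x f ∈ rline 0 (ten x f) := ⟨1, by simp⟩
  have him := image_line hX h hb0 hx hf hfx ⟨0, h0R, ha0⟩ ⟨_, hAR, hA⟩
  have hBs : ∀ s : ℂ, ten x k + s • ten x f = ten x (k + s • f) := by
    intro s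
    ext v
    show k v • x + s • (f v • x) = (k v + s • f v) • x
    rw [add_smul, smul_smul]; rfl
  have hinjten : ∀ g g' : X →L[ℂ] ℂ, ten x g = ten x g' → g = g' := by
    intro g g' hgg
    ext v
    have h1 : (ten x g) v = (ten x g') v := by rw [hgg]
    have h2 : g v • x = g' v • x := h1
    have h3 : (g v - g' v) • x = 0 := by rw [sub_smul, h2, sub_self]
    exact sub_eq_zero.mp ((smul_eq_zero.mp h3).resolve_right hx)
  have hqnB : ∀ s : ℂ, QN (ten x k + s • ten x f) := by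
    intro s
    refine qn_of_pow (n := 2) ?_
    rw [hBs]
    ext v
    have e : ((ten x (k + s • f)) ^ 2) v = (ten x (k + s • f)) ((ten x (k + s • f)) v) := by
      rw [pow_two]; rfl
    have e2 : ∀ w, (ten x (k + s • f)) w = (k w + s * f w) • x := fun w => rfl
    rw [e, e2 v, map_smul, e2 x, hkx, hfx, mul_zero, add_zero, zero_smul, smul_zero]
    rfl
  refine ⟨?_, ?_, ?_, ?_, ?_⟩
  · obtain ⟨v, hv⟩ := exists_li3 hX
    exact ((isLine_rline hv hx hf hfx (ten x k)).inf).image h.bij.1.injOn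
  · rintro _ ⟨_, ⟨s, rfl⟩, rfl⟩
    have h1 : QN (a (ten x k + s • ten x f) - b 0) := by
      rw [h.qn, sub_zero]; exact hqnB s
    rwa [hb0, sub_zero] at h1
  · rintro _ ⟨_, ⟨s, rfl⟩, rfl⟩ t ht
    have h1 : t • ten x f ∈ a '' rline 0 (ten x f) := by
      rw [him]; exact ⟨t, by show (0 : X →L[ℂ] X) + t • ten x f = t • ten x f; rw [zero_add]⟩
    obtain ⟨_, ⟨r, rfl⟩, hr⟩ := h1
    have h2 : (0 : X →L[ℂ] X) + r • ten x f = ten x k + s • ten x f := h.bij.1 (hr.trans ht.symm)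
    rw [zero_add, hBs, ← ten_smul_right] at h2
    have h3 := hinjten _ _ h2
    refine hk (r - s) ?_
    ext v
    have h5 : (r • f) v = (k + s • f) v := by rw [h3]
    have h6 : r * f v = k v + s * f v := h5
    show k v = (r - s) * f v
    rw [sub_mul, h6]; ring
  · rintro _ ⟨_, ⟨s, rfl⟩, rfl⟩ _ ⟨_, ⟨s', rfl⟩, rfl⟩ T hT hq
    obtain ⟨S, rfl⟩ := h.bij'.2 T
    have hS : LP x f S := (lp_transfer hX h ha0 hb0 hx hf hfx hA S).mp hT
    show QN (b S - a (ten x k + s' • ten x f))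
    have hq' : QN (b S - a (ten x k + s • ten x f)) := hq
    rw [qn_sub_comm, h.qn, qn_sub_comm] at hq' ⊢
    rw [hBs] at hq'
    have := parallel_rule hS hq' (s' - s)
    have e : S - (ten x k + s' • ten x f) = S - ten x (k + s • f) - (s' - s) • ten x f := by
      rw [← hBs, sub_smul]; abel
    rwa [e]
  · intro T n e hTn hV t
    obtain ⟨S, hS⟩ := h.bij'.2 (T + e • ten x f)
    have h1 : ∀ s : ℂ, QN (S - (ten x k + s • ten x f)) := by
      intro s
      have := hV _ ⟨_, ⟨s, rfl⟩, rfl⟩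
      rw [← hS] at this
      rw [qn_sub_comm, ← h.qn, qn_sub_comm]
      exact this
    have h2 : QN (b S - e • ten x f) := by
      rw [hS, add_sub_cancel_right]; exact qn_of_pow hTn
    have h3 : e • ten x f ∈ a '' rline 0 (ten x f) := by
      rw [him]; exact ⟨e, by show (0 : X →L[ℂ] X) + e • ten x f = e • ten x f; rw [zero_add]⟩
    obtain ⟨_, ⟨r, rfl⟩, hr⟩ := h3
    have h4 : QN (S - r • ten x f) := by
      rw [← hr, qn_sub_comm, h.qn, qn_sub_comm] at h2
      have h2' : QN (S - (0 + r • ten x f)) := h2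
      rwa [zero_add] at h2'
    have h5 : LP x f (S - r • ten x f) := by
      refine parallel_rule_conv (h := k) h4 fun u => ?_
      have := h1 (r + u)
      have e1 : S - r • ten x f - ten x k - u • ten x f = S - (ten x k + (r + u) • ten x f) := by
        rw [add_smul]; abel
      rwa [e1]
    have h6 : LP x f S := by
      have := h5.lin 1 r
      rwa [one_smul, sub_add_cancel] at this
    have h7 : LP x f (b S) := (lp_transfer hX h ha0 hb0 hx hf hfx hA S).mpr h6
    rw [hS] at h7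
    have h8 := h7.qn_sub (e + t)
    have e2 : T + e • ten x f - (e + t) • ten x f = T - t • ten x f := by
      rw [add_smul]; abel
    rwa [e2] at h8

end Pool.Agent.H.MP_bb4c62_an.helper86.PG
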