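import Pool.Agent.H.MP_bb4c62_an.helper86.G16

/-!
Images of lines parallel to the line spanned by A are parallel to it.
-/

namespace Pool.Agent.H.MP_bb4c62_an.helper86.PG

open Pool.Agent.H.MP_bb4c62_an.helper6.NL
open Pool.Agent.H.MP_bb4c62_an.helper6.Perturb
open Pool.Agent.H.MP_bb4c62_an.helper6.Gadgets
open Pool.Agent.H.MP_bb4c62_an.helper5.PL

variable {X : Type*} [NormedAddCommGroup X] [NormedSpace ℂ X]

theorem g16b_ten_add (x : X) (g1 g2 : X →L[ℂ] ℂ) :
    ten x (g1 + g2) = ten x g1 + ten x g2 := by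
  ext v
  show (g1 v + g2 v) • x = g1 v • x + g2 v • x
  rw [add_smul]

theorem g16b_ten_smul (x : X) (c : ℂ) (g : X →L[ℂ] ℂ) : ten x (c • g) = c • ten x g := by
  ext v
  show (c * g v) • x = c • (g v • x)
  rw [smul_smul]

theorem g16b_inj {x : X} (hx : x ≠ 0) {g1 g2 : X →L[ℂ] ℂ} (h : ten x g1 = ten x g2) :
    g1 = g2 := by
  ext v
  have h1 : (ten x g1) v = (ten x g2) v := by rw [h]
  have h2 : g1 v • x = g2 v • x := h1
  by_contra hne
  have h3 : (g1 v - g2 v) • x = 0 := by rw [sub_smul, h2, sub_self]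
  rcases smul_eq_zero.mp h3 with h4 | h4
  · exact hne (sub_eq_zero.mp h4)
  · exact hx h4

/-- tame operators plus multiples of `ten x f` are tame -/
theorem g16b_tame {x : X} {f : X →L[ℂ] ℂ} (hfx : f x = 0) {V : X →L[ℂ] X} (hV : Tame x f V)
    (t : ℂ) : Tame x f (V + t • ten x f) := by
  obtain ⟨θ, q, rfl, h1, h2⟩ := hV
  refine ⟨θ + t • f, q, ?_, ?_, h2⟩
  · rw [g16b_ten_add, g16b_ten_smul]; abel
  · show θ x + t * f x = 0
    rw [h1, hfx, mul_zero, add_zero]

/-- functionals vanishing on the intersection of two kernels -/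
theorem g16b_span {f k θ : X →L[ℂ] ℂ} (hf : f ≠ 0) (hk : ∀ c : ℂ, k ≠ c • f)
    (h : ∀ y, f y = 0 → k y = 0 → θ y = 0) : ∃ α β : ℂ, θ = α • f + β • k := by
  obtain ⟨z, hz⟩ := exists_ap hf
  obtain ⟨y2, hy2, hky2⟩ : ∃ y2, f y2 = 0 ∧ k y2 ≠ 0 := by
    by_contra hcon
    push Not at hcon
    apply hk (k z)
    ext v
    have h1 : f (v - f v • z) = 0 := by
      rw [map_sub, map_smul, hz, smul_eq_mul, mul_one, sub_self]
    have h2 := hcon _ h1
    rw [map_sub, map_smul, sub_eq_zero, smul_eq_mul] at h2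
    show k v = k z * f v
    rw [h2, mul_comm]
  set y1 := z - (k z / k y2) • y2 with hy1
  have hf1 : f y1 = 1 := by
    rw [hy1, map_sub, map_smul, hy2, smul_zero, sub_zero, hz]
  have hk1 : k y1 = 0 := by
    rw [hy1, map_sub, map_smul, smul_eq_mul, div_mul_cancel₀ _ hky2, sub_self]
  refine ⟨θ y1, θ y2 / k y2, ?_⟩
  ext v
  have h1 : f (v - f v • y1 - (k v / k y2) • y2) = 0 := by
    rw [map_sub, map_sub, map_smul, map_smul, hf1, hy2, smul_zero, smul_eq_mul, mul_one,
      sub_self, sub_zero]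
  have h2 : k (v - f v • y1 - (k v / k y2) • y2) = 0 := by
    rw [map_sub, map_sub, map_smul, map_smul, hk1, smul_zero, sub_zero, smul_eq_mul,
      div_mul_cancel₀ _ hky2, sub_self]
  have h3 := h _ h1 h2
  rw [map_sub, map_sub, map_smul, map_smul, smul_eq_mul, smul_eq_mul] at h3
  show θ v = θ y1 * f v + θ y2 / k y2 * k v
  field_simp
  field_simp at h3
  linear_combination h3

/-- the shape of the operators adjacent to everything adjacent to `ten x k` and to the line -/
theorem g16b_form [CompleteSpace X] (hX : ¬ Module.Finite ℂ X) {x : X} {f k : X →L[ℂ] ℂ}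
    (hx : x ≠ 0) (hf : f ≠ 0) (hfx : f x = 0) (hkx : k x = 0) (hk : ∀ c : ℂ, k ≠ c • f)
    {W : X →L[ℂ] X} (hW : QN W) (h : ∀ S, LP x f S → QN (S - ten x k) → QN (S - W)) :
    ∃ α β : ℂ, W = ten x (α • f + β • k) := by
  have key : ∀ (y : X) (g : X →L[ℂ] ℂ), g y = 0 → (g x = 0 ∨ (f y = 0 ∧ k y = 0)) →
      g (W y) = 0 := by
    intro y g hgy hcase
    have hpen : ∀ t : ℂ, QN (W + t • ten y g) := by
      intro t
      have hS : QN ((-t) • ten y g) := qn_smul (qn_of_sq (ten_sq hgy)) _
      have hLP : LP x f ((-t) • ten y g) := by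
        rcases hcase with h1 | ⟨h1, -⟩
        · refine LP.of_kill hfx hS ?_
          show (-t) • (g x • y) = 0
          rw [h1, zero_smul, smul_zero]
        · refine LP.of_left hfx hS fun v => ?_
          show f ((-t) • (g v • y)) = 0
          rw [map_smul, map_smul, h1, smul_zero, smul_zero]
      have hB2 : ten x k * ten x k = 0 := ten_sq hkx
      have hq : QN ((-t) • ten y g - ten x k) := by
        have hnB : QN (-ten x k) := qn_neg (qn_of_sq (ten_sq hkx))
        have := qn_add_smul_ten_of_orth (D := -ten x k) hnB (y := y) (k := g) (fun n => ?_) (-t)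
        · rwa [neg_add_eq_sub] at this
        · match n with
          | 0 => exact hgy
          | 1 =>
            rw [pow_one]
            show g (-(k y • x)) = 0
            rw [map_neg, map_smul]
            rcases hcase with h1 | ⟨-, h1⟩
            · rw [h1, smul_zero, neg_zero]
            · rw [h1, zero_smul, neg_zero]
          | n + 2 =>
            have e : (-ten x k) ^ (n + 2) = 0 := by
              rw [pow_add, pow_two, neg_mul_neg, hB2, mul_zero]
            rw [e]
            exact map_zero g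
      have h3 := h _ hLP hq
      rw [qn_sub_comm] at h3
      have e : W + t • ten y g = W - (-t) • ten y g := by
        rw [neg_smul, sub_neg_eq_add]
      rw [e]
      exact h3
    have := pencil_one hW hpen 1
    rwa [pow_one] at this
  obtain ⟨θ, q, hWe, hθ, hfq⟩ := tame_of hX hx hf hfx hW fun y g _ h2 h3 =>
    key y g h3 (Or.inl h2)
  have hWv : ∀ v, W v = θ v • x + f v • q := fun v => by rw [hWe]; rfl
  obtain ⟨y, hy⟩ := exists_ap hf
  have hq : ∃ c : ℂ, q = c • x := by
    have hmem : q ∈ Submodule.span ℂ ({x, y} : Set X) := by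
      by_contra hcon
      obtain ⟨g, hg, hgq⟩ := exists_sep_sub (Submodule.fg_span (Set.toFinite _)) hcon
      have hgx : g x = 0 := hg x (Submodule.subset_span (by simp))
      have hgy : g y = 0 := hg y (Submodule.subset_span (by simp))
      have h1 := key y g hgy (Or.inl hgx)
      rw [hWv, map_add, map_smul, map_smul, hgx, smul_zero, zero_add, hy, one_smul, hgq] at h1
      exact one_ne_zero h1
    obtain ⟨a1, b1, hab⟩ := Submodule.mem_span_pair.mp hmem
    have h1 : f q = b1 := by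
      rw [← hab, map_add, map_smul, map_smul, hfx, hy, smul_zero, zero_add, smul_eq_mul, mul_one]
    rw [hfq] at h1
    refine ⟨a1, ?_⟩
    rw [← hab, ← h1, zero_smul, add_zero]
  obtain ⟨c, rfl⟩ := hq
  have hWe' : W = ten x (θ + c • f) := by
    rw [hWe, g16b_ten_add, g16b_ten_smul]
    congr 1
    ext v
    show f v • (c • x) = c • (f v • x)
    rw [smul_smul, smul_smul, mul_comm]
  have hθ' : (θ + c • f) x = 0 := by
    show θ x + c * f x = 0
    rw [hθ, hfx, mul_zero, add_zero]
  obtain ⟨α, β, hαβ⟩ := g16b_span (θ := θ + c • f) hf hk (fun v hfv hkv => by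
    by_cases hv : v ∈ Submodule.span ℂ ({x} : Set X)
    · obtain ⟨a1, rfl⟩ := Submodule.mem_span_singleton.mp hv
      rw [map_smul, hθ', smul_zero]
    · have hxv : x ∉ Submodule.span ℂ ({v} : Set X) := by
        intro hcon
        obtain ⟨a1, ha1⟩ := Submodule.mem_span_singleton.mp hcon
        apply hv
        have ha0 : a1 ≠ 0 := by
          rintro rfl
          rw [zero_smul] at ha1
          exact hx ha1.symm
        refine Submodule.mem_span_singleton.mpr ⟨a1⁻¹, ?_⟩
        rw [← ha1, smul_smul, inv_mul_cancel₀ ha0, one_smul]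
      obtain ⟨g, hg, hgx⟩ := exists_sep_sub (Submodule.fg_span (Set.toFinite _)) hxv
      have hgv : g v = 0 := hg v (Submodule.subset_span (by simp))
      have h1 := key v g hgv (Or.inr ⟨hfv, hkv⟩)
      have h2 : W v = (θ + c • f) v • x := by
        rw [hWe']; rfl
      rw [h2, map_smul, hgx, smul_eq_mul, mul_one] at h1
      exact h1)
  exact ⟨α, β, by rw [hWe', hαβ]⟩

/-- Proof. `V = a (ten x k) = a B` is tame (`par_image`, `Par.tame`). `K = rline V A` is a quasi-line (`isLine_rline`, `IsLine.qline`), so with the inverse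
pair `(a', b')` also `K' = a' '' K`. Let `W = a' (V + t • A) ∈ K'`. (1) `QN W`: `b' 0 = 0`, `V + t • A` is tame. (2) If `LP x f S` and `QN (S - B)` then
`QN (S - W)`: `LP x f (b S)` (`lp_transfer`), `QN (b S - V)`, `tame_parallel`. (3) `g16b_form`: `W = ten x (α • f + β • k)`.
(4) `qline_in_plane`: `K' = rline (ten x p) (ten x g')`, `g' ≠ 0`; `B ∈ K'` (`t = 0`), so `K' = {ten x (k + s • g')}`, and `g' = α • f + β • k`. If `β ≠ 0` then `s = -β⁻¹`
gives a point `-(α / β) • A` of `L ∩ K'`, and applying `a` (`a '' L = L`, `image_line`) `V + t • A ∈ L`, `V ∈ L`, contradiction to `Par.off`. So `K' = rline B A`; apply `a`. -/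
theorem image_parallel [CompleteSpace X] (hX : ¬ Module.Finite ℂ X)
    {a b : (X →L[ℂ] X) → (X →L[ℂ] X)} (h : IsPair a b) (ha0 : a 0 = 0) (hb0 : b 0 = 0) {x : X}
    {f : X →L[ℂ] ℂ} (hx : x ≠ 0) (hf : f ≠ 0) (hfx : f x = 0) (hA : a (ten x f) = ten x f)
    {k : X →L[ℂ] ℂ} (hkx : k x = 0) (hk : ∀ c : ℂ, k ≠ c • f) :
    a '' rline (ten x k) (ten x f) = rline (a (ten x k)) (ten x f) := by
  have hPar := par_image hX h ha0 hb0 hx hf hfx hA hkx hk
  set V := a (ten x k) with hVdef
  have hVmem : V ∈ a '' rline (ten x k) (ten x f) := ⟨_, base_mem_rline, rfl⟩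
  have hVt : Tame x f V := hPar.tame hX hx hf hfx hVmem
  obtain ⟨a', b', h', ha'a, haa', hb'b, hbb'⟩ := h.exists_inv
  have hb'0 : b' 0 = 0 := by rw [← hb0]; rw [hb'b]; exact hb0.symm ▸ rfl
  obtain ⟨v, hv3⟩ := exists_li3 hX
  have hKq : IsQLine (rline V (ten x f)) := IsLine.qline (isLine_rline hv3 hx hf hfx V)
  have hK'q : IsQLine (a' '' rline V (ten x f)) := hKq.image h'
  have hform : ∀ t : ℂ, ∃ α β : ℂ, a' (V + t • ten x f) = ten x (α • f + β • k) := by
    intro t
    have hW : QN (a' (V + t • ten x f)) := by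
      have h1 : QN (V + t • ten x f - 0) := by
        rw [sub_zero]; exact Tame.qn hfx (g16b_tame hfx hVt t)
      have h2 := (h'.qn _ _).mpr h1
      rwa [hb'0, sub_zero] at h2
    refine g16b_form hX hx hf hfx hkx hk hW fun S hS hSB => ?_
    have h1 : LP x f (b S) := (lp_transfer hX h ha0 hb0 hx hf hfx hA S).mpr hS
    have h2 : QN (b S - V) := by
      rw [qn_sub_comm]
      exact (h.qn _ _).mpr (qn_sub_comm.mp hSB)
    have h3 := tame_parallel hVt h1 h2 t
    rw [qn_sub_comm] at h3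
    have h4 := (h'.qn _ _).mpr h3
    rw [hb'b] at h4
    exact qn_sub_comm.mp h4
  have hkill : ∀ α β : ℂ, (α • f + β • k) x = 0 := by
    intro α β
    show α * f x + β * k x = 0
    rw [hfx, hkx, mul_zero, mul_zero, add_zero]
  obtain ⟨p, g', hpx, hg'x, hg'0, hK'⟩ := qline_in_plane hX hK'q hx (by
    rintro _ ⟨_, ⟨t, rfl⟩, rfl⟩
    obtain ⟨α, β, hαβ⟩ := hform t
    exact ⟨_, hkill α β, hαβ⟩)
  have hBmem : ten x k ∈ a' '' rline V (ten x f) := by
    refine ⟨V, base_mem_rline, ?_⟩
    rw [hVdef, ha'a]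
  rw [hK'] at hBmem
  obtain ⟨s0, hs0⟩ := hBmem
  have hs0' : ten x p + s0 • ten x g' = ten x k := hs0
  -- every point
  have hpt : ∀ s : ℂ, ten x (k + s • g') ∈ a' '' rline V (ten x f) := by
    intro s
    rw [hK']
    refine ⟨s0 + s, ?_⟩
    show ten x p + (s0 + s) • ten x g' = ten x (k + s • g')
    rw [add_smul, ← add_assoc, hs0', g16b_ten_add, g16b_ten_smul]
  obtain ⟨α, β, hg'⟩ : ∃ α β : ℂ, g' = α • f + β • k := by
    obtain ⟨_, ⟨t, rfl⟩, ht⟩ := hpt 1
    obtain ⟨α, β, hαβ⟩ := hform t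
    have h1 : a' (V + t • ten x f) = ten x (k + (1 : ℂ) • g') := ht
    rw [hαβ] at h1
    have h2 := g16b_inj hx h1
    refine ⟨α, β - 1, ?_⟩
    ext v
    have h3 : α * f v + β * k v = k v + 1 * g' v := by
      have := congrArg (fun L : X →L[ℂ] ℂ => L v) h2
      exact this
    show g' v = α * f v + (β - 1) * k v
    linear_combination -h3
  have hβ : β = 0 := by
    by_contra hβ
    obtain ⟨_, ⟨t, rfl⟩, ht⟩ := hpt (-β⁻¹)
    have h1 : k + (-β⁻¹) • g' = (-(β⁻¹ * α)) • f := by
      rw [hg']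
      ext v
      show k v + -β⁻¹ * (α * f v + β * k v) = -(β⁻¹ * α) * f v
      field_simp
      ring
    have h2 : a' (V + t • ten x f) = (-(β⁻¹ * α)) • ten x f := by
      have : a' (V + t • ten x f) = ten x (k + (-β⁻¹) • g') := ht
      rw [this, h1, g16b_ten_smul]
    have h3 : V + t • ten x f = a ((-(β⁻¹ * α)) • ten x f) := by
      rw [← h2, haa']
    have hL : a '' rline 0 (ten x f) = rline 0 (ten x f) := by
      refine image_line hX h hb0 hx hf hfx ⟨0, base_mem_rline, ha0⟩ ⟨ten x f, ⟨1, ?_⟩, hA⟩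
      show (0 : X →L[ℂ] X) + (1 : ℂ) • ten x f = ten x f
      rw [one_smul, zero_add]
    have h4 : a ((-(β⁻¹ * α)) • ten x f) ∈ rline 0 (ten x f) := by
      rw [← hL]
      refine ⟨_, ⟨-(β⁻¹ * α), rfl⟩, ?_⟩
      show a (0 + (-(β⁻¹ * α)) • ten x f) = _
      rw [zero_add]
    obtain ⟨s, hs⟩ := h4
    have hs' : (0 : X →L[ℂ] X) + s • ten x f = a ((-(β⁻¹ * α)) • ten x f) := hs
    rw [← h3, zero_add] at hs'
    refine hPar.off V hVmem (s - t) ?_
    rw [sub_smul, hs', add_sub_cancel_right]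
  have hg'' : g' = α • f := by
    rw [hg', hβ]
    ext v
    show α * f v + 0 * k v = α * f v
    rw [zero_mul, add_zero]
  have hα : α ≠ 0 := by
    intro hα
    apply hg'0
    rw [hg'', hα]
    exact dual_zero_smul f
  have hK'' : a' '' rline V (ten x f) = rline (ten x k) (ten x f) := by
    rw [hK']
    apply Set.Subset.antisymm
    · rintro _ ⟨s, rfl⟩
      refine ⟨(s - s0) * α, ?_⟩
      show ten x k + ((s - s0) * α) • ten x f = ten x p + s • ten x g'
      rw [← hs0', hg'', g16b_ten_smul, smul_smul, smul_smul, add_assoc,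
        ← add_smul]
      congr 2
      ring
    · rintro _ ⟨s, rfl⟩
      refine ⟨s0 + s * α⁻¹, ?_⟩
      show ten x p + (s0 + s * α⁻¹) • ten x g' = ten x k + s • ten x f
      rw [← hs0', hg'', g16b_ten_smul, smul_smul, smul_smul, add_assoc,
        ← add_smul]
      congr 2
      field_simp
  rw [← hK'', ← Set.image_comp]
  have : a ∘ a' = id := by
    funext U
    exact haa' U
  rw [this, Set.image_id]

end Pool.Agent.H.MP_bb4c62_an.helper86.PG
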