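import Pool.Agent.H.MP_bb4c62_an.helper86.G16b

/-!
Pairs fixing 0 and A fix 2A.
-/

namespace Pool.Agent.H.MP_bb4c62_an.helper86.PG

open Pool.Agent.H.MP_bb4c62_an.helper6.NL
open Pool.Agent.H.MP_bb4c62_an.helper6.Perturb
open Pool.Agent.H.MP_bb4c62_an.helper6.Gadgets
open Pool.Agent.H.MP_bb4c62_an.helper5.PL

variable {X : Type*} [NormedAddCommGroup X] [NormedSpace ℂ X]

theorem g16c_ten_add (x : X) (k l : X →L[ℂ] ℂ) : ten x (k + l) = ten x k + ten x l := by
  ext v
  show (k v + l v) • x = k v • x + l v • x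
  rw [add_smul]

theorem g16c_ten_smul (x : X) (c : ℂ) (k : X →L[ℂ] ℂ) : ten x (c • k) = c • ten x k := by
  ext v
  show (c * k v) • x = c • (k v • x)
  rw [mul_smul]

theorem g16c_ten_inj {x : X} (hx : x ≠ 0) {k l : X →L[ℂ] ℂ} (h : ten x k = ten x l) : k = l := by
  ext v
  have h1 : (ten x k) v = (ten x l) v := by rw [h]
  have h2 : k v • x = l v • x := h1
  have h3 : (k v - l v) • x = 0 := by rw [sub_smul, h2, sub_self]
  rcases smul_eq_zero.mp h3 with h4 | h4
  · exact sub_eq_zero.mp h4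
  · exact absurd h4 hx

theorem g16c_ind {V : Type*} [AddCommGroup V] [Module ℂ V] {k f : V} (hf : f ≠ 0)
    (hk : ∀ c : ℂ, k ≠ c • f) {α β : ℂ} (h : α • k + β • f = 0) : α = 0 ∧ β = 0 := by
  have h1 : α = 0 := by
    by_contra hα
    apply hk (-(α⁻¹ * β))
    have h2 : α • k = -(β • f) := eq_neg_of_add_eq_zero_left h
    calc k = α⁻¹ • (α • k) := by rw [smul_smul, inv_mul_cancel₀ hα, one_smul]
      _ = -(α⁻¹ * β) • f := by rw [h2, smul_neg, smul_smul, neg_smul]
  refine ⟨h1, ?_⟩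
  rw [h1, zero_smul, zero_add] at h
  rcases smul_eq_zero.mp h with h3 | h3
  · exact h3
  · exact absurd h3 hf

theorem g16c_coll {V : Type*} [AddCommGroup V] [Module ℂ V] {p q P0 P1 P : V} {u0 u1 u : ℂ}
    (h0 : P0 = p + u0 • q) (h1 : P1 = p + u1 • q) (h : P = p + u • q) (hne : P1 ≠ P0) :
    ∃ w : ℂ, P = P0 + w • (P1 - P0) := by
  have hu : u1 - u0 ≠ 0 := by
    intro e
    apply hne
    rw [h0, h1, sub_eq_zero.mp e]
  refine ⟨(u - u0) / (u1 - u0), ?_⟩
  have e1 : P1 - P0 = (u1 - u0) • q := by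
    rw [h0, h1, sub_smul]; abel
  rw [e1, smul_smul, div_mul_cancel₀ _ hu, h, h0, sub_smul]
  abel

/-- the shift function -/
theorem g16c_shift [CompleteSpace X] (hX : ¬ Module.Finite ℂ X)
    {a b : (X →L[ℂ] X) → (X →L[ℂ] X)} (h : IsPair a b) (ha0 : a 0 = 0) (hb0 : b 0 = 0) {x : X}
    {f : X →L[ℂ] ℂ} (hx : x ≠ 0) (hf : f ≠ 0) (hfx : f x = 0) (hA : a (ten x f) = ten x f)
    {k : X →L[ℂ] ℂ} (hkx : k x = 0) :
    ∃ c : ℂ, a (ten x k) + ten x f = a (ten x (k + c • f)) := by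
  by_cases hk : ∃ c : ℂ, k = c • f
  · obtain ⟨c, rfl⟩ := hk
    have hl : a '' rline 0 (ten x f) = rline 0 (ten x f) :=
      image_line hX h hb0 hx hf hfx ⟨0, base_mem_rline, ha0⟩
        ⟨ten x f, ⟨1, by simp⟩, hA⟩
    have h1 : a (ten x (c • f)) ∈ rline 0 (ten x f) := by
      rw [← hl]
      refine ⟨ten x (c • f), ⟨c, ?_⟩, rfl⟩
      show (0 : X →L[ℂ] X) + c • ten x f = ten x (c • f)
      rw [g16c_ten_smul, zero_add]
    obtain ⟨s, hs⟩ := h1
    have hs' : (0 : X →L[ℂ] X) + s • ten x f = a (ten x (c • f)) := hs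
    have h2 : a (ten x (c • f)) + ten x f ∈ rline 0 (ten x f) := by
      refine ⟨s + 1, ?_⟩
      show (0 : X →L[ℂ] X) + (s + 1) • ten x f = a (ten x (c • f)) + ten x f
      rw [← hs', add_smul, one_smul, add_assoc]
    rw [← hl] at h2
    obtain ⟨T, ⟨z, hz⟩, hT⟩ := h2
    have hz' : (0 : X →L[ℂ] X) + z • ten x f = T := hz
    refine ⟨z - c, ?_⟩
    have e1 : c • f + (z - c) • f = z • f := by module
    rw [← hT, ← hz', zero_add, ← g16c_ten_smul, e1]
  · have hk' : ∀ c : ℂ, k ≠ c • f := fun c hc => hk ⟨c, hc⟩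
    have hl := image_parallel hX h ha0 hb0 hx hf hfx hA hkx hk'
    have h2 : a (ten x k) + ten x f ∈ rline (a (ten x k)) (ten x f) := ⟨1, by simp⟩
    rw [← hl] at h2
    obtain ⟨T, ⟨z, hz⟩, hT⟩ := h2
    have hz' : ten x k + z • ten x f = T := hz
    refine ⟨z, ?_⟩
    rw [← hT, ← hz', g16c_ten_add, g16c_ten_smul]

/-- Proof. Write `A = ten x f`. (1) For every `k` with `k x = 0` there is `c` with `a (ten x k) + A = a (ten x (k + c • f))`: if `k` is not a multiple of `f`,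
`a (ten x k) + A ∈ rline (a (ten x k)) A = a '' rline (ten x k) A` (`image_parallel`); otherwise `a (ten x k) ∈ a '' rline 0 A = rline 0 A` (`image_line`), and
`rline 0 A + A = rline 0 A`. `c ≠ 0` since `A ≠ 0`. Denote it by `c k` (`choose`). With the inverse pair `(a', b')` put `g T = a' (a T + A)`, `g2 T = b' (b T + A)`;
`(g, g2)` is a pair, so `g '' m` is a quasi-line for quasi-lines `m` (`IsQLine.image`), and `g (ten x k) = ten x (k + c k • f)`. `c 0 = 1` (`a 0 = 0`, `a A = A`).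
(2) `c k = 1` for `k` not a multiple of `f`: `g '' rline 0 (ten x k) = {ten x (s • k + c (s • k) • f)}` is a rank one line (`qline_in_plane`) containing `ten x f` (`s = 0`)
and `ten x (k + c k • f)` (`s = 1`), so it is `{ten x (f + u • (k + (c k - 1) • f))}`; comparing the coefficients of the independent functionals `k`, `f`:
`c (s • k) = 1 + s * (c k - 1)`, and if `c k ≠ 1` this vanishes for `s = -(c k - 1)⁻¹`, contradiction.
(3) `c f = 1`: fix `k` not a multiple of `f` with `k x = 0` (`X` infinite dimensional). The quasi-line `{ten x (f + s • (k - f))}` has for `s ≠ 0` points with `c = 1` by (2);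
its image is a rank one line containing `ten x (2 • f + s • (k - f))`, `s = 1, 2`, so it is `{ten x (2 • f + u • (k - f))}`, and it contains (`s = 0`) `ten x ((1 + c f) • f)`; so `u = 0`
and `c f = 1`. (4) `a A + A = a (ten x (f + f))`, that is `a ((2 : ℂ) • A) = A + A`. -/
theorem fix_two [CompleteSpace X] (hX : ¬ Module.Finite ℂ X)
    {a b : (X →L[ℂ] X) → (X →L[ℂ] X)} (h : IsPair a b) (ha0 : a 0 = 0) (hb0 : b 0 = 0) {x : X}
    {f : X →L[ℂ] ℂ} (hx : x ≠ 0) (hf : f ≠ 0) (hfx : f x = 0) (hA : a (ten x f) = ten x f) :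
    a ((2 : ℂ) • ten x f) = (2 : ℂ) • ten x f := by
  obtain ⟨c, hc⟩ : ∃ c : (X →L[ℂ] ℂ) → ℂ, ∀ k : X →L[ℂ] ℂ, k x = 0 →
      a (ten x k) + ten x f = a (ten x (k + c k • f)) := by
    have hs : ∀ k : X →L[ℂ] ℂ, ∃ c : ℂ, k x = 0 →
        a (ten x k) + ten x f = a (ten x (k + c • f)) := by
      intro k
      by_cases hkx : k x = 0
      · obtain ⟨c, hc⟩ := g16c_shift hX h ha0 hb0 hx hf hfx hA hkx
        exact ⟨c, fun _ => hc⟩
      · exact ⟨0, fun h => absurd h hkx⟩
    exact ⟨fun k => (hs k).choose, fun k => (hs k).choose_spec⟩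
  have hAne : ten x f ≠ 0 := by
    intro e
    apply hf
    apply g16c_ten_inj hx
    rw [e, ten_zero_right]
  have hcne : ∀ k : X →L[ℂ] ℂ, k x = 0 → c k ≠ 0 := by
    intro k hk e
    have h1 := hc k hk
    rw [e, zero_smul ℂ f, add_zero] at h1
    exact hAne (add_eq_left.mp h1)
  obtain ⟨a', b', h', ha1, ha2, hb1, hb2⟩ := h.exists_inv
  obtain ⟨g, hgdef⟩ : ∃ g : (X →L[ℂ] X) → (X →L[ℂ] X), ∀ T, g T = a' (a T + ten x f) :=
    ⟨fun T => a' (a T + ten x f), fun _ => rfl⟩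
  obtain ⟨g2, hg2def⟩ : ∃ g : (X →L[ℂ] X) → (X →L[ℂ] X), ∀ T, g T = b' (b T + ten x f) :=
    ⟨fun T => b' (b T + ten x f), fun _ => rfl⟩
  have hpair : IsPair g g2 := by
    refine ⟨?_, ?_, ?_⟩
    · have e : g = a' ∘ (fun U => U + ten x f) ∘ a := by
        funext T; rw [hgdef]; rfl
      rw [e]
      exact h'.bij.comp ((AddGroup.addRight_bijective (ten x f)).comp h.bij)
    · have e : g2 = b' ∘ (fun U => U + ten x f) ∘ b := by
        funext T; rw [hg2def]; rfl
      rw [e]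
      exact h'.bij'.comp ((AddGroup.addRight_bijective (ten x f)).comp h.bij')
    · intro T S
      rw [hgdef, hg2def, h'.qn, add_sub_add_right_eq_sub, h.qn]
  have hg : ∀ k : X →L[ℂ] ℂ, k x = 0 → g (ten x k) = ten x (k + c k • f) := by
    intro k hk
    rw [hgdef, hc k hk, ha1]
  have hc0 : c 0 = 1 := by
    have h1 := hg 0 rfl
    rw [ten_zero_right, hgdef, ha0, zero_add, zero_add] at h1
    have h2 : a' (ten x f) = ten x f := by
      have := ha1 (ten x f)
      rwa [hA] at this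
    rw [h2] at h1
    have h3 := g16c_ten_inj hx h1
    have h4 : (c 0 - 1) • f = 0 := by
      rw [sub_smul (c 0) 1 f, one_smul ℂ f, ← h3, sub_self]
    rcases (smul_eq_zero (M := (X →L[ℂ] ℂ))).mp h4 with h5 | h5
    · exact sub_eq_zero.mp h5
    · exact absurd h5 hf
  obtain ⟨v3, hv3⟩ := exists_li3 hX
  have hplane : ∀ (p : X →L[ℂ] ℂ) (q : X →L[ℂ] ℂ), p x = 0 → q x = 0 → q ≠ 0 →
      ∃ p' q' : X →L[ℂ] ℂ, ∀ s : ℂ, ∃ u : ℂ,
        (p + s • q) + c (p + s • q) • f = p' + u • q' := by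
    intro p q hp hq hq0
    have hK : IsQLine (g '' rline (ten x p) (ten x q)) :=
      IsQLine.image hpair (IsLine.qline (isLine_rline hv3 hx hq0 hq (ten x p)))
    have hpt : ∀ s : ℂ, ten x p + s • ten x q = ten x (p + s • q) := by
      intro s
      rw [g16c_ten_add, g16c_ten_smul]
    have hsx : ∀ s : ℂ, (p + s • q) x = 0 := by
      intro s
      show p x + s * q x = 0
      rw [hp, hq, mul_zero, add_zero]
    obtain ⟨p', q', hp', hq', hq'0, hKe⟩ := qline_in_plane hX hK hx (by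
      rintro _ ⟨_, ⟨s, rfl⟩, rfl⟩
      refine ⟨(p + s • q) + c (p + s • q) • f, ?_, ?_⟩
      · show (p + s • q) x + c (p + s • q) * f x = 0
        rw [hsx, hfx, mul_zero, add_zero]
      · show g (ten x p + s • ten x q) = _
        rw [hpt, hg _ (hsx s)])
    refine ⟨p', q', fun s => ?_⟩
    have h1 : ten x ((p + s • q) + c (p + s • q) • f) ∈ g '' rline (ten x p) (ten x q) :=
      ⟨ten x p + s • ten x q, ⟨s, rfl⟩, by rw [hpt, hg _ (hsx s)]⟩
    rw [hKe] at h1
    obtain ⟨u, hu⟩ := h1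
    have hu' : ten x p' + u • ten x q' = ten x ((p + s • q) + c (p + s • q) • f) := hu
    refine ⟨u, ?_⟩
    apply g16c_ten_inj hx
    rw [← hu', g16c_ten_add, g16c_ten_smul]
  have h2 : ∀ k : X →L[ℂ] ℂ, k x = 0 → (∀ c : ℂ, k ≠ c • f) → c k = 1 := by
    intro k hkx hk
    by_contra hck
    have hck' : c k - 1 ≠ 0 := sub_ne_zero.mpr hck
    have hk0 : k ≠ 0 := by
      have := hk 0
      rwa [zero_smul ℂ f] at this
    obtain ⟨p', q', hu⟩ := hplane 0 k rfl hkx hk0
    obtain ⟨u0, h0⟩ := hu 0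
    obtain ⟨u1, h1⟩ := hu 1
    obtain ⟨u, h3⟩ := hu (-(c k - 1)⁻¹)
    rw [zero_smul ℂ k, zero_add, hc0, one_smul ℂ f, zero_add] at h0
    rw [one_smul ℂ k, zero_add] at h1
    rw [zero_add] at h3
    have hne : k + c k • f ≠ f := by
      intro e
      have h4 : (1 : ℂ) • k + (c k - 1) • f = 0 := by
        have h5 : (1 : ℂ) • k + (c k - 1) • f = (k + c k • f) - f := by module
        rw [h5, e, sub_self]
      exact one_ne_zero (g16c_ind hf hk h4).1
    obtain ⟨w, hw⟩ := g16c_coll h0 h1 h3 hne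
    have h5 : (-(c k - 1)⁻¹ - w) • k +
        (c (-(c k - 1)⁻¹ • k) - 1 - w * (c k - 1)) • f = 0 := by
      have h6 : (-(c k - 1)⁻¹ - w) • k +
        (c (-(c k - 1)⁻¹ • k) - 1 - w * (c k - 1)) • f =
        (-(c k - 1)⁻¹ • k + c (-(c k - 1)⁻¹ • k) • f) - (f + w • (k + c k • f - f)) := by
        module
      rw [h6, hw, sub_self]
    obtain ⟨h7, h8⟩ := g16c_ind hf hk h5
    have hw' : w = -(c k - 1)⁻¹ := (sub_eq_zero.mp h7).symm
    rw [hw', neg_mul, inv_mul_cancel₀ hck', sub_neg_eq_add, sub_add_cancel] at h8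
    refine hcne (-(c k - 1)⁻¹ • k) ?_ h8
    show -(c k - 1)⁻¹ * k x = 0
    rw [hkx, mul_zero]
  have h3 : c f = 1 := by
    obtain ⟨y, hfy, hy⟩ := big_ker hX f (Submodule.span ℂ {x}) (Submodule.fg_span_singleton x)
    obtain ⟨k, hk1, hk2⟩ := exists_sep_sub (Submodule.fg_span_singleton x) hy
    have hkx : k x = 0 := hk1 x (Submodule.mem_span_singleton_self x)
    have hk : ∀ c : ℂ, k ≠ c • f := by
      intro c e
      have h4 : k y = c * f y := by rw [e]; rfl
      rw [hk2, hfy, mul_zero] at h4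
      exact one_ne_zero h4
    have hkf0 : k - f ≠ 0 := by
      intro e
      apply hk 1
      rw [one_smul ℂ f]
      exact sub_eq_zero.mp e
    have hkfx : (k - f) x = 0 := by
      show k x - f x = 0
      rw [hkx, hfx, sub_zero]
    have hcs : ∀ s : ℂ, s ≠ 0 → c (f + s • (k - f)) = 1 := by
      intro s hs
      apply h2
      · show f x + s * (k - f) x = 0
        rw [hfx, hkfx, mul_zero, add_zero]
      · intro d e
        have h4 : s • k + (1 - s - d) • f = 0 := by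
          have h5 : s • k + (1 - s - d) • f = (f + s • (k - f)) - d • f := by module
          rw [h5, e, sub_self]
        exact hs (g16c_ind hf hk h4).1
    obtain ⟨p', q', hu⟩ := hplane f (k - f) hfx hkfx hkf0
    obtain ⟨u0, e0⟩ := hu 0
    obtain ⟨u1, e1⟩ := hu 1
    obtain ⟨u2, e2⟩ := hu 2
    rw [hcs 1 one_ne_zero] at e1
    rw [hcs 2 two_ne_zero] at e2
    rw [zero_smul ℂ (k - f), add_zero] at e0
    have hne : (f + (2 : ℂ) • (k - f)) + (1 : ℂ) • f ≠ (f + (1 : ℂ) • (k - f)) + (1 : ℂ) • f := by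
      intro e
      apply hkf0
      have h4 : k - f = ((f + (2 : ℂ) • (k - f)) + (1 : ℂ) • f) -
        ((f + (1 : ℂ) • (k - f)) + (1 : ℂ) • f) := by module
      rw [h4, e, sub_self]
    obtain ⟨w, hw⟩ := g16c_coll e1 e2 e0 hne
    have h5 : (1 + w) • k + (-w - (c f)) • f = 0 := by
      have h6 : (1 + w) • k + (-w - (c f)) • f =
        ((f + (1 : ℂ) • (k - f)) + (1 : ℂ) • f + w • ((f + (2 : ℂ) • (k - f)) + (1 : ℂ) • f -
          ((f + (1 : ℂ) • (k - f)) + (1 : ℂ) • f))) - (f + c f • f) := by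
        module
      rw [h6, hw, sub_self]
    obtain ⟨h7, h8⟩ := g16c_ind hf hk h5
    have hw' : w = -1 := by linear_combination h7
    rw [hw'] at h8
    linear_combination -h8
  have h4 := hc f hfx
  rw [h3, one_smul ℂ f, g16c_ten_add, hA] at h4
  rw [two_smul]
  exact h4.symm

end Pool.Agent.H.MP_bb4c62_an.helper86.PG
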