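import Pool.Agent.H.MP_bb4c62_an.helper86.G0

/-!
Differences of commuting quasinilpotents.
-/

namespace Pool.Agent.H.MP_bb4c62_an.helper86.PG

open Pool.Agent.H.MP_bb4c62_an.helper6.NL
open Pool.Agent.H.MP_bb4c62_an.helper6.Perturb
open Pool.Agent.H.MP_bb4c62_an.helper6.Gadgets
open Pool.Agent.H.MP_bb4c62_an.helper5.PL

variable {X : Type*} [NormedAddCommGroup X] [NormedSpace ℂ X]

/-- Proof. `qn_iff`: let `z` be a scalar, `u = 1 - z • p` (unit). `1 - z • (p - q) = u * (1 + z • (u⁻¹ * q))`. `u⁻¹` commutes with `q`, so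
`(z • (u⁻¹ * q)) ^ n = z ^ n • (u⁻¹ ^ n * q ^ n)` has norm `< 1` for some `n > 0` (`qn_pow_small` for `q`, as in `nf_lemma`), so `1 - (-(z • (u⁻¹ * q))) ^ n` is a unit
(`isUnit_one_sub_of_norm_lt_one`), it is a product of commuting factors one of which is `1 + z • (u⁻¹ * q)` (`Commute.isUnit_mul_iff`, geometric sum). -/
theorem qn_sub_of_commute [CompleteSpace X] {p q : X →L[ℂ] X} (hp : QN p) (hq : QN q)
    (h : p * q = q * p) : QN (p - q) := by
  refine (qn_iff _).mpr ?_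
  intro z
  obtain ⟨u, hu⟩ := (qn_iff p).mp hp z
  have hcq : Commute (u : X →L[ℂ] X) q := by
    rw [hu]
    exact (Commute.one_left q).sub_left ((show Commute p q from h).smul_left z)
  have hcv : Commute ((u⁻¹ : (X →L[ℂ] X)ˣ) : X →L[ℂ] X) q := hcq.units_inv_left
  set v : X →L[ℂ] X := ((u⁻¹ : (X →L[ℂ] X)ˣ) : X →L[ℂ] X) with hv
  set w : X →L[ℂ] X := z • (v * q) with hw
  have hfac : 1 - z • (p - q) = (u : X →L[ℂ] X) * (1 - (-w)) := by
    have h1 : (u : X →L[ℂ] X) * w = z • q := by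
      rw [hw, mul_smul_comm, ← mul_assoc, hv, Units.mul_inv, one_mul]
    rw [sub_neg_eq_add, mul_add, mul_one, h1, hu, smul_sub]
    abel
  rw [hfac]
  refine u.isUnit.mul ?_
  have hwpow : ∀ n : ℕ, ‖w ^ n‖ ≤ (‖z‖ * ‖v‖) ^ n * ‖q ^ n‖ := by
    intro n
    by_cases hn : n = 0
    · subst hn
      simp
    · have h2 : w ^ n = z ^ n • (v ^ n * q ^ n) := by
        rw [hw, smul_pow, hcv.mul_pow]
      rw [h2, norm_smul, norm_pow, mul_pow, mul_assoc]
      refine mul_le_mul_of_nonneg_left ?_ (by positivity)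
      calc ‖v ^ n * q ^ n‖ ≤ ‖v ^ n‖ * ‖q ^ n‖ := norm_mul_le _ _
        _ ≤ ‖v‖ ^ n * ‖q ^ n‖ :=
          mul_le_mul_of_nonneg_right (norm_pow_le' v (Nat.pos_of_ne_zero hn)) (norm_nonneg _)
  have hM : 0 < ‖z‖ * ‖v‖ + 1 := by positivity
  obtain ⟨n, hn1, hn0⟩ := ((qn_pow_small hq (inv_pos.mpr hM)).and
    (Filter.eventually_gt_atTop 0)).exists
  have hlt : ‖(-w) ^ n‖ < 1 := by
    have h3 : ‖(-w) ^ n‖ = ‖w ^ n‖ := by
      rcases Nat.even_or_odd n with h4 | h4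
      · rw [h4.neg_pow]
      · rw [h4.neg_pow, norm_neg]
    rw [h3]
    calc ‖w ^ n‖ ≤ (‖z‖ * ‖v‖) ^ n * ‖q ^ n‖ := hwpow n
      _ ≤ (‖z‖ * ‖v‖ + 1) ^ n * ‖q ^ n‖ :=
        mul_le_mul_of_nonneg_right (pow_le_pow_left₀ (by positivity) (by linarith) n)
          (norm_nonneg _)
      _ < (‖z‖ * ‖v‖ + 1) ^ n * ((‖z‖ * ‖v‖ + 1)⁻¹) ^ n :=
        mul_lt_mul_of_pos_left hn1 (by positivity)
      _ = 1 := by rw [← mul_pow, mul_inv_cancel₀ hM.ne', one_pow]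
  have hunit : IsUnit (1 - (-w) ^ n) := isUnit_one_sub_of_norm_lt_one hlt
  rw [← mul_neg_geom_sum (-w) n] at hunit
  have hcomm : Commute (1 - (-w)) (∑ i ∈ Finset.range n, (-w) ^ i) := by
    refine Commute.sum_right _ _ _ fun i _ => ?_
    exact ((Commute.one_left _).sub_left (Commute.refl _)).pow_right i
  exact (hcomm.isUnit_mul_iff.mp hunit).1

end Pool.Agent.H.MP_bb4c62_an.helper86.PG
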