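import Pool.Agent.H.MP_bb4c62_an.helper86.G16c
import Pool.Agent.H.MP_bb4c62_an.helper86.G17

/-!
Images of rank one lines are cliques and groups.
-/

namespace Pool.Agent.H.MP_bb4c62_an.helper86.PG

open Pool.Agent.H.MP_bb4c62_an.helper6.NL
open Pool.Agent.H.MP_bb4c62_an.helper6.Perturb
open Pool.Agent.H.MP_bb4c62_an.helper6.Gadgets
open Pool.Agent.H.MP_bb4c62_an.helper5.PL

variable {X : Type*} [NormedAddCommGroup X] [NormedSpace ℂ X]
variable {Y : Type*} [NormedAddCommGroup Y] [NormedSpace ℂ Y]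

/-- conjugated pairs: from `(φ, ψ)`, its inverse pair and a relation preserving bijection of the
operators on `Y` -/
theorem g17b_pair {φ ψ : (X →L[ℂ] X) → (Y →L[ℂ] Y)} (h : IsPair φ ψ)
    {φ' ψ' : (Y →L[ℂ] Y) → (X →L[ℂ] X)} (h' : IsPair φ' ψ')
    {c : (Y →L[ℂ] Y) → (Y →L[ℂ] Y)} (hc : Function.Bijective c)
    (hq : ∀ U V, QN (c U - c V) ↔ QN (U - V)) :
    IsPair (fun T => φ' (c (φ T))) (fun T => ψ' (c (ψ T))) where
  bij := h'.bij.comp (hc.comp h.bij)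
  bij' := h'.bij'.comp (hc.comp h.bij')
  qn T S := by
    show QN (φ' (c (φ T)) - ψ' (c (ψ S))) ↔ QN (T - S)
    rw [h'.qn, hq, h.qn]

/-- images of points of rank one lines through `0` are quasinilpotent -/
theorem g17b_qn {φ ψ : (X →L[ℂ] X) → (Y →L[ℂ] Y)} (h : IsPair φ ψ) (h0' : ψ 0 = 0) {x : X}
    {f : X →L[ℂ] ℂ} (hfx : f x = 0) (s : ℂ) : QN (φ (s • ten x f)) := by
  have h1 := h.qn (s • ten x f) 0
  rw [h0', sub_zero, sub_zero] at h1
  exact h1.2 (qn_smul (qn_of_sq (ten_sq hfx)) s)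

/-- the images of `A` and `2 A` commute -/
theorem comm_two [CompleteSpace X] [CompleteSpace Y] (hX : ¬ Module.Finite ℂ X)
    {φ ψ : (X →L[ℂ] X) → (Y →L[ℂ] Y)} (h : IsPair φ ψ) (h0 : φ 0 = 0) (h0' : ψ 0 = 0) {x : X}
    {f : X →L[ℂ] ℂ} (hx : x ≠ 0) (hf : f ≠ 0) (hfx : f x = 0) :
    φ (ten x f) * φ ((2 : ℂ) • ten x f) = φ ((2 : ℂ) • ten x f) * φ (ten x f) := by
  set p := φ (ten x f) with hp
  set q := φ ((2 : ℂ) • ten x f) with hq
  have hpq : QN p := by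
    have := g17b_qn h h0' hfx 1
    rwa [one_smul] at this
  obtain ⟨u, hu⟩ := (qn_iff p).mp hpq 1
  rw [one_smul] at hu
  obtain ⟨φ', ψ', h', e1, e2, e3, e4⟩ := h.exists_inv
  have hc : Function.Bijective fun T : Y →L[ℂ] Y => (u : Y →L[ℂ] Y) * T * (↑u⁻¹ : Y →L[ℂ] Y) := by
    refine ⟨?_, ?_⟩
    · intro a b hab
      have hab' : (u : Y →L[ℂ] Y) * a * (↑u⁻¹ : Y →L[ℂ] Y) =
          (u : Y →L[ℂ] Y) * b * (↑u⁻¹ : Y →L[ℂ] Y) := hab
      exact (Units.mul_right_inj u).1 ((Units.mul_left_inj u⁻¹).1 hab')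
    · intro b
      refine ⟨(↑u⁻¹ : Y →L[ℂ] Y) * b * (u : Y →L[ℂ] Y), ?_⟩
      show (u : Y →L[ℂ] Y) * ((↑u⁻¹ : Y →L[ℂ] Y) * b * (u : Y →L[ℂ] Y)) * (↑u⁻¹ : Y →L[ℂ] Y) = b
      rw [← mul_assoc, ← mul_assoc, Units.mul_inv, one_mul, mul_assoc, Units.mul_inv, mul_one]
  have hqc : ∀ U V : Y →L[ℂ] Y, QN ((u : Y →L[ℂ] Y) * U * (↑u⁻¹ : Y →L[ℂ] Y) -
      (u : Y →L[ℂ] Y) * V * (↑u⁻¹ : Y →L[ℂ] Y)) ↔ QN (U - V) := by
    intro U V
    have e : (u : Y →L[ℂ] Y) * U * (↑u⁻¹ : Y →L[ℂ] Y) -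
        (u : Y →L[ℂ] Y) * V * (↑u⁻¹ : Y →L[ℂ] Y) =
        (u : Y →L[ℂ] Y) * (U - V) * (↑u⁻¹ : Y →L[ℂ] Y) := by
      rw [mul_sub, sub_mul]
    rw [e]
    constructor
    · intro hh
      have h2 := qn_conj hh (Units.inv_mul u) (Units.mul_inv u)
      have e' : (↑u⁻¹ : Y →L[ℂ] Y) * ((u : Y →L[ℂ] Y) * (U - V) * (↑u⁻¹ : Y →L[ℂ] Y)) *
          (u : Y →L[ℂ] Y) = U - V := by
        rw [← mul_assoc, ← mul_assoc, Units.inv_mul, one_mul, mul_assoc, Units.inv_mul, mul_one]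
      rwa [e'] at h2
    · intro hh
      exact qn_conj hh (Units.mul_inv u) (Units.inv_mul u)
  have hP := g17b_pair h h' hc hqc
  have ha0 : φ' ((u : Y →L[ℂ] Y) * φ 0 * (↑u⁻¹ : Y →L[ℂ] Y)) = 0 := by
    rw [h0, mul_zero, zero_mul, ← h0, e1]
  have hb0 : ψ' ((u : Y →L[ℂ] Y) * ψ 0 * (↑u⁻¹ : Y →L[ℂ] Y)) = 0 := by
    rw [h0', mul_zero, zero_mul, ← h0', e3]
  have hup : (u : Y →L[ℂ] Y) * p = p * (u : Y →L[ℂ] Y) := by
    rw [hu, sub_mul, mul_sub, one_mul, mul_one]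
  have hA : φ' ((u : Y →L[ℂ] Y) * φ (ten x f) * (↑u⁻¹ : Y →L[ℂ] Y)) = ten x f := by
    rw [← hp, hup, mul_assoc, Units.mul_inv, mul_one, hp, e1]
  have h2 := fix_two hX hP ha0 hb0 hx hf hfx hA
  have h3 : (u : Y →L[ℂ] Y) * q * (↑u⁻¹ : Y →L[ℂ] Y) = q := by
    have h4 := congrArg φ h2
    rw [e2] at h4
    exact h4
  have h5 : (u : Y →L[ℂ] Y) * q = q * (u : Y →L[ℂ] Y) := by
    have h6 := congrArg (fun T : Y →L[ℂ] Y => T * (u : Y →L[ℂ] Y)) h3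
    rwa [mul_assoc, Units.inv_mul, mul_one] at h6
  rw [hu, sub_mul, mul_sub, one_mul, mul_one] at h5
  exact sub_right_injective h5

/-- the image of a rank one line through `0` is a line -/
theorem image_isLine [CompleteSpace X] [CompleteSpace Y] (hX : ¬ Module.Finite ℂ X)
    {φ ψ : (X →L[ℂ] X) → (Y →L[ℂ] Y)} (h : IsPair φ ψ) (h0 : φ 0 = 0) (h0' : ψ 0 = 0) {x : X}
    {f : X →L[ℂ] ℂ} (hx : x ≠ 0) (hf : f ≠ 0) (hfx : f x = 0) :
    IsLine (φ '' rline 0 (ten x f)) := by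
  have hm : IsQLine (φ '' rline 0 (ten x f)) := (isPLine_rline hX hx hf hfx).qline.image h
  have hne : ten x f ≠ 0 := by
    intro h1
    rcases ten_eq_zero_iff.mp h1 with h2 | h2
    · exact hx h2
    · exact hf h2
  refine ⟨hm.inf, ?_, hm.gen, hm.closed⟩
  rintro _ ⟨_, ⟨s, rfl⟩, rfl⟩ _ ⟨_, ⟨t, rfl⟩, rfl⟩
  simp only [zero_add]
  by_cases hs : s = 0
  · rw [hs, zero_smul, h0, zero_sub]
    exact qn_neg (g17b_qn h h0' hfx t)
  have hmem : ∀ r : ℂ, φ (r • ten x f) ∈ φ '' rline 0 (ten x f) := fun r =>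
    ⟨r • ten x f, ⟨r, by simp⟩, rfl⟩
  have hc := comm_two hX h h0 h0' (x := s • x) (f := f) (smul_ne_zero hs hx) hf
    (by rw [map_smul, hfx, smul_zero])
  rw [ten_smul_left, smul_smul] at hc
  refine hm.gen (φ (s • ten x f)) (φ ((0 : ℂ) • ten x f)) (φ (s • ten x f))
    (φ ((2 * s) • ten x f)) (hmem _) (hmem _) (hmem _) ?_ ?_ ?_ ?_ ?_ ?_ _ (hmem t)
  · intro e
    exact hs (smul_left_injective ℂ hne (h.bij.1 e)).symm
  · intro e
    have := smul_left_injective ℂ hne (h.bij.1 e)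
    exact mul_ne_zero two_ne_zero hs this.symm
  · intro e
    have : s = 2 * s := smul_left_injective ℂ hne (h.bij.1 e)
    apply hs
    linear_combination -this
  · rw [zero_smul, h0, sub_zero]
    exact g17b_qn h h0' hfx s
  · rw [sub_self]
    exact qn_zero
  · exact qn_sub_of_commute (g17b_qn h h0' hfx s) (g17b_qn h h0' hfx (2 * s)) hc

/-- reflections of the image of a rank one line through `0` at the middle of `0` and another
point -/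
theorem g17b_refl [CompleteSpace X] [CompleteSpace Y] (hX : ¬ Module.Finite ℂ X)
    {φ ψ : (X →L[ℂ] X) → (Y →L[ℂ] Y)} (h : IsPair φ ψ) (h0 : φ 0 = 0) (h0' : ψ 0 = 0) {x : X}
    {f : X →L[ℂ] ℂ} (hx : x ≠ 0) (hf : f ≠ 0) (hfx : f x = 0) {u v : Y →L[ℂ] Y}
    (hu : u ∈ φ '' rline 0 (ten x f)) (hu0 : u ≠ 0) (hv : v ∈ φ '' rline 0 (ten x f)) :
    u - v ∈ φ '' rline 0 (ten x f) := by
  have hL := image_isLine hX h h0 h0' hx hf hfx
  obtain ⟨_, ⟨s, rfl⟩, rfl⟩ := hu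
  simp only [zero_add] at hu0 ⊢
  have hs : s ≠ 0 := by
    rintro rfl
    exact hu0 (by rw [zero_smul, h0])
  have hmem : ∀ r : ℂ, r • ten x f ∈ rline 0 (ten x f) := fun r => ⟨r, by simp⟩
  set q := φ (s • ten x f) with hq
  obtain ⟨φ', ψ', h', e1, e2, e3, e4⟩ := h.exists_inv
  have hc : Function.Bijective fun T : Y →L[ℂ] Y => q - T :=
    ⟨sub_right_injective, fun b => ⟨q - b, sub_sub_cancel q b⟩⟩
  have hqc : ∀ U V : Y →L[ℂ] Y, QN ((q - U) - (q - V)) ↔ QN (U - V) := by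
    intro U V
    rw [sub_sub_sub_cancel_left, qn_sub_comm]
  have hP := g17b_pair h h' hc hqc
  have hK : IsQLine ((fun T => φ' (q - φ T)) '' rline 0 (ten x f)) :=
    (isPLine_rline hX hx hf hfx).qline.image hP
  have hφ0 : φ' 0 = 0 := by rw [← h0, e1]
  have hsx : s • ten x f = ten (s • x) f := (ten_smul_left s x f).symm
  have hb := bline hX hK (x := s • x) (f := f) (smul_ne_zero hs hx) hf
    (by rw [map_smul, hfx, smul_zero])
    ⟨s • ten x f, hmem s, by simp only [hq, sub_self, hφ0]⟩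
    ⟨0, by
      have := hmem 0
      rwa [zero_smul] at this, by
        show φ' (q - φ 0) = ten (s • x) f
        rw [h0, sub_zero, hq, e1, hsx]⟩
    (by
      rintro _ ⟨T, hT, rfl⟩
      show QN (φ' (q - φ T))
      have h1 := h.qn (φ' (q - φ T)) 0
      rw [h0', sub_zero, sub_zero, e2] at h1
      exact h1.1 (hL.clique _ ⟨_, hmem s, rfl⟩ _ ⟨T, hT, rfl⟩))
  rw [← hsx, p7_rline_smul hs] at hb
  obtain ⟨T, hT, rfl⟩ := hv
  have h3 : φ' (q - φ T) ∈ rline 0 (ten x f) := by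
    rw [← hb]
    exact ⟨T, hT, rfl⟩
  exact ⟨_, h3, e2 _⟩

/-- the image of a rank one line through `0` is a group -/
theorem image_sub [CompleteSpace X] [CompleteSpace Y] (hX : ¬ Module.Finite ℂ X)
    {φ ψ : (X →L[ℂ] X) → (Y →L[ℂ] Y)} (h : IsPair φ ψ) (h0 : φ 0 = 0) (h0' : ψ 0 = 0) {x : X}
    {f : X →L[ℂ] ℂ} (hx : x ≠ 0) (hf : f ≠ 0) (hfx : f x = 0) {u v : Y →L[ℂ] Y}
    (hu : u ∈ φ '' rline 0 (ten x f)) (hv : v ∈ φ '' rline 0 (ten x f)) :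
    u - v ∈ φ '' rline 0 (ten x f) := by
  by_cases hu0 : u = 0
  · by_cases hv0 : v = 0
    · rw [hu0, hv0, sub_zero]
      rwa [hu0] at hu
    rw [hu0, zero_sub]
    have hinf : (φ '' rline 0 (ten x f)).Infinite :=
      ((isPLine_rline hX hx hf hfx).qline.image h).inf
    have key := fun {a b : Y →L[ℂ] Y} (ha : a ∈ φ '' rline 0 (ten x f)) (ha0 : a ≠ 0)
      (hb : b ∈ φ '' rline 0 (ten x f)) => g17b_refl hX h h0 h0' hx hf hfx ha ha0 hb
    obtain ⟨g, hg, hg0⟩ := (hinf.sdiff (Set.finite_singleton 0)).nonempty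
    obtain ⟨g', hg', hg1⟩ := (hinf.sdiff (Set.toFinite {0, g})).nonempty
    have hg0' : g ≠ 0 := fun e => hg0 (by rw [e]; exact Set.mem_singleton 0)
    have hg10 : g' ≠ 0 := fun e => hg1 (by rw [e]; exact Set.mem_insert 0 _)
    have hg1g : g' ≠ g := fun e => hg1 (by rw [e]; exact Set.mem_insert_of_mem 0 rfl)
    have hd : g - g' ∈ φ '' rline 0 (ten x f) := key hg hg0' hg'
    have hd' : g' - g ∈ φ '' rline 0 (ten x f) := key hg' hg10 hg
    have hud : v - (g - g') ∈ φ '' rline 0 (ten x f) := key hv hv0 hd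
    have hfin := key hd' (sub_ne_zero.2 hg1g) hud
    have e : g' - g - (v - (g - g')) = -v := by abel
    rwa [e] at hfin
  · exact g17b_refl hX h h0 h0' hx hf hfx hu hu0 hv

end Pool.Agent.H.MP_bb4c62_an.helper86.PG
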