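import Pool.Agent.H.MP_bb4c62_an.helper86.G17b

/-!
Images of rank one nilpotents have finite rank.
-/

namespace Pool.Agent.H.MP_bb4c62_an.helper86.PG

open Pool.Agent.H.MP_bb4c62_an.helper6.NL
open Pool.Agent.H.MP_bb4c62_an.helper6.Perturb
open Pool.Agent.H.MP_bb4c62_an.helper6.Gadgets
open Pool.Agent.H.MP_bb4c62_an.helper5.PL

variable {X : Type*} [NormedAddCommGroup X] [NormedSpace ℂ X]
variable {Y : Type*} [NormedAddCommGroup Y] [NormedSpace ℂ Y]

theorem g18_ne_neg {p : Y →L[ℂ] Y} (hp : p ≠ 0) : p ≠ -p := by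
  intro hh
  apply hp
  have h1 : (2 : ℂ) • p = 0 := by
    rw [two_smul]
    nth_rewrite 1 [hh]
    rw [neg_add_cancel]
  exact (smul_eq_zero.mp h1).resolve_left two_ne_zero

theorem g18_scalar {q : Y →L[ℂ] Y} {M : Submodule ℂ Y}
    (h : ∀ y : Y, q y ∈ M ⊔ Submodule.span ℂ {y}) : ∃ c : ℂ, ∀ y : Y, q y - c • y ∈ M := by
  have hMM : M ≤ M.comap (q : Y →ₗ[ℂ] Y) := by
    intro y hy
    have h1 := h y
    have h2 : M ⊔ Submodule.span ℂ {y} ≤ M :=
      sup_le le_rfl ((Submodule.span_singleton_le_iff_mem y M).mpr hy)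
    exact h2 h1
  have hpt : ∀ z : Y ⧸ M, ∃ c : ℂ, M.mapQ M (q : Y →ₗ[ℂ] Y) hMM z = c • z := by
    intro z
    obtain ⟨y, rfl⟩ := Submodule.Quotient.mk_surjective M z
    obtain ⟨m, hm, s, hs, hms⟩ := Submodule.mem_sup.mp (h y)
    obtain ⟨c, rfl⟩ := Submodule.mem_span_singleton.mp hs
    refine ⟨c, ?_⟩
    have e : M.mapQ M (q : Y →ₗ[ℂ] Y) hMM (Submodule.Quotient.mk y) =
        Submodule.Quotient.mk (q y) := rfl
    rw [e, ← hms, Submodule.Quotient.mk_add, (Submodule.Quotient.mk_eq_zero M).mpr hm, zero_add,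
      Submodule.Quotient.mk_smul]
  obtain ⟨c, hc⟩ := prop_of_pointwise (M.mapQ M (q : Y →ₗ[ℂ] Y) hMM) LinearMap.id ⊤
    (fun _ _ h => h) (fun z _ => hpt z)
  refine ⟨c, fun y => ?_⟩
  have h1 := hc (Submodule.Quotient.mk y) trivial
  rw [← Submodule.Quotient.mk_eq_zero M, Submodule.Quotient.mk_sub, Submodule.Quotient.mk_smul,
    sub_eq_zero]
  exact h1

/-- Proof. `p = φ A ∈ m = φ '' rline 0 A`, `p ≠ 0`; `0, p, -p, (2 : ℂ) • p, (3 : ℂ) • p` etc. are in `m` (`image_sub`). `fg_of_star_int` (helper28/NStar.lean): if `QN V`, `QN (V + p)`, `QN (V - p)`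
then `-V` is adjacent to `0, p, -p` hence (`IsLine.gen`) to `(2 : ℂ) • p` and `(3 : ℂ) • p` up to sign. -/
theorem image_fg [CompleteSpace X] [CompleteSpace Y] (hX : ¬ Module.Finite ℂ X)
    {φ ψ : (X →L[ℂ] X) → (Y →L[ℂ] Y)} (h : IsPair φ ψ) (h0 : φ 0 = 0) (h0' : ψ 0 = 0) {x : X}
    {f : X →L[ℂ] ℂ} (hx : x ≠ 0) (hf : f ≠ 0) (hfx : f x = 0) :
    (LinearMap.range (φ (ten x f) : Y →ₗ[ℂ] Y)).FG := by
  have L := image_isLine hX h h0 h0' hx hf hfx
  have hm0 : (0 : Y →L[ℂ] Y) ∈ φ '' rline 0 (ten x f) := ⟨0, ⟨0, by simp⟩, h0⟩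
  have hmp : φ (ten x f) ∈ φ '' rline 0 (ten x f) := ⟨ten x f, ⟨1, by simp⟩, rfl⟩
  have hp0 : φ (ten x f) ≠ 0 := by
    intro hp
    have hA : ten x f = 0 := h.bij.1 (by rw [hp, h0])
    rw [ten_eq_zero_iff] at hA
    rcases hA with hA | hA
    · exact hx hA
    · exact hf hA
  set p := φ (ten x f) with hp
  have hqp : QN p := by
    have := L.clique p hmp 0 hm0
    rwa [sub_zero] at this
  have hmn : -p ∈ φ '' rline 0 (ten x f) := by
    have := image_sub hX h h0 h0' hx hf hfx hm0 hmp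
    rwa [zero_sub] at this
  have hm2 : -((2 : ℂ) • p) ∈ φ '' rline 0 (ten x f) := by
    have := image_sub hX h h0 h0' hx hf hfx hmn hmp
    have e : -p - p = -((2 : ℂ) • p) := by module
    rwa [e] at this
  have hm3 : -((3 : ℂ) • p) ∈ φ '' rline 0 (ten x f) := by
    have := image_sub hX h h0 h0' hx hf hfx hm2 hmp
    have e : -((2 : ℂ) • p) - p = -((3 : ℂ) • p) := by module
    rwa [e] at this
  have hpn : p ≠ -p := g18_ne_neg hp0
  apply fg_of_star_int hqp
  intro V hV hV1 hV2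
  have hg := L.gen V 0 p (-p) hm0 hmp hmn (Ne.symm hp0)
    (fun hh => hp0 (by rw [← neg_neg p, ← hh, neg_zero])) hpn
    (by rwa [sub_zero]) hV2 (by rwa [sub_neg_eq_add])
  constructor
  · have := hg _ hm2
    rwa [sub_neg_eq_add] at this
  · have := hg _ hm3
    rwa [sub_neg_eq_add] at this

/-- An operator `q` all of whose values `q y` are in `M + span {y}`, `M` finitely generated, has its range in `M`.

Proof. `Y` is infinite dimensional. For `y ∉ M`: `q y = m + c • y`, and the scalar `c` does not depend on `y` (for `y, y'` independent modulo `M` compare with `y + y'`; if `y, y'` are dependent modulo `M` use a third vector; for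
`y ∈ M` compare `q (y + y')` with `q y'` to see `q y ∈ M`). So `F = q - c • 1` has range in `M`, so `F ∈ FRk Y` (it is a finite sum of rank one operators: a basis of `M` and functionals) and `c = 0` by `nf_lemma` (`w = 0`); or directly: if `c ≠ 0`
then `q y ∈ c • y + M`; `c⁻¹ • q - 1` has range in `M`; the unit `u = 1 - c⁻¹ • q` (`qn_iff`) has range in `M`, but it is surjective, contradiction to `hY`. -/
theorem range_le_of_mod [CompleteSpace Y] (hY : ¬ Module.Finite ℂ Y) {q : Y →L[ℂ] Y}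
    (hq : QN q) {M : Submodule ℂ Y} (hM : M.FG)
    (h : ∀ y : Y, q y ∈ M ⊔ Submodule.span ℂ {y}) (y : Y) : q y ∈ M := by
  obtain ⟨c, hc⟩ := g18_scalar h
  by_cases hc0 : c = 0
  · have := hc y
    rwa [hc0, zero_smul, sub_zero] at this
  · exfalso
    apply hY
    obtain ⟨u, hu⟩ := (qn_iff q).mp hq c⁻¹
    have hM' : (⊤ : Submodule ℂ Y) ≤ M := by
      intro z _
      have e2 : (u : Y →L[ℂ] Y) ((↑u⁻¹ : Y →L[ℂ] Y) z) = z := by
        have : ((u : Y →L[ℂ] Y) * (↑u⁻¹ : Y →L[ℂ] Y)) z = z := by rw [Units.mul_inv]; rfl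
        exact this
      rw [← e2, hu]
      set w := (↑u⁻¹ : Y →L[ℂ] Y) z
      show w - c⁻¹ • q w ∈ M
      have e3 : w - c⁻¹ • q w = (-c⁻¹) • (q w - c • w) := by
        rw [smul_sub, smul_smul, neg_mul, inv_mul_cancel₀ hc0]; module
      rw [e3]
      exact Submodule.smul_mem _ _ (hc w)
    exact ⟨Submodule.FG.of_le hM hM'⟩

/-- Proof. `Y` infinite dimensional. Let `p = φ A`, `q ∈ m = φ '' rline 0 A`. Let `k` vanish on the range of `p` and `k y = 0`. `T = t • ten y k` is adjacent to `0`, `p`, `-p`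
(`k ((p ^ n) y) = 0`, `qn_add_smul_ten_of_orth`), three different points of `m` (`image_sub`, `p ≠ 0`), so `QN (t • ten y k - q)` for all `t` and `k (q y) = 0`.
So (`exists_sep_sub`, `image_fg`) `q y ∈ range p + span {y}` for all `y`, and `range_le_of_mod` gives the result. -/
theorem image_range [CompleteSpace X] [CompleteSpace Y] (hX : ¬ Module.Finite ℂ X)
    (hY : ¬ Module.Finite ℂ Y)
    {φ ψ : (X →L[ℂ] X) → (Y →L[ℂ] Y)} (h : IsPair φ ψ) (h0 : φ 0 = 0) (h0' : ψ 0 = 0) {x : X}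
    {f : X →L[ℂ] ℂ} (hx : x ≠ 0) (hf : f ≠ 0) (hfx : f x = 0) {q : Y →L[ℂ] Y}
    (hq : q ∈ φ '' rline 0 (ten x f)) :
    LinearMap.range (q : Y →ₗ[ℂ] Y) ≤ LinearMap.range (φ (ten x f) : Y →ₗ[ℂ] Y) := by
  have L := image_isLine hX h h0 h0' hx hf hfx
  have hM := image_fg hX h h0 h0' hx hf hfx
  have hm0 : (0 : Y →L[ℂ] Y) ∈ φ '' rline 0 (ten x f) := ⟨0, ⟨0, by simp⟩, h0⟩
  have hmp : φ (ten x f) ∈ φ '' rline 0 (ten x f) := ⟨ten x f, ⟨1, by simp⟩, rfl⟩
  have hp0 : φ (ten x f) ≠ 0 := by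
    intro hp
    have hA : ten x f = 0 := h.bij.1 (by rw [hp, h0])
    rw [ten_eq_zero_iff] at hA
    rcases hA with hA | hA
    · exact hx hA
    · exact hf hA
  set p := φ (ten x f) with hp
  have hqp : QN p := by
    have := L.clique p hmp 0 hm0
    rwa [sub_zero] at this
  have hqq : QN q := by
    have := L.clique q hq 0 hm0
    rwa [sub_zero] at this
  have hmn : -p ∈ φ '' rline 0 (ten x f) := by
    have := image_sub hX h h0 h0' hx hf hfx hm0 hmp
    rwa [zero_sub] at this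
  have hpn : p ≠ -p := g18_ne_neg hp0
  rintro _ ⟨y0, rfl⟩
  refine range_le_of_mod hY hqq hM ?_ y0
  intro y
  by_contra hcon
  obtain ⟨k, hk1, hk2⟩ := exists_sep_sub (hM.sup (Submodule.fg_span_singleton y)) hcon
  have hky : k y = 0 := hk1 y (Submodule.mem_sup_right (Submodule.mem_span_singleton_self y))
  have hkp : ∀ n : ℕ, k ((p ^ n) y) = 0 := by
    intro n
    cases n with
    | zero => exact hky
    | succ n =>
      apply hk1
      apply Submodule.mem_sup_left
      refine ⟨(p ^ n) y, ?_⟩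
      rw [pow_succ']
      rfl
  have hT : ∀ t : ℂ, QN (q + t • ten y k) := by
    intro t
    have h1 : QN ((-t) • ten y k) := qn_smul (qn_of_sq (ten_sq hky)) _
    have h2 : QN ((-t) • ten y k - p) := by
      rw [qn_sub_comm]
      have := qn_add_smul_ten_of_orth hqp hkp t
      have e : p - (-t) • ten y k = p + t • ten y k := by module
      rwa [e]
    have h3 : QN ((-t) • ten y k - -p) := by
      have := qn_add_smul_ten_of_orth hqp hkp (-t)
      have e : (-t) • ten y k - -p = p + (-t) • ten y k := by module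
      rwa [e]
    have h4 := L.gen ((-t) • ten y k) 0 p (-p) hm0 hmp hmn (Ne.symm hp0)
      (fun hh => hp0 (by rw [← neg_neg p, ← hh, neg_zero])) hpn
      (by rwa [sub_zero]) h2 h3 q hq
    rw [qn_sub_comm] at h4
    have e : q - (-t) • ten y k = q + t • ten y k := by module
    rwa [e] at h4
  have h5 := pencil_one hqq hT 1
  rw [pow_one, hk2] at h5
  exact one_ne_zero h5

end Pool.Agent.H.MP_bb4c62_an.helper86.PG
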