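import Pool.Agent.H.MP_bb4c62_an.helper86.G0

/-!
Quasinilpotent operators of finite rank are controlled by finitely many rank one nilpotents.
-/

namespace Pool.Agent.H.MP_bb4c62_an.helper86.PG

open Pool.Agent.H.MP_bb4c62_an.helper6.NL
open Pool.Agent.H.MP_bb4c62_an.helper6.Perturb
open Pool.Agent.H.MP_bb4c62_an.helper6.Gadgets
open Pool.Agent.H.MP_bb4c62_an.helper5.PL

variable {X : Type*} [NormedAddCommGroup X] [NormedSpace ℂ X]

/-- the induction: the range of `V` lies in the finite dimensional subspace `R` -/
theorem g18b_aux [CompleteSpace X] (r : ℕ) : ∀ (R : Submodule ℂ X) (V : X →L[ℂ] X), R.FG →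
    Module.finrank ℂ R ≤ r → (∀ y, V y ∈ R) → QN V →
    ∃ (m : ℕ) (x : Fin m → X) (f : Fin m → X →L[ℂ] ℂ), (∀ i, (f i) (x i) = 0) ∧
      ∀ T : X →L[ℂ] X, QN T → (∀ (i : Fin m) (t : ℂ), QN (T - t • ten (x i) (f i))) →
        QN (T - V) := by
  induction r with
  | zero =>
    intro R V hR hr hVR hV
    have hfd : FiniteDimensional ℂ R := Module.Finite.iff_fg.mpr hR
    have hbot : R = ⊥ := Submodule.finrank_eq_zero.mp (Nat.le_zero.mp hr)
    have hV0 : V = 0 := by
      ext y
      have := hVR y
      rw [hbot, Submodule.mem_bot] at this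
      rw [this]; rfl
    refine ⟨0, fun i => i.elim0, fun i => i.elim0, fun i => i.elim0, fun T hT _ => ?_⟩
    rw [hV0, sub_zero]
    exact hT
  | succ r ih =>
    intro R V hR hr hVR hV
    have hfd : FiniteDimensional ℂ R := Module.Finite.iff_fg.mpr hR
    by_cases hbot : R = ⊥
    · have hV0 : V = 0 := by
        ext y
        have := hVR y
        rw [hbot, Submodule.mem_bot] at this
        rw [this]; rfl
      refine ⟨0, fun i => i.elim0, fun i => i.elim0, fun i => i.elim0, fun T hT _ => ?_⟩
      rw [hV0, sub_zero]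
      exact hT
    -- `V` is nilpotent
    have hrange : (LinearMap.range (V : X →ₗ[ℂ] X)).FG := by
      have hle : LinearMap.range (V : X →ₗ[ℂ] X) ≤ R := by
        rintro _ ⟨y, rfl⟩
        exact hVR y
      have : FiniteDimensional ℂ (LinearMap.range (V : X →ₗ[ℂ] X)) :=
        Submodule.finiteDimensional_of_le hle
      exact Module.Finite.iff_fg.mp this
    obtain ⟨n, hn⟩ := qn_finite_rank_nilpotent hrange hV
    -- `V R` is a proper subspace of `R`
    set M : Submodule ℂ X := R.map (V : X →ₗ[ℂ] X) with hM
    have hMR : M ≤ R := by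
      rintro _ ⟨y, _, rfl⟩
      exact hVR y
    have hMfg : M.FG := hR.map _
    have hne : ∃ e ∈ R, e ∉ M := by
      by_contra hcon
      push Not at hcon
      have hpow : ∀ k : ℕ, ∀ v ∈ R, ∃ u ∈ R, v = (V ^ k) u := by
        intro k
        induction k with
        | zero => intro v hv; exact ⟨v, hv, rfl⟩
        | succ k ihk =>
          intro v hv
          obtain ⟨u, hu, rfl⟩ := ihk v hv
          obtain ⟨w, hw, hwu⟩ := hcon u hu
          refine ⟨w, hw, ?_⟩
          rw [pow_succ]
          show (V ^ k) u = (V ^ k) (V w)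
          rw [← hwu]
          rfl
      apply hbot
      rw [Submodule.eq_bot_iff]
      intro v hv
      obtain ⟨u, _, hvu⟩ := hpow n v hv
      rw [hvu, hn]
      rfl
    obtain ⟨e, heR, heM⟩ := hne
    obtain ⟨k, hkM, hke⟩ := exists_sep_sub hMfg heM
    set h : X →L[ℂ] ℂ := k.comp V with hh
    have hhv : ∀ v, h v = k (V v) := fun v => rfl
    have hhR : ∀ v ∈ R, h v = 0 := by
      intro v hv
      rw [hhv]
      exact hkM _ ⟨v, hv, rfl⟩
    set V' : X →L[ℂ] X := V - ten e h with hV'
    have hV'v : ∀ y, V' y = V y - h y • e := fun y => rfl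
    set R' : Submodule ℂ X := R ⊓ LinearMap.ker (k : X →ₗ[ℂ] ℂ) with hR'
    have hR'R : R' ≤ R := inf_le_left
    have hlt : R' < R := by
      refine lt_of_le_of_ne hR'R ?_
      intro heq
      have h1 : e ∈ R' := by rw [heq]; exact heR
      have h2 : k e = 0 := h1.2
      rw [hke] at h2
      exact one_ne_zero h2
    have hR'fd : FiniteDimensional ℂ R' := Submodule.finiteDimensional_of_le hR'R
    have hR'fg : R'.FG := Module.Finite.iff_fg.mp hR'fd
    have hR'r : Module.finrank ℂ R' ≤ r := by
      have := Submodule.finrank_lt_finrank_of_lt hlt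
      omega
    have hV'R : ∀ y, V' y ∈ R' := by
      intro y
      refine ⟨?_, ?_⟩
      · show V' y ∈ R
        rw [hV'v]
        exact R.sub_mem (hVR y) (R.smul_mem _ heR)
      · show k (V' y) = 0
        rw [hV'v, map_sub, map_smul, hke, hhv, smul_eq_mul, mul_one, sub_self]
    have hV'eq : ∀ v ∈ R, V' v = V v := by
      intro v hv
      rw [hV'v, hhR v hv, zero_smul, sub_zero]
    have hV'pow : ∀ (j : ℕ), ∀ v ∈ R, (V' ^ j) v = (V ^ j) v := by
      intro j
      induction j with
      | zero => intro v _; rfl
      | succ j ihj =>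
        intro v hv
        rw [pow_succ, pow_succ]
        show (V' ^ j) (V' v) = (V ^ j) (V v)
        rw [hV'eq v hv]
        exact ihj _ (hVR v)
    have hV'qn : QN V' := by
      apply qn_of_pow (n := n + 1)
      ext y
      rw [pow_succ]
      show (V' ^ n) (V' y) = 0
      rw [hV'pow n _ (hR'R (hV'R y)), hn]
      rfl
    obtain ⟨m, x, f, hfx, hfam⟩ := ih R' V' hR'fg hR'r hV'R hV'qn
    obtain ⟨q, v, hv⟩ := Submodule.fg_iff_exists_fin_generating_family.mp hR
    have hvR : ∀ j, v j ∈ R := by
      intro j
      rw [← hv]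
      exact Submodule.subset_span ⟨j, rfl⟩
    refine ⟨m + q, Fin.append x v, Fin.append f (fun _ => h), ?_, ?_⟩
    · intro i
      refine Fin.addCases (fun i => ?_) (fun i => ?_) i
      · rw [Fin.append_left, Fin.append_left]
        exact hfx i
      · rw [Fin.append_right, Fin.append_right]
        exact hhR _ (hvR i)
    intro T hT hall
    have h1 : QN (T - V') := by
      apply hfam T hT
      intro i t
      have := hall (Fin.castAdd q i) t
      rwa [Fin.append_left, Fin.append_left] at this
    have h2 : ∀ (j : Fin q) (n : ℕ), h ((T ^ n) (v j)) = 0 := by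
      intro j n
      refine pencil_one hT (fun t => ?_) n
      have := hall (Fin.natAdd m j) (-t)
      rwa [Fin.append_right, Fin.append_right, neg_smul, sub_neg_eq_add] at this
    have h3 : ∀ w ∈ R, ∀ n : ℕ, h ((T ^ n) w) = 0 := by
      intro w hw n
      rw [← hv] at hw
      induction hw using Submodule.span_induction with
      | mem w hw =>
        obtain ⟨j, rfl⟩ := hw
        exact h2 j n
      | zero => rw [map_zero, map_zero]
      | add a b _ _ ha hb => rw [map_add, map_add, ha, hb, add_zero]
      | smul c a _ ha => rw [map_smul, map_smul, ha, smul_zero]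
    have h4 : ∀ (j : ℕ) (n : ℕ), h ((T ^ n) (((T - V') ^ j) e)) = 0 := by
      intro j
      induction j with
      | zero => intro n; exact h3 e heR n
      | succ j ihj =>
        intro n
        rw [pow_succ']
        show h ((T ^ n) (T (((T - V') ^ j) e) - V' (((T - V') ^ j) e))) = 0
        rw [map_sub, map_sub, h3 _ (hR'R (hV'R _)) n, sub_zero]
        have := ihj (n + 1)
        rw [pow_succ] at this
        exact this
    have h5 : T - V = (T - V') + (-1 : ℂ) • ten e h := by
      rw [hV', neg_one_smul]
      abel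
    rw [h5]
    exact qn_add_smul_ten_of_orth h1 (fun j => h4 j 0) _

/-- Proof. Induction on the dimension `r` of the range `R` of `V`. `V` is nilpotent (`qn_finite_rank_nilpotent`). `r = 0`: `V = 0`, `m = 0`. If `r > 0` the image of `R` under `V` is a proper
subspace `V R` of `R` (nilpotent); choose a hyperplane `R'` of `R` containing `V R` and `e ∈ R`, `e ∉ R'`. There is a functional `h` on `X` with `V y - h y • e ∈ R'` for all `y` (continuous: compose `V` with a
continuous functional which is `1` at `e` and `0` on `R'`). For `v ∈ R`: `V v ∈ R'`, so `h v = 0`. `V' = V - ten e h` has range in `R'`, and is quasinilpotent (nilpotent: it maps `X` into `R'`, and equals `V` on `R`).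
By induction there is a family for `V'`; add the operators `ten v_j h`, `v_j` a basis (or generating family) of `R` (`h v_j = 0`). Let `T` be quasinilpotent and `T - t • N` quasinilpotent for all `N` in the new family and all `t`. Then
`h ((T ^ n) v) = 0` for all `v ∈ R`, `n` (`pencil_one`), and `QN (T - V')`. `((T - V') ^ n) e` is in the span of the vectors `(T ^ i) v`, `v ∈ R`, so `h` vanishes on it, and
`T - V = (T - V') - ten e h` is quasinilpotent (`qn_add_smul_ten_of_orth`). -/
theorem exists_family [CompleteSpace X] {V : X →L[ℂ] X}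
    (hfg : (LinearMap.range (V : X →ₗ[ℂ] X)).FG) (hV : QN V) :
    ∃ (m : ℕ) (x : Fin m → X) (f : Fin m → X →L[ℂ] ℂ), (∀ i, (f i) (x i) = 0) ∧
      ∀ T : X →L[ℂ] X, QN T → (∀ (i : Fin m) (t : ℂ), QN (T - t • ten (x i) (f i))) →
        QN (T - V) := by
  refine g18b_aux (Module.finrank ℂ (LinearMap.range (V : X →ₗ[ℂ] X))) _ V hfg le_rfl
    (fun y => ?_) hV
  exact ⟨y, rfl⟩

end Pool.Agent.H.MP_bb4c62_an.helper86.PG
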