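import Pool.Agent.H.MP_bb4c62_an.helper86.G18
import Pool.Agent.H.MP_bb4c62_an.helper86.G18b

/-!
Pairs preserve the rank one nilpotents.
-/

namespace Pool.Agent.H.MP_bb4c62_an.helper86.PG

open Pool.Agent.H.MP_bb4c62_an.helper6.NL
open Pool.Agent.H.MP_bb4c62_an.helper6.Perturb
open Pool.Agent.H.MP_bb4c62_an.helper6.Gadgets
open Pool.Agent.H.MP_bb4c62_an.helper5.PL

variable {X : Type*} [NormedAddCommGroup X] [NormedSpace ℂ X]
variable {Y : Type*} [NormedAddCommGroup Y] [NormedSpace ℂ Y]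

theorem g18c_swap {φ ψ : (X →L[ℂ] X) → (Y →L[ℂ] Y)} (h : IsPair φ ψ) : IsPair ψ φ :=
  ⟨h.bij', h.bij, fun T S => by rw [qn_sub_comm, h.qn, qn_sub_comm]⟩

/-- Proof. `QN (φ V)`: `QN (φ V - ψ 0)`. Take the family of `exists_family` for `V`. Let `M` be the sum of the ranges of `φ (ten (x i) (f i))` over the `i` with `x i ≠ 0`, `f i ≠ 0`
(finitely generated, `image_fg`). For `g` vanishing on `M`, `g y = 0`, `t` a scalar let `T = t • ten y g = ψ S` (surjective). `QN S` since `QN (φ 0 - ψ S)`. For all `i`, `s`: `QN (S - s • ten (x i) (f i))`, that is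
`QN (φ (s • ten (x i) (f i)) - T)`: this point `q` has range in `M` (`image_range`; `q = 0` if `x i = 0` or `f i = 0`), so `g ((q ^ n) y) = 0`. Hence `QN (S - V)`, `QN (φ V - t • ten y g)` for all `t`, and
`g (φ V y) = 0`. So `φ V y ∈ M + span {y}` and `range_le_of_mod` gives that the range of `φ V` is contained in `M`. -/
theorem pair_fg [CompleteSpace X] [CompleteSpace Y] (hX : ¬ Module.Finite ℂ X)
    (hY : ¬ Module.Finite ℂ Y)
    {φ ψ : (X →L[ℂ] X) → (Y →L[ℂ] Y)} (h : IsPair φ ψ) (h0 : φ 0 = 0) (h0' : ψ 0 = 0)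
    {V : X →L[ℂ] X} (hfg : (LinearMap.range (V : X →ₗ[ℂ] X)).FG) (hV : QN V) :
    (LinearMap.range (φ V : Y →ₗ[ℂ] Y)).FG := by
  have hφV : QN (φ V) := by
    have : QN (φ V - ψ 0) := by rw [h.qn, sub_zero]; exact hV
    rwa [h0', sub_zero] at this
  obtain ⟨m, x, f, hfx, hfam⟩ := exists_family hfg hV
  -- finitely generated submodules containing the ranges
  have hM : ∀ i : Fin m, ∃ M : Submodule ℂ Y, M.FG ∧ ∀ (s : ℂ) (y : Y),
      φ (s • ten (x i) (f i)) y ∈ M := by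
    intro i
    by_cases hxi : x i = 0
    · refine ⟨⊥, Submodule.fg_bot, fun s y => ?_⟩
      rw [hxi, ten_zero_left, smul_zero, h0]
      exact Submodule.zero_mem _
    by_cases hfi : f i = 0
    · refine ⟨⊥, Submodule.fg_bot, fun s y => ?_⟩
      rw [hfi, ten_zero_right, smul_zero, h0]
      exact Submodule.zero_mem _
    refine ⟨LinearMap.range (φ (ten (x i) (f i)) : Y →ₗ[ℂ] Y),
      image_fg hX h h0 h0' hxi hfi (hfx i), fun s y => ?_⟩
    have hmem : φ (s • ten (x i) (f i)) ∈ φ '' rline 0 (ten (x i) (f i)) :=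
      ⟨s • ten (x i) (f i), ⟨s, by simp⟩, rfl⟩
    exact image_range hX hY h h0 h0' hxi hfi (hfx i) hmem ⟨y, rfl⟩
  choose M hMfg hMmem using hM
  obtain ⟨N, hN⟩ : ∃ N : Submodule ℂ Y, N = ⨆ i, M i := ⟨_, rfl⟩
  have hNfg : N.FG := by
    rw [hN]
    exact Submodule.fg_iSup M hMfg
  have hNmem : ∀ (i : Fin m) (s : ℂ) (y : Y), φ (s • ten (x i) (f i)) y ∈ N := by
    intro i s y
    rw [hN]
    exact Submodule.mem_iSup_of_mem i (hMmem i s y)
  have key : ∀ (y : Y) (g : Y →L[ℂ] ℂ), (∀ v ∈ N, g v = 0) → g y = 0 → g (φ V y) = 0 := by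
    intro y g hg hgy
    have hall : ∀ t : ℂ, QN (φ V + t • ten y g) := by
      intro t
      obtain ⟨S, hS⟩ := h.bij'.2 ((-t) • ten y g)
      have hTq : QN (ψ S) := by
        rw [hS]; exact qn_smul (qn_of_sq (ten_sq hgy)) _
      have hSq : QN S := by
        have h1 : QN (φ 0 - ψ S) := by rw [h0, zero_sub]; exact qn_neg hTq
        rw [h.qn, zero_sub] at h1
        exact qn_neg_iff.mp h1
      have h2 : ∀ (i : Fin m) (s : ℂ), QN (S - s • ten (x i) (f i)) := by
        intro i s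
        rw [qn_sub_comm, ← h.qn, hS]
        have hq : QN (φ (s • ten (x i) (f i))) := by
          have : QN (φ (s • ten (x i) (f i)) - ψ 0) := by
            rw [h.qn, sub_zero]; exact qn_smul (qn_of_sq (ten_sq (hfx i))) _
          rwa [h0', sub_zero] at this
        have e : φ (s • ten (x i) (f i)) - (-t) • ten y g =
            φ (s • ten (x i) (f i)) + t • ten y g := by module
        rw [e]
        refine qn_add_smul_ten_of_orth hq (fun n => ?_) t
        cases n with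
        | zero => exact hgy
        | succ n =>
          rw [pow_succ']
          exact hg _ (hNmem i s _)
      have h3 := hfam S hSq h2
      rw [qn_sub_comm, ← h.qn, hS] at h3
      have e : φ V - (-t) • ten y g = φ V + t • ten y g := by module
      rwa [e] at h3
    have := pencil_one hφV hall 1
    rwa [pow_one] at this
  have hmod : ∀ y : Y, φ V y ∈ N ⊔ Submodule.span ℂ {y} := by
    intro y
    by_contra hcon
    obtain ⟨g, hg, hg'⟩ := exists_sep_sub (hNfg.sup (Submodule.fg_span_singleton y)) hcon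
    have := key y g (fun v hv => hg v (Submodule.mem_sup_left hv))
      (hg y (Submodule.mem_sup_right (Submodule.mem_span_singleton_self y)))
    rw [hg'] at this
    exact one_ne_zero this
  refine Submodule.FG.of_le hNfg ?_
  rintro _ ⟨y, rfl⟩
  exact range_le_of_mod hY hφV hNfg hmod y

/-- Proof. Let `N = ten x f ≠ 0`, `p = φ N` (`N = 0` clear). `p ∈ F0 Y` (`image_fg`, `qn_finite_rank_mem_F0`), `QN p`. `n1_of_two` (helper6/NGadget.lean): let `V ∈ F0 Y`, `QN V`, `QN (V + p)`. `-V = ψ S`; the inverse of the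
swapped pair `(ψ, φ)` and `pair_fg` (for `Y` and `X` exchanged) show that `S` has finitely generated range, and `QN S`, so `S` is nilpotent (`qn_finite_rank_nilpotent`). `QN (p - ψ S)`, so `QN (N - S)`, so by
`rank_one_two_of_nilpotent` `QN (t • N - S)` for all `t`, that is, `QN (φ (t • N) + V)` for all `t`: `V + q` is quasinilpotent for all
`q ∈ m = φ '' rline 0 N`, in particular for `(2 : ℂ) • p = p - (0 - p) ∈ m` (`image_sub`). (Signs: `QN (V + p)` iff `QN (p - ψ S)` iff `QN (N - S)`.) -/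
theorem pair_n1 [CompleteSpace X] [CompleteSpace Y] (hX : ¬ Module.Finite ℂ X)
    (hY : ¬ Module.Finite ℂ Y)
    {φ ψ : (X →L[ℂ] X) → (Y →L[ℂ] Y)} (h : IsPair φ ψ) (h0 : φ 0 = 0) (h0' : ψ 0 = 0)
    {N : X →L[ℂ] X} (hN : N1 N) : N1 (φ N) := by
  obtain ⟨x, f, hfx, rfl⟩ := hN
  by_cases hx : x = 0
  · rw [hx, ten_zero_left, h0]
    exact ⟨0, 0, by simp, by rw [ten_zero_left]⟩
  by_cases hf : f = 0
  · rw [hf, ten_zero_right, h0]
    exact ⟨0, 0, by simp, by rw [ten_zero_left]⟩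
  have hp : QN (φ (ten x f)) := by
    have : QN (φ (ten x f) - ψ 0) := by
      rw [h.qn, sub_zero]; exact qn_of_sq (ten_sq hfx)
    rwa [h0', sub_zero] at this
  have hpF : φ (ten x f) ∈ F0 Y := qn_finite_rank_mem_F0 (image_fg hX h h0 h0' hx hf hfx) hp
  have hmem : φ (ten x f) ∈ φ '' rline 0 (ten x f) := ⟨ten x f, ⟨1, by simp⟩, rfl⟩
  have hmem0 : (0 : Y →L[ℂ] Y) ∈ φ '' rline 0 (ten x f) := ⟨0, ⟨0, by simp⟩, h0⟩
  have hneg := image_sub hX h h0 h0' hx hf hfx hmem0 hmem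
  have htwo := image_sub hX h h0 h0' hx hf hfx hmem hneg
  have e2 : φ (ten x f) - (0 - φ (ten x f)) = (2 : ℂ) • φ (ten x f) := by
    rw [two_smul]; abel
  rw [e2] at htwo
  refine n1_of_two hpF hp fun V hVF hV hVp => ?_
  obtain ⟨φ', ψ', h', hφ1, hφ2, hψ1, hψ2⟩ := h.exists_inv
  have h0a : φ' 0 = 0 := by rw [← h0, hφ1]
  have h0b : ψ' 0 = 0 := by rw [← h0', hψ1]
  obtain ⟨S, hS⟩ : ∃ S, S = ψ' (-V) := ⟨_, rfl⟩
  have hψS : ψ S = -V := by rw [hS, hψ2]
  have hSfg : (LinearMap.range (S : X →ₗ[ℂ] X)).FG := by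
    rw [hS]
    refine pair_fg hY hX (g18c_swap h') h0b h0a ?_ (qn_neg hV)
    exact fg_of_mem_F0 ((F0 Y).neg_mem hVF)
  have hSq : QN S := by
    have h1 : QN (φ 0 - ψ S) := by rw [h0, hψS, zero_sub, neg_neg]; exact hV
    rw [h.qn, zero_sub] at h1
    exact qn_neg_iff.mp h1
  obtain ⟨n, hn⟩ := qn_finite_rank_nilpotent hSfg hSq
  have h1 : QN (S + (-1 : ℂ) • ten x f) := by
    have h2 : QN (φ (ten x f) - ψ S) := by
      rw [hψS, sub_neg_eq_add, add_comm]; exact hVp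
    rw [h.qn, qn_sub_comm] at h2
    have e : S + (-1 : ℂ) • ten x f = S - ten x f := by module
    rwa [e]
  have h3 := rank_one_two_of_nilpotent hSq ⟨n, hn⟩ (neg_ne_zero.mpr one_ne_zero) h1
  obtain ⟨R, ⟨s, hR⟩, hRp⟩ := htwo
  have h4 : QN (R - S) := by
    rw [qn_sub_comm, ← hR]
    have := h3 (-s)
    have e : S - (fun z : ℂ => (0 : X →L[ℂ] X) + z • ten x f) s = S + -s • ten x f := by
      show S - (0 + s • ten x f) = S + -s • ten x f
      module
    rwa [e]
  rw [← h.qn, hRp, hψS, sub_neg_eq_add, add_comm] at h4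
  exact h4

/-- Proof. `m = φ '' rline 0 A` is a quasi-line of quasinilpotent operators in `B(Y)` containing `0 = φ 0` and `φ A`, which is a non zero rank one nilpotent (`pair_n1`): `bline` in `Y`. -/
theorem pair_rline [CompleteSpace X] [CompleteSpace Y] (hX : ¬ Module.Finite ℂ X)
    (hY : ¬ Module.Finite ℂ Y)
    {φ ψ : (X →L[ℂ] X) → (Y →L[ℂ] Y)} (h : IsPair φ ψ) (h0 : φ 0 = 0) (h0' : ψ 0 = 0)
    {N : X →L[ℂ] X} (hN : N1 N) (hN0 : N ≠ 0) : φ '' rline 0 N = rline 0 (φ N) := by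
  obtain ⟨y, g, hgy, hyg⟩ := pair_n1 hX hY h h0 h0' hN
  obtain ⟨x, f, hfx, rfl⟩ := hN
  have hx : x ≠ 0 := by rintro rfl; exact hN0 (ten_zero_left f)
  have hf : f ≠ 0 := by rintro rfl; exact hN0 (ten_zero_right x)
  have hne : φ (ten x f) ≠ 0 := by
    intro e
    exact hN0 (h.bij.1 (by rw [e, h0]))
  have hy : y ≠ 0 := by rintro rfl; exact hne (by rw [hyg, ten_zero_left])
  have hg : g ≠ 0 := by rintro rfl; exact hne (by rw [hyg, ten_zero_right])
  have hR := isPLine_rline hX hx hf hfx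
  have hm0 : (0 : Y →L[ℂ] Y) ∈ φ '' rline 0 (ten x f) := ⟨0, hR.zero, h0⟩
  have hm1 : φ (ten x f) ∈ φ '' rline 0 (ten x f) := ⟨ten x f, ⟨1, by simp⟩, rfl⟩
  rw [hyg] at hm1
  rw [hyg]
  refine bline hY (hR.qline.image h) hy hg hgy hm0 hm1 ?_
  rintro _ ⟨S, hS, rfl⟩
  have h1 : QN (φ S - ψ 0) := by
    rw [h.qn, sub_zero]
    exact hR.qn hS
  rwa [h0', sub_zero] at h1

end Pool.Agent.H.MP_bb4c62_an.helper86.PG
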