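import Pool.Agent.H.MP_bb4c62_an.helper86.G18c

/-!
Adjacency of rank one nilpotents.
-/

namespace Pool.Agent.H.MP_bb4c62_an.helper86.PG

open Pool.Agent.H.MP_bb4c62_an.helper6.NL
open Pool.Agent.H.MP_bb4c62_an.helper6.Perturb
open Pool.Agent.H.MP_bb4c62_an.helper6.Gadgets
open Pool.Agent.H.MP_bb4c62_an.helper5.PL

variable {X : Type*} [NormedAddCommGroup X] [NormedSpace ℂ X]

/-- Two non zero rank one nilpotents with the same vector or the same functional (up to scalars). -/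
def Adj (N M : X →L[ℂ] X) : Prop :=
  ∃ (x y : X) (f g : X →L[ℂ] ℂ), x ≠ 0 ∧ y ≠ 0 ∧ f ≠ 0 ∧ g ≠ 0 ∧ f x = 0 ∧ g y = 0 ∧
    N = ten x f ∧ M = ten y g ∧ ((∃ c : ℂ, y = c • x) ∨ ∃ c : ℂ, g = c • f)

theorem g19_mem_rline {N S : X →L[ℂ] X} : S ∈ rline 0 N ↔ ∃ c : ℂ, S = c • N := by
  constructor
  · rintro ⟨c, rfl⟩
    exact ⟨c, by simp⟩
  · rintro ⟨c, rfl⟩
    exact ⟨c, by simp⟩

/-- a vector in two kernels outside a finitely generated subspace -/
theorem g19_big_ker2 (hX : ¬ Module.Finite ℂ X) {f g : X →L[ℂ] ℂ} {u1 u2 : X} (h1 : f u1 = 1)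
    (h2 : g u1 = 0) (h3 : f u2 = 0) (h4 : g u2 = 1) (Z : Submodule ℂ X) (hZ : Z.FG) :
    ∃ v, f v = 0 ∧ g v = 0 ∧ v ∉ Z := by
  by_contra hcon
  push Not at hcon
  apply hX
  have : (⊤ : Submodule ℂ X) ≤ Z ⊔ Submodule.span ℂ {u1, u2} := by
    intro u _
    have e1 : f (u - (f u • u1 + g u • u2)) = 0 := by
      simp only [map_sub, map_add, map_smul, h1, h3, smul_eq_mul]; ring
    have e2 : g (u - (f u • u1 + g u • u2)) = 0 := by
      simp only [map_sub, map_add, map_smul, h2, h4, smul_eq_mul]; ring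
    have e3 : u = (u - (f u • u1 + g u • u2)) + (f u • u1 + g u • u2) := by abel
    rw [e3]
    exact Submodule.add_mem_sup (hcon _ e1 e2)
      (Submodule.mem_span_pair.mpr ⟨f u, g u, rfl⟩)
  exact ⟨Submodule.FG.of_le (hZ.sup (Submodule.fg_span (Set.toFinite _))) this⟩

/-- the form of the operators `T` used as tests -/
def G19P (x y z : X) (f g k : X →L[ℂ] ℂ) : Prop :=
  ∀ (u : X) (l : X →L[ℂ] ℂ), l u = 0 → f u * l x = 0 → g u * l y = 0 → k u * l z = 0

theorem g19_P_of [CompleteSpace X] {x y z : X} {f g k : X →L[ℂ] ℂ} (hfx : f x = 0) (hgy : g y = 0)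
    (hkz : k z = 0)
    (H : ∀ T : X →L[ℂ] X, QN T → (∀ S ∈ rline 0 (ten x f), QN (T - S)) →
      (∀ S ∈ rline 0 (ten y g), QN (T - S)) → QN (T - ten z k)) : G19P x y z f g k := by
  intro u l hlu h1 h2
  have hT0 : ∀ s : ℂ, (s • ten u l) * (s • ten u l) = 0 := by
    intro s
    rw [smul_mul_smul_comm, ten_sq hlu, smul_zero]
  have hlp : ∀ (s : ℂ) (a : X) (h : X →L[ℂ] ℂ), h a = 0 → h u * l a = 0 →
      ∀ S ∈ rline 0 (ten a h), QN (s • ten u l - S) := by
    intro s a h ha hh S hS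
    obtain ⟨c, rfl⟩ := g19_mem_rline.1 hS
    refine LP.qn_sub (LP.of_two ha (qn_of_sq (hT0 s)) ?_ ?_) c
    · show h (s • (l a • u)) = 0
      rw [map_smul, map_smul, smul_eq_mul, smul_eq_mul, mul_comm (l a), hh, mul_zero]
    · show s • (l (s • (l a • u)) • u) = 0
      rw [map_smul, map_smul, hlu, smul_zero, smul_zero, zero_smul, smul_zero]
  have hq : ∀ s : ℂ, QN (ten z k + s • ten u l) := by
    intro s
    have := H ((-s) • ten u l) (qn_of_sq (hT0 _)) (hlp _ x f hfx h1) (hlp _ y g hgy h2)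
    rw [qn_sub_comm] at this
    rwa [neg_smul, sub_neg_eq_add] at this
  have := pencil_one (qn_of_sq (ten_sq hkz)) hq 1
  rw [pow_one] at this
  have e : l ((ten z k) u) = k u * l z := by
    show l (k u • z) = _
    rw [map_smul, smul_eq_mul]
  rwa [e] at this

/-- one of the two products of coefficients -/
theorem g19_half (hX : ¬ Module.Finite ℂ X) {x y z : X} {f g k : X →L[ℂ] ℂ}
    (hf : f ≠ 0) (hxy : ¬ ∃ c : ℂ, x = c • y) (hfg : ¬ ∃ c : ℂ, g = c • f)
    (P : G19P x y z f g k) {α β γ δ : ℂ} (hk : k = α • f + β • g) (hz : z = γ • x + δ • y) :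
    β * γ = 0 := by
  obtain ⟨⟨u2, h3, h4⟩, ⟨u1, h1, h2⟩⟩ := exists_sep hf hfg
  obtain ⟨v, hv1, hv2, hv3⟩ := g19_big_ker2 hX h1 h2 h3 h4 (Submodule.span ℂ {x, y, u2})
    (Submodule.fg_span (Set.toFinite _))
  have hx3 : x ∈ Submodule.span ℂ ({x, y, u2} : Set X) := Submodule.subset_span (by simp)
  have hy3 : y ∈ Submodule.span ℂ ({x, y, u2} : Set X) := Submodule.subset_span (by simp)
  have hu3 : u2 ∈ Submodule.span ℂ ({x, y, u2} : Set X) := Submodule.subset_span (by simp)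
  have hx : x ∉ Submodule.span ℂ ({u2 + v, y} : Set X) := by
    intro hmem
    obtain ⟨a, b, hab⟩ := Submodule.mem_span_pair.mp hmem
    have ha : a ≠ 0 := by
      rintro rfl
      exact hxy ⟨b, by rw [← hab, zero_smul, zero_add]⟩
    apply hv3
    have e : v = a⁻¹ • x - (a⁻¹ * b) • y - u2 := by
      rw [← hab, smul_add, smul_smul, smul_smul, inv_mul_cancel₀ ha, one_smul]
      abel
    rw [e]
    exact Submodule.sub_mem _ (Submodule.sub_mem _ (Submodule.smul_mem _ _ hx3)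
      (Submodule.smul_mem _ _ hy3)) hu3
  obtain ⟨l, hl1, hl2⟩ := exists_sep_sub (Submodule.fg_span (Set.toFinite _)) hx
  have hlu : l (u2 + v) = 0 := hl1 _ (Submodule.subset_span (by simp))
  have hly : l y = 0 := hl1 _ (Submodule.subset_span (by simp))
  have hfu : f (u2 + v) = 0 := by rw [map_add, h3, hv1, add_zero]
  have hgu : g (u2 + v) = 1 := by rw [map_add, h4, hv2, add_zero]
  have := P (u2 + v) l hlu (by rw [hfu, zero_mul]) (by rw [hly, mul_zero])
  have e1 : k (u2 + v) = β := by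
    rw [hk]
    show α * f (u2 + v) + β * g (u2 + v) = β
    rw [hfu, hgu]; ring
  have e2 : l z = γ := by
    rw [hz, map_add, map_smul, map_smul, hl2, hly, smul_eq_mul, smul_eq_mul]; ring
  rwa [e1, e2] at this

theorem g19_core (hX : ¬ Module.Finite ℂ X) {x y z : X} {f g k : X →L[ℂ] ℂ} (hx : x ≠ 0)
    (hf : f ≠ 0) (hg : g ≠ 0) (hz0 : z ≠ 0) (hk0 : k ≠ 0) (hkz : k z = 0)
    (hxy : ¬ ∃ c : ℂ, y = c • x) (hfg : ¬ ∃ c : ℂ, g = c • f) (P : G19P x y z f g k) :
    (∃ c : ℂ, ten z k = c • ten x f) ∨ ∃ c : ℂ, ten z k = c • ten y g := by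
  have hyx : ¬ ∃ c : ℂ, x = c • y := by
    rintro ⟨c, hc⟩
    have hc0 : c ≠ 0 := by rintro rfl; rw [zero_smul] at hc; exact hx hc
    exact hxy ⟨c⁻¹, by rw [hc, smul_smul, inv_mul_cancel₀ hc0, one_smul]⟩
  have hgf : ¬ ∃ c : ℂ, f = c • g := by
    rintro ⟨c, hc⟩
    have hc0 : c ≠ 0 := by rintro rfl; exact hf (by rw [hc, dual_zero_smul])
    exact hfg ⟨c⁻¹, by rw [hc, smul_smul, inv_mul_cancel₀ hc0, one_smul]⟩
  obtain ⟨⟨u2, h3, h4⟩, ⟨u1, h1, h2⟩⟩ := exists_sep hf hfg
  obtain ⟨α, β, hk⟩ : ∃ α β : ℂ, k = α • f + β • g := by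
    refine ⟨k u1, k u2, ?_⟩
    ext v
    have e1 : f (v - (f v • u1 + g v • u2)) = 0 := by
      simp only [map_sub, map_add, map_smul, h1, h3, smul_eq_mul]; ring
    have e2 : g (v - (f v • u1 + g v • u2)) = 0 := by
      simp only [map_sub, map_add, map_smul, h2, h4, smul_eq_mul]; ring
    have e3 : k (v - (f v • u1 + g v • u2)) = 0 := by
      by_contra hne
      set w := v - (f v • u1 + g v • u2) with hw
      have hzw : z ∉ Submodule.span ℂ ({w} : Set X) := by
        intro hm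
        obtain ⟨c, hc⟩ := Submodule.mem_span_singleton.mp hm
        rw [← hc, map_smul, smul_eq_mul] at hkz
        rcases mul_eq_zero.mp hkz with h | h
        · rw [h, zero_smul] at hc
          exact hz0 hc.symm
        · exact hne h
      obtain ⟨l, hl1, hl2⟩ := exists_sep_sub (Submodule.fg_span_singleton w) hzw
      have := P w l (hl1 _ (Submodule.mem_span_singleton_self w)) (by rw [e1, zero_mul])
        (by rw [e2, zero_mul])
      rw [hl2, mul_one] at this
      exact hne this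
    simp only [map_sub, map_add, map_smul, smul_eq_mul] at e3
    show k v = k u1 * f v + k u2 * g v
    linear_combination e3
  have hz : z ∈ Submodule.span ℂ ({x, y} : Set X) := by
    by_contra hm
    obtain ⟨l, hl1, hl2⟩ := exists_sep_sub (Submodule.fg_span (Set.toFinite _)) hm
    obtain ⟨w, hw⟩ := exists_ap hk0
    have hlx : l x = 0 := hl1 _ (Submodule.subset_span (by simp))
    have hly : l y = 0 := hl1 _ (Submodule.subset_span (by simp))
    have := P (w - l w • z) l (by rw [map_sub, map_smul, hl2, smul_eq_mul, mul_one, sub_self])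
      (by rw [hlx, mul_zero]) (by rw [hly, mul_zero])
    rw [map_sub, map_smul, hkz, smul_zero, sub_zero, hw, hl2, one_mul] at this
    exact one_ne_zero this
  obtain ⟨γ, δ, hz⟩ := Submodule.mem_span_pair.mp hz
  have hbg := g19_half hX hf hyx hfg P hk hz.symm
  have had := g19_half (x := y) (y := x) (f := g) (g := f) (α := β) (β := α) (γ := δ)
    (δ := γ) hX hg hxy hgf (fun u l h0 ha hb => P u l h0 hb ha)
    (by rw [add_comm]; exact hk) (by rw [add_comm]; exact hz.symm)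
  rcases mul_eq_zero.mp hbg with hb | hb
  · have ha : α ≠ 0 := by
      intro h
      apply hk0
      rw [hk, h, hb, dual_zero_smul, dual_zero_smul, add_zero]
    have hd : δ = 0 := (mul_eq_zero.mp had).resolve_left ha
    left
    refine ⟨γ * α, ?_⟩
    rw [hk, hb, ← hz, hd, dual_zero_smul, add_zero, zero_smul, add_zero, ten_smul_left,
      ten_smul_right, smul_smul]
  · have hd : δ ≠ 0 := by
      intro h
      apply hz0
      rw [← hz, h, hb, zero_smul, zero_smul, add_zero]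
    have ha : α = 0 := (mul_eq_zero.mp had).resolve_right hd
    right
    refine ⟨δ * β, ?_⟩
    rw [hk, ha, ← hz, hb, dual_zero_smul, zero_add, zero_smul, zero_add, ten_smul_left,
      ten_smul_right, smul_smul]

/-- The intrinsic description of adjacency. -/
theorem adj_iff [CompleteSpace X] (hX : ¬ Module.Finite ℂ X) {N M : X →L[ℂ] X} (hN : N1 N)
    (hM : N1 M) (hN0 : N ≠ 0) (hM0 : M ≠ 0) :
    Adj N M ↔ (M ∈ rline 0 N ∨ ∃ C : X →L[ℂ] X, N1 C ∧ C ∉ rline 0 N ∧ C ∉ rline 0 M ∧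
      ∀ T : X →L[ℂ] X, QN T → (∀ S ∈ rline 0 N, QN (T - S)) → (∀ S ∈ rline 0 M, QN (T - S)) →
        QN (T - C)) := by
  constructor
  · rintro ⟨x, y, f, g, hx, hy, hf, hg, hfx, hgy, rfl, rfl, hrel⟩
    by_cases hMN : ten y g ∈ rline 0 (ten x f)
    · exact Or.inl hMN
    right
    have hNM : ten x f ∉ rline 0 (ten y g) := by
      intro h
      obtain ⟨c, hc⟩ := g19_mem_rline.1 h
      have hc0 : c ≠ 0 := by rintro rfl; exact hN0 (by rw [hc, zero_smul])
      exact hMN (g19_mem_rline.2 ⟨c⁻¹, by rw [hc, smul_smul, inv_mul_cancel₀ hc0, one_smul]⟩)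
    refine ⟨ten x f + ten y g, ?_, ?_, ?_, ?_⟩
    · rcases hrel with ⟨c, rfl⟩ | ⟨c, rfl⟩
      · have hc0 : c ≠ 0 := by rintro rfl; exact hy (zero_smul _ _)
        rw [map_smul, smul_eq_mul] at hgy
        have hgx := (mul_eq_zero.mp hgy).resolve_left hc0
        refine ⟨x, f + c • g, ?_, ?_⟩
        · show f x + c * g x = 0
          rw [hfx, hgx, mul_zero, add_zero]
        · rw [ten_add_right', ten_smul_right, ten_smul_left]
      · have hc0 : c ≠ 0 := by rintro rfl; exact hg (dual_zero_smul f)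
        have hgy' : c * f y = 0 := hgy
        have hfy := (mul_eq_zero.mp hgy').resolve_left hc0
        refine ⟨x + c • y, f, ?_, ?_⟩
        · rw [map_add, map_smul, hfx, hfy, smul_zero, add_zero]
        · rw [ten_add_right, ten_smul_right, ten_smul_left]
    · intro h
      obtain ⟨c, hc⟩ := g19_mem_rline.1 h
      exact hMN (g19_mem_rline.2 ⟨c - 1, by rw [sub_smul, ← hc, one_smul]; abel⟩)
    · intro h
      obtain ⟨c, hc⟩ := g19_mem_rline.1 h
      exact hNM (g19_mem_rline.2 ⟨c - 1, by rw [sub_smul, ← hc, one_smul]; abel⟩)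
    · intro T hT h1 h2
      have hl1 : LP x f T := lp_of_qn_sub fun t => h1 _ (g19_mem_rline.2 ⟨t, rfl⟩)
      have hl2 : LP y g T := lp_of_qn_sub fun t => h2 _ (g19_mem_rline.2 ⟨t, rfl⟩)
      rcases hrel with ⟨c, rfl⟩ | ⟨c, rfl⟩
      · have hc0 : c ≠ 0 := by rintro rfl; exact hy (zero_smul _ _)
        have e : ten x f + ten (c • x) g = (1 : ℂ) • ten x (f + c • g) := by
          rw [one_smul, ten_add_right', ten_smul_right, ten_smul_left]
        rw [e]
        refine LP.qn_sub ⟨hT, fun n => ?_⟩ 1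
        have := hl2.2 n
        rw [map_smul, map_smul, smul_eq_mul] at this
        show f ((T ^ n) x) + c * g ((T ^ n) x) = 0
        rw [hl1.2 n, this, add_zero]
      · have hc0 : c ≠ 0 := by rintro rfl; exact hg (dual_zero_smul f)
        have e : ten x f + ten y (c • f) = (1 : ℂ) • ten (x + c • y) f := by
          rw [one_smul, ten_add_right, ten_smul_right, ten_smul_left]
        rw [e]
        refine LP.qn_sub ⟨hT, fun n => ?_⟩ 1
        have : c * f ((T ^ n) y) = 0 := hl2.2 n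
        rw [map_add, map_smul, map_add, map_smul, hl1.2 n, zero_add, smul_eq_mul]
        exact this
  · obtain ⟨x, f, hfx, rfl⟩ := hN
    obtain ⟨y, g, hgy, rfl⟩ := hM
    have hx : x ≠ 0 := fun h => hN0 (ten_eq_zero_iff.2 (Or.inl h))
    have hf : f ≠ 0 := fun h => hN0 (ten_eq_zero_iff.2 (Or.inr h))
    have hy : y ≠ 0 := fun h => hM0 (ten_eq_zero_iff.2 (Or.inl h))
    have hg : g ≠ 0 := fun h => hM0 (ten_eq_zero_iff.2 (Or.inr h))
    rintro (h | ⟨C, ⟨z, k, hkz, rfl⟩, hC1, hC2, H⟩)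
    · obtain ⟨c, hc⟩ := g19_mem_rline.1 h
      have hc0 : c ≠ 0 := by
        rintro rfl
        exact hM0 (by rw [hc, zero_smul])
      refine ⟨x, x, f, c • f, hx, hx, hf, ?_, hfx, ?_, rfl, ?_, Or.inl ⟨1, (one_smul _ _).symm⟩⟩
      · intro h0
        obtain ⟨w, hw⟩ := exists_ap hf
        have : (c • f) w = 0 := by rw [h0]; rfl
        have h1 : c * f w = 0 := this
        rw [hw, mul_one] at h1
        exact hc0 h1
      · show c * f x = 0
        rw [hfx, mul_zero]
      · rw [hc, ten_smul_right]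
    · have hz0 : z ≠ 0 := by
        rintro rfl
        exact hC1 (g19_mem_rline.2 ⟨0, by rw [zero_smul, ten_eq_zero_iff]; exact Or.inl rfl⟩)
      have hk0 : k ≠ 0 := by
        rintro rfl
        exact hC1 (g19_mem_rline.2 ⟨0, by rw [zero_smul, ten_eq_zero_iff]; exact Or.inr rfl⟩)
      refine ⟨x, y, f, g, hx, hy, hf, hg, hfx, hgy, rfl, rfl, ?_⟩
      by_contra hcon
      push Not at hcon
      have P := g19_P_of hfx hgy hkz H
      rcases g19_core hX hx hf hg hz0 hk0 hkz (fun ⟨c, hc⟩ => hcon.1 c hc)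
        (fun ⟨c, hc⟩ => hcon.2 c hc) P with h | h
      · exact hC1 (g19_mem_rline.2 h)
      · exact hC2 (g19_mem_rline.2 h)

theorem g19_prop {z1 z2 : X} {k1 k2 : X →L[ℂ] ℂ} (h : ten z1 k1 = ten z2 k2) (hz : z1 ≠ 0)
    (hk : k1 ≠ 0) : ∃ c : ℂ, c ≠ 0 ∧ z1 = c • z2 ∧ k2 = c • k1 := by
  obtain ⟨w, hw⟩ := exists_ap hk
  have e1 : z1 = k2 w • z2 := by
    have : (ten z1 k1) w = (ten z2 k2) w := by rw [h]
    have h1 : k1 w • z1 = k2 w • z2 := this
    rwa [hw, one_smul] at h1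
  have hz2 : z2 ≠ 0 := by
    rintro rfl
    exact hz (by rw [e1, smul_zero])
  refine ⟨k2 w, ?_, e1, ?_⟩
  · intro h0
    exact hz (by rw [e1, h0, zero_smul])
  · ext v
    have : (ten z1 k1) v = (ten z2 k2) v := by rw [h]
    have h1 : k1 v • z1 = k2 v • z2 := this
    rw [e1, smul_smul] at h1
    have h2 := smul_left_injective ℂ hz2 h1
    show k2 v = k2 w * k1 v
    rw [← h2, mul_comm]

/-- Two adjacent rank one nilpotents. -/
theorem g19_qn_iff [CompleteSpace X] {x y : X} {f g : X →L[ℂ] ℂ} (hfx : f x = 0) (hgy : g y = 0) :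
    QN (ten x f - ten y g) ↔ f y = 0 ∨ g x = 0 := by
  constructor
  · intro hq
    by_contra hcon
    push Not at hcon
    obtain ⟨h1, h2⟩ := hcon
    obtain ⟨μ, hμ⟩ := IsAlgClosed.exists_pow_nat_eq (-(f y * g x)) (n := 2) (by norm_num)
    have hμ0 : μ ≠ 0 := by
      rintro rfl
      rw [zero_pow (by norm_num)] at hμ
      exact mul_ne_zero h1 h2 (neg_eq_zero.1 hμ.symm)
    refine not_qn_of_eigen (x := f y • x + μ • y) ?_ hμ0 ?_ hq
    · intro h0
      have : f (f y • x + μ • y) = 0 := by rw [h0, map_zero]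
      rw [map_add, map_smul, map_smul, hfx, smul_zero, zero_add, smul_eq_mul] at this
      exact mul_ne_zero hμ0 h1 this
    · show f (f y • x + μ • y) • x - g (f y • x + μ • y) • y = μ • (f y • x + μ • y)
      have e1 : f (f y • x + μ • y) = μ * f y := by
        rw [map_add, map_smul, map_smul, hfx, smul_zero, zero_add, smul_eq_mul]
      have e2 : g (f y • x + μ • y) = -(μ * μ) := by
        rw [map_add, map_smul, map_smul, hgy, smul_zero, add_zero, smul_eq_mul]
        rw [← pow_two, hμ, neg_neg]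
      rw [e1, e2, smul_add, smul_smul, smul_smul, neg_smul, sub_neg_eq_add]
  · intro h
    have hNq : QN (ten x f) := qn_of_sq (ten_sq hfx)
    have hlp : LP y g (ten x f) := by
      rcases h with h | h
      · refine LP.of_kill hgy hNq ?_
        show f y • x = 0
        rw [h, zero_smul]
      · refine LP.of_left hgy hNq fun v => ?_
        show g (f v • x) = 0
        rw [map_smul, h, smul_zero]
    have := hlp.qn_sub 1
    rwa [one_smul] at this

/-- Quasinilpotent differences of rank one nilpotents through adjacency. -/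
theorem qn_sub_iff_adj [CompleteSpace X] (hX : ¬ Module.Finite ℂ X) {N M : X →L[ℂ] X}
    (hN : N1 N) (hM : N1 M) (hN0 : N ≠ 0) (hM0 : M ≠ 0) :
    QN (N - M) ↔ ∃ C : X →L[ℂ] X, N1 C ∧ C ≠ 0 ∧ Adj N C ∧ Adj C M := by
  constructor
  · obtain ⟨x, f, hfx, rfl⟩ := hN
    obtain ⟨y, g, hgy, rfl⟩ := hM
    have hx : x ≠ 0 := fun h => hN0 (ten_eq_zero_iff.2 (Or.inl h))
    have hf : f ≠ 0 := fun h => hN0 (ten_eq_zero_iff.2 (Or.inr h))
    have hy : y ≠ 0 := fun h => hM0 (ten_eq_zero_iff.2 (Or.inl h))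
    have hg : g ≠ 0 := fun h => hM0 (ten_eq_zero_iff.2 (Or.inr h))
    intro hq
    have one1 : ∀ v : X, ∃ c : ℂ, v = c • v := fun v => ⟨1, (one_smul _ _).symm⟩
    have one2 : ∀ v : X →L[ℂ] ℂ, ∃ c : ℂ, v = c • v := fun v => ⟨1, (one_smul _ _).symm⟩
    rcases (g19_qn_iff hfx hgy).1 hq with h | h
    · refine ⟨ten y f, ⟨y, f, h, rfl⟩, fun h0 => ?_,
        ⟨x, y, f, f, hx, hy, hf, hf, hfx, h, rfl, rfl, Or.inr (one2 f)⟩,
        ⟨y, y, f, g, hy, hy, hf, hg, h, hgy, rfl, rfl, Or.inl (one1 y)⟩⟩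
      rcases ten_eq_zero_iff.1 h0 with h1 | h1
      · exact hy h1
      · exact hf h1
    · refine ⟨ten x g, ⟨x, g, h, rfl⟩, fun h0 => ?_,
        ⟨x, x, f, g, hx, hx, hf, hg, hfx, h, rfl, rfl, Or.inl (one1 x)⟩,
        ⟨x, y, g, g, hx, hy, hg, hg, h, hgy, rfl, rfl, Or.inr (one2 g)⟩⟩
      rcases ten_eq_zero_iff.1 h0 with h1 | h1
      · exact hx h1
      · exact hg h1
  · rintro ⟨C, -, -, ⟨x, z1, f, k1, hx, hz1, hf, hk1, hfx, hkz1, rfl, hC, h1⟩,
      ⟨z2, y, k2, g, hz2, hy, hk2, hg, hkz2, hgy, hC', rfl, h2⟩⟩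
    rw [hC] at hC'
    obtain ⟨c, hc, e1, e2⟩ := g19_prop hC' hz1 hk1
    rw [g19_qn_iff hfx hgy]
    rcases h1 with ⟨a, ha⟩ | ⟨a, ha⟩
    · -- `z1 = a • x`
      have ha0 : a ≠ 0 := by rintro rfl; exact hz1 (by rw [ha, zero_smul])
      rcases h2 with ⟨b, hb⟩ | ⟨b, hb⟩
      · left
        have h3 : f (c • z2) = 0 := by rw [← e1, ha, map_smul, hfx, smul_zero]
        rw [map_smul, smul_eq_mul] at h3
        rw [hb, map_smul, (mul_eq_zero.mp h3).resolve_left hc, smul_zero]
      · right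
        have h3 : k2 z1 = 0 := by rw [e1, map_smul, hkz2, smul_zero]
        rw [ha, map_smul, smul_eq_mul] at h3
        rw [hb]
        show b * k2 x = 0
        rw [(mul_eq_zero.mp h3).resolve_left ha0, mul_zero]
    · -- `k1 = a • f`
      have ha0 : a ≠ 0 := by rintro rfl; exact hk1 (by rw [ha, dual_zero_smul])
      rcases h2 with ⟨b, hb⟩ | ⟨b, hb⟩
      · left
        rw [e1, map_smul, smul_eq_mul] at hkz1
        have h3 := (mul_eq_zero.mp hkz1).resolve_left hc
        rw [ha] at h3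
        have h4 : a * f z2 = 0 := h3
        rw [hb, map_smul, (mul_eq_zero.mp h4).resolve_left ha0, smul_zero]
      · right
        rw [hb, e2, ha]
        show b * (c * (a * f x)) = 0
        rw [hfx, mul_zero, mul_zero, mul_zero]

end Pool.Agent.H.MP_bb4c62_an.helper86.PG
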