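import Pool.Agent.H.MP_bb4c62_an.helper86.G19

/-!
The two maps of a pair agree on rank one nilpotents up to scalars.
-/

namespace Pool.Agent.H.MP_bb4c62_an.helper86.PG

open Pool.Agent.H.MP_bb4c62_an.helper6.NL
open Pool.Agent.H.MP_bb4c62_an.helper6.Perturb
open Pool.Agent.H.MP_bb4c62_an.helper6.Gadgets
open Pool.Agent.H.MP_bb4c62_an.helper5.PL

variable {X : Type*} [NormedAddCommGroup X] [NormedSpace ℂ X]
variable {Y : Type*} [NormedAddCommGroup Y] [NormedSpace ℂ Y]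

/-- adjacency of two rank one nilpotents -/
theorem g19b_qn_iff [CompleteSpace X] {c u : X} {m l : X →L[ℂ] ℂ} (hc : c ≠ 0) (hmc : m c = 0)
    (hlu : l u = 0) : QN (ten c m - ten u l) ↔ l c = 0 ∨ m u = 0 := by
  constructor
  · intro hq
    by_contra hcon
    push Not at hcon
    refine not_qn_of_pow_eigen (x := c) (μ := -(l c * m u)) hc
      (neg_ne_zero.mpr (mul_ne_zero hcon.1 hcon.2)) (n := 2) (by norm_num) ?_ hq
    have e0 : ∀ v, (ten c m - ten u l) v = m v • c - l v • u := fun v => rfl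
    have e1 : (ten c m - ten u l) c = -(l c • u) := by rw [e0, hmc, zero_smul, zero_sub]
    have e2 : (ten c m - ten u l) u = m u • c := by rw [e0, hlu, zero_smul, sub_zero]
    rw [pow_two]
    show (ten c m - ten u l) ((ten c m - ten u l) c) = _
    rw [e1, map_neg, map_smul, e2, smul_smul, neg_smul]
  · intro h
    have hV : QN (ten c m) := qn_of_sq (ten_sq hmc)
    have hval : l (ten c m u) = 0 := by
      show l (m u • c) = 0
      rw [map_smul]
      rcases h with h | h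
      · rw [h, smul_zero]
      · rw [h, zero_smul]
    have hval2 : ten c m (ten c m u) = 0 := by
      show m (m u • c) • c = 0
      rw [map_smul, hmc, smul_zero, zero_smul]
    have := (LP.of_two hlu hV hval hval2).qn_sub 1
    rwa [one_smul] at this

/-- one direction of `adj_image` -/
theorem g19b_adj_fwd [CompleteSpace X] [CompleteSpace Y] (hX : ¬ Module.Finite ℂ X)
    (hY : ¬ Module.Finite ℂ Y)
    {φ ψ : (X →L[ℂ] X) → (Y →L[ℂ] Y)} (h : IsPair φ ψ) (h0 : φ 0 = 0) (h0' : ψ 0 = 0)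
    {N M : X →L[ℂ] X} (hN : N1 N) (hM : N1 M) (hN0 : N ≠ 0) (hM0 : M ≠ 0)
    (hadj : Adj N M) : Adj (φ N) (φ M) := by
  have hφN : φ N ≠ 0 := fun e => hN0 (h.bij.1 (by rw [e, h0]))
  have hφM : φ M ≠ 0 := fun e => hM0 (h.bij.1 (by rw [e, h0]))
  have hlN := pair_rline hX hY h h0 h0' hN hN0
  have hlM := pair_rline hX hY h h0 h0' hM hM0
  rw [adj_iff hY (pair_n1 hX hY h h0 h0' hN) (pair_n1 hX hY h h0 h0' hM) hφN hφM, ← hlN, ← hlM]
  rcases (adj_iff hX hN hM hN0 hM0).mp hadj with h1 | ⟨C, hC, hCN, hCM, hCT⟩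
  · exact Or.inl ⟨M, h1, rfl⟩
  · refine Or.inr ⟨φ C, pair_n1 hX hY h h0 h0' hC, ?_, ?_, ?_⟩
    · rintro ⟨S, hS, hSC⟩
      rw [h.bij.1 hSC] at hS
      exact hCN hS
    · rintro ⟨S, hS, hSC⟩
      rw [h.bij.1 hSC] at hS
      exact hCM hS
    · intro T' hT' h1 h2
      obtain ⟨T, rfl⟩ := h.bij'.2 T'
      have hT : QN T := by
        have h3 : QN (φ 0 - ψ T) := by rw [h0, zero_sub]; exact qn_neg hT'
        rw [h.qn, zero_sub] at h3
        exact qn_neg_iff.mp h3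
      rw [qn_sub_comm, h.qn, qn_sub_comm]
      refine hCT T hT (fun S hS => ?_) (fun S hS => ?_)
      · rw [qn_sub_comm, ← h.qn, qn_sub_comm]
        exact h1 _ ⟨S, hS, rfl⟩
      · rw [qn_sub_comm, ← h.qn, qn_sub_comm]
        exact h2 _ ⟨S, hS, rfl⟩

/-- Proof. Both directions of `adj_iff`; `pair_n1`, `pair_rline`, for `(φ, ψ)` and for the inverse pair. Assume the right hand side of `adj_iff` for `N, M`. If `M ∈ rline 0 N` then `φ M ∈ rline 0 (φ N)`. Otherwise let `C` be the third operator. `φ C` works: it is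
`N1`; `φ C ∈ rline 0 (φ N) = φ '' rline 0 N` would give `C ∈ rline 0 N`. If `QN T'`, `T'` adjacent to `rline 0 (φ N) = φ '' rline 0 N` and to `rline 0 (φ M)`: `T' = ψ T`, `QN T` (`φ 0 = 0`), `T` is adjacent to `rline 0 N`, `rline 0 M`, so `QN (T - C)` and `QN (φ C - ψ T)`.
The other direction follows with the inverse pair. -/
theorem adj_image [CompleteSpace X] [CompleteSpace Y] (hX : ¬ Module.Finite ℂ X)
    (hY : ¬ Module.Finite ℂ Y)
    {φ ψ : (X →L[ℂ] X) → (Y →L[ℂ] Y)} (h : IsPair φ ψ) (h0 : φ 0 = 0) (h0' : ψ 0 = 0)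
    {N M : X →L[ℂ] X} (hN : N1 N) (hM : N1 M) (hN0 : N ≠ 0) (hM0 : M ≠ 0) :
    Adj (φ N) (φ M) ↔ Adj N M := by
  refine ⟨fun hadj => ?_, g19b_adj_fwd hX hY h h0 h0' hN hM hN0 hM0⟩
  obtain ⟨φ', ψ', h', hφ1, hφ2, hψ1, hψ2⟩ := h.exists_inv
  have h0a : φ' 0 = 0 := by rw [← h0, hφ1]
  have h0b : ψ' 0 = 0 := by rw [← h0', hψ1]
  have hφN : φ N ≠ 0 := fun e => hN0 (h.bij.1 (by rw [e, h0]))
  have hφM : φ M ≠ 0 := fun e => hM0 (h.bij.1 (by rw [e, h0]))
  have := g19b_adj_fwd hY hX h' h0a h0b (pair_n1 hX hY h h0 h0' hN) (pair_n1 hX hY h h0 h0' hM)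
    hφN hφM hadj
  rwa [hφ1, hφ1] at this

/-- Proof. `qn_sub_iff_adj` in `X` and `Y`, `adj_image`; every `C' ∈ B(Y)` with `N1 C'`, `C' ≠ 0` is `φ C` with `N1 C`, `C ≠ 0` (inverse pair, `pair_n1`). -/
theorem qn_image [CompleteSpace X] [CompleteSpace Y] (hX : ¬ Module.Finite ℂ X)
    (hY : ¬ Module.Finite ℂ Y)
    {φ ψ : (X →L[ℂ] X) → (Y →L[ℂ] Y)} (h : IsPair φ ψ) (h0 : φ 0 = 0) (h0' : ψ 0 = 0)
    {N M : X →L[ℂ] X} (hN : N1 N) (hM : N1 M) (hN0 : N ≠ 0) (hM0 : M ≠ 0) :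
    QN (φ N - φ M) ↔ QN (N - M) := by
  have hφN : φ N ≠ 0 := fun e => hN0 (h.bij.1 (by rw [e, h0]))
  have hφM : φ M ≠ 0 := fun e => hM0 (h.bij.1 (by rw [e, h0]))
  rw [qn_sub_iff_adj hY (pair_n1 hX hY h h0 h0' hN) (pair_n1 hX hY h h0 h0' hM) hφN hφM,
    qn_sub_iff_adj hX hN hM hN0 hM0]
  constructor
  · rintro ⟨C', hC', hC0, h1, h2⟩
    obtain ⟨φ', ψ', h', hφ1, hφ2, hψ1, hψ2⟩ := h.exists_inv
    have h0a : φ' 0 = 0 := by rw [← h0, hφ1]
    have h0b : ψ' 0 = 0 := by rw [← h0', hψ1]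
    obtain ⟨C, rfl⟩ := h.bij.2 C'
    have hC : N1 C := by
      have := pair_n1 hY hX h' h0a h0b hC'
      rwa [hφ1] at this
    have hCne : C ≠ 0 := by
      rintro rfl
      exact hC0 h0
    exact ⟨C, hC, hCne, (adj_image hX hY h h0 h0' hN hC hN0 hCne).mp h1,
      (adj_image hX hY h h0 h0' hC hM hCne hM0).mp h2⟩
  · rintro ⟨C, hC, hC0, h1, h2⟩
    exact ⟨φ C, pair_n1 hX hY h h0 h0' hC, fun e => hC0 (h.bij.1 (by rw [e, h0])),
      (adj_image hX hY h h0 h0' hN hC hN0 hC0).mpr h1,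
      (adj_image hX hY h h0 h0' hC hM hC0 hM0).mpr h2⟩

/-- two rank one nilpotents with the same adjacent rank one nilpotents are proportional

Proof. `P = ten u l`, `Q = ten u' l'`. For `C = ten c m`, `m c = 0`: `QN (C - P)` iff `l c = 0` or `m u = 0` (see `qn_sub_iff_adj`). If `l, l'` are independent choose `c` with `l c = 0`, `l' c ≠ 0`, `c` not a multiple of `u'`
(add a vector of the kernels), and `m` with `m c = 0`, `m u' ≠ 0`: contradiction. Similarly `u, u'` are proportional (choose `m` with `m u = 0`, `m u' ≠ 0` and `c` in the kernel of `m` with `l' c ≠ 0`; possible unless `m` and `l'` are proportional, so choose `m` well). -/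
theorem prop_of_adj [CompleteSpace X] (hX : ¬ Module.Finite ℂ X) {P Q : X →L[ℂ] X}
    (hP : N1 P) (hQ : N1 Q) (hP0 : P ≠ 0) (hQ0 : Q ≠ 0)
    (h : ∀ C : X →L[ℂ] X, N1 C → C ≠ 0 → (QN (C - P) ↔ QN (C - Q))) : Q ∈ rline 0 P := by
  obtain ⟨u, l, hlu, rfl⟩ := hP
  obtain ⟨u', l', hlu', rfl⟩ := hQ
  have hu : u ≠ 0 := by rintro rfl; exact hP0 (ten_zero_left l)
  have hl : l ≠ 0 := by rintro rfl; exact hP0 (ten_zero_right u)
  have hu' : u' ≠ 0 := by rintro rfl; exact hQ0 (ten_zero_left l')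
  have hl' : l' ≠ 0 := by rintro rfl; exact hQ0 (ten_zero_right u')
  have key : ∀ (c : X) (m : X →L[ℂ] ℂ), c ≠ 0 → m ≠ 0 → m c = 0 →
      ((l c = 0 ∨ m u = 0) ↔ (l' c = 0 ∨ m u' = 0)) := by
    intro c m hc hm hmc
    have hC0 : ten c m ≠ 0 := by
      rw [Ne, ten_eq_zero_iff]; push Not; exact ⟨hc, hm⟩
    rw [← g19b_qn_iff hc hmc hlu, ← g19b_qn_iff hc hmc hlu']
    exact h _ ⟨c, m, hmc, rfl⟩ hC0
  -- the functionals are proportional
  have hker : ∀ c, l c = 0 → l' c = 0 := by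
    intro c hlc
    by_contra hne
    have hc : c ≠ 0 := by rintro rfl; exact hne (map_zero l')
    have hnot : u' ∉ Submodule.span ℂ {c} := by
      intro hmem
      obtain ⟨a, ha⟩ := Submodule.mem_span_singleton.mp hmem
      have h1 : a * l' c = 0 := by
        rw [← smul_eq_mul, ← map_smul, ha, hlu']
      rcases mul_eq_zero.mp h1 with h2 | h2
      · rw [h2, zero_smul] at ha
        exact hu' ha.symm
      · exact hne h2
    obtain ⟨m, hm, hmu⟩ := exists_sep_sub (Submodule.fg_span_singleton c) hnot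
    have hmc : m c = 0 := hm c (Submodule.mem_span_singleton_self c)
    have hm0 : m ≠ 0 := by
      rintro rfl
      exact zero_ne_one hmu
    rcases (key c m hc hm0 hmc).mp (Or.inl hlc) with h1 | h1
    · exact hne h1
    · rw [hmu] at h1
      exact one_ne_zero h1
  -- the vectors are proportional
  have hvec : u' ∈ Submodule.span ℂ {u} := by
    by_contra hnot
    obtain ⟨m, hm, hmu⟩ := exists_sep_sub (Submodule.fg_span_singleton u) hnot
    have hmu0 : m u = 0 := hm u (Submodule.mem_span_singleton_self u)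
    have hm0 : m ≠ 0 := by
      rintro rfl
      exact zero_ne_one hmu
    have hk : ∀ c, m c = 0 → l' c = 0 := by
      intro c hmc
      by_cases hc : c = 0
      · rw [hc, map_zero]
      rcases (key c m hc hm0 hmc).mp (Or.inr hmu0) with h1 | h1
      · exact h1
      · rw [hmu] at h1
        exact absurd h1 one_ne_zero
    apply hl'
    ext v
    have h1 := hk (v - m v • u') (by
      rw [map_sub, map_smul, hmu, smul_eq_mul, mul_one, sub_self])
    rw [map_sub, map_smul, hlu', smul_zero, sub_zero] at h1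
    rw [h1]; rfl
  obtain ⟨a, ha⟩ := Submodule.mem_span_singleton.mp hvec
  obtain ⟨z, hz⟩ := exists_ap hl
  refine ⟨l' z * a, ?_⟩
  show (0 : X →L[ℂ] X) + (l' z * a) • ten u l = ten u' l'
  ext v
  have h1 := hker (v - l v • z) (by
    rw [map_sub, map_smul, hz, smul_eq_mul, mul_one, sub_self])
  rw [map_sub, map_smul, sub_eq_zero, smul_eq_mul] at h1
  rw [zero_add, ← ha]
  show (l' z * a) • (l v • u) = l' v • (a • u)
  rw [h1, smul_smul, smul_smul]
  congr 1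
  ring

/-- Proof. For `N1 C'`, `C' ≠ 0` in `B(Y)`, `C' = φ C` with `N1 C`, `C ≠ 0`: `QN (φ C - φ N)` iff `QN (C - N)` (`qn_image`) iff `QN (φ C - ψ N)` (`h.qn`). `ψ N` is `N1` and not zero (`pair_n1` for `(ψ, φ)`, a pair by
`qn_sub_comm`). `prop_of_adj`: `φ N ∈ rline 0 (ψ N) = ψ '' rline 0 N` (`pair_rline` for `(ψ, φ)`). -/
theorem pair_prop [CompleteSpace X] [CompleteSpace Y] (hX : ¬ Module.Finite ℂ X)
    (hY : ¬ Module.Finite ℂ Y)
    {φ ψ : (X →L[ℂ] X) → (Y →L[ℂ] Y)} (h : IsPair φ ψ) (h0 : φ 0 = 0) (h0' : ψ 0 = 0)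
    {N : X →L[ℂ] X} (hN : N1 N) (hN0 : N ≠ 0) : φ N ∈ ψ '' rline 0 N := by
  have hφN0 : φ N ≠ 0 := fun e => hN0 (h.bij.1 (by rw [e, h0]))
  have hψN0 : ψ N ≠ 0 := fun e => hN0 (h.bij'.1 (by rw [e, h0']))
  have hs := g18c_swap h
  have hψN := pair_n1 hX hY hs h0' h0 hN
  have hφN := pair_n1 hX hY h h0 h0' hN
  rw [pair_rline hX hY hs h0' h0 hN hN0]
  refine prop_of_adj hY hψN hφN hψN0 hφN0 fun C' hC' hC'0 => ?_
  obtain ⟨φ', ψ', h', hφ1, hφ2, hψ1, hψ2⟩ := h.exists_inv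
  have h0a : φ' 0 = 0 := by rw [← h0, hφ1]
  have h0b : ψ' 0 = 0 := by rw [← h0', hψ1]
  obtain ⟨C, rfl⟩ := h.bij.2 C'
  have hC : N1 C := by
    have := pair_n1 hY hX h' h0a h0b hC'
    rwa [hφ1] at this
  have hCne : C ≠ 0 := by
    rintro rfl
    exact hC'0 h0
  rw [h.qn, qn_image hX hY h h0 h0' hC hN hCne hN0]

end Pool.Agent.H.MP_bb4c62_an.helper86.PG
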