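import Pool.Agent.H.MP_bb4c62_an.helper86.G0

/-!
The coefficient of the normal form is zero or one.
-/

namespace Pool.Agent.H.MP_bb4c62_an.helper86.PG

open Pool.Agent.H.MP_bb4c62_an.helper6.NL
open Pool.Agent.H.MP_bb4c62_an.helper6.Perturb
open Pool.Agent.H.MP_bb4c62_an.helper6.Gadgets
open Pool.Agent.H.MP_bb4c62_an.helper5.PL

variable {X : Type*} [NormedAddCommGroup X] [NormedSpace ℂ X]

theorem g2_pow_five (S : X →L[ℂ] X) (v : X) : (S ^ 5) v = S (S (S (S (S v)))) := by
  rw [show (5 : ℕ) = 1 + 1 + 1 + 1 + 1 from rfl]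
  simp only [pow_succ, pow_zero, one_mul]
  rfl

/-- Proof. A variant of `beta_zero_one` (helper6/NLine3.lean), shorter because only one conjugation is
needed. Suppose `β ≠ 0, 1`. `exists_indep3` (as in `beta_zero_one`) with `Z1 = span {x, q, w x}` gives `u1` with
`f u1 = θ u1 = 0` and `u1, w u1, w² u1` independent modulo `Z1`; with `Z2 = span {x, q, w x, u1, w u1, w² u1}` it gives
`u2` with `f u2 = θ u2 = 0`, `u2, w u2, w² u2` independent modulo `Z2`. Choose (`exists_sep_sub`) `v1` with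
`v1 (w u2) = 1`, `v1 = 0` on `Z2`, `u2`, `w² u2`; and `v2` with `v2 (w² u1) = 1`, `v2 = 0` on
`x, q, w x, u1, w u1, u2, w u2, w² u2`. `L = ten u1 v1 + ten u2 v2`: `L * L = 0`, `L * w * L = ten u1 v2`.
For a scalar `s` let `T = w - (1 + s • L) * w * (1 - s • L)` (`conj_sq`: `= -(s • (L * w - w * L)) + s ^ 2 • ten u1 v2`).
`T x = 0` (`L x = 0`, `L (w x) = 0`, `v2 x = 0`); `T ^ 5 = 0` (computation as in `beta_zero_one`: `T` maps
`u1 ↦ 0`, `u2 ↦ -s u1`, `w u1 ↦ -s u2`, `w u2 ↦ s w u1` and everything into the span of these), so `LP x f T` by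
`LP.of_kill`; `QN (T - w)` by `qn_conj`. Hence `QN (V - T)`, where
`V - T = β • w + F + s • (L * w - w * L) - s ^ 2 • (L * w * L)`, `F = ten x θ + ten q f`, `L * F = F * L = 0`. Take
`s = β * μ` and conjugate with `1 - μ • L`, inverse `1 + μ • L`: the result is `V + (β * (1 - β) * μ ^ 2) • ten u1 v2`.
So `QN (V + t • ten u1 v2)` for all `t` (square roots), `pencil_one` with `n = 2`: `v2 (V (V u1)) = 0`. But
`V u1 = β • w u1`, `V (w u1) = β • w (w u1) + θ (w u1) • x + f (w u1) • q`, so `v2 (V (V u1)) = β ^ 2 ≠ 0`. -/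
theorem wild_beta [CompleteSpace X] {x q : X} {f θ : X →L[ℂ] ℂ} (hfx : f x = 0)
    {w V : X →L[ℂ] X} (hw : QN w) (hnil : ∀ n : ℕ, w ^ n ≠ 0) {β : ℂ}
    (hV : V = β • w + (ten x θ + ten q f)) (hVq : QN V)
    (h : ∀ T, LP x f T → QN (T - w) → QN (T - V)) : β = 0 ∨ β = 1 := by
  by_contra hcon
  push Not at hcon
  obtain ⟨hβ0, hβ1⟩ := hcon
  have he0 : 1 - β ≠ 0 := sub_ne_zero.mpr (Ne.symm hβ1)
  -- the vectors
  obtain ⟨u1, hfu1, hθu1, hg1⟩ := exists_indep3 hw hnil (Submodule.span ℂ {x, q, w x})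
    (Submodule.fg_span (Set.toFinite _)) f θ
  set Z2 : Submodule ℂ X := Submodule.span ℂ {x, q, w x, u1, w u1, w (w u1)} with hZ2
  obtain ⟨u2, hfu2, hθu2, hg2⟩ := exists_indep3 hw hnil Z2
    (Submodule.fg_span (Set.toFinite _)) f θ
  have mx : x ∈ Z2 := Submodule.subset_span (by simp)
  have mq : q ∈ Z2 := Submodule.subset_span (by simp)
  have mwx : w x ∈ Z2 := Submodule.subset_span (by simp)
  have m1 : u1 ∈ Z2 := Submodule.subset_span (by simp)
  have m2 : w u1 ∈ Z2 := Submodule.subset_span (by simp)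
  have m3 : w (w u1) ∈ Z2 := Submodule.subset_span (by simp)
  -- the functional `v1`
  have hv1ex : w u2 ∉ Z2 ⊔ Submodule.span ℂ {u2, w (w u2)} := by
    intro hm
    obtain ⟨s, hs, t, ht, hst⟩ := Submodule.mem_sup.mp hm
    obtain ⟨a, b, hab⟩ := Submodule.mem_span_pair.mp ht
    obtain ⟨-, h1, -⟩ := hg2 (-a) 1 (-b) (by
      have hs' : s = w u2 - t := by rw [← hst]; abel
      have : (-a) • u2 + (1 : ℂ) • w u2 + (-b) • w (w u2) = s := by
        rw [hs', ← hab]; module
      rw [this]; exact hs)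
    exact one_ne_zero h1
  obtain ⟨v1, hv1, hv1'⟩ := exists_sep_sub ((Submodule.fg_span (Set.toFinite _)).sup
    (Submodule.fg_span (Set.toFinite _))) hv1ex
  have hv1z : ∀ m ∈ Z2, v1 m = 0 := fun m hm => hv1 m (le_sup_left (a := Z2) hm)
  have hv1u2 : v1 u2 = 0 := hv1 _ (le_sup_right (a := Z2) (Submodule.subset_span (by simp)))
  have hv1w2 : v1 (w (w u2)) = 0 :=
    hv1 _ (le_sup_right (a := Z2) (Submodule.subset_span (by simp)))
  -- the functional `v2`
  set Z3 : Submodule ℂ X := Submodule.span ℂ {x, q, w x, u1, w u1} ⊔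
    Submodule.span ℂ {u2, w u2, w (w u2)} with hZ3
  have hZle : Submodule.span ℂ {x, q, w x, u1, w u1} ≤ Z2 := by
    rw [Submodule.span_le]
    intro z hz
    simp only [Set.mem_insert_iff, Set.mem_singleton_iff] at hz
    rcases hz with rfl | rfl | rfl | rfl | rfl
    · exact mx
    · exact mq
    · exact mwx
    · exact m1
    · exact m2
  have hv2ex : w (w u1) ∉ Z3 := by
    intro hm
    obtain ⟨s, hs, t, ht, hst⟩ := Submodule.mem_sup.mp hm
    rw [Submodule.mem_span_insert] at ht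
    obtain ⟨a, t', ht', htt⟩ := ht
    obtain ⟨b, c, hbc⟩ := Submodule.mem_span_pair.mp ht'
    obtain ⟨ea, eb, ec⟩ := hg2 a b c (by
      have : a • u2 + b • w u2 + c • w (w u2) = w (w u1) - s := by
        rw [← hst, htt, ← hbc]; abel
      rw [this]
      exact Z2.sub_mem m3 (hZle hs))
    rw [← hbc, ea, eb, ec, zero_smul, zero_smul, zero_smul, add_zero, add_zero] at htt
    rw [htt, add_zero] at hst
    -- now `w (w u1)` lies in the span of `x, q, w x, u1, w u1`
    rw [hst] at hs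
    have e : Submodule.span ℂ {x, q, w x, u1, w u1} =
        Submodule.span ℂ {x, q, w x} ⊔ Submodule.span ℂ {u1, w u1} := by
      rw [← Submodule.span_union]
      congr 1
      ext z
      simp only [Set.mem_insert_iff, Set.mem_singleton_iff, Set.mem_union]
      tauto
    rw [e] at hs
    obtain ⟨p, hp, r, hr, hpr⟩ := Submodule.mem_sup.mp hs
    obtain ⟨a', b', hab'⟩ := Submodule.mem_span_pair.mp hr
    obtain ⟨-, -, h1⟩ := hg1 (-a') (-b') 1 (by
      have : (-a') • u1 + (-b') • w u1 + (1 : ℂ) • w (w u1) = p := by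
        rw [← hpr, ← hab']; module
      rw [this]; exact hp)
    exact one_ne_zero h1
  obtain ⟨v2, hv2, hv2'⟩ := exists_sep_sub ((Submodule.fg_span (Set.toFinite _)).sup
    (Submodule.fg_span (Set.toFinite _))) hv2ex
  have hv2a : ∀ m ∈ Submodule.span ℂ ({x, q, w x, u1, w u1} : Set X), v2 m = 0 :=
    fun m hm => hv2 m (le_sup_left (a := Submodule.span ℂ {x, q, w x, u1, w u1}) hm)
  have hv2b : ∀ m ∈ Submodule.span ℂ ({u2, w u2, w (w u2)} : Set X), v2 m = 0 :=
    fun m hm => hv2 m (le_sup_right (a := Submodule.span ℂ {x, q, w x, u1, w u1}) hm)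
  have v2x : v2 x = 0 := hv2a _ (Submodule.subset_span (by simp))
  have v2q : v2 q = 0 := hv2a _ (Submodule.subset_span (by simp))
  have v2wx : v2 (w x) = 0 := hv2a _ (Submodule.subset_span (by simp))
  have v2u1 : v2 u1 = 0 := hv2a _ (Submodule.subset_span (by simp))
  have v2wu1 : v2 (w u1) = 0 := hv2a _ (Submodule.subset_span (by simp))
  have v2u2 : v2 u2 = 0 := hv2b _ (Submodule.subset_span (by simp))
  have v2wu2 : v2 (w u2) = 0 := hv2b _ (Submodule.subset_span (by simp))
  have v2ww2 : v2 (w (w u2)) = 0 := hv2b _ (Submodule.subset_span (by simp))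
  have v1x : v1 x = 0 := hv1z _ mx
  have v1q : v1 q = 0 := hv1z _ mq
  have v1wx : v1 (w x) = 0 := hv1z _ mwx
  have v1u1 : v1 u1 = 0 := hv1z _ m1
  have v1wu1 : v1 (w u1) = 0 := hv1z _ m2
  have v1ww1 : v1 (w (w u1)) = 0 := hv1z _ m3
  -- the operator `L`
  set L : X →L[ℂ] X := ten u1 v1 + ten u2 v2 with hL
  have hLa : ∀ v, L v = v1 v • u1 + v2 v • u2 := fun v => rfl
  have hLL : L * L = 0 := by
    ext v
    show L (L v) = 0
    rw [hLa v, map_add, map_smul, map_smul, hLa u1, hLa u2, v1u1, v2u1, hv1u2, v2u2]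
    simp
  have hLwL : L * w * L = ten u1 v2 := by
    ext v
    show L (w (L v)) = v2 v • u1
    rw [hLa v, map_add, map_smul, map_smul, map_add, map_smul, map_smul, hLa (w u1), hLa (w u2),
      v1wu1, v2wu1, hv1', v2wu2]
    simp
  have hLx : L x = 0 := by rw [hLa, v1x, v2x]; simp
  have hLq : L q = 0 := by rw [hLa, v1q, v2q]; simp
  have hLwx : L (w x) = 0 := by rw [hLa, v1wx, v2wx]; simp
  have hfL : ∀ v, f (L v) = 0 := by
    intro v; rw [hLa, map_add, map_smul, map_smul, hfu1, hfu2]; simp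
  have hθL : ∀ v, θ (L v) = 0 := by
    intro v; rw [hLa, map_add, map_smul, map_smul, hθu1, hθu2]; simp
  -- for every scalar `μ`
  have key : ∀ μ : ℂ, QN (V + (β * (1 - β) * μ ^ 2) • ten u1 v2) := by
    intro μ
    obtain ⟨s, hs⟩ : ∃ s : ℂ, s = β * μ := ⟨_, rfl⟩
    have hs1 : s • L * (s • L) = 0 := by
      rw [smul_mul_smul_comm, hLL, smul_zero]
    obtain ⟨g1, g2, g3⟩ := conj_sq (w := w) hs1
    set T : X →L[ℂ] X := w - (1 + s • L) * w * (1 - s • L) with hTdef
    have hT : T = -(s • (L * w - w * L)) + (s * s) • ten u1 v2 := by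
      rw [hTdef, g3, ← hLwL]
      simp only [smul_mul_assoc, mul_smul_comm, smul_sub, smul_smul]
      abel
    have hTa : ∀ v, T v = -(s • ((v1 (w v) • u1 + v2 (w v) • u2) -
        (v1 v • w u1 + v2 v • w u2))) + (s * s) • (v2 v • u1) := by
      intro v
      have e1 : T v = -(s • (L (w v) - w (L v))) + (s * s) • (v2 v • u1) := by rw [hT]; rfl
      rw [e1, hLa (w v), hLa v, map_add, map_smul, map_smul]
    have Tx : T x = 0 := by rw [hTa, v1wx, v2wx, v1x, v2x]; simp
    have P1 : T u1 = 0 := by rw [hTa, v1wu1, v2wu1, v1u1, v2u1]; simp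
    have P2 : T u2 = -(s • u1) := by rw [hTa, hv1', v2wu2, hv1u2, v2u2]; simp
    have P3 : T (w u1) = -(s • u2) := by rw [hTa, v1ww1, hv2', v1wu1, v2wu1]; simp
    have P4 : T (w u2) = s • (w u1) := by
      rw [hTa, hv1w2, v2ww2, hv1', v2wu2]; simp
    have q1 : QN T := by
      apply qn_of_pow (n := 5)
      ext v
      rw [g2_pow_five, hTa v]
      simp only [map_sub, map_smul, map_add, map_neg, P1, P2, P3, P4, smul_zero, add_zero,
        zero_add, zero_sub, neg_zero, smul_neg]
      simp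
    have q2 : QN (T - w) := by
      have e : T - w = (-1 : ℂ) • ((1 + s • L) * w * (1 - s • L)) := by
        rw [hTdef, neg_smul, one_smul]; abel
      rw [e]
      exact qn_smul (qn_conj hw g1 g2) _
    have q4 := h T (LP.of_kill hfx q1 Tx) q2
    rw [qn_sub_comm] at q4
    -- conjugate
    have hs2 : (-μ) • L * ((-μ) • L) = 0 := by
      rw [smul_mul_smul_comm, hLL, smul_zero]
    obtain ⟨r1, r2, r3⟩ := conj_sq (w := V - T) hs2
    have q5 := qn_conj q4 r1 r2
    rw [r3] at q5
    have hLF : L * (ten x θ + ten q f) = 0 := by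
      rw [mul_add, mul_ten, mul_ten, hLx, hLq]
      ext v; simp
    have hFL : (ten x θ + ten q f) * L = 0 := by
      ext v
      show θ (L v) • x + f (L v) • q = 0
      rw [hθL, hfL]; simp
    have hN : ten u1 v2 = L * w * L := hLwL.symm
    have fin : V - T + ((-μ) • L * (V - T) - (V - T) * ((-μ) • L)) -
        (-μ) • L * (V - T) * ((-μ) • L) = V + (β * (1 - β) * μ ^ 2) • ten u1 v2 := by
      set F := ten x θ + ten q f with hF
      have hD : V - T = F + β • w + s • (L * w - w * L) - (s * s) • (L * w * L) := by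
        rw [hT, hV, hN]
        module
      have a1 : L * (L * w) = 0 := by rw [← mul_assoc, hLL, zero_mul]
      have a2 : L * (L * w * L) = 0 := by rw [← mul_assoc, ← mul_assoc, hLL, zero_mul, zero_mul]
      have a3 : w * L * L = 0 := by rw [mul_assoc, hLL, mul_zero]
      have a4 : L * w * L * L = 0 := by rw [mul_assoc, hLL, mul_zero]
      -- products
      have p1 : L * (V - T) = β • (L * w) - s • (L * w * L) := by
        rw [hD, mul_sub, mul_add, mul_add, mul_smul_comm, mul_smul_comm, mul_smul_comm, mul_sub,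
          hLF, a1, a2, ← mul_assoc L w L]
        simp
        abel
      have p2 : (V - T) * L = β • (w * L) + s • (L * w * L) := by
        rw [hD, sub_mul, add_mul, add_mul, smul_mul_assoc, smul_mul_assoc, smul_mul_assoc, sub_mul,
          hFL, a3, a4]
        simp
      have p3 : L * (V - T) * L = β • (L * w * L) := by
        rw [p1, sub_mul, smul_mul_assoc, smul_mul_assoc, a4, smul_zero, sub_zero]
      rw [smul_mul_assoc (-μ) L, mul_smul_comm (-μ), smul_mul_assoc (-μ), mul_smul_comm (-μ), p3,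
        p1, p2, hD, hN, hV, hs]
      module
    rw [fin] at q5
    exact q5
  -- the pencil
  have hpen : ∀ t : ℂ, QN (V + t • ten u1 v2) := by
    intro t
    have hne : β * (1 - β) ≠ 0 := mul_ne_zero hβ0 he0
    obtain ⟨μ, hμ⟩ := IsAlgClosed.exists_pow_nat_eq (t / (β * (1 - β))) (n := 2) (by norm_num)
    have := key μ
    rw [hμ, mul_div_cancel₀ _ hne] at this
    exact this
  have h2 := pencil_one hVq hpen 2
  have e1 : V u1 = β • w u1 := by
    rw [hV]
    show β • w u1 + (θ u1 • x + f u1 • q) = _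
    rw [hθu1, hfu1]; module
  have e2 : v2 (V (w u1)) = β := by
    rw [hV]
    show v2 (β • w (w u1) + (θ (w u1) • x + f (w u1) • q)) = _
    simp only [map_add, map_smul, v2x, v2q, hv2', smul_eq_mul]
    ring
  have e3 : (V ^ 2) u1 = V (V u1) := by rw [pow_two]; rfl
  rw [e3, e1, map_smul, map_smul, e2, smul_eq_mul] at h2
  exact mul_ne_zero hβ0 hβ0 h2

end Pool.Agent.H.MP_bb4c62_an.helper86.PG
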