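import Pool.Agent.H.MP_bb4c62_an.helper86.G0

/-!
Self-adjoint bijections preserving the rank one lines through 0.
-/

namespace Pool.Agent.H.MP_bb4c62_an.helper86.PG

open Pool.Agent.H.MP_bb4c62_an.helper6.NL
open Pool.Agent.H.MP_bb4c62_an.helper6.Perturb
open Pool.Agent.H.MP_bb4c62_an.helper6.Gadgets
open Pool.Agent.H.MP_bb4c62_an.helper5.PL

variable {X : Type*} [NormedAddCommGroup X] [NormedSpace ℂ X]

theorem g20_scalar {ε : (X →L[ℂ] X) → (X →L[ℂ] X)} (hε : IsSA ε)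
    (hN : ∀ N : X →L[ℂ] X, N1 N → ∃ c : ℂ, ε N = c • N) {x : X} (hx : x ≠ 0) (hε0 : ε 0 = 0)
    {f : X →L[ℂ] ℂ} (hf : f ≠ 0) (hfx : f x = 0) :
    ∃ c : ℂ, c ≠ 0 ∧ ε (ten x f) = c • ten x f := by
  obtain ⟨c, hc⟩ := hN (ten x f) ⟨x, f, hfx, rfl⟩
  refine ⟨c, ?_, hc⟩
  intro hz0
  rw [hz0, zero_smul, ← hε0] at hc
  have h5 := hε.bij.1 hc
  rw [ten_eq_zero_iff] at h5
  rcases h5 with h5 | h5
  · exact hx h5
  · exact hf h5

/-- `c (f + g) = c f` -/
theorem g20_indep [CompleteSpace X] (hX : ¬ Module.Finite ℂ X)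
    {ε : (X →L[ℂ] X) → (X →L[ℂ] X)}
    (hε : IsSA ε) (hN : ∀ N : X →L[ℂ] X, N1 N → ∃ c : ℂ, ε N = c • N) {x : X} (hx : x ≠ 0)
    (hε0 : ε 0 = 0)
    {f g : X →L[ℂ] ℂ} (hfx : f x = 0) (hgx : g x = 0) (hg : g ≠ 0) (hfg : ∀ a : ℂ, f ≠ a • g)
    {c : ℂ} (hc : ε (ten x f) = c • ten x f) : ε (ten x (f + g)) = c • ten x (f + g) := by
  obtain ⟨v, hv3⟩ := exists_li3 hX
  have hx0 : ∀ k : X →L[ℂ] ℂ, ten x k = 0 → k = 0 := by
    intro k hk
    rw [ten_eq_zero_iff] at hk
    rcases hk with hk | hk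
    · exact absurd hk hx
    · exact hk
  have hne : ∀ t : ℂ, f + t • g ≠ 0 := by
    intro t ht
    apply hfg (-t)
    rw [p8_neg_smul]
    exact eq_neg_of_add_eq_zero_left ht
  have hx1 : ∀ t : ℂ, (f + t • g) x = 0 := by
    intro t
    rw [ContinuousLinearMap.add_apply, ContinuousLinearMap.smul_apply, hfx, hgx, smul_zero,
      add_zero]
  have hcs : ∀ t : ℂ, ∃ c : ℂ, c ≠ 0 ∧ ε (ten x (f + t • g)) = c • ten x (f + t • g) :=
    fun t => g20_scalar hε hN hx hε0 (hne t) (hx1 t)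
  choose C hC0 hC using hcs
  have hten : ∀ t : ℂ, ten x f + t • ten x g = ten x (f + t • g) := by
    intro t; rw [ten_add_right', ten_smul_right]
  have hQ : IsQLine (ε '' rline (ten x f) (ten x g)) :=
    hε.qline (IsLine.qline (isLine_rline hv3 hx hg hgx _))
  obtain ⟨p, q, hpx, hqx, hq, hK⟩ := qline_in_plane hX hQ hx (by
    rintro _ ⟨_, ⟨t, rfl⟩, rfl⟩
    refine ⟨C t • (f + t • g), ?_, ?_⟩
    · rw [ContinuousLinearMap.smul_apply, hx1 t, smul_zero]
    · show ε (ten x f + t • ten x g) = _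
      rw [hten, hC, ten_smul_right])
  have hs : ∀ t : ℂ, ∃ s : ℂ, C t • (f + t • g) = p + s • q := by
    intro t
    have h1 : ε (ten x (f + t • g)) ∈ rline (ten x p) (ten x q) := by
      rw [← hK]
      exact ⟨_, ⟨t, rfl⟩, by show ε (ten x f + t • ten x g) = _; rw [hten]⟩
    obtain ⟨s, hs⟩ := h1
    refine ⟨s, ?_⟩
    have h2 : ten x p + s • ten x q = ε (ten x (f + t • g)) := hs
    rw [hC, ← ten_smul_right, ← ten_smul_right, ← ten_add_right'] at h2
    have h3 : ten x (p + s • q - C t • (f + t • g)) = 0 := by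
      rw [p8_ten_sub, h2, sub_self]
    exact (sub_eq_zero.mp (hx0 _ h3)).symm
  choose s hs using hs
  -- linear independence
  have hli : ∀ a b : ℂ, a • f + b • g = 0 → a = 0 ∧ b = 0 := by
    intro a b hab
    have ha : a = 0 := by
      by_contra ha
      apply hfg (-(a⁻¹ * b))
      ext w
      have h1 : a * f w + b * g w = 0 := by
        have := congrArg (fun L : X →L[ℂ] ℂ => L w) hab
        exact this
      show f w = -(a⁻¹ * b) * g w
      have h2 : f w = a⁻¹ * (a * f w) := by rw [← mul_assoc, inv_mul_cancel₀ ha, one_mul]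
      rw [h2]
      linear_combination a⁻¹ * h1
    refine ⟨ha, ?_⟩
    by_contra hb
    apply hg
    ext w
    have h1 : a * f w + b * g w = 0 := congrArg (fun L : X →L[ℂ] ℂ => L w) hab
    rw [ha, zero_mul, zero_add] at h1
    rcases mul_eq_zero.mp h1 with h2 | h2
    · exact absurd h2 hb
    · exact h2
  have h0 := hs 0
  have h1 := hs 1
  rw [dual_zero_smul, add_zero] at h0
  rw [one_smul] at h1
  have h0w : ∀ w, C 0 * f w = p w + s 0 * q w := fun w =>
    congrArg (fun L : X →L[ℂ] ℂ => L w) h0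
  have h1w : ∀ w, C 1 * (f w + g w) = p w + s 1 * q w := fun w =>
    congrArg (fun L : X →L[ℂ] ℂ => L w) h1
  have hq1 : ∀ w, (s 1 - s 0) * q w = (C 1 - C 0) * f w + C 1 * g w := by
    intro w
    linear_combination h0w w - h1w w
  have hd : s 1 - s 0 ≠ 0 := by
    intro hd
    have h2 : (C 1 - C 0) • f + C 1 • g = 0 := by
      ext w
      have h3 := hq1 w
      rw [hd, zero_mul] at h3
      exact h3.symm
    exact hC0 1 (hli _ _ h2).2
  obtain ⟨d, hdd⟩ : ∃ d : ℂ, d = s 1 - s 0 := ⟨_, rfl⟩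
  rw [← hdd] at hd
  have hgen : ∀ t : ℂ, (d * (C t - C 0) - (s t - s 0) * (C 1 - C 0)) • f +
      (d * (C t * t) - (s t - s 0) * C 1) • g = 0 := by
    intro t
    ext w
    have h2 : C t * (f w + t * g w) = p w + s t * q w :=
      congrArg (fun L : X →L[ℂ] ℂ => L w) (hs t)
    have h3 := h0w w
    have h4 := hq1 w
    rw [← hdd] at h4
    show (d * (C t - C 0) - (s t - s 0) * (C 1 - C 0)) * f w +
      (d * (C t * t) - (s t - s 0) * C 1) * g w = 0
    linear_combination d * h2 - d * h3 + (s t - s 0) * h4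
  have hgen1 : ∀ t : ℂ, d * (C t - C 0) = (s t - s 0) * (C 1 - C 0) ∧
      d * (C t * t) = (s t - s 0) * C 1 := by
    intro t
    obtain ⟨e1, e2⟩ := hli _ _ (hgen t)
    exact ⟨sub_eq_zero.mp e1, sub_eq_zero.mp e2⟩
  have hfin : ∀ t : ℂ, C t * (C 1 - t * (C 1 - C 0)) = C 0 * C 1 := by
    intro t
    obtain ⟨e1, e2⟩ := hgen1 t
    have e3 : d * (C t * (C 1 - t * (C 1 - C 0)) - C 0 * C 1) = 0 := by
      linear_combination C 1 * e1 - (C 1 - C 0) * e2
    rcases mul_eq_zero.mp e3 with e4 | e4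
    · exact absurd e4 hd
    · exact sub_eq_zero.mp e4
  have hC01 : C 1 = C 0 := by
    by_contra hne1
    have e1 := hfin (C 1 / (C 1 - C 0))
    rw [div_mul_cancel₀ _ (sub_ne_zero.mpr hne1), sub_self, mul_zero] at e1
    rcases mul_eq_zero.mp e1.symm with e2 | e2
    · exact hC0 0 e2
    · exact hC0 1 e2
  have hf0 : f ≠ 0 := by
    intro h0
    apply hfg 0
    rw [h0, dual_zero_smul]
  have hcc : c = C 0 := by
    have e1 := hC 0
    rw [dual_zero_smul, add_zero, hc] at e1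
    have e2 : (c - C 0) • ten x f = 0 := by rw [sub_smul, e1, sub_self]
    rcases smul_eq_zero.mp e2 with e3 | e3
    · exact sub_eq_zero.mp e3
    · exact absurd (hx0 _ e3) hf0
  have h2 := hC 1
  rw [one_smul, hC01, ← hcc] at h2
  exact h2

theorem g20_const [CompleteSpace X] (hX : ¬ Module.Finite ℂ X)
    {ε : (X →L[ℂ] X) → (X →L[ℂ] X)}
    (hε : IsSA ε) (hN : ∀ N : X →L[ℂ] X, N1 N → ∃ c : ℂ, ε N = c • N) {x : X} (hx : x ≠ 0)
    (hε0 : ε 0 = 0)
    {f : X →L[ℂ] ℂ} (hfx : f x = 0) (hf : f ≠ 0) {a : ℂ} (ha : a ≠ 0) {c : ℂ}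
    (hc : ε (ten x f) = c • ten x f) : ε (ten x (a • f)) = c • ten x (a • f) := by
  obtain ⟨v, hv3⟩ := exists_li3 hX
  obtain ⟨g, hgx, hg, hfg⟩ : ∃ g : X →L[ℂ] ℂ, g x = 0 ∧ g ≠ 0 ∧ ∀ b : ℂ, f ≠ b • g := by
    obtain ⟨h1, h2, h1x, h2x, hli⟩ := two_dual hv3 hx
    have hn1 : h1 ≠ 0 := by
      have := hli.ne_zero 0
      simpa using this
    have hn2 : h2 ≠ 0 := by
      have := hli.ne_zero 1
      simpa using this
    by_cases hh : ∀ b : ℂ, f ≠ b • h1
    · exact ⟨h1, h1x, hn1, hh⟩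
    · push Not at hh
      obtain ⟨b, hb⟩ := hh
      refine ⟨h2, h2x, hn2, ?_⟩
      intro b' hb'
      have hb0 : b ≠ 0 := by
        rintro rfl
        apply hf
        rw [hb, dual_zero_smul]
      rw [LinearIndependent.pair_iff] at hli
      have := hli b (-b') (by rw [← hb, hb', p8_neg_smul, add_neg_cancel])
      exact hb0 this.1
  have hgf : ∀ b : ℂ, g ≠ b • f := by
    intro b hb
    have hb0 : b ≠ 0 := by
      rintro rfl
      apply hg
      rw [hb, dual_zero_smul]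
    apply hfg b⁻¹
    rw [hb, smul_smul, inv_mul_cancel₀ hb0, one_smul]
  have haf : a • f ≠ 0 := smul_ne_zero ha hf
  have hafx : (a • f) x = 0 := by rw [ContinuousLinearMap.smul_apply, hfx, smul_zero]
  have hfg' : ∀ b : ℂ, a • f ≠ b • g := by
    intro b hb
    apply hfg (a⁻¹ * b)
    rw [mul_smul, ← hb, smul_smul, inv_mul_cancel₀ ha, one_smul]
  have hgf' : ∀ b : ℂ, g ≠ b • (a • f) := by
    intro b hb
    apply hgf (b * a)
    rw [mul_smul, ← hb]
  obtain ⟨c1, hc10, hc1⟩ := g20_scalar hε hN hx hε0 hg hgx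
  obtain ⟨c2, hc20, hc2⟩ := g20_scalar hε hN hx hε0 haf hafx
  have canc : ∀ (k : X →L[ℂ] ℂ) (b b' : ℂ), k ≠ 0 → b • ten x k = b' • ten x k → b = b' := by
    intro k b b' hk hbb
    have e2 : (b - b') • ten x k = 0 := by rw [sub_smul, hbb, sub_self]
    rcases smul_eq_zero.mp e2 with e3 | e3
    · exact sub_eq_zero.mp e3
    · rw [ten_eq_zero_iff] at e3
      rcases e3 with e3 | e3
      · exact absurd e3 hx
      · exact absurd e3 hk
  have hsum : ∀ k : X →L[ℂ] ℂ, (∀ b : ℂ, k ≠ b • g) → k + g ≠ 0 := by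
    intro k hk e
    apply hk (-1)
    rw [p8_neg_smul, p8_one_smul]
    exact eq_neg_of_add_eq_zero_left e
  -- `c = c1`
  have i1 := g20_indep hX hε hN hx hε0 hfx hgx hg hfg hc
  have i2 := g20_indep hX hε hN hx hε0 hgx hfx hf hgf hc1
  rw [add_comm g f, i1] at i2
  have hcc1 : c = c1 := canc _ _ _ (hsum f hfg) i2
  have i3 := g20_indep hX hε hN hx hε0 hafx hgx hg hfg' hc2
  have i4 := g20_indep hX hε hN hx hε0 hgx hafx haf hgf' hc1
  rw [add_comm g (a • f), i3] at i4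
  have hcc2 : c2 = c1 := canc _ _ _ (hsum _ hfg') i4
  rw [hc2, hcc2, hcc1]

/-- Proof. As in `sa_fix` (helper5/P8.lean): let `ε (ten x f) = c f • ten x f` for `f x = 0`, `f ≠ 0`; `c f ≠ 0` (`ε 0 = 0`, injective). Let `f, g` be independent, `f x = g x = 0`. The quasi-line `{ten x (f + t • g)}` is mapped onto a quasi-line inside
`{ten x k : k x = 0}` (`IsSA.qline`), a rank one line by `qline_in_plane`; in the coordinates of `f, g` it is contained in an affine line `α a + β b = γ`, `(α, β) ≠ 0`, of the plane and contains the points `(c t, t * c t)`, `c t = c (f + t • g) ≠ 0`, so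
`c t * (α + β * t) = γ`. `γ ≠ 0` and `α + β t ≠ 0` for all `t`, so `β = 0` and `c t` is constant: `c (f + g) = c f`. By symmetry `= c g`. (Use two or three explicit points instead of the equation if convenient.) If `g = a • f`: compare both with a third functional. -/
theorem const_right [CompleteSpace X] (hX : ¬ Module.Finite ℂ X)
    {ε : (X →L[ℂ] X) → (X →L[ℂ] X)} (h : IsSA ε) (h0 : ε 0 = 0)
    (hN : ∀ N : X →L[ℂ] X, N1 N → ∃ c : ℂ, ε N = c • N) {x : X} {f g : X →L[ℂ] ℂ} {c d : ℂ}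
    (hx : x ≠ 0) (hf : f ≠ 0) (hg : g ≠ 0) (hfx : f x = 0) (hgx : g x = 0)
    (hc : ε (ten x f) = c • ten x f) (hd : ε (ten x g) = d • ten x g) : c = d := by
  have canc : ∀ (k : X →L[ℂ] ℂ) (b b' : ℂ), k ≠ 0 → b • ten x k = b' • ten x k → b = b' := by
    intro k b b' hk hbb
    have e2 : (b - b') • ten x k = 0 := by rw [sub_smul, hbb, sub_self]
    rcases smul_eq_zero.mp e2 with e3 | e3
    · exact sub_eq_zero.mp e3
    · rw [ten_eq_zero_iff] at e3
      rcases e3 with e3 | e3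
      · exact absurd e3 hx
      · exact absurd e3 hk
  by_cases hfg : ∃ a : ℂ, g = a • f
  · obtain ⟨a, rfl⟩ := hfg
    have ha : a ≠ 0 := by
      rintro rfl
      exact hg (dual_zero_smul f)
    have h1 := g20_const hX h hN hx h0 hfx hf ha hc
    rw [h1] at hd
    exact canc _ _ _ hg hd
  · have hgf : ∀ b : ℂ, g ≠ b • f := fun b hb => hfg ⟨b, hb⟩
    have hfg' : ∀ b : ℂ, f ≠ b • g := by
      intro b hb
      have hb0 : b ≠ 0 := by
        rintro rfl
        apply hf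
        rw [hb, dual_zero_smul]
      apply hgf b⁻¹
      rw [hb, smul_smul, inv_mul_cancel₀ hb0, one_smul]
    have i1 := g20_indep hX h hN hx h0 hfx hgx hg hfg' hc
    have i2 := g20_indep hX h hN hx h0 hgx hfx hf hgf hd
    rw [add_comm g f, i1] at i2
    refine canc _ _ _ ?_ i2
    intro e
    apply hfg' (-1)
    rw [p8_neg_smul, p8_one_smul]
    exact eq_neg_of_add_eq_zero_left e

end Pool.Agent.H.MP_bb4c62_an.helper86.PG
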