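import Pool.Agent.H.MP_bb4c62_an.helper86.G20

/-!
The dual version of const_right.
-/

namespace Pool.Agent.H.MP_bb4c62_an.helper86.PG

open Pool.Agent.H.MP_bb4c62_an.helper6.NL
open Pool.Agent.H.MP_bb4c62_an.helper6.Perturb
open Pool.Agent.H.MP_bb4c62_an.helper6.Gadgets
open Pool.Agent.H.MP_bb4c62_an.helper5.PL

variable {X : Type*} [NormedAddCommGroup X] [NormedSpace ℂ X]

theorem g20b_ten_sub (x y : X) (f : X →L[ℂ] ℂ) : ten (x - y) f = ten x f - ten y f := by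
  ext v
  simp only [ten_apply, sub_apply, smul_sub]

/-- Quasi-lines inside `{ten y f : f y = 0}` are rank one lines. -/
theorem qline_in_coplane [CompleteSpace X] (hX : ¬ Module.Finite ℂ X) {K : Set (X →L[ℂ] X)}
    (hK : IsQLine K) {f : X →L[ℂ] ℂ} (hf : f ≠ 0)
    (h : ∀ V ∈ K, ∃ y : X, f y = 0 ∧ V = ten y f) :
    ∃ p y : X, f p = 0 ∧ f y = 0 ∧ y ≠ 0 ∧ K = rline (ten p f) (ten y f) := by
  obtain ⟨v, hv3⟩ := exists_li3 hX
  have hline : IsLine K := by
    refine ⟨hK.inf, ?_, hK.gen, hK.closed⟩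
    intro S hS T hT
    obtain ⟨y1, h1, rfl⟩ := h S hS
    obtain ⟨y2, h2, rfl⟩ := h T hT
    rw [← g20b_ten_sub]
    apply qn_of_sq
    apply ten_sq
    rw [map_sub, h1, h2, sub_zero]
  obtain ⟨P, hP, R, hR, hPR⟩ := hK.inf.nontrivial
  obtain ⟨p, hp, rfl⟩ := h P hP
  obtain ⟨r, hr, rfl⟩ := h R hR
  have hg0 : r - p ≠ 0 := by
    intro e
    apply hPR
    rw [sub_eq_zero.mp e]
  have hgx : f (r - p) = 0 := by
    rw [map_sub, hp, hr, sub_zero]
  have hm := IsLine.image (isGIso_trans (-ten p f)) hline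
  have hml := tame_line hv3 hm hg0 hf hgx ⟨ten p f, hP, by
      show -ten p f + ten p f = 0
      rw [neg_add_cancel]⟩
    ⟨ten r f, hR, by
      show -ten p f + ten r f = ten (r - p) f
      rw [g20b_ten_sub]
      abel⟩ (by
      rintro _ ⟨V, hV, rfl⟩
      obtain ⟨y, hy, rfl⟩ := h V hV
      refine ⟨0, y - p, ?_, ?_, ?_⟩
      · show -ten p f + ten y f = _
        rw [ten_zero_right, zero_add, g20b_ten_sub]
        abel
      · rfl
      · rw [map_sub, hp, hy, sub_zero])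
  refine ⟨p, r - p, hp, hgx, hg0, ?_⟩
  ext V
  constructor
  · intro hV
    have h1 : -ten p f + V ∈ rline 0 (ten (r - p) f) := by
      rw [← hml]; exact ⟨V, hV, rfl⟩
    obtain ⟨z, hz⟩ := h1
    refine ⟨z, ?_⟩
    have h2 : 0 + z • ten (r - p) f = -ten p f + V := hz
    show ten p f + z • ten (r - p) f = V
    rw [zero_add] at h2
    rw [h2]; abel
  · rintro ⟨z, rfl⟩
    have h1 : z • ten (r - p) f ∈ rline 0 (ten (r - p) f) := ⟨z, by
      show 0 + z • ten (r - p) f = _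
      rw [zero_add]⟩
    rw [← hml] at h1
    obtain ⟨V, hV, h2⟩ := h1
    have h3 : -ten p f + V = z • ten (r - p) f := h2
    show ten p f + z • ten (r - p) f ∈ K
    rw [← h3, add_neg_cancel_left]
    exact hV

theorem g20b_scalar {ε : (X →L[ℂ] X) → (X →L[ℂ] X)} (h : IsSA ε) (h0 : ε 0 = 0)
    (hN : ∀ N : X →L[ℂ] X, N1 N → ∃ c : ℂ, ε N = c • N) {x : X} {f : X →L[ℂ] ℂ}
    (hf : f ≠ 0) (hx : x ≠ 0) (hfx : f x = 0) :
    ∃ c : ℂ, c ≠ 0 ∧ ε (ten x f) = c • ten x f := by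
  obtain ⟨c, hc⟩ := hN (ten x f) ⟨x, f, hfx, rfl⟩
  refine ⟨c, ?_, hc⟩
  intro hc0
  rw [hc0, zero_smul, ← h0] at hc
  have h5 := h.bij.1 hc
  rw [ten_eq_zero_iff] at h5
  rcases h5 with h5 | h5
  · exact hx h5
  · exact hf h5

/-- `c (x + y) = c x` for independent vectors in the kernel of `f` -/
theorem g20b_indep [CompleteSpace X] (hX : ¬ Module.Finite ℂ X)
    {ε : (X →L[ℂ] X) → (X →L[ℂ] X)} (h : IsSA ε) (h0 : ε 0 = 0)
    (hN : ∀ N : X →L[ℂ] X, N1 N → ∃ c : ℂ, ε N = c • N) {x y : X} {f : X →L[ℂ] ℂ}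
    (hf : f ≠ 0) (hy : y ≠ 0) (hfx : f x = 0) (hfy : f y = 0) (hxy : ∀ a : ℂ, x ≠ a • y)
    {c : ℂ} (hc : ε (ten x f) = c • ten x f) : ε (ten (x + y) f) = c • ten (x + y) f := by
  obtain ⟨v, hv3⟩ := exists_li3 hX
  have hx0 : ∀ k : X, ten k f = 0 → k = 0 := by
    intro k hk
    rw [ten_eq_zero_iff] at hk
    rcases hk with hk | hk
    · exact hk
    · exact absurd hk hf
  have hne : ∀ t : ℂ, x + t • y ≠ 0 := by
    intro t ht
    apply hxy (-t)
    rw [neg_smul]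
    exact eq_neg_of_add_eq_zero_left ht
  have hx1 : ∀ t : ℂ, f (x + t • y) = 0 := by
    intro t
    rw [map_add, map_smul, hfx, hfy, smul_zero, add_zero]
  have hcs : ∀ t : ℂ, ∃ c : ℂ, c ≠ 0 ∧ ε (ten (x + t • y) f) = c • ten (x + t • y) f :=
    fun t => g20b_scalar h h0 hN hf (hne t) (hx1 t)
  choose C hC0 hC using hcs
  have hten : ∀ t : ℂ, ten x f + t • ten y f = ten (x + t • y) f := by
    intro t; rw [ten_add_right, ten_smul_left]
  have hQ : IsQLine (ε '' rline (ten x f) (ten y f)) :=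
    h.qline (IsLine.qline (isLine_rline hv3 hy hf hfy _))
  obtain ⟨p, q, hpx, hqx, hq, hK⟩ := qline_in_coplane hX hQ hf (by
    rintro _ ⟨_, ⟨t, rfl⟩, rfl⟩
    refine ⟨C t • (x + t • y), ?_, ?_⟩
    · rw [map_smul, hx1 t, smul_zero]
    · show ε (ten x f + t • ten y f) = _
      rw [hten, hC, ten_smul_left])
  have hs : ∀ t : ℂ, ∃ s : ℂ, C t • (x + t • y) = p + s • q := by
    intro t
    have h1 : ε (ten (x + t • y) f) ∈ rline (ten p f) (ten q f) := by
      rw [← hK]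
      exact ⟨_, ⟨t, rfl⟩, by show ε (ten x f + t • ten y f) = _; rw [hten]⟩
    obtain ⟨s, hs⟩ := h1
    refine ⟨s, ?_⟩
    have h2 : ten p f + s • ten q f = ε (ten (x + t • y) f) := hs
    rw [hC, ← ten_smul_left, ← ten_smul_left, ← ten_add_right] at h2
    have h3 : ten (p + s • q - C t • (x + t • y)) f = 0 := by
      rw [g20b_ten_sub, h2, sub_self]
    exact (sub_eq_zero.mp (hx0 _ h3)).symm
  choose s hs using hs
  -- linear independence
  have hli : ∀ a b : ℂ, a • x + b • y = 0 → a = 0 ∧ b = 0 := by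
    intro a b hab
    have ha : a = 0 := by
      by_contra ha
      apply hxy (-(a⁻¹ * b))
      have h2 : x = a⁻¹ • (a • x) := by rw [smul_smul, inv_mul_cancel₀ ha, one_smul]
      rw [h2, eq_neg_of_add_eq_zero_left hab, neg_smul, smul_neg, smul_smul]
    refine ⟨ha, ?_⟩
    rw [ha, zero_smul, zero_add] at hab
    rcases smul_eq_zero.mp hab with h2 | h2
    · exact h2
    · exact absurd h2 hy
  have h0' := hs 0
  have h1' := hs 1
  rw [zero_smul, add_zero] at h0'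
  rw [one_smul] at h1'
  have hq1 : (s 1 - s 0) • q = (C 1 - C 0) • x + C 1 • y := by
    have e1 : s 0 • q = C 0 • x - p := by rw [h0']; abel
    have e2 : s 1 • q = C 1 • (x + y) - p := by rw [h1']; abel
    rw [sub_smul, e1, e2, smul_add, sub_smul]
    abel
  have hd : s 1 - s 0 ≠ 0 := by
    intro hd
    have h2 : (C 1 - C 0) • x + C 1 • y = 0 := by rw [← hq1, hd, zero_smul]
    exact hC0 1 (hli _ _ h2).2
  obtain ⟨d, hdd⟩ : ∃ d : ℂ, d = s 1 - s 0 := ⟨_, rfl⟩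
  rw [← hdd] at hd hq1
  have hgen : ∀ t : ℂ, (d * (C t - C 0) - (s t - s 0) * (C 1 - C 0)) • x +
      (d * (C t * t) - (s t - s 0) * C 1) • y = 0 := by
    intro t
    have e1 : (s t - s 0) • q = (C t - C 0) • x + (C t * t) • y := by
      have e1 : s 0 • q = C 0 • x - p := by rw [h0']; abel
      have e2 : s t • q = C t • (x + t • y) - p := by rw [hs t]; abel
      rw [sub_smul, e1, e2, smul_add, sub_smul, smul_smul]
      abel
    have e2 : d • ((s t - s 0) • q) = (s t - s 0) • (d • q) := smul_comm _ _ _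
    rw [e1, hq1, smul_add, smul_add, smul_smul, smul_smul, smul_smul, smul_smul] at e2
    rw [sub_smul, sub_smul]
    have e3 : (d * (C t - C 0)) • x + (d * (C t * t)) • y -
        (((s t - s 0) * (C 1 - C 0)) • x + ((s t - s 0) * C 1) • y) = 0 := by
      rw [e2, sub_self]
    rw [← e3]
    abel
  have hgen1 : ∀ t : ℂ, d * (C t - C 0) = (s t - s 0) * (C 1 - C 0) ∧
      d * (C t * t) = (s t - s 0) * C 1 := by
    intro t
    obtain ⟨e1, e2⟩ := hli _ _ (hgen t)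
    exact ⟨sub_eq_zero.mp e1, sub_eq_zero.mp e2⟩
  have hfin : ∀ t : ℂ, C t * (C 1 - t * (C 1 - C 0)) = C 0 * C 1 := by
    intro t
    obtain ⟨e1, e2⟩ := hgen1 t
    have e3 : d * (C t * (C 1 - t * (C 1 - C 0)) - C 0 * C 1) = 0 := by
      linear_combination C 1 * e1 - (C 1 - C 0) * e2
    rcases mul_eq_zero.mp e3 with e4 | e4
    · exact absurd e4 hd
    · exact sub_eq_zero.mp e4
  have hC01 : C 1 = C 0 := by
    by_contra hne1
    have e1 := hfin (C 1 / (C 1 - C 0))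
    rw [div_mul_cancel₀ _ (sub_ne_zero.mpr hne1), sub_self, mul_zero] at e1
    rcases mul_eq_zero.mp e1.symm with e2 | e2
    · exact hC0 0 e2
    · exact hC0 1 e2
  have hxne : x ≠ 0 := by
    intro h0
    apply hxy 0
    rw [h0, zero_smul]
  have hcc : c = C 0 := by
    have e1 := hC 0
    rw [zero_smul, add_zero, hc] at e1
    have e2 : (c - C 0) • ten x f = 0 := by rw [sub_smul, e1, sub_self]
    rcases smul_eq_zero.mp e2 with e3 | e3
    · exact sub_eq_zero.mp e3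
    · exact absurd (hx0 _ e3) hxne
  have h2 := hC 1
  rw [one_smul, hC01, ← hcc] at h2
  exact h2

/-- the scalars agree for independent vectors -/
theorem g20b_const [CompleteSpace X] (hX : ¬ Module.Finite ℂ X)
    {ε : (X →L[ℂ] X) → (X →L[ℂ] X)} (h : IsSA ε) (h0 : ε 0 = 0)
    (hN : ∀ N : X →L[ℂ] X, N1 N → ∃ c : ℂ, ε N = c • N) {x y : X} {f : X →L[ℂ] ℂ}
    (hf : f ≠ 0) (hx : x ≠ 0) (hy : y ≠ 0) (hfx : f x = 0) (hfy : f y = 0)
    (hxy : ∀ a : ℂ, x ≠ a • y) {c d : ℂ}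
    (hc : ε (ten x f) = c • ten x f) (hd : ε (ten y f) = d • ten y f) : c = d := by
  have hyx : ∀ a : ℂ, y ≠ a • x := by
    intro a ha
    have ha0 : a ≠ 0 := by
      rintro rfl
      apply hy
      rw [ha, zero_smul]
    apply hxy a⁻¹
    rw [ha, smul_smul, inv_mul_cancel₀ ha0, one_smul]
  have i1 := g20b_indep hX h h0 hN hf hy hfx hfy hxy hc
  have i2 := g20b_indep hX h h0 hN hf hx hfy hfx hyx hd
  rw [add_comm y x, i1] at i2
  have hsum : x + y ≠ 0 := by
    intro e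
    apply hxy (-1)
    rw [neg_one_smul]
    exact eq_neg_of_add_eq_zero_left e
  have e2 : (c - d) • ten (x + y) f = 0 := by rw [sub_smul, i2, sub_self]
  rcases smul_eq_zero.mp e2 with e3 | e3
  · exact sub_eq_zero.mp e3
  · rw [ten_eq_zero_iff] at e3
    rcases e3 with e3 | e3
    · exact absurd e3 hsum
    · exact absurd e3 hf

/-- As `const_right`, with `qline_in_coplane`. -/
theorem const_left [CompleteSpace X] (hX : ¬ Module.Finite ℂ X)
    {ε : (X →L[ℂ] X) → (X →L[ℂ] X)} (h : IsSA ε) (h0 : ε 0 = 0)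
    (hN : ∀ N : X →L[ℂ] X, N1 N → ∃ c : ℂ, ε N = c • N) {x y : X} {f : X →L[ℂ] ℂ} {c d : ℂ}
    (hf : f ≠ 0) (hx : x ≠ 0) (hy : y ≠ 0) (hfx : f x = 0) (hfy : f y = 0)
    (hc : ε (ten x f) = c • ten x f) (hd : ε (ten y f) = d • ten y f) : c = d := by
  by_cases hxy : ∀ a : ℂ, x ≠ a • y
  · exact g20b_const hX h h0 hN hf hx hy hfx hfy hxy hc hd
  push Not at hxy
  obtain ⟨a, ha⟩ := hxy
  obtain ⟨z, hfz, hz⟩ := big_ker hX f (Submodule.span ℂ {y})
    (Submodule.fg_span (Set.finite_singleton y))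
  have hz0 : z ≠ 0 := by
    rintro rfl
    exact hz (Submodule.zero_mem _)
  have hzy : ∀ b : ℂ, z ≠ b • y := fun b hb => hz (by
    rw [hb]; exact Submodule.smul_mem _ _ (Submodule.mem_span_singleton_self y))
  have hzx : ∀ b : ℂ, z ≠ b • x := fun b hb => hzy (b * a) (by rw [hb, ha, smul_smul])
  obtain ⟨e, -, he⟩ := g20b_scalar h h0 hN hf hz0 hfz
  rw [← g20b_const hX h h0 hN hf hz0 hx hfz hfx hzx he hc,
    g20b_const hX h h0 hN hf hz0 hy hfz hfy hzy he hd]

end Pool.Agent.H.MP_bb4c62_an.helper86.PG
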