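import Pool.Agent.H.MP_bb4c62_an.helper86.G20
import Pool.Agent.H.MP_bb4c62_an.helper86.G20b

/-!
Self-adjoint bijections with T - ε T quasinilpotent which preserve rank one lines fix the rank one nilpotents.
-/

namespace Pool.Agent.H.MP_bb4c62_an.helper86.PG

open Pool.Agent.H.MP_bb4c62_an.helper6.NL
open Pool.Agent.H.MP_bb4c62_an.helper6.Perturb
open Pool.Agent.H.MP_bb4c62_an.helper6.Gadgets
open Pool.Agent.H.MP_bb4c62_an.helper5.PL

variable {X : Type*} [NormedAddCommGroup X] [NormedSpace ℂ X]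

/-- Proof. (1) There is one scalar `λ ≠ 0` with `ε N = λ • N` for all `N1 N`: for non zero `ten x f`, `ten y g` choose `k ≠ 0` with `k x = k y = 0` and use `const_right` (`ten x f`, `ten x k`), `const_left` (`ten x k`, `ten y k`), `const_right`.
(2) `x ≠ 0`, `f`, `y`, `g` with `f x = 0`, `g y = 0`, `f y = 1`, `g x = 1` (independent `x, y`, `exists_dual`). `T = ten x f + ten y g`, `W = ε T`. For `N1 N`: `QN (λ • W - N)` iff `QN (W - λ⁻¹ • N)` iff (`h.qn`) `QN (T - ε (λ⁻¹ • N))` iff `QN (T - N)`. `eq_of_tests`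
(helper5/P9.lean): `λ • W = T`. (3) `hq T`: `QN (W - T) = QN ((λ⁻¹ - 1) • T)`. `T (x + y) = x + y`, so `T` is not quasinilpotent (`not_qn_of_eigen`), so `λ = 1`. -/
theorem fix_n1 [CompleteSpace X] (hX : ¬ Module.Finite ℂ X)
    {ε : (X →L[ℂ] X) → (X →L[ℂ] X)} (h : IsSA ε) (h0 : ε 0 = 0)
    (hN : ∀ N : X →L[ℂ] X, N1 N → ∃ c : ℂ, ε N = c • N) (hq : ∀ T, QN (ε T - T))
    {N : X →L[ℂ] X} (hN1 : N1 N) : ε N = N := by
  -- two independent vectors
  obtain ⟨x, -, hx⟩ := big_ker hX 0 ⊥ Submodule.fg_bot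
  obtain ⟨y, -, hy⟩ := big_ker hX 0 (Submodule.span ℂ {x}) (Submodule.fg_span (Set.finite_singleton x))
  have hx0 : x ≠ 0 := fun e => hx (by rw [e]; exact Submodule.zero_mem _)
  have hy0 : y ≠ 0 := fun e => hy (by rw [e]; exact Submodule.zero_mem _)
  have hli : LinearIndependent ℂ ![x, y] := by
    rw [LinearIndependent.pair_iff]
    intro α β h0
    have hβ : β = 0 := by
      by_contra hne
      apply hy
      rw [Submodule.mem_span_singleton]
      refine ⟨-(β⁻¹ * α), ?_⟩
      have e : y = β⁻¹ • (α • x + β • y) - (β⁻¹ * α) • x := by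
        rw [smul_add, smul_smul, smul_smul, inv_mul_cancel₀ hne, one_smul]; abel
      rw [e, h0, smul_zero, zero_sub, neg_smul]
    rw [hβ, zero_smul, add_zero] at h0
    exact ⟨(smul_eq_zero.mp h0).resolve_right hx0, hβ⟩
  obtain ⟨f, hf⟩ := exists_dual hli ![0, 1]
  obtain ⟨g, hg⟩ := exists_dual hli ![1, 0]
  have hfx : f x = 0 := hf 0
  have hfy : f y = 1 := hf 1
  have hgx : g x = 1 := hg 0
  have hgy : g y = 0 := hg 1
  have hf0 : f ≠ 0 := fun e => by
    rw [e] at hfy
    exact zero_ne_one hfy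
  obtain ⟨l, hl⟩ := hN _ ⟨x, f, hfx, rfl⟩
  have hl0 : l ≠ 0 := by
    intro e
    rw [e, zero_smul, ← h0] at hl
    have h1 := h.bij.1 hl
    have h2 : ten x f y = 0 := by rw [h1]; rfl
    rw [ten_apply, hfy, one_smul] at h2
    exact hx0 h2
  -- the common factor
  have hcom : ∀ M : X →L[ℂ] X, N1 M → ε M = l • M := by
    rintro M ⟨z, k, hkz, rfl⟩
    by_cases hz : z = 0
    · have e : ten z k = 0 := by
        ext v
        show k v • z = 0
        rw [hz, smul_zero]
      rw [e, h0, smul_zero]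
    by_cases hk : k = 0
    · have e : ten z k = 0 := by
        ext v
        show k v • z = 0
        rw [hk]
        exact zero_smul _ _
      rw [e, h0, smul_zero]
    have hfg : (Submodule.span ℂ ({x, z} : Set X)).FG := Submodule.fg_span (Set.toFinite _)
    obtain ⟨v, -, hv⟩ := big_ker hX 0 _ hfg
    obtain ⟨r, hr, hrv⟩ := exists_sep_sub hfg hv
    have hr0 : r ≠ 0 := fun e => by
      rw [e] at hrv
      exact zero_ne_one hrv
    have hrx : r x = 0 := hr x (Submodule.subset_span (Set.mem_insert _ _))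
    have hrz : r z = 0 := hr z (Submodule.subset_span (Set.mem_insert_of_mem _ rfl))
    obtain ⟨c1, h1⟩ := hN _ ⟨z, k, hkz, rfl⟩
    obtain ⟨c2, h2⟩ := hN _ ⟨z, r, hrz, rfl⟩
    obtain ⟨c3, h3⟩ := hN _ ⟨x, r, hrx, rfl⟩
    have e1 : c1 = c2 := const_right hX h h0 hN hz hk hr0 hkz hrz h1 h2
    have e2 : c2 = c3 := const_left hX h h0 hN hr0 hz hx0 hrz hrx h2 h3
    have e3 : c3 = l := const_right hX h h0 hN hx0 hr0 hf0 hrx hfx h3 hl
    rw [h1, e1, e2, e3]
  have hN1s : ∀ (c : ℂ) (M : X →L[ℂ] X), N1 M → N1 (c • M) := by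
    rintro c M ⟨z, k, hkz, rfl⟩
    refine ⟨c • z, k, ?_, ?_⟩
    · rw [map_smul, hkz, smul_zero]
    · ext v
      show c • (k v • z) = k v • (c • z)
      rw [smul_comm]
  have htest : l • ε (ten x f + ten y g) = ten x f + ten y g := by
    apply eq_of_tests hfx hgy (by rw [hfy]; exact one_ne_zero) (by rw [hgx]; exact one_ne_zero)
    intro M hM
    have e1 : l • ε (ten x f + ten y g) - M = l • (ε (ten x f + ten y g) - l⁻¹ • M) := by
      rw [smul_sub, smul_smul, mul_inv_cancel₀ hl0, one_smul]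
    rw [e1]
    have e2 : QN (l • (ε (ten x f + ten y g) - l⁻¹ • M)) ↔
        QN (ε (ten x f + ten y g) - l⁻¹ • M) := qn_smul_iff hl0
    rw [e2, h.qn, hcom _ (hN1s _ _ hM), smul_smul, mul_inv_cancel₀ hl0, one_smul]
  have hW : ε (ten x f + ten y g) = l⁻¹ • (ten x f + ten y g) := by
    rw [← htest, smul_smul, inv_mul_cancel₀ hl0, one_smul, htest]
  have hlast : l = 1 := by
    by_contra hne
    have hne' : l⁻¹ - 1 ≠ 0 := by
      intro e
      apply hne
      have e' : l⁻¹ = 1 := sub_eq_zero.mp e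
      exact inv_eq_one.mp e'
    have hxy : x + y ≠ 0 := by
      intro e
      have h1 : f (x + y) = 0 := by rw [e, map_zero]
      rw [map_add, hfx, hfy, zero_add] at h1
      exact one_ne_zero h1
    refine not_qn_of_eigen hxy hne' ?_ (hq (ten x f + ten y g))
    rw [hW]
    show l⁻¹ • (f (x + y) • x + g (x + y) • y) - (f (x + y) • x + g (x + y) • y) = _
    rw [map_add, map_add, hfx, hfy, hgx, hgy, zero_add, add_zero, one_smul, one_smul, sub_smul,
      one_smul]
  rw [hcom N hN1, hlast, one_smul]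

end Pool.Agent.H.MP_bb4c62_an.helper86.PG
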