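import Pool.Agent.H.MP_bb4c62_an.helper86.G19b
import Pool.Agent.H.MP_bb4c62_an.helper86.G20c

/-!
Pairs with a common value agree on a coset of the span of the quasinilpotents.
-/

namespace Pool.Agent.H.MP_bb4c62_an.helper86.PG

open Pool.Agent.H.MP_bb4c62_an.helper6.NL
open Pool.Agent.H.MP_bb4c62_an.helper6.Perturb
open Pool.Agent.H.MP_bb4c62_an.helper6.Gadgets
open Pool.Agent.H.MP_bb4c62_an.helper5.PL

variable {X : Type*} [NormedAddCommGroup X] [NormedSpace ℂ X]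
variable {Y : Type*} [NormedAddCommGroup Y] [NormedSpace ℂ Y]

/-- Proof. Let `ψ'` be the inverse of `ψ` and `ε T = ψ' (φ T)`. `IsSA ε`: `QN (ε T - S)` iff `QN (S - ε T)` iff `QN (φ S - ψ (ε T))` iff `QN (φ S - φ T)`, symmetric in `S`, `T`. `ε 0 = 0`. `QN (ε T - T)` iff `QN (φ T - ψ (ε T)) = QN 0`. For `N1 N`, `N ≠ 0`: `φ N ∈ ψ '' rline 0 N` (`pair_prop`), so
`ε N = c • N`. `fix_n1`: `ε N = N`. `fix_qspan` (helper5/P10.lean): `ε T = T` on `QSpan X`, that is `φ T = ψ T`. -/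
theorem caseF_zero [CompleteSpace X] [CompleteSpace Y] (hX : ¬ Module.Finite ℂ X)
    (hY : ¬ Module.Finite ℂ Y)
    {φ ψ : (X →L[ℂ] X) → (Y →L[ℂ] Y)} (h : IsPair φ ψ) (h0 : φ 0 = 0) (h0' : ψ 0 = 0)
    {T : X →L[ℂ] X} (hT : T ∈ QSpan X) : φ T = ψ T := by
  obtain ⟨e, he⟩ : ∃ e : (X →L[ℂ] X) ≃ (Y →L[ℂ] Y), ∀ T, e T = ψ T :=
    ⟨Equiv.ofBijective ψ h.bij', fun _ => rfl⟩
  have hψe : ∀ T, ψ (e.symm (φ T)) = φ T := fun T => by rw [← he, e.apply_symm_apply]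
  have hqn0 : QN (0 : X →L[ℂ] X) := qn_zero
  have hSA : IsSA (fun T => e.symm (φ T)) := by
    refine ⟨e.symm.bijective.comp h.bij, fun T S => ?_⟩
    show QN (e.symm (φ T) - S) ↔ QN (T - e.symm (φ S))
    rw [qn_sub_comm, ← h.qn S (e.symm (φ T)), ← h.qn T (e.symm (φ S)), hψe, hψe]
    exact qn_sub_comm
  have hε0 : (fun T => e.symm (φ T)) 0 = 0 := by
    show e.symm (φ 0) = 0
    rw [h0, Equiv.symm_apply_eq, he, h0']
  have hN : ∀ N : X →L[ℂ] X, N1 N → ∃ c : ℂ, (fun T => e.symm (φ T)) N = c • N := by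
    intro N hN1
    by_cases hN0 : N = 0
    · refine ⟨0, ?_⟩
      rw [hN0, hε0, smul_zero]
    · obtain ⟨V, ⟨z, hz⟩, hV⟩ := pair_prop hX hY h h0 h0' hN1 hN0
      refine ⟨z, ?_⟩
      show e.symm (φ N) = z • N
      rw [← hV, Equiv.symm_apply_eq, he, ← hz]
      show ψ (0 + z • N) = ψ (z • N)
      rw [zero_add]
  have hq : ∀ T, QN ((fun T => e.symm (φ T)) T - T) := by
    intro T
    show QN (e.symm (φ T) - T)
    rw [qn_sub_comm, ← h.qn T (e.symm (φ T)), hψe, sub_self]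
    exact qn_zero
  have h1 : e.symm (φ T) = T :=
    fix_qspan hX hSA (fun N hN1 => fix_n1 hX hSA hε0 hN hq hN1) hT
  rw [← hψe T, h1]

/-- Proof. `caseF_zero` for `T ↦ φ (R + T) - φ R` and `T ↦ ψ (R + T) - ψ R`. -/
theorem caseF [CompleteSpace X] [CompleteSpace Y] (hX : ¬ Module.Finite ℂ X)
    (hY : ¬ Module.Finite ℂ Y)
    {φ ψ : (X →L[ℂ] X) → (Y →L[ℂ] Y)} (h : IsPair φ ψ) {R : X →L[ℂ] X} (hR : φ R = ψ R)
    {T : X →L[ℂ] X} (hT : T - R ∈ QSpan X) : φ T = ψ T := by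
  have hP : IsPair (fun T => φ (R + T) - φ R) (fun T => ψ (R + T) - ψ R) := by
    have key : ∀ g : (X →L[ℂ] X) → (Y →L[ℂ] Y), Function.Bijective g →
        Function.Bijective (fun T => g (R + T) - g R) := by
      intro g hg
      exact (Equiv.subRight (g R)).bijective.comp (hg.comp (Equiv.addLeft R).bijective)
    refine ⟨key φ h.bij, key ψ h.bij', fun T S => ?_⟩
    show QN (φ (R + T) - φ R - (ψ (R + S) - ψ R)) ↔ QN (T - S)
    have e1 : φ (R + T) - φ R - (ψ (R + S) - ψ R) = φ (R + T) - ψ (R + S) := by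
      rw [hR]; abel
    have e2 : T - S = R + T - (R + S) := by abel
    rw [e1, e2]
    exact h.qn _ _
  have h1 := caseF_zero hX hY hP (by
      show φ (R + 0) - φ R = 0
      rw [add_zero, sub_self]) (by
      show ψ (R + 0) - ψ R = 0
      rw [add_zero, sub_self]) hT
  have h2 : φ (R + (T - R)) - φ R = ψ (R + (T - R)) - ψ R := h1
  rw [add_sub_cancel, hR] at h2
  exact sub_left_injective h2

end Pool.Agent.H.MP_bb4c62_an.helper86.PG
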