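import Pool.Agent.H.MP_bb4c62_an.helper86.G21

/-!
The midpoint trick: the two maps of a pair are equal.
-/

namespace Pool.Agent.H.MP_bb4c62_an.helper86.PG

open Pool.Agent.H.MP_bb4c62_an.helper6.NL
open Pool.Agent.H.MP_bb4c62_an.helper6.Perturb
open Pool.Agent.H.MP_bb4c62_an.helper6.Gadgets
open Pool.Agent.H.MP_bb4c62_an.helper5.PL

variable {X : Type*} [NormedAddCommGroup X] [NormedSpace ℂ X]
variable {Y : Type*} [NormedAddCommGroup Y] [NormedSpace ℂ Y]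

/-- The reflections at the midpoint form a pair. -/
theorem g22_pair {φ ψ : (X →L[ℂ] X) → (Y →L[ℂ] Y)} (h : IsPair φ ψ)
    {φ' ψ' : (Y →L[ℂ] Y) → (X →L[ℂ] X)} (h' : IsPair φ' ψ') (hφ : ∀ U, φ (φ' U) = U)
    (hψ : ∀ U, ψ (ψ' U) = U) (s : Y →L[ℂ] Y) :
    IsPair (fun T => ψ' (s - φ T)) (fun T => φ' (s - ψ T)) := by
  have hs : Function.Bijective (fun U : Y →L[ℂ] Y => s - U) :=
    ⟨fun a b hab => sub_right_injective hab, fun U => ⟨s - U, sub_sub_cancel s U⟩⟩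
  refine ⟨h'.bij'.comp (hs.comp h.bij), h'.bij.comp (hs.comp h.bij'), fun T S => ?_⟩
  rw [qn_sub_comm, ← h.qn, hφ, hψ]
  have e : s - ψ S - (s - φ T) = φ T - ψ S := by abel
  rw [e, h.qn]

theorem g22_half {A B : Y →L[ℂ] Y} : QN ((1 / 2 : ℂ) • A - B) ↔ QN (A - B - B) := by
  have e : A - B - B = (2 : ℂ) • ((1 / 2 : ℂ) • A - B) := by
    rw [smul_sub, smul_smul, two_smul]
    norm_num
    abel
  rw [e]
  exact (qn_smul_iff two_ne_zero).symm

/-- The two maps of a pair are equal. -/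
theorem pair_eq_inf [CompleteSpace X] [CompleteSpace Y] (hX : ¬ Module.Finite ℂ X)
    (hY : ¬ Module.Finite ℂ Y)
    {φ ψ : (X →L[ℂ] X) → (Y →L[ℂ] Y)} (h : IsPair φ ψ) : φ = ψ := by
  obtain ⟨φ', ψ', h', hφ1, hφ2, hψ1, hψ2⟩ := h.exists_inv
  funext R
  set s : Y →L[ℂ] Y := φ R + ψ R with hs
  set c : Y →L[ℂ] Y := (1 / 2 : ℂ) • s with hc
  have hp := g22_pair h h' hφ2 hψ2 s
  have hR : (fun T => ψ' (s - φ T)) R = (fun T => φ' (s - ψ T)) R := by
    show ψ' (s - φ R) = φ' (s - ψ R)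
    rw [hs, add_sub_cancel_left, add_sub_cancel_right, hψ1, hφ1]
  have hcase : ∀ T : X →L[ℂ] X, T - R ∈ QSpan X → ψ' (s - φ T) = φ' (s - ψ T) :=
    fun T hT => caseF hX hX hp hR hT
  -- the midpoints
  have h0 : QN (φ R - ψ R) := by
    rw [h.qn, sub_self]
    exact qn_zero
  have h1 : QN (R - ψ' c) := by
    rw [← h.qn, hψ2, qn_sub_comm, hc, g22_half]
    have e : s - φ R - φ R = ψ R - φ R := by rw [hs]; abel
    rw [e, qn_sub_comm]
    exact h0
  have h2 : QN (φ' c - R) := by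
    rw [← h.qn, hφ2, hc, g22_half]
    have e : s - ψ R - ψ R = φ R - ψ R := by rw [hs]; abel
    rw [e]
    exact h0
  have k1 : ∀ T : X →L[ℂ] X, QN (T - ψ' c) ↔ QN (T - ψ' (s - φ T)) := by
    intro T
    rw [← h.qn, hψ2, qn_sub_comm, hc, g22_half, ← h.qn, hψ2, qn_sub_comm]
  have k2 : ∀ T : X →L[ℂ] X, QN (T - φ' c) ↔ QN (T - φ' (s - ψ T)) := by
    intro T
    rw [qn_sub_comm, ← h.qn, hφ2, hc, g22_half, qn_sub_comm (T := T), ← h.qn, hφ2]
  have hS : φ' c = ψ' c := by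
    apply sub_eq_zero.mp
    apply eq_zero_of_translates
    intro N hN
    have hT : φ' c + N - R ∈ QSpan X := by
      have e : φ' c + N - R = (φ' c - R) + N := by abel
      rw [e]
      exact Submodule.add_mem _ (Submodule.subset_span h2) (Submodule.subset_span hN)
    have e1 : φ' c - ψ' c + N = φ' c + N - ψ' c := by abel
    rw [e1]
    refine (k1 _).mpr ?_
    rw [hcase _ hT]
    refine (k2 _).mp ?_
    rw [add_sub_cancel_left]
    exact hN
  have hfin : φ (ψ' c) = ψ (ψ' c) := by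
    rw [hψ2, ← hS, hφ2]
  exact caseF hX hY h hfin (Submodule.subset_span h1)

end Pool.Agent.H.MP_bb4c62_an.helper86.PG
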