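import Pool.Agent.H.MP_bb4c62_an.helper86.G0

/-!
There is no pair between an infinite dimensional and a finite dimensional space.
-/

namespace Pool.Agent.H.MP_bb4c62_an.helper86.PG

open Pool.Agent.H.MP_bb4c62_an.helper6.NL
open Pool.Agent.H.MP_bb4c62_an.helper6.Perturb
open Pool.Agent.H.MP_bb4c62_an.helper6.Gadgets
open Pool.Agent.H.MP_bb4c62_an.helper5.PL

variable {X : Type*} [NormedAddCommGroup X] [NormedSpace ℂ X]
variable {Y : Type*} [NormedAddCommGroup Y] [NormedSpace ℂ Y]

/-- a linearly independent family of any finite size -/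
theorem g24_li (hX : ¬ Module.Finite ℂ X) (r : ℕ) :
    ∃ v : Fin r ⊕ Fin r → X, LinearIndependent ℂ v := by
  have h1 : ((r + r : ℕ) : Cardinal) ≤ Module.rank ℂ X := by
    have h2 : Cardinal.aleph0 ≤ Module.rank ℂ X := by
      by_contra h3
      push Not at h3
      exact hX (Module.rank_lt_aleph0_iff.1 h3)
    exact (Cardinal.natCast_lt_aleph0).le.trans h2
  obtain ⟨s, hs, hli⟩ := exists_finset_linearIndependent_of_le_rank h1
  have e : Fin r ⊕ Fin r ≃ s := by
    apply Fintype.equivOfCardEq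
    rw [Fintype.card_sum, Fintype.card_fin, Fintype.card_coe, hs]
  exact ⟨fun i => ((e i : s) : X), hli.comp e e.injective⟩

/-- the two families of rank one operators -/
theorem g24_ops [CompleteSpace X] (hX : ¬ Module.Finite ℂ X) (r : ℕ) :
    ∃ T U : Fin r → (X →L[ℂ] X), (∀ i j, i ≠ j → QN (T i - U j)) ∧ ∀ i, ¬ QN (T i - U i) := by
  classical
  obtain ⟨v, hv⟩ := g24_li hX r
  choose f' hf' using fun i : Fin r => exists_dual hv (fun j => if j = Sum.inr i then (1 : ℂ) else 0)
  choose f hf using fun i : Fin r => exists_dual hv (fun j => if j = Sum.inl i then (1 : ℂ) else 0)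
  have a1 : ∀ i j, f' i (v (Sum.inl j)) = 0 := fun i j => by rw [hf']; simp
  have a2 : ∀ i j, f i (v (Sum.inr j)) = 0 := fun i j => by rw [hf]; simp
  have a3 : ∀ i, f' i (v (Sum.inr i)) = 1 := fun i => by rw [hf']; simp
  have a4 : ∀ i, f i (v (Sum.inl i)) = 1 := fun i => by rw [hf]; simp
  have a5 : ∀ i j, i ≠ j → f' i (v (Sum.inr j)) = 0 := fun i j hij => by
    rw [hf']
    simp [Ne.symm hij]
  have a6 : ∀ i j, i ≠ j → f i (v (Sum.inl j)) = 0 := fun i j hij => by
    rw [hf]
    simp [Ne.symm hij]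
  refine ⟨fun i => ten (v (Sum.inl i)) (f' i), fun i => ten (v (Sum.inr i)) (f i), ?_, ?_⟩
  · intro i j hij
    apply qn_of_pow (n := 2)
    rw [pow_two]
    ext z
    change (ten (v (Sum.inl i)) (f' i) - ten (v (Sum.inr j)) (f j))
      (f' i z • v (Sum.inl i) - f j z • v (Sum.inr j)) = 0
    change f' i (f' i z • v (Sum.inl i) - f j z • v (Sum.inr j)) • v (Sum.inl i) -
      f j (f' i z • v (Sum.inl i) - f j z • v (Sum.inr j)) • v (Sum.inr j) = 0
    rw [map_sub, map_smul, map_smul, map_sub, map_smul, map_smul, a1, a5 i j hij,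
      a6 j i (Ne.symm hij), a2]
    simp
  · intro i hq
    refine not_qn_of_pow_eigen (hv.ne_zero (Sum.inr i)) (μ := -1) (by norm_num) (n := 2)
      (by norm_num) ?_ hq
    rw [pow_two]
    change (ten (v (Sum.inl i)) (f' i) - ten (v (Sum.inr i)) (f i))
      (f' i (v (Sum.inr i)) • v (Sum.inl i) - f i (v (Sum.inr i)) • v (Sum.inr i)) = _
    rw [a3, a2, one_smul, zero_smul, sub_zero]
    change f' i (v (Sum.inl i)) • v (Sum.inl i) - f i (v (Sum.inl i)) • v (Sum.inr i) = _
    rw [a1, a4]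
    simp

/-- The functions `B ↦ (A - B) ^ n` lie in a space of finite dimension. -/
theorem g24_poly {V : Type*} [Ring V] [Algebra ℂ V] [Module.Finite ℂ V] (n : ℕ) :
    ∃ W : Submodule ℂ (V → V), Module.Finite ℂ W ∧ ∀ A : V, (fun B => (A - B) ^ n) ∈ W := by
  induction n with
  | zero =>
    refine ⟨Submodule.span ℂ {fun _ => 1}, inferInstance, fun A => ?_⟩
    simp only [pow_zero]
    exact Submodule.mem_span_singleton_self _
  | succ n ih =>
    obtain ⟨W, hW, hA⟩ := ih
    let Φ : V →ₗ[ℂ] W →ₗ[ℂ] (V → V) := LinearMap.mk₂ ℂ (fun v w B => v * (w : V → V) B)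
      (fun a b w => by funext B; simp [add_mul])
      (fun c a w => by funext B; simp)
      (fun a w w' => by funext B; simp [mul_add])
      (fun c a w => by funext B; simp)
    let Ψ : W →ₗ[ℂ] (V → V) :=
      { toFun := fun w B => B * (w : V → V) B
        map_add' := fun w w' => by funext B; simp [mul_add]
        map_smul' := fun c w => by funext B; simp }
    refine ⟨LinearMap.range (TensorProduct.lift Φ) ⊔ LinearMap.range Ψ, inferInstance, fun A => ?_⟩
    have h1 : (fun B => (A - B) ^ (n + 1)) =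
        TensorProduct.lift Φ (A ⊗ₜ ⟨_, hA A⟩) - Ψ ⟨_, hA A⟩ := by
      funext B
      rw [pow_succ', sub_mul]
      rfl
    rw [h1]
    exact Submodule.sub_mem _ (Submodule.mem_sup_left ⟨_, rfl⟩) (Submodule.mem_sup_right ⟨_, rfl⟩)

/-- There is no pair between an infinite dimensional and a finite dimensional space. -/
theorem no_mixed_pair [CompleteSpace X] [CompleteSpace Y] (hX : ¬ Module.Finite ℂ X)
    (hY : Module.Finite ℂ Y)
    {φ ψ : (X →L[ℂ] X) → (Y →L[ℂ] Y)} (h : IsPair φ ψ) : False := by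
  classical
  set n := Module.finrank ℂ Y with hn
  have hfin : Module.Finite ℂ (Y →L[ℂ] Y) := by
    infer_instance
  obtain ⟨W, hW, hWA⟩ := g24_poly (V := Y →L[ℂ] Y) n
  obtain ⟨T, U, h1, h2⟩ := g24_ops hX (Module.finrank ℂ W + 1)
  have h3 : ∀ i j, i ≠ j → (φ (T i) - ψ (U j)) ^ n = 0 := fun i j hij =>
    pow_finrank_zero ((h.qn _ _).2 (h1 i j hij))
  have h4 : ∀ i, (φ (T i) - ψ (U i)) ^ n ≠ 0 := fun i h5 => h2 i ((h.qn _ _).1 (qn_of_pow h5))
  have h5 : ¬ LinearIndependent ℂ (fun i : Fin (Module.finrank ℂ W + 1) =>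
      (⟨_, hWA (φ (T i))⟩ : W)) := by
    intro hli
    have := hli.fintype_card_le_finrank
    rw [Fintype.card_fin] at this
    omega
  rw [Fintype.not_linearIndependent_iff] at h5
  obtain ⟨g, hg, i, hi⟩ := h5
  have h6 := congrArg (fun w : W => (w : (Y →L[ℂ] Y) → (Y →L[ℂ] Y)) (ψ (U i))) hg
  simp only [Submodule.coe_sum, Submodule.coe_smul, Finset.sum_apply, Pi.smul_apply,
    ZeroMemClass.coe_zero, Pi.zero_apply] at h6
  rw [Finset.sum_eq_single i] at h6
  · rcases smul_eq_zero.1 h6 with h7 | h7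
    · exact hi h7
    · exact h4 i h7
  · intro k _ hk
    rw [h3 k i hk, smul_zero]
  · intro hk
    exact absurd (Finset.mem_univ i) hk

end Pool.Agent.H.MP_bb4c62_an.helper86.PG
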