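import Pool.Agent.H.MP_bb4c62_an.helper86.G22
import Pool.Agent.H.MP_bb4c62_an.helper86.G24

/-!
The plus sign for arbitrary complex Banach spaces.
-/

namespace Pool.Agent.H.MP_bb4c62_an.helper86.PG

open Pool.Agent.H.MP_bb4c62_an.helper6.NL
open Pool.Agent.H.MP_bb4c62_an.helper6.Perturb
open Pool.Agent.H.MP_bb4c62_an.helper6.Gadgets
open Pool.Agent.H.MP_bb4c62_an.helper5.PL

variable {X : Type*} [NormedAddCommGroup X] [NormedSpace ℂ X]
variable {Y : Type*} [NormedAddCommGroup Y] [NormedSpace ℂ Y]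

/-- the two maps of a pair are equal, in all dimensions -/
theorem pair_eq_all [CompleteSpace X] [CompleteSpace Y]
    {φ ψ : (X →L[ℂ] X) → (Y →L[ℂ] Y)} (h : IsPair φ ψ) : φ = ψ := by
  by_cases hX : Module.Finite ℂ X
  · by_cases hY : Module.Finite ℂ Y
    · exact pair_eq h
    · obtain ⟨φ', ψ', h', -⟩ := h.exists_inv
      exact (no_mixed_pair hY hX h').elim
  · by_cases hY : Module.Finite ℂ Y
    · exact (no_mixed_pair hX hY h).elim
    · exact pair_eq_inf hX hY h

/-- solutions of the plus equation are odd -/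
theorem odd_all [CompleteSpace X] [CompleteSpace Y] {φ : (X →L[ℂ] X) → (Y →L[ℂ] Y)}
    (hsurj : Function.Surjective φ) (h : ∀ T S, QN (φ T + φ S) ↔ QN (T + S))
    (T : X →L[ℂ] X) : φ (-T) = -φ T := by
  have hinj := injective_of_qn_plus h
  have hp : IsPair φ (fun S => -φ (-S)) := by
    refine ⟨⟨hinj, hsurj⟩, ⟨?_, ?_⟩, ?_⟩
    · intro a b hab
      have := hinj (neg_injective hab)
      exact neg_injective this
    · intro U
      obtain ⟨S, hS⟩ := hsurj (-U)
      exact ⟨-S, by show -φ (- -S) = U; rw [neg_neg, hS, neg_neg]⟩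
    · intro T S
      show QN (φ T - -φ (-S)) ↔ QN (T - S)
      rw [sub_neg_eq_add, h, ← sub_eq_add_neg]
  have := congrFun (pair_eq_all hp) T
  have h2 : φ T = -φ (-T) := this
  rw [h2, neg_neg]

/-- both signs: complete description for arbitrary complex Banach spaces -/
theorem main_both [CompleteSpace X] [CompleteSpace Y] (φ : (X →L[ℂ] X) → (Y →L[ℂ] Y))
    (hsurj : Function.Surjective φ) :
    (∀ T S : X →L[ℂ] X, spectralRadius ℂ (φ T + φ S) = 0 ↔ spectralRadius ℂ (T + S) = 0) ↔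
      ((∀ T, φ (-T) = -φ T) ∧
      (∀ T S : X →L[ℂ] X, φ T - φ S ∈ QSpan Y ↔ T - S ∈ QSpan X) ∧
        ∀ R : X →L[ℂ] X, FormI φ R ∨ FormII φ R) := by
  constructor
  · intro h
    exact (main_plus φ hsurj (Or.inr (odd_all hsurj h))).1 h
  · intro h
    exact (main_plus φ hsurj (Or.inr h.1)).2 h

end Pool.Agent.H.MP_bb4c62_an.helper86.PG
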