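import Pool.Agent.H.MP_bb4c62_an.helper86.G3

/-!
A non nilpotent operator is tied to no other operator with the same leading part.
-/

namespace Pool.Agent.H.MP_bb4c62_an.helper86.PG

open Pool.Agent.H.MP_bb4c62_an.helper6.NL
open Pool.Agent.H.MP_bb4c62_an.helper6.Perturb
open Pool.Agent.H.MP_bb4c62_an.helper6.Gadgets
open Pool.Agent.H.MP_bb4c62_an.helper5.PL

variable {X : Type*} [NormedAddCommGroup X] [NormedSpace ℂ X]

/-- the operator equation behind the conjugation test -/
theorem g3b_conj {w F K : X →L[ℂ] X} (hK : K * K = 0) (hKw : K * w * K = 0) :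
    (1 - K) * ((w + F) - (w * K - K * w)) * (1 + K) = w + (F + F * K - K * F - K * F * K) := by
  have e : (1 - K) * ((w + F) - (w * K - K * w)) * (1 + K) =
      w + (F + F * K - K * F - K * F * K) - w * (K * K) + (K * w * K) * 1 - (K * K) * w
        + (K * w * K) * K - (K * K) * w * K := by
    noncomm_ring
  rw [e, hK, hKw]
  simp

/-- Proof. Let `F = ten x θ + ten q f` and suppose `F ≠ 0`. Choose `u0` with `F u0 ≠ 0`, and (`exists_indep3`, for
`Z = span {x, q, u0, w u0, w² u0}`) `u''` with `f u'' = θ u'' = 0` and `u'', w u'', w² u''` independent modulo `Z`. Put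
`u3 = u0 + u''`, `s = F u3 = F u0 ≠ 0` (in `span {x, q}`). Then `s` is not in the span of `u3, w u3, w² u3`.
Let `Z = span {x, q, w x, w q, w² x, w² q, w³ x, w³ q, u3, w u3, w² u3}` and (`exists_indep4`) `y` with `f y = 0`,
`θ y = 0`, `f (w y) = 0` and `y, w y, w² y, w³ y` independent modulo `Z`. Choose (`exists_sep_sub`)
`g1` with `g1 s = 1` and `g1 = 0` on `u3, w u3, w² u3, y, w y, w² y`; `g2` with `g2 (w³ y) = 1`, `g2 = 0` on `Z` and on
`y, w y, w² y`. For a scalar `τ` let `K = -(ten y g1) + τ • ten u3 g2`. `K * K = 0`, `K * w * K = 0`. Let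
`T = w - (1 + K) * w * (1 - K) = w * K - K * w`. `T * T = 0`, `LP x f T`, `QN (T - w)`.
So `QN (w + F - T)`, and conjugating, `QN (w + (1 - K) * F * (1 + K))`, where
`(1 - K) * F * (1 + K) = F + ten y (g1.comp F) + τ • ten (s + y) g2`. So with `D = w + F + ten y (g1.comp F)` we have
`QN (D + τ • ten (s + y) g2)` for all `τ`; `pencil_one` with `n = 3`: `g2 (D (D (D (s + y)))) = 0`. But
`g2 (D (D (D v))) = g2 (w³ v)` for all `v`. -/
theorem wild_zero [CompleteSpace X] {x q : X} {f θ : X →L[ℂ] ℂ} (hfx : f x = 0)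
    {w : X →L[ℂ] X} (hw : QN w) (hnil : ∀ n : ℕ, w ^ n ≠ 0)
    (hVq : QN (w + (ten x θ + ten q f)))
    (h : ∀ T, LP x f T → QN (T - w) → QN (T - (w + (ten x θ + ten q f)))) :
    ten x θ + ten q f = 0 := by
  by_contra hF0
  obtain ⟨F, hF⟩ : ∃ F : X →L[ℂ] X, F = ten x θ + ten q f := ⟨_, rfl⟩
  rw [← hF] at hF0 hVq h
  have hFv : ∀ v, F v = θ v • x + f v • q := fun v => by rw [hF]; rfl
  obtain ⟨u0, hu0⟩ : ∃ u, F u ≠ 0 := by
    by_contra hc
    push Not at hc
    exact hF0 (ContinuousLinearMap.ext hc)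
  -- first vector
  obtain ⟨Z0, hZ0⟩ : ∃ Z0 : Submodule ℂ X,
      Z0 = Submodule.span ℂ {x, q, u0, w u0, w (w u0)} := ⟨_, rfl⟩
  have hZ0fg : Z0.FG := by rw [hZ0]; exact Submodule.fg_span (Set.toFinite _)
  have z0x : x ∈ Z0 := by rw [hZ0]; exact Submodule.subset_span (by simp)
  have z0q : q ∈ Z0 := by rw [hZ0]; exact Submodule.subset_span (by simp)
  have z0u : u0 ∈ Z0 := by rw [hZ0]; exact Submodule.subset_span (by simp)
  have z0wu : w u0 ∈ Z0 := by rw [hZ0]; exact Submodule.subset_span (by simp)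
  have z0wwu : w (w u0) ∈ Z0 := by rw [hZ0]; exact Submodule.subset_span (by simp)
  obtain ⟨u', fu', θu', hind⟩ := exists_indep3 hw hnil Z0 hZ0fg f θ
  obtain ⟨u3, hu3⟩ : ∃ u3 : X, u3 = u0 + u' := ⟨_, rfl⟩
  obtain ⟨s, hs⟩ : ∃ s : X, s = F u3 := ⟨_, rfl⟩
  have hs0 : s = θ u0 • x + f u0 • q := by
    rw [hs, hFv, hu3, map_add, map_add, fu', θu', add_zero, add_zero]
  have hsne : s ≠ 0 := by rw [hs0, ← hFv]; exact hu0
  have hsep : ∀ a b c : ℂ, s ≠ a • u3 + b • w u3 + c • w (w u3) := by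
    intro a b c he
    have h1 : a • u' + b • w u' + c • w (w u') =
        θ u0 • x + f u0 • q - (a • u0 + b • w u0 + c • w (w u0)) := by
      rw [← hs0, he, hu3, map_add, map_add]
      module
    obtain ⟨ha, hb, hc⟩ := hind a b c (by
      rw [h1]
      exact Submodule.sub_mem _ (Submodule.add_mem _ (Submodule.smul_mem _ _ z0x)
        (Submodule.smul_mem _ _ z0q)) (Submodule.add_mem _ (Submodule.add_mem _
        (Submodule.smul_mem _ _ z0u) (Submodule.smul_mem _ _ z0wu)) (Submodule.smul_mem _ _ z0wwu)))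
    apply hsne
    rw [he, ha, hb, hc, zero_smul, zero_smul, zero_smul, add_zero, add_zero]
  -- second vector
  obtain ⟨Z, hZ⟩ : ∃ Z : Submodule ℂ X, Z = Submodule.span ℂ
      {x, q, w x, w q, w (w x), w (w q), w (w (w x)), w (w (w q)), u3, w u3, w (w u3)} :=
    ⟨_, rfl⟩
  have hZfg : Z.FG := by rw [hZ]; exact Submodule.fg_span (Set.toFinite _)
  have zx : x ∈ Z := by rw [hZ]; exact Submodule.subset_span (by simp)
  have zq : q ∈ Z := by rw [hZ]; exact Submodule.subset_span (by simp)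
  have zwx : w x ∈ Z := by rw [hZ]; exact Submodule.subset_span (by simp)
  have zwq : w q ∈ Z := by rw [hZ]; exact Submodule.subset_span (by simp)
  have zwwx : w (w x) ∈ Z := by rw [hZ]; exact Submodule.subset_span (by simp)
  have zwwq : w (w q) ∈ Z := by rw [hZ]; exact Submodule.subset_span (by simp)
  have zwwwx : w (w (w x)) ∈ Z := by rw [hZ]; exact Submodule.subset_span (by simp)
  have zwwwq : w (w (w q)) ∈ Z := by rw [hZ]; exact Submodule.subset_span (by simp)
  have zu : u3 ∈ Z := by rw [hZ]; exact Submodule.subset_span (by simp)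
  have zwu : w u3 ∈ Z := by rw [hZ]; exact Submodule.subset_span (by simp)
  have zwwu : w (w u3) ∈ Z := by rw [hZ]; exact Submodule.subset_span (by simp)
  obtain ⟨y, fy, θy, fwy', hindy⟩ := exists_indep4 hw hnil Z hZfg f θ (f.comp w)
  have fwy : f (w y) = 0 := fwy'
  have zs : s ∈ Z := by
    rw [hs0]
    exact Submodule.add_mem _ (Submodule.smul_mem _ _ zx) (Submodule.smul_mem _ _ zq)
  -- the functional g1
  obtain ⟨g1, hg1, hg1s⟩ : ∃ g1 : X →L[ℂ] ℂ,
      (∀ m ∈ Submodule.span ℂ ({u3, w u3, w (w u3), y, w y, w (w y)} : Set X), g1 m = 0) ∧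
        g1 s = 1 := by
    refine exists_sep_sub (Submodule.fg_span (Set.toFinite _)) fun hm => ?_
    rw [Submodule.mem_span_insert] at hm
    obtain ⟨a, z1, hz1, he1⟩ := hm
    rw [Submodule.mem_span_insert] at hz1
    obtain ⟨b, z2, hz2, he2⟩ := hz1
    rw [Submodule.mem_span_insert] at hz2
    obtain ⟨c, z3, hz3, he3⟩ := hz2
    rw [Submodule.mem_span_insert] at hz3
    obtain ⟨d, z4, hz4, he4⟩ := hz3
    obtain ⟨e, g, he5⟩ := Submodule.mem_span_pair.mp hz4
    have h1 : d • y + e • w y + g • w (w y) + (0 : ℂ) • w (w (w y)) =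
        s - (a • u3 + b • w u3 + c • w (w u3)) := by
      rw [he1, he2, he3, he4, ← he5]
      module
    obtain ⟨hd, he, hg, -⟩ := hindy d e g 0 (by
      rw [h1]
      exact Submodule.sub_mem _ zs (Submodule.add_mem _ (Submodule.add_mem _
        (Submodule.smul_mem _ _ zu) (Submodule.smul_mem _ _ zwu)) (Submodule.smul_mem _ _ zwwu)))
    apply hsep a b c
    rw [he1, he2, he3, he4, ← he5, hd, he, hg]
    module
  have g1u : g1 u3 = 0 := hg1 _ (Submodule.subset_span (by simp))
  have g1wu : g1 (w u3) = 0 := hg1 _ (Submodule.subset_span (by simp))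
  have g1wwu : g1 (w (w u3)) = 0 := hg1 _ (Submodule.subset_span (by simp))
  have g1y : g1 y = 0 := hg1 _ (Submodule.subset_span (by simp))
  have g1wy : g1 (w y) = 0 := hg1 _ (Submodule.subset_span (by simp))
  have g1wwy : g1 (w (w y)) = 0 := hg1 _ (Submodule.subset_span (by simp))
  -- the functional g2
  obtain ⟨g2, hg2, hg2y⟩ : ∃ g2 : X →L[ℂ] ℂ,
      (∀ m ∈ Z ⊔ Submodule.span ℂ ({y, w y, w (w y)} : Set X), g2 m = 0) ∧
        g2 (w (w (w y))) = 1 := by
    refine exists_sep_sub (hZfg.sup (Submodule.fg_span (Set.toFinite _))) fun hm => ?_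
    obtain ⟨z, hz, z1, hz1, he1⟩ := Submodule.mem_sup.mp hm
    rw [Submodule.mem_span_insert] at hz1
    obtain ⟨a, z2, hz2, he2⟩ := hz1
    obtain ⟨b, c, he3⟩ := Submodule.mem_span_pair.mp hz2
    obtain ⟨-, -, -, h1⟩ := hindy (-a) (-b) (-c) 1 (by
      have : (-a) • y + (-b) • w y + (-c) • w (w y) + (1 : ℂ) • w (w (w y)) = z := by
        rw [← he1, he2, ← he3]
        module
      rw [this]
      exact hz)
    exact one_ne_zero h1
  have g2Z : ∀ m ∈ Z, g2 m = 0 := fun m hm => hg2 m (Submodule.mem_sup_left hm)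
  have g2y : g2 y = 0 := hg2 _ (Submodule.mem_sup_right (Submodule.subset_span (by simp)))
  have g2wy : g2 (w y) = 0 := hg2 _ (Submodule.mem_sup_right (Submodule.subset_span (by simp)))
  have g2wwy : g2 (w (w y)) = 0 :=
    hg2 _ (Submodule.mem_sup_right (Submodule.subset_span (by simp)))
  have Fy : F y = 0 := by rw [hFv, θy, fy, zero_smul, zero_smul, add_zero]
  have g2F : ∀ v, g2 (F v) = 0 := fun v => by
    rw [hFv, map_add, map_smul, map_smul, g2Z x zx, g2Z q zq, smul_zero, smul_zero, add_zero]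
  -- the pencil
  obtain ⟨D, hD⟩ : ∃ D : X →L[ℂ] X, D = w + F + ten y (g1.comp F) := ⟨_, rfl⟩
  have hDv : ∀ v, D v = w v + F v + g1 (F v) • y := fun v => by rw [hD]; rfl
  have hpen : ∀ τ : ℂ, QN (D + τ • ten (s + y) g2) := by
    intro τ
    obtain ⟨K, hK⟩ : ∃ K : X →L[ℂ] X, K = -(ten y g1) + τ • ten u3 g2 := ⟨_, rfl⟩
    have hKv : ∀ v, K v = -(g1 v • y) + τ • g2 v • u3 := fun v => by rw [hK]; rfl
    have hKK : K * K = 0 := by
      ext v
      show K (K v) = 0
      rw [hKv (K v), hKv v, map_add, map_add, map_neg, map_neg, map_smul, map_smul, map_smul,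
        map_smul, map_smul, map_smul, g1y, g2y, g1u, g2Z u3 zu]
      simp
    have hKwK : K * w * K = 0 := by
      ext v
      show K (w (K v)) = 0
      rw [hKv (w (K v)), hKv v]
      simp only [map_add, map_neg, map_smul, g1wy, g2wy, g1wu, g2Z _ zwu]
      simp
    obtain ⟨T, hT⟩ : ∃ T : X →L[ℂ] X, T = w * K - K * w := ⟨_, rfl⟩
    have hTv : ∀ v, T v = w (K v) - K (w v) := fun v => by rw [hT]; rfl
    have hTw : T - w = -((1 + K) * w * (1 - K)) := by
      rw [(conj_sq hKK).2.2, hKwK, hT]; abel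
    have hTwq : QN (T - w) := by
      rw [hTw]
      exact qn_neg (qn_conj hw (conj_sq (w := w) hKK).1 (conj_sq (w := w) hKK).2.1)
    have hTy : T y = 0 := by
      rw [hTv, hKv, hKv, g1y, g2y, g1wy, g2wy]; simp
    have hTwy : T (w y) = 0 := by
      rw [hTv, hKv, hKv, g1wy, g2wy, g1wwy, g2wwy]; simp
    have hTu : T u3 = 0 := by
      rw [hTv, hKv, hKv, g1u, g2Z _ zu, g1wu, g2Z _ zwu]; simp
    have hTwu : T (w u3) = 0 := by
      rw [hTv, hKv, hKv, g1wu, g2Z _ zwu, g1wwu, g2Z _ zwwu]; simp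
    have hTT : ∀ v, T (T v) = 0 := by
      intro v
      rw [hTv v, hKv v, hKv (w v)]
      simp only [map_add, map_sub, map_neg, map_smul, hTy, hTwy, hTu, hTwu]
      simp
    have hTq : QN T := qn_of_pow (n := 2) (by
      rw [pow_two]; ext v; exact hTT v)
    have hfTx : f (T x) = 0 := by
      rw [hTv x, hKv x, hKv (w x), g2Z _ zx, g2Z _ zwx]
      simp only [map_add, map_sub, map_neg, map_smul, fy, fwy]
      simp
    have hLP : LP x f T := LP.of_two hfx hTq hfTx (hTT x)
    have h1 := h T hLP hTwq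
    rw [qn_sub_comm] at h1
    have h2 := qn_conj h1 (conj_sq (w := w) hKK).2.1 (conj_sq (w := w) hKK).1
    rw [hT, g3b_conj hKK hKwK] at h2
    have h3 : w + (F + F * K - K * F - K * F * K) = D + τ • ten (s + y) g2 := by
      rw [hD]
      have e1 : ∀ v, F (K v) = τ • g2 v • s := by
        intro v
        rw [hKv, map_add, map_neg, map_smul, map_smul, map_smul, Fy, hs]
        simp
      have e2 : ∀ v, K (F v) = -(g1 (F v) • y) := by
        intro v
        rw [hKv, g2F]; simp
      ext v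
      show w v + (F v + F (K v) - K (F v) - K (F (K v))) =
        w v + F v + g1 (F v) • y + τ • g2 v • (s + y)
      rw [e2 (K v), e2 v, e1 v]
      simp only [map_smul, hg1s]
      simp only [smul_add, smul_eq_mul, mul_one, smul_smul]
      abel
    rw [h3] at h2
    exact h2
  have hDq : QN D := by
    have := hpen 0
    rwa [zero_smul, add_zero] at this
  have hfin := pencil_one hDq hpen 3
  have hg2D : ∀ v, g2 (D (D (D v))) = g2 (w (w (w v))) := by
    intro v
    have e1 : ∀ u, g2 (D u) = g2 (w u) := by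
      intro u
      rw [hDv, map_add, map_add, map_smul, g2F, g2y]; simp
    have e2 : ∀ u, g2 (w (D u)) = g2 (w (w u)) := by
      intro u
      rw [hDv, hFv]
      simp only [map_add, map_smul, g2Z _ zwx, g2Z _ zwq, g2wy]
      simp
    have e3 : ∀ u, g2 (w (w (D u))) = g2 (w (w (w u))) := by
      intro u
      rw [hDv, hFv]
      simp only [map_add, map_smul, g2Z _ zwwx, g2Z _ zwwq, g2wwy]
      simp
    rw [e1, e2, e3]
  have e3 : (D ^ 3) (s + y) = D (D (D (s + y))) := by
    rw [pow_succ, pow_two]; rfl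
  rw [e3, hg2D, map_add, map_add, map_add, map_add, hg2y, hs0] at hfin
  simp only [map_add, map_smul, g2Z _ zwwwx, g2Z _ zwwwq] at hfin
  simp at hfin

end Pool.Agent.H.MP_bb4c62_an.helper86.PG
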