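import Pool.Agent.H.MP_bb4c62_an.helper86.G1
import Pool.Agent.H.MP_bb4c62_an.helper86.G2
import Pool.Agent.H.MP_bb4c62_an.helper86.G3b

/-!
The points of a parallel set are nilpotent.
-/

namespace Pool.Agent.H.MP_bb4c62_an.helper86.PG

open Pool.Agent.H.MP_bb4c62_an.helper6.NL
open Pool.Agent.H.MP_bb4c62_an.helper6.Perturb
open Pool.Agent.H.MP_bb4c62_an.helper6.Gadgets
open Pool.Agent.H.MP_bb4c62_an.helper5.PL

variable {X : Type*} [NormedAddCommGroup X] [NormedSpace ℂ X]

/-- Proof. Suppose `w ∈ l` with `w ^ n ≠ 0` for all `n`. For every `V ∈ l`, `h.one` gives the hypothesis of `wild_form`,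
`wild_beta`, `wild_zero`: so `V = w` or `V = ten x θ + ten q f` for some `θ, q`. `l` is infinite, so there is
`V ∈ l`, `V ≠ w`, `V = ten x θ + ten q f`, quasinilpotent. Let `f y = 0`, `k x = 0`, `k y = 0`, `t` a scalar,
`T = t • ten y k`: `T * T = 0`, `T x = 0`, so `LP x f T`; `QN (T - V)` by `qn_form_test` (helper6/NLine4.lean). By `h.one`
(`V` to `w`), `QN (t • ten y k - w)` for all `t`, so `k (w y) = 0` (`pencil_one`, `n = 1`). This contradicts
`exists_gen` as in the first part (`fin`) of the proof of `line_through` (helper6/NLine4.lean). -/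
theorem Par.nilpotent [CompleteSpace X] (hX : ¬ Module.Finite ℂ X) {x : X} {f : X →L[ℂ] ℂ}
    (hx : x ≠ 0) (hf : f ≠ 0) (hfx : f x = 0) {l : Set (X →L[ℂ] X)} (h : Par x f l)
    {w : X →L[ℂ] X} (hw : w ∈ l) : ∃ n : ℕ, w ^ n = 0 := by
  by_contra hnil
  push Not at hnil
  have hwq : QN w := h.qn w hw
  have hform : ∀ V ∈ l, V = w ∨ ∃ (θ : X →L[ℂ] ℂ) (q : X), V = ten x θ + ten q f := by
    intro V hV
    have h1 : ∀ T, LP x f T → QN (T - w) → QN (T - V) := fun T hT hq => h.one w hw V hV T hT hq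
    obtain ⟨β, θ, q, hβ⟩ := wild_form hX hx hf hfx hwq hnil (h.qn V hV) h1
    rcases wild_beta hfx hwq hnil hβ (h.qn V hV) h1 with hb | hb
    · right
      exact ⟨θ, q, by rw [hβ, hb, zero_smul, zero_add]⟩
    · left
      rw [hb, one_smul] at hβ
      have hq := h.qn V hV
      rw [hβ] at hq h1
      rw [hβ, wild_zero hfx hwq hnil hq h1, add_zero]
  obtain ⟨V, ⟨hV, hVw⟩⟩ := (h.inf.sdiff (Set.finite_singleton w)).nonempty
  have hVw' : V ≠ w := fun e => hVw (by rw [e]; exact Set.mem_singleton w)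
  obtain ⟨θ, q, hθ⟩ := (hform V hV).resolve_left hVw'
  have hVq : QN (ten x θ + ten q f) := by rw [← hθ]; exact h.qn V hV
  have fin : ∀ (y : X) (k : X →L[ℂ] ℂ), f y = 0 → k x = 0 → k y = 0 → k (w y) = 0 := by
    intro y k hfy hkx hky
    have hall : ∀ t : ℂ, QN (w + t • ten y k) := by
      intro t
      have hT : LP x f ((-t) • ten y k) := by
        refine LP.of_kill hfx (qn_smul (qn_of_sq (ten_sq hky)) _) ?_
        show (-t) • (k x • y) = 0
        rw [hkx, zero_smul, smul_zero]
      have h2 : QN ((-t) • ten y k - V) := by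
        rw [qn_sub_comm, hθ]
        have := qn_form_test hfx hVq hfy hkx hky t
        have e : ten x θ + ten q f - (-t) • ten y k = ten x θ + ten q f + t • ten y k := by module
        rwa [e]
      have h3 := h.one V hV w hw _ hT h2
      rw [qn_sub_comm] at h3
      have e : w - (-t) • ten y k = w + t • ten y k := by module
      rwa [e] at h3
    have := pencil_one hwq hall 1
    rwa [pow_one] at this
  obtain ⟨u, hfu, hu⟩ := exists_gen hwq hnil f (Submodule.span ℂ {x})
    (Submodule.fg_span_singleton x)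
  have hmem : w u ∈ Submodule.span ℂ ({x, u} : Set X) := by
    by_contra hcon
    obtain ⟨k, hk, hk'⟩ := exists_sep_sub (Submodule.fg_span (Set.toFinite _)) hcon
    rw [fin u k hfu (hk x (Submodule.subset_span (by simp)))
      (hk u (Submodule.subset_span (by simp)))] at hk'
    exact zero_ne_one hk'
  obtain ⟨a, b, hab⟩ := Submodule.mem_span_pair.mp hmem
  obtain ⟨-, h2, -⟩ := hu b (-1) 0 (by
    have : b • u + (-1 : ℂ) • w u + (0 : ℂ) • w (w u) = (-a) • x := by
      rw [zero_smul, ← hab]; module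
    rw [this]
    exact Submodule.smul_mem _ _ (Submodule.mem_span_singleton_self x))
  norm_num at h2

end Pool.Agent.H.MP_bb4c62_an.helper86.PG
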