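import Pool.Agent.H.MP_bb4c62_an.helper86.G0

/-!
Linear algebra of nilpotent operators on infinite dimensional spaces.
-/

namespace Pool.Agent.H.MP_bb4c62_an.helper86.PG

open Pool.Agent.H.MP_bb4c62_an.helper6.NL
open Pool.Agent.H.MP_bb4c62_an.helper6.Perturb
open Pool.Agent.H.MP_bb4c62_an.helper6.Gadgets
open Pool.Agent.H.MP_bb4c62_an.helper5.PL

variable {X : Type*} [NormedAddCommGroup X] [NormedSpace ℂ X]

theorem g5_inf {N : Submodule ℂ X} (g : X →L[ℂ] ℂ)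
    (h : (N ⊓ LinearMap.ker (g : X →ₗ[ℂ] ℂ)).FG) : N.FG :=
  Submodule.fg_of_fg_map_of_fg_inf_ker (g : X →ₗ[ℂ] ℂ) (IsNoetherian.noetherian _) h

theorem g5_ker {w : X →L[ℂ] X} (h : (LinearMap.ker (w : X →ₗ[ℂ] X)).FG) (k : ℕ) :
    (LinearMap.ker ((w ^ k : X →L[ℂ] X) : X →ₗ[ℂ] X)).FG := by
  induction k with
  | zero =>
    have : LinearMap.ker ((w ^ 0 : X →L[ℂ] X) : X →ₗ[ℂ] X) = ⊥ := by
      rw [eq_bot_iff]
      intro v hv
      have h1 : (w ^ 0 : X →L[ℂ] X) v = 0 := hv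
      rw [pow_zero] at h1
      exact h1
    rw [this]
    exact Submodule.fg_bot
  | succ k ih =>
    refine Submodule.fg_of_fg_map_of_fg_inf_ker (w : X →ₗ[ℂ] X) (Submodule.FG.of_le ih ?_)
      (Submodule.FG.of_le h inf_le_right)
    rintro _ ⟨v, hv, rfl⟩
    have h1 : (w ^ (k + 1) : X →L[ℂ] X) v = 0 := hv
    rw [pow_succ] at h1
    exact h1

/-- Proof. If `ker w` were finitely generated then so would be `ker (w ^ k)` for all `k` (induction;
`Submodule.fg_of_fg_map_of_fg_inf_ker` or a dimension count), and `ker (w ^ n) = ⊤`. So `K = ker w ⊓ ker f ⊓ ker θ` is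
not finitely generated (else `ker w` would be), so it is not contained in `Z`. -/
theorem exists_ker (hX : ¬ Module.Finite ℂ X) {w : X →L[ℂ] X} {n : ℕ} (hn : w ^ n = 0)
    (f θ : X →L[ℂ] ℂ) {Z : Submodule ℂ X} (hZ : Z.FG) :
    ∃ e : X, w e = 0 ∧ f e = 0 ∧ θ e = 0 ∧ e ∉ Z := by
  by_contra hcon
  push Not at hcon
  apply hX
  have h1 : (LinearMap.ker (w : X →ₗ[ℂ] X)).FG := by
    refine g5_inf f (g5_inf θ (Submodule.FG.of_le hZ ?_))
    rintro e ⟨⟨he1, he2⟩, he3⟩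
    exact hcon e he1 he2 he3
  have h2 := g5_ker h1 n
  have h3 : LinearMap.ker ((w ^ n : X →L[ℂ] X) : X →ₗ[ℂ] X) = ⊤ := by
    rw [eq_top_iff]
    intro v _
    show (w ^ n : X →L[ℂ] X) v = 0
    rw [hn]
    rfl
  rw [h3] at h2
  exact ⟨h2⟩

theorem g5_pow_zero {w : X →L[ℂ] X} {n : ℕ} {y : X} (hn : (w ^ n) y = 0) {k : ℕ} (hk : n ≤ k) :
    (w ^ k) y = 0 := by
  obtain ⟨j, rfl⟩ := Nat.exists_eq_add_of_le hk
  rw [add_comm, pow_add]
  show (w ^ j) ((w ^ n) y) = 0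
  rw [hn, map_zero]

/-- The orbit of a vector under a nilpotent operator spans a finite dimensional space. -/
theorem orbit_fg {w : X →L[ℂ] X} {n : ℕ} (hn : w ^ n = 0) (y : X) :
    ∃ M : Submodule ℂ X, M.FG ∧ ∀ k : ℕ, (w ^ k) y ∈ M := by
  refine ⟨Submodule.span ℂ (Set.range fun k : Fin n => (w ^ (k : ℕ)) y),
    Submodule.fg_span (Set.finite_range _), fun k => ?_⟩
  by_cases hk : k < n
  · exact Submodule.subset_span ⟨⟨k, hk⟩, rfl⟩
  · have h0 : (w ^ n) y = 0 := by rw [hn]; rfl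
    rw [g5_pow_zero h0 (not_lt.mp hk)]
    exact Submodule.zero_mem _

/-- Proof. Let `r` be minimal with: there is `y` with `(w ^ r) y = 0`, `f y ≠ 0` (`r` exists since `w ^ n = 0`, `f ≠ 0`).
For `k ≥ 1` the vector `(w ^ k) y` is killed by `w ^ (r - 1)` (`r ≥ 1`), so `f ((w ^ k) y) = 0` by minimality. Scale `y`. -/
theorem exists_y0 {f : X →L[ℂ] ℂ} (hf : f ≠ 0) {w : X →L[ℂ] X} {n : ℕ} (hn : w ^ n = 0) :
    ∃ y : X, f y = 1 ∧ ∀ k : ℕ, f ((w ^ (k + 1)) y) = 0 := by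
  classical
  obtain ⟨z, hz⟩ := exists_ap hf
  have hex : ∃ r : ℕ, ∃ y : X, (w ^ r) y = 0 ∧ f y ≠ 0 :=
    ⟨n, z, by rw [hn]; rfl, by rw [hz]; exact one_ne_zero⟩
  obtain ⟨y, hy, hfy⟩ := Nat.find_spec hex
  have hmin : ∀ r, r < Nat.find hex → ∀ y : X, (w ^ r) y = 0 → f y = 0 := by
    intro r hr y hy
    by_contra hne
    exact Nat.find_min hex hr ⟨y, hy, hne⟩
  generalize Nat.find hex = r at hy hmin
  cases r with
  | zero =>
    exfalso
    rw [pow_zero] at hy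
    have hy0 : y = 0 := hy
    rw [hy0, map_zero] at hfy
    exact hfy rfl
  | succ r =>
    refine ⟨(f y)⁻¹ • y, by rw [map_smul, smul_eq_mul, inv_mul_cancel₀ hfy], fun k => ?_⟩
    rw [map_smul, map_smul]
    have h1 : f ((w ^ (k + 1)) y) = 0 := by
      apply hmin r (Nat.lt_succ_self r)
      show (w ^ r * w ^ (k + 1)) y = 0
      rw [← pow_add]
      exact g5_pow_zero hy (by omega)
    rw [h1, smul_zero]

/-- eigenvectors of nilpotent operators: if `w v = c • v` and `v ≠ 0` then `c = 0` -/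
theorem nil_eigen {w : X →L[ℂ] X} {n : ℕ} (hn : w ^ n = 0) {v : X} (hv : v ≠ 0) {c : ℂ}
    (h : w v = c • v) : c = 0 := by
  have h1 : ∀ k : ℕ, (w ^ k) v = c ^ k • v := by
    intro k
    induction k with
    | zero => simp
    | succ k ih =>
      rw [pow_succ']
      show w ((w ^ k) v) = _
      rw [ih, map_smul, h, smul_smul, pow_succ]
  have h2 := h1 n
  rw [hn] at h2
  have h3 : c ^ n • v = 0 := h2.symm
  exact eq_zero_of_pow_eq_zero ((smul_eq_zero.mp h3).resolve_right hv)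

/-- Proof. Otherwise `x = ∑ c_k w^(k+1) x`; apply the largest power of `w` not killing `x`, or use that `1 - (nilpotent
polynomial in w)` is injective. With `N` minimal such that `(w ^ (N + 1)) x = 0`, `(w ^ N) x ≠ 0`, the vectors
`x, w x, ..., w^N x` are independent (`li_pow`; quasinilpotent by `qn_of_pow`) and `exists_dual` gives `k`. -/
theorem exists_k1 [CompleteSpace X] {w : X →L[ℂ] X} {n : ℕ} (hn : w ^ n = 0) {x : X}
    (hx : x ≠ 0) : ∃ k : X →L[ℂ] ℂ, k x = 1 ∧ ∀ j : ℕ, k ((w ^ (j + 1)) x) = 0 := by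
  classical
  have hex : ∃ N : ℕ, (w ^ (N + 1)) x = 0 := ⟨n, g5_pow_zero (n := n) (by rw [hn]; rfl) (by omega)⟩
  have hN := Nat.find_spec hex
  have hmin : (w ^ (Nat.find hex)) x ≠ 0 := by
    intro h0
    rcases Nat.eq_zero_or_pos (Nat.find hex) with h1 | h1
    · rw [h1, pow_zero] at h0
      exact hx h0
    · refine Nat.find_min hex (m := Nat.find hex - 1) (by omega) ?_
      rw [Nat.sub_add_cancel h1]
      exact h0
  generalize Nat.find hex = N at hN hmin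
  obtain ⟨k, hk⟩ := exists_dual (li_pow (qn_of_pow hn) hmin)
    (fun i : Fin (N + 1) => if (i : ℕ) = 0 then (1 : ℂ) else 0)
  refine ⟨k, ?_, fun j => ?_⟩
  · have := hk ⟨0, Nat.succ_pos N⟩
    simpa using this
  · by_cases hj : j + 1 < N + 1
    · have := hk ⟨j + 1, hj⟩
      simpa using this
    · rw [g5_pow_zero hN (not_lt.mp hj), map_zero]

/-- two functionals in one: separate two vectors from a finite dimensional space

Proof. `exists_sep_sub` for `a` and `M ⊔ span {b}` and for `b` and `M ⊔ span {a}`, take the sum. -/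
theorem exists_sep_two {M : Submodule ℂ X} (hM : M.FG) {a b : X}
    (ha : a ∉ M ⊔ Submodule.span ℂ {b}) (hb : b ∉ M ⊔ Submodule.span ℂ {a}) :
    ∃ k : X →L[ℂ] ℂ, (∀ m ∈ M, k m = 0) ∧ k a = 1 ∧ k b = 1 := by
  obtain ⟨k1, h1, h1a⟩ := exists_sep_sub (hM.sup (Submodule.fg_span_singleton b)) ha
  obtain ⟨k2, h2, h2b⟩ := exists_sep_sub (hM.sup (Submodule.fg_span_singleton a)) hb
  have h1b : k1 b = 0 := h1 b (Submodule.mem_sup_right (Submodule.mem_span_singleton_self b))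
  have h2a : k2 a = 0 := h2 a (Submodule.mem_sup_right (Submodule.mem_span_singleton_self a))
  refine ⟨k1 + k2, fun m hm => ?_, ?_, ?_⟩
  · show k1 m + k2 m = 0
    rw [h1 m (Submodule.mem_sup_left hm), h2 m (Submodule.mem_sup_left hm), add_zero]
  · show k1 a + k2 a = 1
    rw [h1a, h2a, add_zero]
  · show k1 b + k2 b = 1
    rw [h1b, h2b, zero_add]

/-- Proof. Take `k1` with `k1 a = 1`, `k1 = 0` on `M`, and `k2` with `k2 b = 1`, `k2 = 0` on `M` (`exists_sep_sub`). One of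
`k1`, `k2`, `k1 + k2` works. -/
theorem exists_sep_ne {M : Submodule ℂ X} (hM : M.FG) {a b : X} (ha : a ∉ M) (hb : b ∉ M) :
    ∃ k : X →L[ℂ] ℂ, (∀ m ∈ M, k m = 0) ∧ k a ≠ 0 ∧ k b ≠ 0 := by
  obtain ⟨k1, h1, h1a⟩ := exists_sep_sub hM ha
  obtain ⟨k2, h2, h2b⟩ := exists_sep_sub hM hb
  by_cases h1b : k1 b = 0
  · by_cases h2a : k2 a = 0
    · refine ⟨k1 + k2, fun m hm => ?_, ?_, ?_⟩
      · show k1 m + k2 m = 0
        rw [h1 m hm, h2 m hm, add_zero]
      · show k1 a + k2 a ≠ 0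
        rw [h1a, h2a, add_zero]; exact one_ne_zero
      · show k1 b + k2 b ≠ 0
        rw [h1b, h2b, zero_add]; exact one_ne_zero
    · exact ⟨k2, h2, h2a, by rw [h2b]; exact one_ne_zero⟩
  · exact ⟨k1, h1, by rw [h1a]; exact one_ne_zero, h1b⟩

end Pool.Agent.H.MP_bb4c62_an.helper86.PG
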